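import Pool.Agent.H.MP_08eaf3_pr.Z.OkP

/-!
# Part Z: Gaussian mass of tents
-/

set_option autoImplicit false
set_option linter.unusedSectionVars false

open MeasureTheory ProbabilityTheory Filter Topology Matrix

namespace SKC.Z

/-- the tent function with centre `z0` and radius `r` -/
noncomputable def tent {K : Type} [Fintype K] (r : ℝ) (z0 y : K → ℝ) : ℝ :=
  max 0 (1 - n1 (y - z0) / r)

theorem tent_nonneg {K : Type} [Fintype K] (r : ℝ) (z0 y : K → ℝ) : 0 ≤ tent r z0 y :=
  le_max_left _ _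

theorem BL1_n1_nonneg {K : Type} [Fintype K] (z : K → ℝ) : 0 ≤ n1 z :=
  Finset.sum_nonneg fun _ _ => abs_nonneg _

theorem BL1_n1_cont {K : Type} [Fintype K] : Continuous (n1 : (K → ℝ) → ℝ) := by
  unfold n1
  fun_prop

theorem BL1_norm_le_n1 {K : Type} [Fintype K] (z : K → ℝ) : ‖z‖ ≤ n1 z := by
  unfold n1
  refine (pi_norm_le_iff_of_nonneg (Finset.sum_nonneg fun _ _ => abs_nonneg _)).2 fun i => ?_
  rw [Real.norm_eq_abs]
  exact Finset.single_le_sum (f := fun i => |z i|) (fun _ _ => abs_nonneg _) (Finset.mem_univ i)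

theorem tent_le_one {K : Type} [Fintype K] (r : ℝ) (hr : 0 < r) (z0 y : K → ℝ) :
    tent r z0 y ≤ 1 :=
  max_le zero_le_one (sub_le_self _ (div_nonneg (BL1_n1_nonneg _) hr.le))

theorem BL1_tent_cont2 {K : Type} [Fintype K] (r : ℝ) :
    Continuous (fun p : (K → ℝ) × (K → ℝ) => tent r p.1 p.2) := by
  unfold tent
  refine continuous_const.max (continuous_const.sub (Continuous.div_const ?_ r))
  exact BL1_n1_cont.comp (continuous_snd.sub continuous_fst)

theorem tent_continuous {K : Type} [Fintype K] (r : ℝ) (z0 : K → ℝ) : Continuous (tent r z0) :=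
  (BL1_tent_cont2 r).comp (Continuous.prodMk continuous_const continuous_id)

theorem BL1_tent_self {K : Type} [Fintype K] (r : ℝ) (z0 : K → ℝ) : tent r z0 z0 = 1 := by
  unfold tent n1
  simp

instance BL1_open_pos : (gaussianReal 0 1).IsOpenPosMeasure :=
  (gaussianReal_absolutelyContinuous' 0 one_ne_zero).isOpenPosMeasure

theorem BL1_gam_open_pos (K : Type) [Fintype K] : (gam K).IsOpenPosMeasure := by
  unfold gam
  infer_instance

/-- the integral depends continuously on the centre -/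
theorem BL1_cont (r : ℝ) (hr : 0 < r) (B : Matrix (Fin 2) (Fin 2) ℝ) :
    Continuous (fun z0 : Fin 2 → ℝ => ∫ x, tent r z0 (B.mulVec x) ∂(gam (Fin 2))) := by
  have hB : Continuous (fun x : Fin 2 → ℝ => B.mulVec x) :=
    continuous_const.matrix_mulVec continuous_id
  refine continuous_of_dominated (bound := fun _ => (1 : ℝ)) (fun z0 => ?_) (fun z0 => ?_) ?_ ?_
  · exact ((tent_continuous r z0).comp hB).aestronglyMeasurable
  · refine Eventually.of_forall fun x => ?_
    rw [Real.norm_eq_abs, abs_of_nonneg (tent_nonneg _ _ _)]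
    exact tent_le_one r hr _ _
  · exact integrable_const _
  · refine Eventually.of_forall fun x => ?_
    exact (BL1_tent_cont2 r).comp (Continuous.prodMk continuous_id continuous_const)

theorem BL1_int (r : ℝ) (hr : 0 < r) (B : Matrix (Fin 2) (Fin 2) ℝ) (z0 : Fin 2 → ℝ) :
    Integrable (fun x => tent r z0 (B.mulVec x)) (gam (Fin 2)) := by
  have hB : Continuous (fun x : Fin 2 → ℝ => B.mulVec x) :=
    continuous_const.matrix_mulVec continuous_id
  refine (integrable_const (1 : ℝ)).mono ((tent_continuous r z0).comp hB).aestronglyMeasurable ?_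
  refine Eventually.of_forall fun x => ?_
  simp only [Real.norm_eq_abs]
  rw [abs_of_nonneg (tent_nonneg _ _ _), abs_one]
  exact tent_le_one r hr _ _

/-- the integral is positive -/
theorem BL1_pos (r : ℝ) (hr : 0 < r) (B : Matrix (Fin 2) (Fin 2) ℝ) (hB : B.det ≠ 0)
    (z0 : Fin 2 → ℝ) : 0 < ∫ x, tent r z0 (B.mulVec x) ∂(gam (Fin 2)) := by
  have := BL1_gam_open_pos (Fin 2)
  have hc : Continuous (fun x : Fin 2 → ℝ => B.mulVec x) :=
    continuous_const.matrix_mulVec continuous_id
  have hcont : Continuous (fun x : Fin 2 → ℝ => tent r z0 (B.mulVec x)) :=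
    (tent_continuous r z0).comp hc
  refine (integral_pos_iff_support_of_nonneg (fun x => tent_nonneg _ _ _) (BL1_int r hr B z0)).2 ?_
  refine (hcont.isOpen_support).measure_pos _ ⟨B⁻¹.mulVec z0, ?_⟩
  rw [Function.mem_support]
  have h1 : B.mulVec (B⁻¹.mulVec z0) = z0 := by
    rw [Matrix.mulVec_mulVec, Matrix.mul_nonsing_inv _ (isUnit_iff_ne_zero.2 hB), Matrix.one_mulVec]
  rw [h1, BL1_tent_self]
  exact one_ne_zero

theorem BL1_det (b1 b2 : ℝ) (hb1 : 0 < b1) (hb2 : 0 < b2) (E : Matrix (Fin 2) (Fin 2) ℝ)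
    (hdet : E.det ≠ 0) : (Bm (be b1 b2) E).det ≠ 0 := by
  have h1 : (Bm (be b1 b2) E).det = (Real.sqrt 2 * b1) * (Real.sqrt 2 * b2) * E.det := by
    rw [Matrix.det_fin_two, Matrix.det_fin_two]
    simp only [Bm, be, Matrix.cons_val_zero, Matrix.cons_val_one]
    ring
  rw [h1]
  have h2 : 0 < Real.sqrt 2 := Real.sqrt_pos.2 two_pos
  exact mul_ne_zero (by positivity) hdet

/-- Gaussian mass of tents, uniformly over bounded centres.

Proof. `B = Bm (be b1 b2) E` is invertible (`det = 2 b1 b2 det E`). For fixed `z0` the integral is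
positive: the integrand is continuous, nonnegative and positive at `x = B⁻¹ z0`, and `gam` gives
positive mass to nonempty open sets. The integral is continuous in `z0` (dominated convergence), so
it has a positive minimum over the compact set `n1 z0 ≤ R`. -/
theorem gauss_tent (b1 b2 : ℝ) (hb1 : 0 < b1) (hb2 : 0 < b2) (E : Matrix (Fin 2) (Fin 2) ℝ)
    (hdet : E.det ≠ 0) (R r : ℝ) (hr : 0 < r) :
    ∃ a : ℝ, 0 < a ∧ ∀ z0 : Fin 2 → ℝ, n1 z0 ≤ R →
      a ≤ ∫ x, tent r z0 ((Bm (be b1 b2) E).mulVec x) ∂(gam (Fin 2)) := by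
  have hB := BL1_det b1 b2 hb1 hb2 E hdet
  have hK : IsCompact {z0 : Fin 2 → ℝ | n1 z0 ≤ R} := by
    refine Metric.isCompact_of_isClosed_isBounded (isClosed_le BL1_n1_cont continuous_const) ?_
    refine (Metric.isBounded_closedBall (x := (0 : Fin 2 → ℝ)) (r := R)).subset fun z hz => ?_
    rw [mem_closedBall_zero_iff]
    exact (BL1_norm_le_n1 z).trans hz
  rcases Set.eq_empty_or_nonempty {z0 : Fin 2 → ℝ | n1 z0 ≤ R} with h | h
  · refine ⟨1, one_pos, fun z0 hz => ?_⟩
    have : z0 ∈ {z0 : Fin 2 → ℝ | n1 z0 ≤ R} := hz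
    rw [h] at this
    exact this.elim
  · obtain ⟨zm, _, hzm⟩ := hK.exists_isMinOn h (BL1_cont r hr (Bm (be b1 b2) E)).continuousOn
    exact ⟨_, BL1_pos r hr _ hB zm, fun z0 hz => hzm hz⟩

end SKC.Z
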