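import Pool.Agent.H.MP_08eaf3_pr.Z.BL1

/-!
# Part Z: balls have positive chain probability
-/

set_option autoImplicit false
set_option linter.unusedSectionVars false

open MeasureTheory ProbabilityTheory Filter Topology Matrix

namespace SKC.Z

/-- Proof. Take a factor `E` of `Q` (`exists_factor`), `(det E)² = det Q > 0`; `gauss_tent` and
`ChE_ge_gauss` with the constant `a`; the result is `c = a exp(-(C/a))`. -/
theorem ball_lb (b1 b2 : ℝ) (hb1 : 0 < b1) (hb2 : 0 < b2) (Q : Matrix (Fin 2) (Fin 2) ℝ)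
    (hQ : Q.PosSemidef) (hdet : 0 < Q 0 0 * Q 1 1 - Q 0 1 ^ 2) (R r : ℝ) (hr : 0 < r) :
    ∃ c : ℝ, 0 < c ∧ ∀ l1 l2 : List (Step (Fin 2)), Ok (l1 ++ l2) → Qtot l1 = Q →
      ∀ z0 : Fin 2 → ℝ, n1 z0 ≤ R →
        c ≤ ChE (be b1 b2) l1 (PsiL (be b1 b2) l2 F0) (tent r z0) 0 := by
  obtain ⟨E, hE⟩ := exists_factor Q hQ
  have hsym : Q 1 0 = Q 0 1 := by
    have h := hQ.isHermitian.apply 0 1
    simpa using h
  have hd : E.det ≠ 0 := by
    intro h0
    have h1 : (E * Eᵀ).det = 0 := by rw [Matrix.det_mul, h0, zero_mul]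
    rw [hE, Matrix.det_fin_two, hsym] at h1
    nlinarith
  obtain ⟨a, ha, h⟩ := gauss_tent b1 b2 hb1 hb2 E hd R r hr
  obtain ⟨C, -, hC⟩ := ChE_ge_gauss (K := Fin 2) (be b1 b2)
  exact ⟨a * Real.exp (-(C / a)), by positivity, fun l1 l2 hok hQt z0 hz0 =>
    hC l1 l2 hok E (by rw [hE, hQt]) (tent r z0) (tent_continuous r z0) (tent_nonneg r z0)
      (tent_le_one r hr z0) a ha (h z0 hz0)⟩

end SKC.Z
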