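import Pool.Agent.H.MP_08eaf3_pr.Z.OkP

/-!
# Part Z: two points with equal magnetisation
-/

set_option autoImplicit false
set_option linter.unusedSectionVars false

open MeasureTheory ProbabilityTheory Filter Topology Matrix

namespace SKC.Z

/-- the point with coordinate `c` equal to `x` and the other coordinate equal to `y` -/
def tpPt (c : Fin 2) (x y : ℝ) : Fin 2 → ℝ := fun i => if i = c then x else y

theorem tpPt_self (c : Fin 2) (x y : ℝ) : tpPt c x y c = x := by simp [tpPt]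

theorem tpPt_n1 (c : Fin 2) (x y : ℝ) : n1 (tpPt c x y) = |x| + |y| := by
  unfold n1 tpPt
  rw [Fin.sum_univ_two]
  fin_cases c
  · simp
  · simp [add_comm]

theorem tpPt_neg (c : Fin 2) (x y : ℝ) : tpPt c (-x) (-y) = -tpPt c x y := by
  funext i
  unfold tpPt
  rw [Pi.neg_apply]
  split_ifs <;> rfl

theorem tpPt_line (c : Fin 2) (x x0 y : ℝ) :
    tpPt c x y = tpPt c x0 y + (x - x0) • (Pi.single c 1 : Fin 2 → ℝ) := by
  funext i
  unfold tpPt
  rw [Pi.add_apply, Pi.smul_apply, smul_eq_mul]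
  by_cases h : i = c
  · subst h
    rw [Pi.single_eq_same]
    simp
  · rw [Pi.single_eq_of_ne h]
    simp [h]

theorem tpPt_sub (c : Fin 2) (x x' y : ℝ) : n1 (tpPt c x y - tpPt c x' y) = |x - x'| := by
  have h : tpPt c x y - tpPt c x' y = tpPt c (x - x') 0 := by
    funext i
    unfold tpPt
    rw [Pi.sub_apply]
    split_ifs
    · rfl
    · simp
  rw [h, tpPt_n1]
  simp

theorem tp_exp_small (ε R0 : ℝ) (hε : 0 < ε) : ∃ R : ℝ, R0 ≤ R ∧ Real.exp (-(2 * R)) ≤ ε := by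
  have h1 : Tendsto (fun R : ℝ => Real.exp (-(2 * R))) atTop (𝓝 0) := by
    have h2 : Tendsto (fun R : ℝ => 2 * R) atTop atTop := tendsto_id.const_mul_atTop (by norm_num)
    exact Real.tendsto_exp_neg_atTop_nhds_zero.comp h2
  have h3 := (h1.eventually (gt_mem_nhds hε)).and (eventually_ge_atTop R0)
  obtain ⟨R, h4, h5⟩ := h3.exists
  exact ⟨R, h5, h4.le⟩

theorem tp_deriv (b1 b2 : ℝ) (l : List (Step (Fin 2))) (c : Fin 2) (x y : ℝ) :
    HasDerivAt (fun x => PsiL (be b1 b2) l F0 (tpPt c x y)) (Mg (be b1 b2) l c (tpPt c x y)) x := by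
  have h1 := PsiL_deriv (be b1 b2) l c (tpPt c x y)
  have h2 : HasDerivAt (fun t : ℝ => t - x) 1 x := (hasDerivAt_id x).sub_const x
  have h0 : HasDerivAt (fun h : ℝ => PsiL (be b1 b2) l F0 (tpPt c x y + h • Pi.single c 1))
      (Mg (be b1 b2) l c (tpPt c x y)) (x - x) := by
    rw [sub_self]; exact h1
  have h3 := HasDerivAt.comp (h := fun t : ℝ => t - x) x h0 h2
  rw [mul_one] at h3
  have e : (fun x => PsiL (be b1 b2) l F0 (tpPt c x y)) =
      (fun h : ℝ => PsiL (be b1 b2) l F0 (tpPt c x y + h • Pi.single c 1)) ∘ (fun t : ℝ => t - x) := by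
    funext t
    simp only [Function.comp]
    rw [← tpPt_line]
  rw [e]
  exact h3

theorem tp_cont (b1 b2 : ℝ) (l : List (Step (Fin 2))) (hl : Ok l) (c : Fin 2) (y : ℝ) :
    Continuous (fun x => Mg (be b1 b2) l c (tpPt c x y)) := by
  have h : LipschitzWith 1 (fun x => Mg (be b1 b2) l c (tpPt c x y)) := by
    apply LipschitzWith.of_dist_le_mul
    intro x x'
    rw [Real.dist_eq, Real.dist_eq, NNReal.coe_one, one_mul]
    refine (Mg_lip (be b1 b2) l hl c _ _).trans (le_of_eq ?_)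
    exact tpPt_sub c x x' y
  exact h.continuous

/-- Two points on the lines `z_d = R` and `z_d = -R` with the same magnetisation `M_c` but
different coordinate `c`.

Proof. Write `z = (x, y)` for `z c = x`, `z d = y` (`Function.update`). Let `C` be the constant of
`corner` and choose `R ≥ 1` with `log(1 + C (2 e^{-2R} + e^{-4R})) ≤ b1 b2 g`. By `corner`,
`Ψ(R,R) - Ψ(R,-R) ≥ (a - a') - log(...) ≥ 4 b1 b2 g - b1 b2 g ≥ 2 b1 b2 g` (for `c = 1` use in
addition `PsiL_even`: `Ψ(-R, R) = Ψ(R,-R)`). The function `φ(x) = Ψ(x,R) - Ψ(x,-R)` has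
`φ(0) = 0` (`PsiL_even`), derivative `M_c(x,R) - M_c(x,-R)` (`PsiL_deriv`), `φ(R) ≥ 2 b1 b2 g`: by the mean
value theorem there is `x ∈ (0,R)` with `M_c(x,R) - M_c(x,-R) ≥ 2 b1 b2 g / R`. Let `C2` be the
constant of `Mg_tails`, `R2 ≥ R` with `C2 e^{-2 R2} ≤ C2⁻¹/(1 + e^{2R})`. Then
`M_c(R2,-R) ≥ 1 - C2 e^{-2R2} ≥ 1 - C2⁻¹/(1+e^{2R}) ≥ M_c(x,R)`, and `M_c(·,-R)` is continuous
(`Mg_lip`): there is `x' ∈ [x, R2]` with `M_c(x',-R) = M_c(x,R)`. By `Mg_lip`
`x' - x ≥ M_c(x',-R) - M_c(x,-R) ≥ 2 b1 b2 g / R`. All constants depend only on `b1, b2, g`. -/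
theorem two_points (b1 b2 g : ℝ) (hb1 : 0 < b1) (hb2 : 0 < b2) (hg : 0 < g) :
    ∃ R η : ℝ, 0 < η ∧ ∀ l : List (Step (Fin 2)), Ok l → g ≤ Gl l → ∀ c : Fin 2,
      ∃ z z' : Fin 2 → ℝ, n1 z ≤ R ∧ n1 z' ≤ R ∧
        Mg (be b1 b2) l c z = Mg (be b1 b2) l c z' ∧ η < |z c - z' c| := by
  obtain ⟨C, hC, hcorner⟩ := corner b1 b2
  obtain ⟨C2, hC2, htails⟩ := Mg_tails (be b1 b2)
  have hbb : 0 < b1 * b2 * g := by positivity
  obtain ⟨R, hR1, hR⟩ := tp_exp_small (b1 * b2 * g / (3 * C + 1)) 1 (by positivity)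
  have hR0 : 0 < R := by linarith
  have hC20 : 0 < C2 := by linarith
  obtain ⟨R2, hR2, hR2e⟩ := tp_exp_small (C2⁻¹ / (1 + Real.exp (2 * R)) / C2) R
    (by have := Real.exp_pos (2 * R); positivity)
  set κ : ℝ := 2 * (b1 * b2 * g) / R with hκ
  have hκ0 : 0 < κ := by positivity
  refine ⟨R2 + R, κ / 2, by positivity, ?_⟩
  intro l hl hgl c
  obtain ⟨a, a', haa, hc1, hc2⟩ := hcorner l hl
  set Ψ : (Fin 2 → ℝ) → ℝ := PsiL (be b1 b2) l F0 with hΨ
  set M : (Fin 2 → ℝ) → ℝ := Mg (be b1 b2) l c with hM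
  -- the logarithmic error
  have hlog : Real.log (1 + C * (Real.exp (-(2 * R)) + Real.exp (-(2 * R)) +
      Real.exp (-(2 * R) + -(2 * R)))) ≤ b1 * b2 * g := by
    have e0 := Real.exp_pos (-(2 * R))
    have e1 : Real.exp (-(2 * R) + -(2 * R)) ≤ Real.exp (-(2 * R)) := by
      apply Real.exp_le_exp.2; linarith
    have e2 := Real.exp_pos (-(2 * R) + -(2 * R))
    have h0 : 0 ≤ C * (Real.exp (-(2 * R)) + Real.exp (-(2 * R)) + Real.exp (-(2 * R) + -(2 * R))) := by
      positivity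
    have h1 := Real.log_le_sub_one_of_pos (show 0 < 1 + C * (Real.exp (-(2 * R)) + Real.exp (-(2 * R)) +
      Real.exp (-(2 * R) + -(2 * R))) by linarith)
    have h2 : C * (Real.exp (-(2 * R)) + Real.exp (-(2 * R)) + Real.exp (-(2 * R) + -(2 * R))) ≤
        (3 * C + 1) * Real.exp (-(2 * R)) := by nlinarith
    have h3 : (3 * C + 1) * Real.exp (-(2 * R)) ≤ b1 * b2 * g := by
      rw [le_div_iff₀ (by positivity)] at hR
      linarith
    linarith
  -- values at the corners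
  have hz1 : R + R + a ≤ Ψ ![R, R] := by
    have := (hc1 ![R, R]).1
    simp only [Matrix.cons_val_zero, Matrix.cons_val_one] at this
    linarith
  have hz2 : Ψ ![R, -R] ≤ R + R + a' + b1 * b2 * g := by
    have := (hc2 ![R, -R]).2
    simp only [Matrix.cons_val_zero, Matrix.cons_val_one] at this
    have e3 : (2 : ℝ) * -R = -(2 * R) := by ring
    rw [e3] at this
    linarith
  have hgl2 : 4 * (b1 * b2 * g) ≤ a - a' := by
    rw [haa]
    have : b1 * b2 * g ≤ b1 * b2 * Gl l := mul_le_mul_of_nonneg_left hgl (by positivity)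
    linarith
  have hdiff : 2 * (b1 * b2 * g) ≤ Ψ (tpPt c R R) - Ψ (tpPt c R (-R)) := by
    have p1 : tpPt c R R = ![R, R] := by
      funext i
      unfold tpPt
      fin_cases i <;> simp
    have p2 : Ψ (tpPt c R (-R)) = Ψ ![R, -R] := by
      have hc : c = 0 ∨ c = 1 := by fin_cases c <;> simp
      rcases hc with rfl | rfl
      · congr 1
        funext i
        unfold tpPt
        fin_cases i <;> simp
      · have : tpPt 1 R (-R) = -![R, -R] := by
          funext i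
          unfold tpPt
          fin_cases i <;> simp
        rw [this, hΨ, PsiL_even]
    rw [p1, p2]
    linarith
  -- mean value theorem
  have hφ0 : Ψ (tpPt c 0 R) - Ψ (tpPt c 0 (-R)) = 0 := by
    have : tpPt c 0 (-R) = -tpPt c 0 R := by
      rw [← tpPt_neg, neg_zero]
    rw [this, hΨ, PsiL_even, sub_self]
  have hder : ∀ x, HasDerivAt (fun x => Ψ (tpPt c x R) - Ψ (tpPt c x (-R)))
      (M (tpPt c x R) - M (tpPt c x (-R))) x := fun x =>
    (tp_deriv b1 b2 l c x R).sub (tp_deriv b1 b2 l c x (-R))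
  obtain ⟨x, hx, hxe⟩ := exists_hasDerivAt_eq_slope (fun x => Ψ (tpPt c x R) - Ψ (tpPt c x (-R)))
    (fun x => M (tpPt c x R) - M (tpPt c x (-R))) hR0
    (fun x _ => (hder x).continuousAt.continuousWithinAt) (fun x _ => hder x)
  have hxκ : κ ≤ M (tpPt c x R) - M (tpPt c x (-R)) := by
    rw [hxe, hφ0, hκ, sub_zero, sub_zero]
    exact div_le_div_of_nonneg_right hdiff hR0.le
  -- intermediate value theorem
  have hxR2 : x ≤ R2 := hx.2.le.trans hR2
  have hM2 : M (tpPt c x R) ≤ M (tpPt c R2 (-R)) := by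
    have t1 := (htails l hl c (tpPt c x R)).2
    have t2 := (htails l hl c (tpPt c R2 (-R))).1
    rw [tpPt_self] at t1 t2
    have t3 : C2⁻¹ / (1 + Real.exp (2 * R)) ≤ C2⁻¹ / (1 + Real.exp (2 * x)) := by
      apply div_le_div_of_nonneg_left (by positivity) (by positivity)
      have : Real.exp (2 * x) ≤ Real.exp (2 * R) := Real.exp_le_exp.2 (by linarith [hx.2])
      linarith
    have t4 : C2 * Real.exp (-(2 * R2)) ≤ C2⁻¹ / (1 + Real.exp (2 * R)) := by
      rw [le_div_iff₀ hC20] at hR2e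
      linarith
    linarith
  have hM1 : M (tpPt c x (-R)) ≤ M (tpPt c x R) := by linarith
  obtain ⟨x', hx', hxe'⟩ := intermediate_value_Icc hxR2
    (tp_cont b1 b2 l hl c (-R)).continuousOn ⟨hM1, hM2⟩
  have hxe2 : M (tpPt c x' (-R)) = M (tpPt c x R) := hxe'
  refine ⟨tpPt c x R, tpPt c x' (-R), ?_, ?_, hxe2.symm, ?_⟩
  · rw [tpPt_n1, abs_of_pos hx.1, abs_of_pos hR0]
    linarith
  · rw [tpPt_n1, abs_neg, abs_of_pos hR0, abs_of_nonneg (hx.1.le.trans hx'.1)]
    linarith [hx'.2]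
  · rw [tpPt_self, tpPt_self]
    have h1 := Mg_lip (be b1 b2) l hl c (tpPt c x' (-R)) (tpPt c x (-R))
    rw [tpPt_sub] at h1
    have h2 : κ ≤ |M (tpPt c x' (-R)) - M (tpPt c x (-R))| := by
      rw [hxe2]
      exact hxκ.trans (le_abs_self _)
    have h3 : κ ≤ |x' - x| := h2.trans h1
    rw [abs_sub_comm]
    linarith

end SKC.Z
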