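import Pool.Agent.H.MP_08eaf3_pr.Z.Co3
import Pool.Agent.H.MP_08eaf3_pr.Z.TP

/-!
# Part Z: contradiction lemma core2
-/

set_option autoImplicit false
set_option linter.unusedSectionVars false

open MeasureTheory ProbabilityTheory Filter Topology Matrix

namespace SKC.Z

/-- Core2: contradiction from near-optimal paths with `Gl ≥ g > 0` above a nondegenerate level. -/
theorem core2 {b1 b2 u : ℝ} (S : Setting b1 b2 u) (Q Q' : Matrix (Fin 2) (Fin 2) ℝ)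
    (hT : TreeFull b1 b2 u Q Q') (hQ : Q.PosSemidef) (hdet : 0 < Q 0 0 * Q 1 1 - Q 0 1 ^ 2)
    (c : Fin 2) (hA : Q c c < Q' c c) (g : ℝ) (hg : 0 < g)
    (hpath : ∀ δ : ℝ, 0 < δ → ∃ (l1 l2 : List (Step (Fin 2))) (E : Matrix (Fin 2) (Fin 2) ℝ),
      (E * Eᵀ) 0 1 = 0 ∧ PairPath b1 b2 u Q Q' δ l1 l2 [((1 : ℝ), E)] ∧
        g ≤ Gl (l2 ++ [((1 : ℝ), E)])) : False := by
  obtain ⟨R, η, hη, h⟩ := two_points b1 b2 g S.hb1 S.hb2 hg
  obtain ⟨δ0, hδ0, hc⟩ := core S Q Q' hT hQ hdet c hA R η hη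
  obtain ⟨l1, l2, E, hE, hp, hgl⟩ := hpath δ0 hδ0
  obtain ⟨z, z', hz, hz', hM, hne⟩ := h (l2 ++ [((1 : ℝ), E)]) hp.ok.right hgl c
  have := hc δ0 hδ0.le le_rfl l1 l2 E hE hp z z' hz hz' hM
  linarith

end SKC.Z
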