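import Pool.Agent.H.MP_08eaf3_pr.Z.OkP

/-!
# Part Z: ramps and smoothed tails
-/

set_option autoImplicit false
set_option linter.unusedSectionVars false

open MeasureTheory ProbabilityTheory Filter Topology Matrix

namespace SKC.Z

/-- ramp: `0` for `v ≤ s`, `1` for `v ≥ s + 1` -/
noncomputable def rp (s v : ℝ) : ℝ := max 0 (min 1 (v - s))

theorem rp_continuous (s : ℝ) : Continuous (rp s) := by
  unfold rp
  fun_prop

theorem rp_nonneg (s v : ℝ) : 0 ≤ rp s v := le_max_left _ _

theorem rp_le_one (s v : ℝ) : rp s v ≤ 1 := max_le zero_le_one (min_le_left _ _)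

theorem rp_anti (s s' v : ℝ) (h : s ≤ s') : rp s' v ≤ rp s v := by
  unfold rp
  exact max_le_max le_rfl (min_le_min le_rfl (by linarith))

theorem rp_add (s v a : ℝ) : rp s (v + a) = rp (s - a) v := by
  unfold rp
  congr 2
  ring

theorem rp_zero (s v : ℝ) (h : v ≤ s) : rp s v = 0 := by
  unfold rp
  exact max_eq_left ((min_le_right _ _).trans (by linarith))

theorem rp_one (s v : ℝ) (h : s + 1 ≤ v) : rp s v = 1 := by
  unfold rp
  rw [min_eq_left (by linarith)]
  norm_num

/-- smoothed tail probability of coordinate `c` at the level after `l2`, started at `z` -/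
noncomputable def TT (b1 b2 : ℝ) (l2 l3 : List (Step (Fin 2))) (c : Fin 2) (s : ℝ)
    (z : Fin 2 → ℝ) : ℝ :=
  ChE (be b1 b2) l2 (PsiL (be b1 b2) l3 F0) (fun y => rp s (y c)) z

end SKC.Z
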