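import Pool.Agent.H.MP_08eaf3_pr.Z.CT0

/-!
# Part Z: changing the starting point
-/

set_option autoImplicit false
set_option linter.unusedSectionVars false

open MeasureTheory ProbabilityTheory Filter Topology Matrix

namespace SKC.Z

theorem CT1_n1_nonneg {K : Type} [Fintype K] (z : K → ℝ) : 0 ≤ n1 z :=
  Finset.sum_nonneg fun _ _ => abs_nonneg _

theorem CT1_EG_rp (c : Fin 2) (s : ℝ) : EG (fun y : Fin 2 → ℝ => rp s (y c)) := by
  refine ⟨(rp_continuous s).comp (continuous_apply c), 1, fun z => ?_⟩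
  rw [abs_of_nonneg (rp_nonneg _ _), one_mul, one_mul]
  exact (rp_le_one _ _).trans (Real.one_le_exp (CT1_n1_nonneg z))

theorem CT1_TT_nonneg (b1 b2 : ℝ) (l2 l3 : List (Step (Fin 2))) (c : Fin 2) (s : ℝ)
    (z : Fin 2 → ℝ) : 0 ≤ TT b1 b2 l2 l3 c s z := by
  have hF := LG_PsiL (be b1 b2) l3 F0 LG_F0
  have h1 := ChE_mono (be b1 b2) l2 (PsiL (be b1 b2) l3 F0) (fun _ => 0)
    (fun y => rp s (y c)) hF ⟨continuous_const, 0, fun z => by simp⟩ (CT1_EG_rp c s)
    (fun y => rp_nonneg _ _) z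
  rw [ChE_const _ _ _ hF] at h1
  exact h1

/-- (T1) Changing the starting point.

Proof. Put `d = z' - z`. `ChE_translate` with start `z' = z + d`, direction `-d` and the function
`y ↦ rp s ((y + d) c)` gives
`ChE (rp s ((y + d) c)) z ≤ exp(C n1 d) ChE (rp s (y c)) z'`, and
`rp s (y c + d c) = rp (s - d c) (y c) ≥ rp (s - η) (y c)` since `d c ≥ η`; `ChE_mono`. With
`n1 d ≤ 2R` the constant is `exp(2 C R)`. -/
theorem TT_start (b1 b2 : ℝ) (R : ℝ) : ∃ C : ℝ, 0 ≤ C ∧
    ∀ l2 l3 : List (Step (Fin 2)), Ok (l2 ++ l3) → ∀ c : Fin 2, ∀ η s : ℝ, ∀ z z' : Fin 2 → ℝ,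
      n1 z ≤ R → n1 z' ≤ R → z c + η ≤ z' c →
      Real.exp (-C) * TT b1 b2 l2 l3 c (s - η) z ≤ TT b1 b2 l2 l3 c s z' := by
  obtain ⟨C0, hC0, h0⟩ := ChE_translate (be b1 b2)
  refine ⟨C0 * (2 * |R|), by positivity, fun l2 l3 hl c η s z z' hz hz' hη => ?_⟩
  have hF := LG_PsiL (be b1 b2) l3 F0 LG_F0
  have h1 := h0 l2 l3 hl (fun y => rp (s - η) (y c)) (CT1_EG_rp c _)
    (fun y => rp_nonneg _ _) z' (z - z')
  have e1 : z' + (z - z') = z := by abel
  rw [e1] at h1
  have h2 : ChE (be b1 b2) l2 (PsiL (be b1 b2) l3 F0)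
      (fun y => rp (s - η) ((y + (z - z')) c)) z' ≤ TT b1 b2 l2 l3 c s z' := by
    refine ChE_mono _ _ _ _ _ hF ?_ (CT1_EG_rp c s) (fun y => ?_) z'
    · refine ⟨(rp_continuous _).comp ((continuous_apply c).comp
        (continuous_id.add continuous_const)), 1, fun y => ?_⟩
      rw [abs_of_nonneg (rp_nonneg _ _), one_mul, one_mul]
      exact (rp_le_one _ _).trans (Real.one_le_exp (CT1_n1_nonneg y))
    · show rp (s - η) (y c + (z c - z' c)) ≤ rp s (y c)
      rw [rp_add]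
      exact rp_anti _ _ _ (by linarith)
  have h3 : C0 * n1 (z - z') ≤ C0 * (2 * |R|) := by
    refine mul_le_mul_of_nonneg_left ?_ hC0
    have h4 : n1 (z - z') ≤ n1 z + n1 z' := by
      unfold n1
      rw [← Finset.sum_add_distrib]
      exact Finset.sum_le_sum fun i _ => abs_sub (z i) (z' i)
    have h5 := le_abs_self R
    linarith
  have h6 : TT b1 b2 l2 l3 c (s - η) z ≤
      Real.exp (C0 * (2 * |R|)) * TT b1 b2 l2 l3 c s z' := by
    refine h1.trans ?_
    exact mul_le_mul (Real.exp_le_exp.2 h3) h2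
      (by
        have h7 := ChE_mono (be b1 b2) l2 (PsiL (be b1 b2) l3 F0) (fun _ => 0)
          (fun y => rp (s - η) ((y + (z - z')) c)) hF ⟨continuous_const, 0, fun z => by simp⟩
          ⟨(rp_continuous _).comp ((continuous_apply c).comp
            (continuous_id.add continuous_const)), 1, fun y => by
            rw [abs_of_nonneg (rp_nonneg _ _), one_mul, one_mul]
            exact (rp_le_one _ _).trans (Real.one_le_exp (CT1_n1_nonneg y))⟩
          (fun y => rp_nonneg _ _) z'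
        rw [ChE_const _ _ _ hF] at h7
        exact h7) (Real.exp_pos _).le
  have h8 := mul_le_mul_of_nonneg_left h6 (Real.exp_pos (-(C0 * (2 * |R|)))).le
  refine h8.trans (le_of_eq ?_)
  rw [← mul_assoc (Real.exp _) (Real.exp _), ← Real.exp_add, neg_add_cancel, Real.exp_zero,
    one_mul]

end SKC.Z
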