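import Pool.Agent.H.MP_08eaf3_pr.Z.CT1

/-!
# Part Z: Gaussian decay of tails
-/

set_option autoImplicit false
set_option linter.unusedSectionVars false

open MeasureTheory ProbabilityTheory Filter Topology Matrix

namespace SKC.Z

/-- (T2) Gaussian decay of the tail.

Proof. `ChE_shift` with `θ = (η/A) e_c`: the shift vector has `c`-component
`2 β_c² Qtot l2 c c (η/A) = η`, so (with `rp_add`)
`TT s z ≤ exp(C0 η/A) ChE (fun y => rp (s - η) (y c) exp(-(η/A)(y c - z c) - η²/(2A))) z`.
Where `rp (s - η) (y c) ≠ 0` we have `y c ≥ s - η` (`rp_zero`), and `z c ≤ R`, hence the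
exponential is at most `exp(-(η/A)(s - η - R))`; `ChE_mono`, `ChE_smul`. The constant is
`C = (η/A)(C0 + η + |R|)`. -/
theorem TT_decay (b1 b2 : ℝ) (A R η : ℝ) (hA : 0 < A) (hη : 0 < η) : ∃ C : ℝ, 0 ≤ C ∧
    ∀ l2 l3 : List (Step (Fin 2)), Ok (l2 ++ l3) → ∀ c : Fin 2,
      2 * be b1 b2 c ^ 2 * Qtot l2 c c = A → ∀ s : ℝ, ∀ z : Fin 2 → ℝ, n1 z ≤ R →
      TT b1 b2 l2 l3 c s z ≤ Real.exp (C - η * s / A) * TT b1 b2 l2 l3 c (s - η) z := by
  obtain ⟨C0, hC0, h0⟩ := ChE_shift (be b1 b2)
  refine ⟨η / A * (C0 + η + |R|), by positivity, fun l2 l3 hl c hc s z hz => ?_⟩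
  have hF := LG_PsiL (be b1 b2) l3 F0 LG_F0
  have ht : 0 < η / A := div_pos hη hA
  have h1 := h0 l2 l3 hl (fun y => rp s (y c)) (CT1_EG_rp c s) (fun y => rp_nonneg _ _) z
    (Pi.single c (η / A))
  have e1 : n1 (Pi.single c (η / A) : Fin 2 → ℝ) = η / A := by
    unfold n1
    rw [Finset.sum_eq_single c]
    · rw [Pi.single_eq_same, abs_of_pos ht]
    · intro d _ hd
      rw [Pi.single_eq_of_ne hd, abs_zero]
    · intro h
      exact absurd (Finset.mem_univ _) h
  have e2 : ∀ y : Fin 2 → ℝ, dot (Pi.single c (η / A)) (y - z) = η / A * (y c - z c) := by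
    intro y
    unfold dot
    rw [Finset.sum_eq_single c]
    · rw [Pi.single_eq_same, Pi.sub_apply]
    · intro d _ hd
      rw [Pi.single_eq_of_ne hd, zero_mul]
    · intro h
      exact absurd (Finset.mem_univ _) h
  have e3 : ∀ c' : Fin 2, ∑ d, 2 * be b1 b2 c' * be b1 b2 d * Qtot l2 c' d *
      (Pi.single c (η / A) : Fin 2 → ℝ) d =
      2 * be b1 b2 c' * be b1 b2 c * Qtot l2 c' c * (η / A) := by
    intro c'
    rw [Finset.sum_eq_single c]
    · rw [Pi.single_eq_same]
    · intro d _ hd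
      rw [Pi.single_eq_of_ne hd, mul_zero]
    · intro h
      exact absurd (Finset.mem_univ _) h
  have e4 : 2 * be b1 b2 c * be b1 b2 c * Qtot l2 c c * (η / A) = η := by
    have : 2 * be b1 b2 c * be b1 b2 c * Qtot l2 c c = A := by rw [← hc]; ring
    rw [this]
    field_simp
  have e5 : ∑ c', ∑ d, (Pi.single c (η / A) : Fin 2 → ℝ) c' *
      (2 * be b1 b2 c' * be b1 b2 d * Qtot l2 c' d) * (Pi.single c (η / A) : Fin 2 → ℝ) d =
      η / A * η := by
    have h2 : ∀ c', ∑ d, (Pi.single c (η / A) : Fin 2 → ℝ) c' *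
        (2 * be b1 b2 c' * be b1 b2 d * Qtot l2 c' d) * (Pi.single c (η / A) : Fin 2 → ℝ) d =
        (Pi.single c (η / A) : Fin 2 → ℝ) c' *
          (2 * be b1 b2 c' * be b1 b2 c * Qtot l2 c' c * (η / A)) := by
      intro c'
      rw [← e3 c', Finset.mul_sum]
      exact Finset.sum_congr rfl fun d _ => by ring
    simp only [h2]
    rw [Finset.sum_eq_single c]
    · rw [Pi.single_eq_same, e4]
    · intro d _ hd
      rw [Pi.single_eq_of_ne hd, zero_mul]
    · intro h
      exact absurd (Finset.mem_univ _) h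
  rw [e1, e5] at h1
  have e6 : (fun y : Fin 2 → ℝ => rp s ((y + fun c' => ∑ d, 2 * be b1 b2 c' * be b1 b2 d *
      Qtot l2 c' d * (Pi.single c (η / A) : Fin 2 → ℝ) d) c) *
      Real.exp (-(dot (Pi.single c (η / A)) (y - z)) - 1 / 2 * (η / A * η))) =
      fun y => rp (s - η) (y c) * Real.exp (-(η / A * (y c - z c)) - 1 / 2 * (η / A * η)) := by
    funext y
    have e7 : (y + fun c' => ∑ d, 2 * be b1 b2 c' * be b1 b2 d *
      Qtot l2 c' d * (Pi.single c (η / A) : Fin 2 → ℝ) d) c = y c + η := by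
      show y c + ∑ d, 2 * be b1 b2 c * be b1 b2 d *
        Qtot l2 c d * (Pi.single c (η / A) : Fin 2 → ℝ) d = y c + η
      rw [e3, e4]
    rw [e7, e2, rp_add]
  rw [e6] at h1
  have hzc : |z c| ≤ n1 z := by
    unfold n1
    exact Finset.single_le_sum (f := fun i => |z i|) (fun i _ => abs_nonneg _)
      (Finset.mem_univ c)
  have hyc : ∀ y : Fin 2 → ℝ, |y c| ≤ n1 y := fun y => by
    unfold n1
    exact Finset.single_le_sum (f := fun i => |y i|) (fun i _ => abs_nonneg _)
      (Finset.mem_univ c)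
  have h2 : ChE (be b1 b2) l2 (PsiL (be b1 b2) l3 F0)
      (fun y => rp (s - η) (y c) * Real.exp (-(η / A * (y c - z c)) - 1 / 2 * (η / A * η))) z ≤
      ChE (be b1 b2) l2 (PsiL (be b1 b2) l3 F0)
        (fun y => Real.exp (-(η / A * (s - η - |R|))) * rp (s - η) (y c)) z := by
    refine ChE_mono _ _ _ _ _ hF ?_ ?_ (fun y => ?_) z
    · refine ⟨?_, Real.exp (η / A * n1 z) + η / A, fun y => ?_⟩
      · exact ((rp_continuous _).comp (continuous_apply c)).mul
          (Real.continuous_exp.comp (by fun_prop))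
      · rw [abs_of_nonneg (mul_nonneg (rp_nonneg _ _) (Real.exp_pos _).le)]
        have k1 : rp (s - η) (y c) * Real.exp (-(η / A * (y c - z c)) - 1 / 2 * (η / A * η)) ≤
            1 * Real.exp (η / A * n1 z + η / A * n1 y) := by
          refine mul_le_mul (rp_le_one _ _) (Real.exp_le_exp.2 ?_) (Real.exp_pos _).le zero_le_one
          have k2 := mul_le_mul_of_nonneg_left ((neg_abs_le (y c)).trans le_rfl) ht.le
          have k3 := mul_le_mul_of_nonneg_left (hyc y) ht.le
          have k4 := mul_le_mul_of_nonneg_left ((le_abs_self (z c)).trans hzc) ht.le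
          have k5 : 0 ≤ η / A * η := by positivity
          nlinarith
        refine k1.trans ?_
        rw [one_mul, Real.exp_add]
        refine mul_le_mul (by linarith) (Real.exp_le_exp.2 ?_) (Real.exp_pos _).le
          (by positivity)
        refine mul_le_mul_of_nonneg_right ?_ (CT1_n1_nonneg y)
        have := Real.exp_pos (η / A * n1 z)
        linarith
    · refine ⟨continuous_const.mul ((rp_continuous _).comp (continuous_apply c)),
        Real.exp (-(η / A * (s - η - |R|))), fun y => ?_⟩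
      rw [abs_of_nonneg (mul_nonneg (Real.exp_pos _).le (rp_nonneg _ _))]
      refine mul_le_mul_of_nonneg_left ((rp_le_one _ _).trans (Real.one_le_exp ?_))
        (Real.exp_pos _).le
      exact mul_nonneg (Real.exp_pos _).le (CT1_n1_nonneg y)
    · rcases le_total (y c) (s - η) with h3 | h3
      · rw [rp_zero _ _ h3, zero_mul, mul_zero]
      · rw [mul_comm]
        refine mul_le_mul_of_nonneg_right (Real.exp_le_exp.2 ?_) (rp_nonneg _ _)
        have k2 := mul_le_mul_of_nonneg_left h3 ht.le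
        have k4 : η / A * z c ≤ η / A * |R| := mul_le_mul_of_nonneg_left
          (((le_abs_self (z c)).trans hzc).trans (hz.trans (le_abs_self R))) ht.le
        have k5 : 0 ≤ η / A * η := by positivity
        nlinarith
  rw [ChE_smul] at h2
  have h3 : TT b1 b2 l2 l3 c s z ≤ Real.exp (C0 * (η / A)) *
      (Real.exp (-(η / A * (s - η - |R|))) * TT b1 b2 l2 l3 c (s - η) z) :=
    h1.trans (mul_le_mul_of_nonneg_left h2 (Real.exp_pos _).le)
  refine h3.trans (le_of_eq ?_)
  rw [← mul_assoc, ← Real.exp_add]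
  congr 2
  ring

end SKC.Z
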