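import Pool.Agent.H.MP_08eaf3_pr.Z.CT1
import Pool.Agent.H.MP_08eaf3_pr.Z.CT2

/-!
# Part Z: comparison of tails
-/

set_option autoImplicit false
set_option linter.unusedSectionVars false

open MeasureTheory ProbabilityTheory Filter Topology Matrix

namespace SKC.Z

/-- (T1) + (T2): comparison of two starting points. -/
theorem TT_compare (b1 b2 : ℝ) (A R η : ℝ) (hA : 0 < A) (hη : 0 < η) : ∃ C : ℝ, 0 ≤ C ∧
    ∀ l2 l3 : List (Step (Fin 2)), Ok (l2 ++ l3) → ∀ c : Fin 2,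
      2 * be b1 b2 c ^ 2 * Qtot l2 c c = A → ∀ s : ℝ, ∀ z z' : Fin 2 → ℝ, n1 z ≤ R → n1 z' ≤ R →
      z c + η ≤ z' c →
      Real.exp (η * s / A - C) * TT b1 b2 l2 l3 c s z ≤ TT b1 b2 l2 l3 c s z' := by
  obtain ⟨C1, hC1, h1⟩ := TT_start b1 b2 R
  obtain ⟨C2, hC2, h2⟩ := TT_decay b1 b2 A R η hA hη
  refine ⟨C1 + C2, by positivity, fun l2 l3 hl c hc s z z' hz hz' hzz => ?_⟩
  have h3 := h1 l2 l3 hl c η s z z' hz hz' hzz
  have h4 := h2 l2 l3 hl c hc s z hz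
  have h5 : Real.exp (η * s / A - (C1 + C2)) =
      Real.exp (-C1) * Real.exp (-(C2 - η * s / A)) := by
    rw [← Real.exp_add]; congr 1; ring
  rw [h5, mul_assoc]
  refine le_trans (mul_le_mul_of_nonneg_left ?_ (Real.exp_pos _).le) h3
  have h6 := mul_le_mul_of_nonneg_left h4 (Real.exp_pos (-(C2 - η * s / A))).le
  rw [← mul_assoc, ← Real.exp_add, neg_add_cancel, Real.exp_zero, one_mul] at h6
  exact h6

end SKC.Z
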