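import Pool.Agent.H.MP_08eaf3_pr.Z.CT0

/-!
# Part Z: tails are bounded below
-/

set_option autoImplicit false
set_option linter.unusedSectionVars false

open MeasureTheory ProbabilityTheory Filter Topology Matrix

namespace SKC.Z

theorem CT4_EG {h : (Fin 2 → ℝ) → ℝ} (hc : Continuous h) {A B : ℝ} (hA : 0 ≤ A) (hB : 0 ≤ B)
    (hb : ∀ z, |h z| ≤ A * Real.exp (B * n1 z)) : EG h := by
  refine ⟨hc, A + B, fun z => (hb z).trans ?_⟩
  have h0 : 0 ≤ n1 z := Finset.sum_nonneg fun c _ => abs_nonneg _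
  refine mul_le_mul (by linarith) (Real.exp_le_exp.2 ?_) (Real.exp_pos _).le (by linarith)
  exact mul_le_mul_of_nonneg_right (by linarith) h0

theorem CT4_abs_le (z : Fin 2 → ℝ) (c : Fin 2) : |z c| ≤ n1 z :=
  Finset.single_le_sum (f := fun c => |z c|) (fun _ _ => abs_nonneg _) (Finset.mem_univ c)

theorem CT4_EG_exp (t : ℝ) (c : Fin 2) : EG (fun y : Fin 2 → ℝ => Real.exp (t * y c)) := by
  refine CT4_EG (by fun_prop) zero_le_one (abs_nonneg t) fun z => ?_
  rw [abs_of_pos (Real.exp_pos _), one_mul]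
  refine Real.exp_le_exp.2 ?_
  calc t * z c ≤ |t * z c| := le_abs_self _
    _ = |t| * |z c| := abs_mul _ _
    _ ≤ |t| * n1 z := mul_le_mul_of_nonneg_left (CT4_abs_le z c) (abs_nonneg t)

/-- bump function -/
noncomputable def CT4_psi (K w v : ℝ) : ℝ := max 0 (min 1 (K - |v - w|))

theorem CT4_psi_nonneg (K w v : ℝ) : 0 ≤ CT4_psi K w v := le_max_left _ _

theorem CT4_psi_le_one (K w v : ℝ) : CT4_psi K w v ≤ 1 := max_le zero_le_one (min_le_left _ _)

theorem CT4_psi_cont (K w : ℝ) (c : Fin 2) : Continuous (fun y : Fin 2 → ℝ => CT4_psi K w (y c)) := by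
  unfold CT4_psi
  fun_prop

theorem CT4_psi_ge (K w v : ℝ) : 1 + ((-(Real.exp (-(2 * (K - 1))) * Real.exp (-(2 * w)))) *
      Real.exp (2 * v) + (-(Real.exp (-(2 * (K - 1))) * Real.exp (2 * w))) *
      Real.exp (-(2 * v))) ≤ CT4_psi K w v := by
  have e1 : Real.exp (-(2 * (K - 1))) * Real.exp (-(2 * w)) * Real.exp (2 * v) =
      Real.exp (2 * (v - w) - 2 * (K - 1)) := by
    rw [← Real.exp_add, ← Real.exp_add]; congr 1; ring
  have e2 : Real.exp (-(2 * (K - 1))) * Real.exp (2 * w) * Real.exp (-(2 * v)) =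
      Real.exp (2 * (w - v) - 2 * (K - 1)) := by
    rw [← Real.exp_add, ← Real.exp_add]; congr 1; ring
  have e3 : 1 + ((-(Real.exp (-(2 * (K - 1))) * Real.exp (-(2 * w)))) *
      Real.exp (2 * v) + (-(Real.exp (-(2 * (K - 1))) * Real.exp (2 * w))) *
      Real.exp (-(2 * v))) = 1 - Real.exp (2 * (v - w) - 2 * (K - 1)) -
        Real.exp (2 * (w - v) - 2 * (K - 1)) := by
    rw [← e1, ← e2]; ring
  rw [e3]
  have p1 := Real.exp_pos (2 * (v - w) - 2 * (K - 1))
  have p2 := Real.exp_pos (2 * (w - v) - 2 * (K - 1))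
  rcases le_total |v - w| (K - 1) with h | h
  · have h1 : CT4_psi K w v = 1 := by
      unfold CT4_psi
      rw [min_eq_left (by linarith)]
      norm_num
    rw [h1]
    linarith
  · have h2 := CT4_psi_nonneg K w v
    rcases le_total w v with h3 | h3
    · rw [abs_of_nonneg (by linarith)] at h
      have := Real.one_le_exp (show 0 ≤ 2 * (v - w) - 2 * (K - 1) by linarith)
      linarith
    · rw [abs_of_nonpos (by linarith)] at h
      have := Real.one_le_exp (show 0 ≤ 2 * (w - v) - 2 * (K - 1) by linarith)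
      linarith

theorem CT4_psi_supp (K w v : ℝ) (h : CT4_psi K w v ≠ 0) : |v - w| < K := by
  by_contra hn
  refine h ?_
  unfold CT4_psi
  exact max_eq_left ((min_le_right _ _).trans (by linarith))

/-- the chain stays near its starting point with probability at least one half -/
theorem CT4_half (β : Fin 2 → ℝ) : ∃ K : ℝ, 0 ≤ K ∧ ∀ l2 l3 : List (Step (Fin 2)), Ok (l2 ++ l3) →
    ∀ (c : Fin 2) (z : Fin 2 → ℝ),
      1 / 2 ≤ ChE β l2 (PsiL β l3 F0) (fun y => CT4_psi K (z c) (y c)) z := by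
  obtain ⟨C0, hC0, hE⟩ := ChE_exp_le β
  refine ⟨1 + 2 * C0, by linarith, fun l2 l3 hl c z => ?_⟩
  set K : ℝ := 1 + 2 * C0 with hK
  obtain ⟨h1, h2⟩ := hE l2 l3 hl c z
  have hF : LG (PsiL β l3 (F0 : (Fin 2 → ℝ) → ℝ)) := LG_PsiL β l3 F0 LG_F0
  set a1 : ℝ := -(Real.exp (-(2 * (K - 1))) * Real.exp (-(2 * z c))) with ha1
  set a2 : ℝ := -(Real.exp (-(2 * (K - 1))) * Real.exp (2 * z c)) with ha2
  have g1 : EG (fun y : Fin 2 → ℝ => a1 * Real.exp (2 * y c)) := by
    refine CT4_EG (by fun_prop) (abs_nonneg a1) (by norm_num : (0:ℝ) ≤ 2) fun y => ?_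
    rw [abs_mul, abs_of_pos (Real.exp_pos _)]
    refine mul_le_mul_of_nonneg_left (Real.exp_le_exp.2 ?_) (abs_nonneg _)
    have := CT4_abs_le y c
    have := le_abs_self (y c)
    linarith
  have g2 : EG (fun y : Fin 2 → ℝ => a2 * Real.exp (-(2 * y c))) := by
    refine CT4_EG (by fun_prop) (abs_nonneg a2) (by norm_num : (0:ℝ) ≤ 2) fun y => ?_
    rw [abs_mul, abs_of_pos (Real.exp_pos _)]
    refine mul_le_mul_of_nonneg_left (Real.exp_le_exp.2 ?_) (abs_nonneg _)
    have := CT4_abs_le y c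
    have := neg_abs_le (y c)
    linarith
  have g3 : EG (fun y : Fin 2 → ℝ => a1 * Real.exp (2 * y c) + a2 * Real.exp (-(2 * y c))) := by
    refine CT4_EG (by fun_prop) (add_nonneg (abs_nonneg a1) (abs_nonneg a2))
      (by norm_num : (0:ℝ) ≤ 2) fun y => ?_
    refine (abs_add_le _ _).trans ?_
    rw [abs_mul, abs_mul, abs_of_pos (Real.exp_pos _), abs_of_pos (Real.exp_pos _), add_mul]
    have t1 := CT4_abs_le y c
    have t2 := neg_abs_le (y c)
    have t3 := le_abs_self (y c)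
    exact add_le_add
      (mul_le_mul_of_nonneg_left (Real.exp_le_exp.2 (by linarith)) (abs_nonneg _))
      (mul_le_mul_of_nonneg_left (Real.exp_le_exp.2 (by linarith)) (abs_nonneg _))
  have g4 : EG (fun _ : Fin 2 → ℝ => (1 : ℝ)) := by
    refine CT4_EG (by fun_prop) zero_le_one le_rfl fun y => ?_
    simp
  have g5 : EG (fun y : Fin 2 → ℝ => 1 + (a1 * Real.exp (2 * y c) + a2 * Real.exp (-(2 * y c)))) := by
    refine CT4_EG (A := 1 + (|a1| + |a2|)) (by fun_prop)
      (add_nonneg zero_le_one (add_nonneg (abs_nonneg a1) (abs_nonneg a2)))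
      (by norm_num : (0:ℝ) ≤ 2) fun y => ?_
    have t1 := CT4_abs_le y c
    have t2 := neg_abs_le (y c)
    have t3 := le_abs_self (y c)
    have t4 : 0 ≤ n1 y := (abs_nonneg _).trans t1
    refine (abs_add_le _ _).trans ?_
    rw [abs_one, add_mul, one_mul]
    refine add_le_add (Real.one_le_exp (by linarith)) ((abs_add_le _ _).trans ?_)
    rw [abs_mul, abs_mul, abs_of_pos (Real.exp_pos _), abs_of_pos (Real.exp_pos _), add_mul]
    exact add_le_add
      (mul_le_mul_of_nonneg_left (Real.exp_le_exp.2 (by linarith)) (abs_nonneg _))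
      (mul_le_mul_of_nonneg_left (Real.exp_le_exp.2 (by linarith)) (abs_nonneg _))
  have g6 : EG (fun y : Fin 2 → ℝ => CT4_psi K (z c) (y c)) := by
    refine CT4_EG (CT4_psi_cont K (z c) c) zero_le_one le_rfl fun y => ?_
    rw [abs_of_nonneg (CT4_psi_nonneg _ _ _)]
    simpa using CT4_psi_le_one K (z c) (y c)
  have m1 := ChE_mono β l2 (PsiL β l3 F0) _ _ hF g5 g6 (fun y => CT4_psi_ge K (z c) (y c)) z
  refine le_trans ?_ m1
  rw [ChE_add β l2 (PsiL β l3 F0) (fun _ => 1) _ hF g4 g3 z,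
    ChE_add β l2 (PsiL β l3 F0) _ _ hF g1 g2 z, ChE_smul, ChE_smul, ChE_const β l2 _ hF 1]
  have q1 : Real.exp (-(2 * (K - 1))) ≤ 1 / (4 * C0) := by
    have : -(2 * (K - 1)) = -(4 * C0) := by rw [hK]; ring
    rw [this, Real.exp_neg, ← one_div]
    refine one_div_le_one_div_of_le (by linarith) ?_
    have := Real.add_one_le_exp (4 * C0)
    linarith
  have q2 : Real.exp (-(2 * (K - 1))) * C0 ≤ 1 / 4 := by
    calc Real.exp (-(2 * (K - 1))) * C0 ≤ 1 / (4 * C0) * C0 :=
          mul_le_mul_of_nonneg_right q1 (by linarith)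
      _ = 1 / 4 := by field_simp
  have p0 := Real.exp_pos (-(2 * (K - 1)))
  have r1 : -(1 / 4) ≤ a1 * ChE β l2 (PsiL β l3 F0) (fun y => Real.exp (2 * y c)) z := by
    have : Real.exp (-(2 * (K - 1))) * Real.exp (-(2 * z c)) *
        ChE β l2 (PsiL β l3 F0) (fun y => Real.exp (2 * y c)) z ≤ 1 / 4 := by
      calc _ ≤ Real.exp (-(2 * (K - 1))) * Real.exp (-(2 * z c)) * (C0 * Real.exp (2 * z c)) :=
            mul_le_mul_of_nonneg_left h2 (by positivity)
        _ = Real.exp (-(2 * (K - 1))) * C0 * (Real.exp (-(2 * z c)) * Real.exp (2 * z c)) := by ring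
        _ = Real.exp (-(2 * (K - 1))) * C0 := by
            rw [← Real.exp_add, neg_add_cancel, Real.exp_zero, mul_one]
        _ ≤ 1 / 4 := q2
    rw [ha1]
    linarith
  have r2 : -(1 / 4) ≤ a2 * ChE β l2 (PsiL β l3 F0) (fun y => Real.exp (-(2 * y c))) z := by
    have : Real.exp (-(2 * (K - 1))) * Real.exp (2 * z c) *
        ChE β l2 (PsiL β l3 F0) (fun y => Real.exp (-(2 * y c))) z ≤ 1 / 4 := by
      calc _ ≤ Real.exp (-(2 * (K - 1))) * Real.exp (2 * z c) * (C0 * Real.exp (-(2 * z c))) :=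
            mul_le_mul_of_nonneg_left h1 (by positivity)
        _ = Real.exp (-(2 * (K - 1))) * C0 * (Real.exp (2 * z c) * Real.exp (-(2 * z c))) := by ring
        _ = Real.exp (-(2 * (K - 1))) * C0 := by
            rw [← Real.exp_add, add_neg_cancel, Real.exp_zero, mul_one]
        _ ≤ 1 / 4 := q2
    rw [ha2]
    linarith
  linarith

/-- (T4) The tail is bounded below, uniformly.

Proof. Let `C0` be the constant of `ChE_exp_le`. For `K` large (`2 C0 exp(-2(K-1)) ≤ 1/2`) the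
function `ψ(v) = max 0 (min 1 (K - |v - z c|))` (`= 1` on `|v - z c| ≤ K - 1`) satisfies
`1 - ψ(v) ≤ exp(-2(K-1)) (exp(2(v - z c)) + exp(-2(v - z c)))`, so `ChE ψ z ≥ 1/2`.
`ChE_shift` with `θ = -(a/A) e_c`, `a > 0`: shift vector has `c`-component `-a`;
`1/2 ≤ ChE ψ z ≤ exp(C1 a/A) ChE (fun y => ψ(y c - a) exp((a/A)(y c - z c) - a²/(2A))) z`.
On the support of `ψ(y c - a)`: `z c + a - K ≤ y c ≤ z c + a + K`. With
`a = |s| + 1 + K + R` we get `y c ≥ s + 1`, hence `ψ(y c - a) ≤ rp s (y c)`, and the exponential is at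
most `exp((a/A)(a + K))`. So `TT s z ≥ (1/2) exp(-(C1 a/A) - (a/A)(a + K))`. -/
theorem TT_pos (b1 b2 : ℝ) (A R s : ℝ) (hA : 0 < A) : ∃ c0 : ℝ, 0 < c0 ∧
    ∀ l2 l3 : List (Step (Fin 2)), Ok (l2 ++ l3) → ∀ c : Fin 2,
      2 * be b1 b2 c ^ 2 * Qtot l2 c c = A → ∀ z : Fin 2 → ℝ, n1 z ≤ R →
      c0 ≤ TT b1 b2 l2 l3 c s z := by
  obtain ⟨K, hK0, hK⟩ := CT4_half (be b1 b2)
  obtain ⟨C1, hC1, hS⟩ := ChE_shift (be b1 b2)
  set a : ℝ := |s| + 1 + K + |R| with ha
  have ha0 : 0 < a := by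
    have := abs_nonneg s
    have := abs_nonneg R
    linarith
  refine ⟨1 / 2 * Real.exp (-(C1 * (a / A)) - (a / A) * (a + K)), by positivity,
    fun l2 l3 hl c hc z hz => ?_⟩
  have hF : LG (PsiL (be b1 b2) l3 (F0 : (Fin 2 → ℝ) → ℝ)) := LG_PsiL (be b1 b2) l3 F0 LG_F0
  have g6 : EG (fun y : Fin 2 → ℝ => CT4_psi K (z c) (y c)) := by
    refine CT4_EG (CT4_psi_cont K (z c) c) zero_le_one le_rfl fun y => ?_
    rw [abs_of_nonneg (CT4_psi_nonneg _ _ _)]
    simpa using CT4_psi_le_one K (z c) (y c)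
  have h1 := hS l2 l3 hl (fun y => CT4_psi K (z c) (y c)) g6 (fun y => CT4_psi_nonneg _ _ _) z
    (Pi.single c (-(a / A)))
  have h2 := hK l2 l3 hl c z
  have n1s : n1 (Pi.single c (-(a / A)) : Fin 2 → ℝ) = a / A := by
    have h0 : 0 < a / A := div_pos ha0 hA
    unfold n1
    rw [Finset.sum_eq_single c (fun d _ hd => by rw [Pi.single_eq_of_ne hd, abs_zero])
      (fun h => (h (Finset.mem_univ c)).elim), Pi.single_eq_same, abs_neg, abs_of_pos h0]
  have sh : (∑ d, 2 * be b1 b2 c * be b1 b2 d * Qtot l2 c d *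
      (Pi.single c (-(a / A)) : Fin 2 → ℝ) d) = -a := by
    rw [Finset.sum_eq_single c (fun d _ hd => by rw [Pi.single_eq_of_ne hd, mul_zero])
      (fun h => (h (Finset.mem_univ c)).elim), Pi.single_eq_same]
    have : 2 * be b1 b2 c * be b1 b2 c * Qtot l2 c c = A := by rw [← hc]; ring
    rw [this]
    field_simp
  have qd : (∑ c', ∑ d, (Pi.single c (-(a / A)) : Fin 2 → ℝ) c' *
      (2 * be b1 b2 c' * be b1 b2 d * Qtot l2 c' d) *
      (Pi.single c (-(a / A)) : Fin 2 → ℝ) d) = a ^ 2 / A := by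
    rw [Finset.sum_eq_single c (fun c' _ hc' => by
        refine Finset.sum_eq_zero fun d _ => ?_
        rw [Pi.single_eq_of_ne hc', zero_mul, zero_mul])
      (fun h => (h (Finset.mem_univ c)).elim),
      Finset.sum_eq_single c (fun d _ hd => by rw [Pi.single_eq_of_ne hd, mul_zero])
      (fun h => (h (Finset.mem_univ c)).elim), Pi.single_eq_same]
    have : 2 * be b1 b2 c * be b1 b2 c * Qtot l2 c c = A := by rw [← hc]; ring
    rw [this]
    field_simp
  have dt1 : ∀ y : Fin 2 → ℝ, dot (Pi.single c (-(a / A))) (y - z) = -(a / A) * (y c - z c) := by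
    intro y
    unfold dot
    rw [Finset.sum_eq_single c (fun d _ hd => by rw [Pi.single_eq_of_ne hd, zero_mul])
      (fun h => (h (Finset.mem_univ c)).elim), Pi.single_eq_same, Pi.sub_apply]
  rw [n1s, qd] at h1
  simp only [Pi.add_apply, sh, dt1] at h1
  have zc : |z c| ≤ |R| := (CT4_abs_le z c).trans (hz.trans (le_abs_self R))
  have key : ∀ y : Fin 2 → ℝ, CT4_psi K (z c) (y c + -a) *
      Real.exp (-(-(a / A) * (y c - z c)) - 1 / 2 * (a ^ 2 / A)) ≤
      Real.exp ((a / A) * (a + K)) * rp s (y c) := by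
    intro y
    by_cases h0 : CT4_psi K (z c) (y c + -a) = 0
    · rw [h0, zero_mul]
      exact mul_nonneg (Real.exp_pos _).le (rp_nonneg _ _)
    · have h3 := CT4_psi_supp _ _ _ h0
      rw [abs_lt] at h3
      have h4 := abs_le.1 zc
      have h5 : s + 1 ≤ y c := by
        have := le_abs_self s
        linarith [h3.1, h4.1]
      rw [rp_one s (y c) h5, mul_one]
      have h6 : Real.exp (-(-(a / A) * (y c - z c)) - 1 / 2 * (a ^ 2 / A)) ≤
          Real.exp ((a / A) * (a + K)) := by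
        refine Real.exp_le_exp.2 ?_
        have h7 : (a / A) * (y c - z c) ≤ (a / A) * (a + K) :=
          mul_le_mul_of_nonneg_left (by linarith [h3.2]) (div_pos ha0 hA).le
        have h8 : 0 ≤ a ^ 2 / A := by positivity
        linarith
      calc _ ≤ 1 * Real.exp ((a / A) * (a + K)) :=
            mul_le_mul (CT4_psi_le_one _ _ _) h6 (Real.exp_pos _).le zero_le_one
        _ = _ := one_mul _
  have g7 : EG (fun y : Fin 2 → ℝ => CT4_psi K (z c) (y c + -a) *
      Real.exp (-(-(a / A) * (y c - z c)) - 1 / 2 * (a ^ 2 / A))) := by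
    refine CT4_EG ?_ (Real.exp_pos ((a / A) * (a + K))).le le_rfl fun y => ?_
    · unfold CT4_psi
      fun_prop
    · rw [abs_of_nonneg (mul_nonneg (CT4_psi_nonneg _ _ _) (Real.exp_pos _).le), zero_mul,
        Real.exp_zero, mul_one]
      refine (key y).trans ?_
      exact mul_le_of_le_one_right (Real.exp_pos _).le (rp_le_one _ _)
  have g8 : EG (fun y : Fin 2 → ℝ => Real.exp ((a / A) * (a + K)) * rp s (y c)) := by
    refine CT4_EG ?_ (Real.exp_pos ((a / A) * (a + K))).le le_rfl fun y => ?_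
    · exact continuous_const.mul ((rp_continuous s).comp (continuous_apply c))
    · rw [abs_of_nonneg (mul_nonneg (Real.exp_pos _).le (rp_nonneg _ _)), zero_mul,
        Real.exp_zero, mul_one]
      exact mul_le_of_le_one_right (Real.exp_pos _).le (rp_le_one _ _)
  have h9 := ChE_mono (be b1 b2) l2 (PsiL (be b1 b2) l3 F0) _ _ hF g7 g8 key z
  rw [ChE_smul] at h9
  have h10 : 1 / 2 ≤ Real.exp (C1 * (a / A)) * (Real.exp ((a / A) * (a + K)) *
      TT b1 b2 l2 l3 c s z) :=
    h2.trans (h1.trans (mul_le_mul_of_nonneg_left h9 (Real.exp_pos _).le))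
  have h11 : Real.exp (-(C1 * (a / A)) - (a / A) * (a + K)) *
      (Real.exp (C1 * (a / A)) * Real.exp ((a / A) * (a + K))) = 1 := by
    rw [← Real.exp_add, ← Real.exp_add, ← Real.exp_zero]
    congr 1
    ring
  calc 1 / 2 * Real.exp (-(C1 * (a / A)) - (a / A) * (a + K))
      = Real.exp (-(C1 * (a / A)) - (a / A) * (a + K)) * (1 / 2) := by ring
    _ ≤ Real.exp (-(C1 * (a / A)) - (a / A) * (a + K)) * (Real.exp (C1 * (a / A)) *
        (Real.exp ((a / A) * (a + K)) * TT b1 b2 l2 l3 c s z)) :=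
        mul_le_mul_of_nonneg_left h10 (Real.exp_pos _).le
    _ = (Real.exp (-(C1 * (a / A)) - (a / A) * (a + K)) *
      (Real.exp (C1 * (a / A)) * Real.exp ((a / A) * (a + K)))) * TT b1 b2 l2 l3 c s z := by ring
    _ = TT b1 b2 l2 l3 c s z := by rw [h11, one_mul]

end SKC.Z
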