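import Pool.Agent.H.MP_08eaf3_pr.Z.CT0

/-!
# Part Z: the ramp as a function of tanh
-/

set_option autoImplicit false
set_option linter.unusedSectionVars false

open MeasureTheory ProbabilityTheory Filter Topology Matrix

namespace SKC.Z

theorem Co1_tanh_mem (v : ℝ) : Real.tanh v ∈ Set.Ioo (-1 : ℝ) 1 :=
  ⟨Real.neg_one_lt_tanh v, Real.tanh_lt_one v⟩

theorem Co1_tanh_mono : Monotone Real.tanh := by
  intro v w h
  have h1 := Real.artanh_le_artanh_iff (Co1_tanh_mem v) (Co1_tanh_mem w)
  rw [Real.artanh_tanh, Real.artanh_tanh] at h1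
  exact h1.1 h

/-- The ramp as a continuous function of `tanh`.

Proof. `f m = artanh (max (tanh s) (min (tanh (s+1)) m)) - s`; `Real.artanh` is continuous on
`(-1,1)` (or use `(1/2) log((1+m)/(1-m))`), `tanh` is strictly increasing, so
`f (tanh v) = clamp v s (s+1) - s = rp s v`. -/
theorem rp_tanh (s : ℝ) : ∃ f : ℝ → ℝ, Continuous f ∧ ∀ v, f (Real.tanh v) = rp s v := by
  have hlo : ∀ m, -1 < max (Real.tanh s) (min (Real.tanh (s + 1)) m) := fun m =>
    lt_of_lt_of_le (Real.neg_one_lt_tanh s) (le_max_left _ _)
  have hhi : ∀ m, max (Real.tanh s) (min (Real.tanh (s + 1)) m) < 1 := fun m =>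
    max_lt (Real.tanh_lt_one s) (lt_of_le_of_lt (min_le_left _ _) (Real.tanh_lt_one _))
  refine ⟨fun m => 1 / 2 * Real.log ((1 + max (Real.tanh s) (min (Real.tanh (s + 1)) m)) /
    (1 - max (Real.tanh s) (min (Real.tanh (s + 1)) m))) - s, ?_, ?_⟩
  · refine Continuous.sub (Continuous.mul continuous_const (Continuous.log ?_ ?_)) continuous_const
    · refine Continuous.div (by fun_prop) (by fun_prop) fun m => ?_
      have := hhi m
      linarith
    · intro m
      have h1 := hlo m
      have h2 := hhi m
      exact (div_pos (by linarith) (by linarith)).ne'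
  · intro v
    have h1 : max (Real.tanh s) (min (Real.tanh (s + 1)) (Real.tanh v)) =
        Real.tanh (max s (min (s + 1) v)) := by
      rw [Co1_tanh_mono.map_max, Co1_tanh_mono.map_min]
    show 1 / 2 * Real.log ((1 + max (Real.tanh s) (min (Real.tanh (s + 1)) (Real.tanh v))) /
      (1 - max (Real.tanh s) (min (Real.tanh (s + 1)) (Real.tanh v)))) - s = rp s v
    rw [h1, ← Real.artanh_eq_half_log (Set.Ioo_subset_Icc_self (Co1_tanh_mem _)),
      Real.artanh_tanh]
    unfold rp
    rcases le_total (s + 1) v with h2 | h2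
    · rw [min_eq_left h2, max_eq_right (by linarith), min_eq_left (by linarith),
        max_eq_right zero_le_one]
      ring
    · rw [min_eq_right h2, min_eq_right (by linarith)]
      rcases le_total s v with h3 | h3
      · rw [max_eq_right h3, max_eq_right (by linarith)]
      · rw [max_eq_left h3, max_eq_left (by linarith), sub_self]

end SKC.Z
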