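import Pool.Agent.H.MP_08eaf3_pr.Z.OkP
import Pool.Agent.H.MP_08eaf3_pr.H.CavA

/-!
# Part Z: a last step with diagonal increment
-/

set_option autoImplicit false
set_option linter.unusedSectionVars false

open MeasureTheory ProbabilityTheory Filter Topology Matrix

namespace SKC.Z

theorem TopTanh_sum (z : Fin 2 → ℝ) :
    ∑ s : Fin 2 → Bool, Real.exp ((∑ c, sg (s c) * z c) + 0 * 0) =
      2 * Real.cosh (z 0) * (2 * Real.cosh (z 1)) := by
  have h1 : ∑ s : Fin 2 → Bool, Real.exp ((∑ c, sg (s c) * z c) + 0 * 0) =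
      ∑ p : Bool × Bool, Real.exp (sg p.1 * z 0 + sg p.2 * z 1) := by
    refine Fintype.sum_equiv (finTwoArrowEquiv Bool) _ _ fun s => ?_
    simp [Fin.sum_univ_two, finTwoArrowEquiv]
  rw [h1, Fintype.sum_prod_type]
  simp only [Fintype.sum_bool, sg, if_true, Bool.false_eq_true, if_false, Real.exp_add,
    Real.cosh_eq]
  ring_nf

theorem TopTanh_F0 (z : Fin 2 → ℝ) :
    F0 z = Real.log (2 * Real.cosh (z 0)) + Real.log (2 * Real.cosh (z 1)) := by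
  have h0 := Real.cosh_pos (z 0)
  have h1 := Real.cosh_pos (z 1)
  rw [← Real.log_mul (by positivity) (by positivity), ← TopTanh_sum]
  rfl

theorem TopTanh_exp (z : Fin 2 → ℝ) :
    Real.exp (F0 z) = ∑ s : Fin 2 → Bool, Real.exp ((∑ c, sg (s c) * z c) + 0 * 0) := by
  have h0 := Real.cosh_pos (z 0)
  have h1 := Real.cosh_pos (z 1)
  have h2 : F0 z = Real.log (∑ s : Fin 2 → Bool, Real.exp ((∑ c, sg (s c) * z c) + 0 * 0)) := rfl
  rw [h2, Real.exp_log]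
  rw [TopTanh_sum]
  positivity

/-- the features of `<s, Bx>` -/
noncomputable def TopTanh_v (B : Matrix (Fin 2) (Fin 2) ℝ) (s : Fin 2 → Bool) : Fin 2 → ℝ :=
  fun d => sg (s 0) * B 0 d + sg (s 1) * B 1 d

theorem TopTanh_dot (b1 b2 : ℝ) (E : Matrix (Fin 2) (Fin 2) ℝ) (hE : (E * Eᵀ) 0 1 = 0)
    (s : Fin 2 → Bool) : dot (TopTanh_v (Bm (be b1 b2) E) s) (TopTanh_v (Bm (be b1 b2) E) s) / 2 =
      b1 ^ 2 * (E * Eᵀ) 0 0 + b2 ^ 2 * (E * Eᵀ) 1 1 := by
  have h2 : Real.sqrt 2 * Real.sqrt 2 = 2 := Real.mul_self_sqrt (by norm_num)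
  have hs0 : sg (s 0) * sg (s 0) = 1 := by cases s 0 <;> simp [sg]
  have hs1 : sg (s 1) * sg (s 1) = 1 := by cases s 1 <;> simp [sg]
  simp only [Matrix.mul_apply, Matrix.transpose_apply, Fin.sum_univ_two] at hE ⊢
  simp only [dot, TopTanh_v, Bm, be, Fin.sum_univ_two, Matrix.cons_val_zero, Matrix.cons_val_one]
  linear_combination ((sg (s 0) * b1 * E 0 0 + sg (s 1) * b2 * E 1 0) ^ 2 / 2 +
    (sg (s 0) * b1 * E 0 1 + sg (s 1) * b2 * E 1 1) ^ 2 / 2) * h2 +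
    (b1 ^ 2 * (E 0 0 * E 0 0 + E 0 1 * E 0 1)) * hs0 +
    (b2 ^ 2 * (E 1 0 * E 1 0 + E 1 1 * E 1 1)) * hs1 +
    (2 * sg (s 0) * sg (s 1) * b1 * b2) * hE

/-- `PsiL [(1,E)] F0 z = log (4 ch z0 ch z1) + (A00 + A11)/2` if the increment is diagonal.

Proof. `exp (F0 (z + Bx)) = ∑_s exp(<s, z + Bx>)`; integrate term by term:
`∫ exp(<s, Bx>) = exp((1/2) |Bᵀ s|²) = exp((A00 + A11)/2)` because the off-diagonal entry of
`A = B Bᵀ` (`= 2 b_c b_d (E Eᵀ)_cd`) vanishes and `s_c² = 1`. Hence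
`Tm 1 B F0 z = log (exp((A00+A11)/2) ∑_s exp <s,z>) = F0 z + (A00+A11)/2`. -/
theorem PsiL_top_diag (b1 b2 : ℝ) (E : Matrix (Fin 2) (Fin 2) ℝ) (hE : (E * Eᵀ) 0 1 = 0)
    (z : Fin 2 → ℝ) :
    PsiL (be b1 b2) [((1 : ℝ), E)] F0 z =
      F0 z + (b1 ^ 2 * (E * Eᵀ) 0 0 + b2 ^ 2 * (E * Eᵀ) 1 1) := by
  have h1 : PsiL (be b1 b2) [((1 : ℝ), E)] F0 z = Tm 1 (Bm (be b1 b2) E) F0 z := rfl
  rw [h1]
  unfold Tm
  rw [if_neg one_ne_zero]
  have h2 : ∀ x : Fin 2 → ℝ, Real.exp (1 * F0 (z + (Bm (be b1 b2) E).mulVec x)) =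
      ∑ s : Fin 2 → Bool, Real.exp ((∑ c, sg (s c) * z c) + 0 * 0) *
        Real.exp (dot x (TopTanh_v (Bm (be b1 b2) E) s)) := by
    intro x
    rw [one_mul, TopTanh_exp]
    refine Finset.sum_congr rfl fun s _ => ?_
    rw [← Real.exp_add]
    congr 1
    simp only [dot, TopTanh_v, Fin.sum_univ_two, Pi.add_apply, Matrix.mulVec, dotProduct]
    ring
  simp only [h2]
  rw [integral_finset_sum _ fun s _ => (H.integrable_exp_dot _).const_mul _]
  simp only [integral_const_mul, H.integral_exp_dot, TopTanh_dot b1 b2 E hE]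
  rw [← Finset.sum_mul, ← TopTanh_exp, ← Real.exp_add, Real.log_exp]
  ring

theorem TopTanh_line (z h : ℝ) :
    HasDerivAt (fun t : ℝ => Real.log (2 * Real.cosh (z + t))) (Real.tanh (z + h)) h := by
  have h0 := Real.cosh_pos (z + h)
  have h1 : HasDerivAt (fun t : ℝ => z + t) 1 h := (hasDerivAt_id h).const_add z
  have h2 : HasDerivAt (fun t : ℝ => Real.cosh (z + t)) (Real.sinh (z + h) * 1) h :=
    (Real.hasDerivAt_cosh (z + h)).comp h h1
  have h3 := (h2.const_mul 2).log (by positivity)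
  refine h3.congr_deriv ?_
  rw [Real.tanh_eq_sinh_div_cosh]
  field_simp

/-- `F0 z = log (4 ch z0 ch z1)` for two coordinates, and its partial derivatives are `tanh`. -/
theorem F0_deriv (c : Fin 2) (z : Fin 2 → ℝ) :
    HasDerivAt (fun h : ℝ => F0 (z + h • Pi.single c 1)) (Real.tanh (z c)) 0 := by
  have h1 := TopTanh_line (z c) 0
  rw [add_zero] at h1
  fin_cases c
  · have h2 : (fun h : ℝ => F0 (z + h • (Pi.single (0 : Fin 2) (1 : ℝ) : Fin 2 → ℝ))) =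
        fun h => Real.log (2 * Real.cosh (z 0 + h)) + Real.log (2 * Real.cosh (z 1)) := by
      funext h
      rw [TopTanh_F0]
      simp
    exact h2 ▸ h1.add_const _
  · have h2 : (fun h : ℝ => F0 (z + h • (Pi.single (1 : Fin 2) (1 : ℝ) : Fin 2 → ℝ))) =
        fun h => Real.log (2 * Real.cosh (z 0)) + Real.log (2 * Real.cosh (z 1 + h)) := by
      funext h
      rw [TopTanh_F0]
      simp
    exact h2 ▸ h1.const_add _

/-- Proof: `PsiL_deriv`, `PsiL_top_diag`, `F0_deriv` and uniqueness of derivatives. -/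
theorem Mg_top_diag (b1 b2 : ℝ) (E : Matrix (Fin 2) (Fin 2) ℝ) (hE : (E * Eᵀ) 0 1 = 0)
    (c : Fin 2) (z : Fin 2 → ℝ) : Mg (be b1 b2) [((1 : ℝ), E)] c z = Real.tanh (z c) := by
  have h1 := PsiL_deriv (be b1 b2) [((1 : ℝ), E)] c z
  have h2 : HasDerivAt (fun h : ℝ => PsiL (be b1 b2) [((1 : ℝ), E)] F0 (z + h • Pi.single c 1))
      (Real.tanh (z c)) 0 := by
    have h3 := (F0_deriv c z).add_const (b1 ^ 2 * (E * Eᵀ) 0 0 + b2 ^ 2 * (E * Eᵀ) 1 1)
    refine h3.congr_of_eventuallyEq (Filter.Eventually.of_forall fun h => ?_)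
    exact PsiL_top_diag b1 b2 E hE _
  exact h1.unique h2

end SKC.Z
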