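import Pool.Agent.H.MP_08eaf3_pr.Z.CT0
import Pool.Agent.H.MP_08eaf3_pr.Z.TopTanh

/-!
# Part Z: closeness of tails from closeness of moments
-/

set_option autoImplicit false
set_option linter.unusedSectionVars false

open MeasureTheory ProbabilityTheory Filter Topology Matrix

namespace SKC.Z

theorem Co2_EG {K : Type} [Fintype K] {h : (K → ℝ) → ℝ} (hc : Continuous h) {C : ℝ}
    (hb : ∀ z, |h z| ≤ C) : EG h := by
  refine ⟨hc, |C|, fun z => ?_⟩
  have h1 : 0 ≤ n1 z := Finset.sum_nonneg fun _ _ => abs_nonneg _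
  have h2 : (1 : ℝ) ≤ Real.exp (|C| * n1 z) :=
    Real.one_le_exp (mul_nonneg (abs_nonneg _) h1)
  calc |h z| ≤ |C| := (hb z).trans (le_abs_self C)
    _ = |C| * 1 := (mul_one _).symm
    _ ≤ |C| * Real.exp (|C| * n1 z) := mul_le_mul_of_nonneg_left h2 (abs_nonneg _)

theorem Co2_tanh_cont (c : Fin 2) : Continuous (fun y : Fin 2 → ℝ => Real.tanh (y c)) := by
  have h1 : Continuous Real.tanh := by
    have h2 : Real.tanh = fun x => Real.sinh x / Real.cosh x := by
      funext x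
      exact Real.tanh_eq_sinh_div_cosh x
    rw [h2]
    exact Real.continuous_sinh.div Real.continuous_cosh fun x => (Real.cosh_pos x).ne'
  exact h1.comp (continuous_apply c)

theorem Co2_tanh_abs (v : ℝ) : |Real.tanh v| ≤ 1 := (Real.abs_tanh_lt_one v).le

theorem Co2_pow_EG (c : Fin 2) (e : ℕ) : EG (fun y : Fin 2 → ℝ => Real.tanh (y c) ^ e) := by
  refine Co2_EG ((Co2_tanh_cont c).pow e) (C := 1) fun z => ?_
  rw [abs_pow]
  exact pow_le_one₀ (abs_nonneg _) (Co2_tanh_abs _)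

theorem Co2_sum_EG (c : Fin 2) (m : ℕ) (a : ℕ → ℝ) :
    EG (fun y : Fin 2 → ℝ => ∑ e ∈ Finset.range m, a e * Real.tanh (y c) ^ e) := by
  refine Co2_EG (continuous_finsetSum _ fun e _ => continuous_const.mul ((Co2_tanh_cont c).pow e))
    (C := ∑ e ∈ Finset.range m, |a e|) fun z => ?_
  refine (Finset.abs_sum_le_sum_abs _ _).trans (Finset.sum_le_sum fun e _ => ?_)
  rw [abs_mul, abs_pow]
  exact mul_le_of_le_one_right (abs_nonneg _) (pow_le_one₀ (abs_nonneg _) (Co2_tanh_abs _))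

/-- linearity for polynomials of `tanh` -/
theorem Co2_lin (β : Fin 2 → ℝ) (l : List (Step (Fin 2))) (F : (Fin 2 → ℝ) → ℝ) (hF : LG F)
    (c : Fin 2) (a : ℕ → ℝ) (z : Fin 2 → ℝ) (m : ℕ) :
    ChE β l F (fun y => ∑ e ∈ Finset.range m, a e * Real.tanh (y c) ^ e) z =
      ∑ e ∈ Finset.range m, a e * ChE β l F (fun y => Real.tanh (y c) ^ e) z := by
  induction m with
  | zero =>
    simp only [Finset.range_zero, Finset.sum_empty]
    exact congrFun (ChE_const β l F hF 0) z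
  | succ m ih =>
    rw [Finset.sum_range_succ, ← ih, ← ChE_smul]
    rw [← ChE_add β l F _ _ hF (Co2_sum_EG c m a) ?_ z]
    · congr 1
      funext y
      rw [Finset.sum_range_succ]
    · refine Co2_EG (continuous_const.mul ((Co2_tanh_cont c).pow m)) (C := |a m|) fun y => ?_
      rw [abs_mul, abs_pow]
      exact mul_le_of_le_one_right (abs_nonneg _) (pow_le_one₀ (abs_nonneg _) (Co2_tanh_abs _))

/-- If the moments `V_e` at `z, z'` are close for `e < m`, the tails are close.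

Proof. `rp s (y c) = f (tanh (y c)) = f (Mg l3 c y)` by `Mg_top_diag` (`l3 = [(1,E)]`);
`|f(x) - ∑ a_e x^e| ≤ ε` on `[-1,1]`; `ChE_mono`, linearity. -/
theorem TT_close (b1 b2 : ℝ) (l2 : List (Step (Fin 2))) (E : Matrix (Fin 2) (Fin 2) ℝ)
    (hE : (E * Eᵀ) 0 1 = 0) (hl : Ok (l2 ++ [((1 : ℝ), E)])) (c : Fin 2) (s : ℝ) (f : ℝ → ℝ)
    (hf : Continuous f) (hfs : ∀ v, f (Real.tanh v) = rp s v) (m : ℕ) (a : ℕ → ℝ) (ε η : ℝ)
    (ha : ∀ x : ℝ, |x| ≤ 1 → |f x - ∑ e ∈ Finset.range m, a e * x ^ e| ≤ ε)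
    (z z' : Fin 2 → ℝ)
    (hV : ∀ e < m, |Vv (be b1 b2) l2 [((1 : ℝ), E)] c e z - Vv (be b1 b2) l2 [((1 : ℝ), E)] c e z'| ≤ η) :
    |TT b1 b2 l2 [((1 : ℝ), E)] c s z - TT b1 b2 l2 [((1 : ℝ), E)] c s z'| ≤
      2 * ε + (∑ e ∈ Finset.range m, |a e|) * η := by
  obtain ⟨F, hFdef⟩ : ∃ F, F = PsiL (be b1 b2) [((1 : ℝ), E)] F0 := ⟨_, rfl⟩
  have hF : LG F := by
    rw [hFdef]
    exact LG_PsiL _ _ _ LG_F0
  have hVe : ∀ e w, Vv (be b1 b2) l2 [((1 : ℝ), E)] c e w =
      ChE (be b1 b2) l2 F (fun y => Real.tanh (y c) ^ e) w := by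
    intro e w
    unfold Vv
    rw [← hFdef]
    congr 1
    funext y
    rw [Mg_top_diag b1 b2 E hE c y]
  have hp := Co2_sum_EG c m a
  have hh : EG (fun y : Fin 2 → ℝ => rp s (y c)) := by
    refine Co2_EG ((rp_continuous s).comp (continuous_apply c)) (C := 1) fun y => ?_
    rw [abs_of_nonneg (rp_nonneg _ _)]
    exact rp_le_one _ _
  have hc : ∀ d : ℝ, EG (fun _ : Fin 2 → ℝ => d) := fun d =>
    Co2_EG continuous_const (C := |d|) fun _ => le_rfl
  have hpd : ∀ d : ℝ, EG (fun y : Fin 2 → ℝ =>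
      (∑ e ∈ Finset.range m, a e * Real.tanh (y c) ^ e) + d) := by
    intro d
    refine Co2_EG (hp.1.add continuous_const) (C := (∑ e ∈ Finset.range m, |a e|) + |d|) fun y => ?_
    refine (abs_add_le _ _).trans (add_le_add_left ?_ _)
    refine (Finset.abs_sum_le_sum_abs _ _).trans (Finset.sum_le_sum fun e _ => ?_)
    rw [abs_mul, abs_pow]
    exact mul_le_of_le_one_right (abs_nonneg _) (pow_le_one₀ (abs_nonneg _) (Co2_tanh_abs _))
  have hpt : ∀ y : Fin 2 → ℝ,
      |rp s (y c) - ∑ e ∈ Finset.range m, a e * Real.tanh (y c) ^ e| ≤ ε := by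
    intro y
    rw [← hfs]
    exact ha _ (Co2_tanh_abs _)
  have key : ∀ w, |TT b1 b2 l2 [((1 : ℝ), E)] c s w -
      ChE (be b1 b2) l2 F (fun y => ∑ e ∈ Finset.range m, a e * Real.tanh (y c) ^ e) w| ≤ ε := by
    intro w
    have hT : TT b1 b2 l2 [((1 : ℝ), E)] c s w =
        ChE (be b1 b2) l2 F (fun y => rp s (y c)) w := by
      unfold TT
      rw [← hFdef]
    have hadd : ∀ d : ℝ, ChE (be b1 b2) l2 F (fun y =>
        (∑ e ∈ Finset.range m, a e * Real.tanh (y c) ^ e) + d) w =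
        ChE (be b1 b2) l2 F (fun y => ∑ e ∈ Finset.range m, a e * Real.tanh (y c) ^ e) w + d := by
      intro d
      rw [ChE_add (be b1 b2) l2 F (fun y => ∑ e ∈ Finset.range m, a e * Real.tanh (y c) ^ e)
        (fun _ => d) hF hp (hc d) w]
      congr 1
      exact congrFun (ChE_const (be b1 b2) l2 F hF d) w
    have hup := ChE_mono (be b1 b2) l2 F (fun y => rp s (y c))
      (fun y => (∑ e ∈ Finset.range m, a e * Real.tanh (y c) ^ e) + ε) hF hh (hpd ε)
      (fun y => by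
        have := (abs_le.1 (hpt y)).2
        linarith) w
    have hlo := ChE_mono (be b1 b2) l2 F
      (fun y => (∑ e ∈ Finset.range m, a e * Real.tanh (y c) ^ e) + -ε)
      (fun y => rp s (y c)) hF (hpd (-ε)) hh
      (fun y => by
        have := (abs_le.1 (hpt y)).1
        linarith) w
    rw [hadd] at hup hlo
    rw [hT, abs_le]
    constructor <;> linarith
  have hP : |ChE (be b1 b2) l2 F (fun y => ∑ e ∈ Finset.range m, a e * Real.tanh (y c) ^ e) z -
      ChE (be b1 b2) l2 F (fun y => ∑ e ∈ Finset.range m, a e * Real.tanh (y c) ^ e) z'| ≤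
      (∑ e ∈ Finset.range m, |a e|) * η := by
    rw [Co2_lin _ _ _ hF, Co2_lin _ _ _ hF, ← Finset.sum_sub_distrib, Finset.sum_mul]
    refine (Finset.abs_sum_le_sum_abs _ _).trans (Finset.sum_le_sum fun e he => ?_)
    rw [← mul_sub, abs_mul]
    refine mul_le_mul_of_nonneg_left ?_ (abs_nonneg _)
    rw [← hVe, ← hVe]
    exact hV e (Finset.mem_range.1 he)
  have h1 := key z
  have h2 := key z'
  rw [abs_le] at h1 h2 hP ⊢
  constructor <;> linarith [h1.1, h1.2, h2.1, h2.2, hP.1, hP.2]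

end SKC.Z
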