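import Pool.Agent.H.MP_08eaf3_pr.Z.Fu3
import Pool.Agent.H.MP_08eaf3_pr.Z.CT3
import Pool.Agent.H.MP_08eaf3_pr.Z.CT4
import Pool.Agent.H.MP_08eaf3_pr.Z.Co1
import Pool.Agent.H.MP_08eaf3_pr.Z.Co2

/-!
# Part Z: core lemma
-/

set_option autoImplicit false
set_option linter.unusedSectionVars false

open MeasureTheory ProbabilityTheory Filter Topology Matrix

namespace SKC.Z

/-- one-sided version of the core lemma, with all constants given -/
theorem core_aux {b1 b2 u : ℝ} (S : Setting b1 b2 u) (Q Q' : Matrix (Fin 2) (Fin 2) ℝ)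
    (hT : TreeFull b1 b2 u Q Q') (hQ : Q.PosSemidef) (hdet : 0 < Q 0 0 * Q 1 1 - Q 0 1 ^ 2)
    (c : Fin 2) (R : ℝ) (m : ℕ) (η : ℝ) (hη : 0 < η) :
    ∃ δ0 : ℝ, 0 < δ0 ∧ ∀ δ : ℝ, 0 ≤ δ → δ ≤ δ0 →
      ∀ l1 l2 l3 : List (Step (Fin 2)), PairPath b1 b2 u Q Q' δ l1 l2 l3 →
      ∀ z z' : Fin 2 → ℝ, n1 z ≤ R → n1 z' ≤ R →
        Mg (be b1 b2) (l2 ++ l3) c z = Mg (be b1 b2) (l2 ++ l3) c z' →
        ∀ e < m, |Vv (be b1 b2) l2 l3 c e z - Vv (be b1 b2) l2 l3 c e z'| ≤ η := by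
  induction m with
  | zero => exact ⟨1, one_pos, fun _ _ _ _ _ _ _ _ _ _ _ _ e he => absurd he (Nat.not_lt_zero e)⟩
  | succ m ih =>
    obtain ⟨δ1, hδ1, h1⟩ := ih
    obtain ⟨κ, hκ, δ2, hδ2, h2⟩ := Fun_lemma S Q Q' hT hQ hdet c m R η hη
    refine ⟨min δ1 δ2, lt_min hδ1 hδ2, fun δ h0 hδ l1 l2 l3 hp z z' hz hz' hM e he => ?_⟩
    rcases Nat.lt_succ_iff_lt_or_eq.1 he with h | h
    · exact h1 δ h0 (hδ.trans (min_le_left _ _)) l1 l2 l3 hp z z' hz hz' hM e h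
    · subst h
      refine h2 δ h0 (hδ.trans (min_le_right _ _)) l1 l2 l3 hp z z' hz hz' ?_
      rw [hM, sub_self, abs_zero]
      exact hκ.le

/-- Core lemma: for near-optimal paths through `Q ≤ Q'` whose last step is diagonal, points with
the same magnetisation `M_c` at level `Q` have nearly the same coordinate `c`.

Proof. `A = 2 β_c² (Q' c c - Q c c) > 0` (`Qtot l2 = Q' - Q`). Let `C` be the constant of
`TT_compare` (for `A, R, η`), `s` with `exp(η s/A - C) ≥ 2`, `c0` from `TT_pos`, `f` from `rp_tanh`,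
`m, a` from `poly_approx f (c0/8)`, and `δ0` from `Fun_lemma` for all `e < m` with
`η' = c0 / (4 (1 + ∑ |a e|))`. If `z c + η < z' c` (the other case is symmetric) then
`TT s z' ≥ 2 TT s z`, so `TT s z' - TT s z ≥ TT s z ≥ c0`, but `TT_close` gives
`|..| ≤ c0/4 + c0/4`. -/
theorem core {b1 b2 u : ℝ} (S : Setting b1 b2 u) (Q Q' : Matrix (Fin 2) (Fin 2) ℝ)
    (hT : TreeFull b1 b2 u Q Q') (hQ : Q.PosSemidef) (hdet : 0 < Q 0 0 * Q 1 1 - Q 0 1 ^ 2)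
    (c : Fin 2) (hA : Q c c < Q' c c) (R η : ℝ) (hη : 0 < η) :
    ∃ δ0 : ℝ, 0 < δ0 ∧ ∀ δ : ℝ, 0 ≤ δ → δ ≤ δ0 →
      ∀ (l1 l2 : List (Step (Fin 2))) (E : Matrix (Fin 2) (Fin 2) ℝ), (E * Eᵀ) 0 1 = 0 →
      PairPath b1 b2 u Q Q' δ l1 l2 [((1 : ℝ), E)] →
      ∀ z z' : Fin 2 → ℝ, n1 z ≤ R → n1 z' ≤ R →
        Mg (be b1 b2) (l2 ++ [((1 : ℝ), E)]) c z = Mg (be b1 b2) (l2 ++ [((1 : ℝ), E)]) c z' →
        |z c - z' c| ≤ η := by
  have hbc : 0 < be b1 b2 c := by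
    fin_cases c
    · exact S.hb1
    · exact S.hb2
  set A : ℝ := 2 * be b1 b2 c ^ 2 * (Q' c c - Q c c) with hAdef
  have hApos : 0 < A := by
    have : 0 < Q' c c - Q c c := sub_pos.2 hA
    positivity
  obtain ⟨C, hC, hcmp⟩ := TT_compare b1 b2 A R η hApos hη
  -- choose `s`
  set s : ℝ := A * (C + 1) / η with hs
  have hexp : 2 ≤ Real.exp (η * s / A - C) := by
    have h1 : η * s / A - C = 1 := by
      rw [hs]
      field_simp
      ring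
    rw [h1]
    have := Real.add_one_le_exp (1 : ℝ)
    linarith
  obtain ⟨c0, hc0, hpos⟩ := TT_pos b1 b2 A R s hApos
  obtain ⟨f, hf, hfs⟩ := rp_tanh s
  obtain ⟨m, a, ha⟩ := poly_approx f hf (c0 / 8) (by positivity)
  set Wa : ℝ := ∑ e ∈ Finset.range m, |a e| with hW
  have hW0 : 0 ≤ Wa := Finset.sum_nonneg fun _ _ => abs_nonneg _
  obtain ⟨δ0, hδ0, hV⟩ := core_aux S Q Q' hT hQ hdet c R m (c0 / (4 * (1 + Wa))) (by positivity)
  refine ⟨δ0, hδ0, fun δ h0 hδ l1 l2 E hE hp z z' hz hz' hM => ?_⟩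
  have hok : Ok (l2 ++ [((1 : ℝ), E)]) := hp.ok.right
  have hQ2 : 2 * be b1 b2 c ^ 2 * Qtot l2 c c = A := by
    have h1 : Qtot l1 = Q := hp.2.2.1
    have h2 : Qtot (l1 ++ l2) = Q' := hp.2.2.2.1
    rw [Qtot_append, h1] at h2
    have h3 := congrFun (congrFun h2 c) c
    rw [Matrix.add_apply] at h3
    rw [hAdef]
    congr 1
    linarith
  have hclose := TT_close b1 b2 l2 E hE hok c s f hf hfs m a (c0 / 8) (c0 / (4 * (1 + Wa))) ha z z'
    (fun e he => hV δ h0 hδ l1 l2 _ hp z z' hz hz' hM e he)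
  have hb : 2 * (c0 / 8) + (∑ e ∈ Finset.range m, |a e|) * (c0 / (4 * (1 + Wa))) ≤ c0 / 2 := by
    rw [← hW]
    have h1 : Wa * (c0 / (4 * (1 + Wa))) ≤ c0 / 4 := by
      rw [mul_div_assoc', div_le_div_iff₀ (by positivity) (by norm_num)]
      nlinarith
    linarith
  have hclose' := hclose.trans hb
  by_contra hcon
  push Not at hcon
  rcases lt_abs.1 hcon with h | h
  · have h1 := hcmp l2 _ hok c hQ2 s z' z hz' hz (by linarith)
    have h2 := hpos l2 _ hok c hQ2 z' hz'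
    have h3 : 2 * TT b1 b2 l2 [((1 : ℝ), E)] c s z' ≤ TT b1 b2 l2 [((1 : ℝ), E)] c s z :=
      le_trans (mul_le_mul_of_nonneg_right hexp (hc0.le.trans h2)) h1
    have h4 := (abs_le.1 hclose').2
    linarith
  · have h1 := hcmp l2 _ hok c hQ2 s z z' hz hz' (by linarith)
    have h2 := hpos l2 _ hok c hQ2 z hz
    have h3 : 2 * TT b1 b2 l2 [((1 : ℝ), E)] c s z ≤ TT b1 b2 l2 [((1 : ℝ), E)] c s z' :=
      le_trans (mul_le_mul_of_nonneg_right hexp (hc0.le.trans h2)) h1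
    have h4 := (abs_le.1 hclose').1
    linarith

end SKC.Z
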