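import Pool.Agent.H.MP_08eaf3_pr.Z.IfZ

/-!
# Part Z: assembly (S6 and the end of the proof)
-/

set_option autoImplicit false

open MeasureTheory ProbabilityTheory Filter Topology Matrix

namespace SKC.Z

/-- the contradiction in the standing setting -/
theorem setting_false {b1 b2 u : ℝ} (S : Setting b1 b2 u) (hne : b1 ≠ b2) (L : LData b1 b2 u) :
    False := by
  have hd : ∀ t ∈ L.T, 0 < t → 0 < dt L t := fun t ht h0 => (S2 S hne L t ht h0).2.2
  obtain ⟨t0, ht0, ht0p⟩ := S5 S L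
  -- the top level
  have htopm : sSup L.T ∈ L.T := L.comp.sSup_mem L.ne
  have htop : ∀ x ∈ L.T, x ≤ sSup L.T := fun x hx => le_csSup L.comp.bddAbove hx
  have htopp : 0 < sSup L.T := lt_of_lt_of_le ht0p (htop t0 ht0)
  have htu : L.Q (sSup L.T) 0 1 = u := S3top S L _ htopm (hd _ htopm htopp) htop
  have hr : ∀ x ∈ L.T, 0 < x → L.Q x 0 1 = u := fun x hx hx0 =>
    S3 S L x (sSup L.T) hx (hd x hx hx0) htopm htop htu
  have h0 : (0 : ℝ) ∈ L.T := S4 S L hd
  -- positive levels are at least `2u`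
  have hge : ∀ x ∈ L.T, 0 < x → 2 * u ≤ x := by
    intro x hx hx0
    have h2 := S2 S hne L x hx hx0
    have htr := L.tr x hx
    rw [Matrix.trace_fin_two] at htr
    have hdx := h2.2.2
    unfold dt at hdx
    rw [hr x hx hx0] at hdx
    nlinarith [sq_nonneg (L.Q x 0 0 - L.Q x 1 1), S.hu, h2.1, h2.2.1]
  have hcomp' : IsCompact (L.T ∩ Set.Ici (2 * u)) := L.comp.inter_right isClosed_Ici
  have hne' : (L.T ∩ Set.Ici (2 * u)).Nonempty := ⟨t0, ht0, hge t0 ht0 ht0p⟩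
  have hmem := hcomp'.sInf_mem hne'
  set t := sInf (L.T ∩ Set.Ici (2 * u)) with htdef
  have htpos : 0 < t := lt_of_lt_of_le (by linarith [S.hu]) hmem.2
  have hmin : ∀ x ∈ L.T, 0 < x → t ≤ x := fun x hx hx0 =>
    csInf_le hcomp'.bddBelow ⟨hx, hge x hx hx0⟩
  have h2 := S2 S hne L t hmem.1 htpos
  have hdx := h2.2.2
  unfold dt at hdx
  rw [hr t hmem.1 htpos] at hdx
  by_cases hc : b2 * u < b1 * L.Q t 0 0
  · exact S7 S L h0 t hmem.1 htpos hmin hr 0 1 (by decide) (by simpa [be] using hc)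
  · by_cases hc' : b1 * u < b2 * L.Q t 1 1
    · exact S7 S L h0 t hmem.1 htpos hmin hr 1 0 (by decide) (by simpa [be] using hc')
    · push Not at hc hc'
      have hb1 := S.hb1
      have hb2 := S.hb2
      have hu := S.hu
      have h3 : (b1 * L.Q t 0 0) * (b2 * L.Q t 1 1) ≤ (b2 * u) * (b1 * u) :=
        mul_le_mul hc hc' (by have := h2.2.1; positivity) (by positivity)
      have h4 : b1 * b2 * (L.Q t 0 0 * L.Q t 1 1 - u ^ 2) ≤ 0 := by nlinarith
      have h5 : 0 < b1 * b2 * (L.Q t 0 0 * L.Q t 1 1 - u ^ 2) := by positivity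
      linarith

/-- for distinct positive inverse temperatures, `U = {0}` -/
theorem noU (b1 b2 : ℝ) (hb1 : 0 < b1) (hb2 : 0 < b2) (hne : b1 ≠ b2)
    (hP1 : Tendsto (FN b1) atTop (𝓝 (Fo b1))) (hP2 : Tendsto (FN b2) atTop (𝓝 (Fo b2)))
    (u : ℝ) (hu : memU b1 b2 u) : u = 0 := by
  by_contra hu0
  obtain ⟨v, hv, hv1, hvU, hmax⟩ := exists_maxU b1 b2 hb1 hb2 ⟨u, hu0, hu⟩
  obtain ⟨L⟩ := thmL b1 b2 v hb1 hb2 hvU
  exact setting_false ⟨hb1, hb2, hv, hv1, hmax, hP1, hP2⟩ hne L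

end SKC.Z
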