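import Pool.Agent.H.MP_08eaf3_pr.Z.OkP

/-!
# Part Z: Lipschitz bound of the moments
-/

set_option autoImplicit false
set_option linter.unusedSectionVars false

open MeasureTheory ProbabilityTheory Filter Topology Matrix

namespace SKC.Z

/-- functions with a Lipschitz bound for `n1` are continuous -/
theorem SM2_cont {K : Type} [Fintype K] (f : (K → ℝ) → ℝ) (C : ℝ)
    (h : ∀ z z', |f z - f z'| ≤ C * n1 (z - z')) : Continuous f := by
  rw [Metric.continuous_iff]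
  intro y ε hε
  have hn1c : Continuous (fun z' : K → ℝ => C * n1 (z' - y)) := by
    unfold n1
    fun_prop
  have h0 : C * n1 (y - y) < ε := by
    rw [sub_self]
    unfold n1
    simpa using hε
  have hev := hn1c.continuousAt.eventually (gt_mem_nhds h0)
  obtain ⟨δ, hδ, hball⟩ := Metric.eventually_nhds_iff.mp hev
  refine ⟨δ, hδ, fun a ha => ?_⟩
  rw [Real.dist_eq]
  exact lt_of_le_of_lt (h a y) (hball ha)

theorem SM2_n1_nonneg {K : Type} [Fintype K] (z : K → ℝ) : 0 ≤ n1 z := by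
  unfold n1
  exact Finset.sum_nonneg fun _ _ => abs_nonneg _

/-- `|V_e| ≤ 1` and `V_e` is Lipschitz, uniformly.

Proof. `M' = Mg β l3 c` satisfies `|M'| < 1` and is 1-Lipschitz for `n1` (`Mg_lip`), so `M'^e`
is bounded by 1 and `e`-Lipschitz; `|V_e| ≤ 1` by `ChE_mono`, `ChE_const`. The Lipschitz bound for
`n1 (z - z') ≤ 1` is `ChE_lip` with `L = e`; for `n1 (z - z') > 1` use `|V_e(z) - V_e(z')| ≤ 2`. -/
theorem Vv_lip {K : Type} [Fintype K] [DecidableEq K] (β : K → ℝ) (e : ℕ) :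
    ∃ C : ℝ, 0 ≤ C ∧ ∀ l2 l3 : List (Step K), Ok (l2 ++ l3) → ∀ c z z',
      |Vv β l2 l3 c e z| ≤ 1 ∧
      |Vv β l2 l3 c e z - Vv β l2 l3 c e z'| ≤ C * n1 (z - z') := by
  obtain ⟨C, hC0, hC⟩ := ChE_lip β
  refine ⟨max (C + e) 2, le_max_of_le_right (by norm_num), fun l2 l3 hl c z z' => ?_⟩
  have hl3 : Ok l3 := hl.right
  have hF : LG (PsiL β l3 F0) := LG_PsiL β l3 F0 LG_F0
  have hMb : ∀ y, |Mg β l3 c y| ≤ 1 := fun y => (Mg_lt_one β l3 c y).le
  have hMp : ∀ y, |Mg β l3 c y ^ e| ≤ 1 := fun y => by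
    rw [abs_pow]
    exact pow_le_one₀ (abs_nonneg _) (hMb y)
  have hMl : ∀ y y', |Mg β l3 c y ^ e - Mg β l3 c y' ^ e| ≤ (e : ℝ) * n1 (y - y') := by
    intro y y'
    have h1 := abs_pow_sub_pow_le (Mg β l3 c y) (Mg β l3 c y') e
    have h2 : max |Mg β l3 c y| |Mg β l3 c y'| ^ (e - 1) ≤ 1 :=
      pow_le_one₀ (le_max_of_le_left (abs_nonneg _)) (max_le (hMb y) (hMb y'))
    have h3 := Mg_lip β l3 hl3 c y y'
    have h4 : 0 ≤ |Mg β l3 c y - Mg β l3 c y'| * (e : ℝ) :=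
      mul_nonneg (abs_nonneg _) (Nat.cast_nonneg e)
    calc |Mg β l3 c y ^ e - Mg β l3 c y' ^ e|
        ≤ |Mg β l3 c y - Mg β l3 c y'| * (e : ℝ) * max |Mg β l3 c y| |Mg β l3 c y'| ^ (e - 1) := h1
      _ ≤ |Mg β l3 c y - Mg β l3 c y'| * (e : ℝ) * 1 := mul_le_mul_of_nonneg_left h2 h4
      _ = (e : ℝ) * |Mg β l3 c y - Mg β l3 c y'| := by ring
      _ ≤ (e : ℝ) * n1 (y - y') := mul_le_mul_of_nonneg_left h3 (Nat.cast_nonneg e)
  have hcont : Continuous (fun y => Mg β l3 c y ^ e) := SM2_cont _ e hMl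
  have hEG : ∀ h : (K → ℝ) → ℝ, Continuous h → (∀ y, |h y| ≤ 1) → EG h := by
    intro h hc hb
    refine ⟨hc, 1, fun y => (hb y).trans ?_⟩
    rw [one_mul, one_mul]
    exact Real.one_le_exp (SM2_n1_nonneg y)
  have hE0 : EG (fun y => Mg β l3 c y ^ e) := hEG _ hcont hMp
  have hE1 : EG (fun _ : K → ℝ => (1 : ℝ)) := hEG _ continuous_const fun _ => by simp
  have hE2 : EG (fun _ : K → ℝ => (-1 : ℝ)) := hEG _ continuous_const fun _ => by simp
  have hbd : ∀ y, |Vv β l2 l3 c e y| ≤ 1 := by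
    intro y
    rw [abs_le]
    constructor
    · have h1 := ChE_mono β l2 (PsiL β l3 F0) (fun _ => (-1 : ℝ)) (fun y => Mg β l3 c y ^ e) hF
        hE2 hE0 (fun y => (abs_le.mp (hMp y)).1) y
      rw [ChE_const β l2 (PsiL β l3 F0) hF (-1)] at h1
      exact h1
    · have h1 := ChE_mono β l2 (PsiL β l3 F0) (fun y => Mg β l3 c y ^ e) (fun _ => (1 : ℝ)) hF
        hE0 hE1 (fun y => (abs_le.mp (hMp y)).2) y
      rw [ChE_const β l2 (PsiL β l3 F0) hF 1] at h1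
      exact h1
  refine ⟨hbd z, ?_⟩
  rcases le_total (n1 (z - z')) 1 with h | h
  · have h1 := hC l2 l3 hl (fun y => Mg β l3 c y ^ e) e (Nat.cast_nonneg e) hMl hMp z z' h
    exact h1.trans (mul_le_mul_of_nonneg_right (le_max_left _ _) (SM2_n1_nonneg _))
  · have h1 : |Vv β l2 l3 c e z - Vv β l2 l3 c e z'| ≤ 2 :=
      (abs_sub _ _).trans (by linarith [hbd z, hbd z'])
    have h2 : (2 : ℝ) * 1 ≤ max (C + e) 2 * n1 (z - z') :=
      mul_le_mul (le_max_right _ _) h (by norm_num) (le_max_of_le_right (by norm_num))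
    linarith

end SKC.Z
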