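import Pool.Agent.H.MP_08eaf3_pr.Z.SM1
import Pool.Agent.H.MP_08eaf3_pr.Z.SM2

/-!
# Part Z: uniform modulus in the single chain
-/

set_option autoImplicit false
set_option linter.unusedSectionVars false

open MeasureTheory ProbabilityTheory Filter Topology Matrix

namespace SKC.Z

/-- lower bound of the increments of the hyperbolic tangent on `[-R, R]` -/
theorem SM3_tanh_incr (R v w : ℝ) (hv : |v| ≤ R) (hw : |w| ≤ R) (h : v ≤ w) :
    w - v ≤ Real.cosh R ^ 2 * (Real.tanh w - Real.tanh v) := by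
  have hR : 0 ≤ R := (abs_nonneg _).trans hv
  have hcv := Real.cosh_pos v
  have hcw := Real.cosh_pos w
  have h1 : Real.tanh w - Real.tanh v = Real.sinh (w - v) / (Real.cosh w * Real.cosh v) := by
    rw [Real.tanh_eq_sinh_div_cosh, Real.tanh_eq_sinh_div_cosh, Real.sinh_sub]
    field_simp
  have h2 : w - v ≤ Real.sinh (w - v) := Real.self_le_sinh_iff.mpr (sub_nonneg.mpr h)
  have h3 : Real.cosh v ≤ Real.cosh R := by
    rw [Real.cosh_le_cosh, abs_of_nonneg hR]
    exact hv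
  have h4 : Real.cosh w ≤ Real.cosh R := by
    rw [Real.cosh_le_cosh, abs_of_nonneg hR]
    exact hw
  have h5 : Real.cosh w * Real.cosh v ≤ Real.cosh R ^ 2 := by
    rw [pow_two]
    exact mul_le_mul h4 h3 hcv.le (Real.cosh_pos R).le
  have h6 : 0 ≤ Real.sinh (w - v) := (sub_nonneg.mpr h).trans h2
  rw [h1]
  have h7 : Real.sinh (w - v) * (Real.cosh w * Real.cosh v) ≤
      Real.sinh (w - v) * Real.cosh R ^ 2 := mul_le_mul_of_nonneg_left h5 h6
  have h8 : Real.sinh (w - v) ≤ Real.cosh R ^ 2 *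
      (Real.sinh (w - v) / (Real.cosh w * Real.cosh v)) := by
    rw [← mul_div_assoc, le_div_iff₀ (mul_pos hcw hcv)]
    linarith
  exact h2.trans h8

/-- (Mod) For the single system the moment `V_e` is a function of the magnetisation `V_1` with a
uniform modulus.

Proof. Let `C1` be the constant of `Vv_lip`, `c` that of `mg1_mono`, `C2` that of `Mg_tails`. Choose
`R > 0` with `2 e C2 exp(-2R) ≤ η`. By symmetry (both sides are symmetric in `v, w`).
(a) `|v|, |w| ≤ R`: `|tanh v - tanh w| ≥ (1 - tanh R ^ 2) |v - w|` (mean value theorem,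
`tanh' = 1 - tanh²`), hence `|V_e(v) - V_e(w)| ≤ C1 |v - w| ≤ C1 / (c (1 - tanh R ^2)) |M(v) - M(w)|`.
(b) `v > R`: `1 - M(v) ≤ C2 exp(-2R)`; by `Vv_near_one` `|1 - V_e(v)| ≤ e (1 - M(v))` and
`|1 - V_e(w)| ≤ e (1 - M(w)) ≤ e (1 - M(v)) + e |M(v) - M(w)|`; sum `≤ η + e |M(v) - M(w)|`.
(c) `v < -R`: the same with `(-1)^e`, using `Mg_odd` (`1 + M(v) = 1 - M(-v)`).
(d) `|w| > R`: exchange the roles. So `K = C1 / (c (1 - tanh R ^2)) + e` works.
Note `mg1 b l v = Mg (fun _ => b) l () (fun _ => v)` by definition. -/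
theorem single_mod (b : ℝ) (e : ℕ) (η : ℝ) (hη : 0 < η) :
    ∃ K : ℝ, 0 ≤ K ∧ ∀ s2 s3 : List (Step Unit), Ok (s2 ++ s3) → ∀ v w : Unit → ℝ,
      |Vv (fun _ : Unit => b) s2 s3 () e v - Vv (fun _ : Unit => b) s2 s3 () e w| ≤
        η + K * |Vv (fun _ : Unit => b) s2 s3 () 1 v - Vv (fun _ : Unit => b) s2 s3 () 1 w| := by
  obtain ⟨C1, hC10, hC1⟩ := Vv_lip (fun _ : Unit => b) e
  obtain ⟨c, hc, hmono⟩ := mg1_mono b
  obtain ⟨C2, hC21, hC2⟩ := Mg_tails (fun _ : Unit => b)
  have he0 : (0 : ℝ) ≤ e := Nat.cast_nonneg e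
  obtain ⟨R, hR0, hR⟩ : ∃ R : ℝ, 0 ≤ R ∧ 2 * (e : ℝ) * (C2 * Real.exp (-(2 * R))) ≤ η := by
    have hden : 0 < 2 * (e : ℝ) * C2 + 1 := by positivity
    have hq : 0 < η / (2 * (e : ℝ) * C2 + 1) := div_pos hη hden
    refine ⟨max 0 (-(Real.log (η / (2 * (e : ℝ) * C2 + 1))) / 2), le_max_left _ _, ?_⟩
    have h1 : Real.exp (-(2 * max 0 (-(Real.log (η / (2 * (e : ℝ) * C2 + 1))) / 2))) ≤
        η / (2 * (e : ℝ) * C2 + 1) := by
      rw [← Real.le_log_iff_exp_le hq]
      have := le_max_right (0 : ℝ) (-(Real.log (η / (2 * (e : ℝ) * C2 + 1))) / 2)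
      linarith
    have h2 : 2 * (e : ℝ) * C2 * Real.exp (-(2 * max 0 (-(Real.log (η / (2 * (e : ℝ) * C2 + 1))) / 2)))
        ≤ 2 * (e : ℝ) * C2 * (η / (2 * (e : ℝ) * C2 + 1)) :=
      mul_le_mul_of_nonneg_left h1 (by positivity)
    have h3 : 2 * (e : ℝ) * C2 * (η / (2 * (e : ℝ) * C2 + 1)) ≤ η := by
      rw [← mul_div_assoc, div_le_iff₀ hden]
      nlinarith [hη.le]
    linarith
  refine ⟨C1 * (Real.cosh R ^ 2 / c) + e, by positivity, fun s2 s3 hs => ?_⟩
  -- the magnetisation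
  have hM : ∀ v : Unit → ℝ, Vv (fun _ : Unit => b) s2 s3 () 1 v = mg1 b (s2 ++ s3) (v ()) := by
    intro v
    rw [Vv_one]
    rfl
  -- the far cases
  have hfar : ∀ v w : Unit → ℝ, R < |v ()| →
      |Vv (fun _ : Unit => b) s2 s3 () e v - Vv (fun _ : Unit => b) s2 s3 () e w| ≤
        η + e * |Vv (fun _ : Unit => b) s2 s3 () 1 v - Vv (fun _ : Unit => b) s2 s3 () 1 w| := by
    intro v w hv
    rw [Vv_one (fun _ : Unit => b) s2 s3 ()]
    obtain ⟨hv1, hv2⟩ := Vv_near_one (fun _ : Unit => b) s2 s3 hs () e v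
    obtain ⟨hw1, hw2⟩ := Vv_near_one (fun _ : Unit => b) s2 s3 hs () e w
    rcases lt_abs.mp hv with h | h
    · have h1 := (hC2 (s2 ++ s3) hs () v).1
      have h2 : Real.exp (-(2 * v ())) ≤ Real.exp (-(2 * R)) := Real.exp_le_exp.mpr (by linarith)
      have h3 : 1 - Mg (fun _ : Unit => b) (s2 ++ s3) () v ≤ C2 * Real.exp (-(2 * R)) :=
        h1.trans (mul_le_mul_of_nonneg_left h2 (by linarith))
      have h4 : 1 - Mg (fun _ : Unit => b) (s2 ++ s3) () w ≤
          (1 - Mg (fun _ : Unit => b) (s2 ++ s3) () v) +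
          |Mg (fun _ : Unit => b) (s2 ++ s3) () v - Mg (fun _ : Unit => b) (s2 ++ s3) () w| := by
        have := le_abs_self (Mg (fun _ : Unit => b) (s2 ++ s3) () v -
          Mg (fun _ : Unit => b) (s2 ++ s3) () w)
        linarith
      have h5 := mul_le_mul_of_nonneg_left h3 he0
      have h6 := mul_le_mul_of_nonneg_left h4 he0
      have h7 : |Vv (fun _ : Unit => b) s2 s3 () e v - Vv (fun _ : Unit => b) s2 s3 () e w| ≤
          |1 - Vv (fun _ : Unit => b) s2 s3 () e v| + |1 - Vv (fun _ : Unit => b) s2 s3 () e w| := by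
        have h8 := abs_sub (1 - Vv (fun _ : Unit => b) s2 s3 () e w)
          (1 - Vv (fun _ : Unit => b) s2 s3 () e v)
        have h9 : 1 - Vv (fun _ : Unit => b) s2 s3 () e w - (1 - Vv (fun _ : Unit => b) s2 s3 () e v)
          = Vv (fun _ : Unit => b) s2 s3 () e v - Vv (fun _ : Unit => b) s2 s3 () e w := by ring
        rw [h9] at h8
        linarith
      nlinarith [h5, h6, h7, hv1, hw1, hR]
    · have h0 : 1 + Mg (fun _ : Unit => b) (s2 ++ s3) () v =
          1 - Mg (fun _ : Unit => b) (s2 ++ s3) () (-v) := by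
        rw [Mg_odd]
        ring
      have h1 := (hC2 (s2 ++ s3) hs () (-v)).1
      have h2 : Real.exp (-(2 * (-v) ())) ≤ Real.exp (-(2 * R)) := by
        refine Real.exp_le_exp.mpr ?_
        have : (-v) () = -(v ()) := rfl
        rw [this]
        linarith
      have h3 : 1 + Mg (fun _ : Unit => b) (s2 ++ s3) () v ≤ C2 * Real.exp (-(2 * R)) := by
        rw [h0]
        exact h1.trans (mul_le_mul_of_nonneg_left h2 (by linarith))
      have h4 : 1 + Mg (fun _ : Unit => b) (s2 ++ s3) () w ≤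
          (1 + Mg (fun _ : Unit => b) (s2 ++ s3) () v) +
          |Mg (fun _ : Unit => b) (s2 ++ s3) () v - Mg (fun _ : Unit => b) (s2 ++ s3) () w| := by
        have := neg_abs_le (Mg (fun _ : Unit => b) (s2 ++ s3) () v -
          Mg (fun _ : Unit => b) (s2 ++ s3) () w)
        linarith
      have h5 := mul_le_mul_of_nonneg_left h3 he0
      have h6 := mul_le_mul_of_nonneg_left h4 he0
      have h7 : |Vv (fun _ : Unit => b) s2 s3 () e v - Vv (fun _ : Unit => b) s2 s3 () e w| ≤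
          |(-1) ^ e - Vv (fun _ : Unit => b) s2 s3 () e v| +
          |(-1) ^ e - Vv (fun _ : Unit => b) s2 s3 () e w| := by
        have h8 := abs_sub ((-1) ^ e - Vv (fun _ : Unit => b) s2 s3 () e w)
          ((-1) ^ e - Vv (fun _ : Unit => b) s2 s3 () e v)
        have h9 : (-1) ^ e - Vv (fun _ : Unit => b) s2 s3 () e w -
            ((-1) ^ e - Vv (fun _ : Unit => b) s2 s3 () e v)
          = Vv (fun _ : Unit => b) s2 s3 () e v - Vv (fun _ : Unit => b) s2 s3 () e w := by ring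
        rw [h9] at h8
        linarith
      nlinarith [h5, h6, h7, hv2, hw2, hR]
  -- the near case, ordered
  have hnear : ∀ v w : Unit → ℝ, |v ()| ≤ R → |w ()| ≤ R → v () ≤ w () →
      |Vv (fun _ : Unit => b) s2 s3 () e v - Vv (fun _ : Unit => b) s2 s3 () e w| ≤
        C1 * (Real.cosh R ^ 2 / c) *
          |Vv (fun _ : Unit => b) s2 s3 () 1 v - Vv (fun _ : Unit => b) s2 s3 () 1 w| := by
    intro v w hv hw hvw
    have h1 := (hC1 s2 s3 hs () v w).2
    have h2 : n1 (v - w) = w () - v () := by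
      unfold n1
      rw [Fintype.sum_unique]
      have : (v - w) default = v () - w () := rfl
      rw [this, abs_of_nonpos (sub_nonpos.mpr hvw)]
      ring
    have h3 := SM3_tanh_incr R (v ()) (w ()) hv hw hvw
    have h4 := hmono (s2 ++ s3) hs (v ()) (w ()) hvw
    have h5 : mg1 b (s2 ++ s3) (w ()) - mg1 b (s2 ++ s3) (v ()) ≤
        |Vv (fun _ : Unit => b) s2 s3 () 1 v - Vv (fun _ : Unit => b) s2 s3 () 1 w| := by
      rw [hM, hM, abs_sub_comm]
      exact le_abs_self _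
    have h6 : Real.tanh (w ()) - Real.tanh (v ()) ≤
        |Vv (fun _ : Unit => b) s2 s3 () 1 v - Vv (fun _ : Unit => b) s2 s3 () 1 w| / c := by
      rw [le_div_iff₀ hc]
      linarith
    have h7 : w () - v () ≤ Real.cosh R ^ 2 *
        (|Vv (fun _ : Unit => b) s2 s3 () 1 v - Vv (fun _ : Unit => b) s2 s3 () 1 w| / c) :=
      h3.trans (mul_le_mul_of_nonneg_left h6 (by positivity))
    calc |Vv (fun _ : Unit => b) s2 s3 () e v - Vv (fun _ : Unit => b) s2 s3 () e w|
        ≤ C1 * n1 (v - w) := h1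
      _ = C1 * (w () - v ()) := by rw [h2]
      _ ≤ C1 * (Real.cosh R ^ 2 *
        (|Vv (fun _ : Unit => b) s2 s3 () 1 v - Vv (fun _ : Unit => b) s2 s3 () 1 w| / c)) :=
          mul_le_mul_of_nonneg_left h7 hC10
      _ = C1 * (Real.cosh R ^ 2 / c) *
          |Vv (fun _ : Unit => b) s2 s3 () 1 v - Vv (fun _ : Unit => b) s2 s3 () 1 w| := by ring
  intro v w
  have hD : 0 ≤ |Vv (fun _ : Unit => b) s2 s3 () 1 v - Vv (fun _ : Unit => b) s2 s3 () 1 w| :=
    abs_nonneg _
  have hk : 0 ≤ C1 * (Real.cosh R ^ 2 / c) := by positivity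
  have hkD := mul_nonneg hk hD
  have heD := mul_nonneg he0 hD
  by_cases hv : |v ()| ≤ R
  · by_cases hw : |w ()| ≤ R
    · rcases le_total (v ()) (w ()) with h | h
      · have := hnear v w hv hw h
        linarith
      · have h1 := hnear w v hw hv h
        rw [abs_sub_comm, abs_sub_comm (Vv (fun _ : Unit => b) s2 s3 () 1 w)] at h1
        linarith
    · have h1 := hfar w v (not_le.mp hw)
      rw [abs_sub_comm, abs_sub_comm (Vv (fun _ : Unit => b) s2 s3 () 1 w)] at h1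
      linarith
  · have h1 := hfar v w (not_le.mp hv)
    linarith

end SKC.Z
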