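import Pool.Agent.H.MP_08eaf3_pr.Z.TC0
import Pool.Agent.H.MP_08eaf3_pr.Z.SM3

/-!
# Part Z: the test function of Fun
-/

set_option autoImplicit false
set_option linter.unusedSectionVars false

open MeasureTheory ProbabilityTheory Filter Topology Matrix

namespace SKC.Z

/-- the test function `(|V_e(z) - V_e(z')| - η - K |V_1(z) - V_1(z')|)_+` -/
noncomputable def phiFun (η K : ℝ) (x : Fin 4 → ℝ) : ℝ :=
  max 0 (|x 1 - x 3| - η - K * |x 0 - x 2|)

theorem phiFun_continuous (η K : ℝ) : Continuous (phiFun η K) := by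
  unfold phiFun
  fun_prop

/-- In the single chain the two-copy expectation of `phiFun` vanishes, by `single_mod`
(`E2` of the zero function). -/
theorem E2_single_zero (b : ℝ) (e : ℕ) (η K : ℝ)
    (hK : ∀ s2 s3 : List (Step Unit), Ok (s2 ++ s3) → ∀ v w : Unit → ℝ,
      |Vv (fun _ : Unit => b) s2 s3 () e v - Vv (fun _ : Unit => b) s2 s3 () e w| ≤
        η + K * |Vv (fun _ : Unit => b) s2 s3 () 1 v - Vv (fun _ : Unit => b) s2 s3 () 1 w|)
    (s1 s2 s3 : List (Step Unit)) (hs : Ok (s1 ++ (s2 ++ s3))) :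
    E2 (fun _ : Unit => b) s1 (PsiL (fun _ : Unit => b) (s2 ++ s3) F0)
      (fun z z' => phiFun η K (VVt (fun _ : Unit => b) s2 s3 () e z z')) = 0 := by
  have hz : ∀ z z' : Unit → ℝ,
      phiFun η K (VVt (fun _ : Unit => b) s2 s3 () e z z') = 0 := by
    intro z z'
    unfold phiFun VVt
    simp only [Matrix.cons_val_zero, Matrix.cons_val_one, Matrix.cons_val]
    have := hK s2 s3 hs.right z z'
    exact max_eq_left (by linarith)
  unfold E2
  simp only [hz]
  have hF : LG (PsiL (fun _ : Unit => b) (s2 ++ s3) F0) := LG_PsiL _ _ _ LG_F0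
  rw [ChE_const _ _ _ hF 0, ChE_const _ _ _ hF 0]

end SKC.Z
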