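import Pool.Agent.H.MP_08eaf3_pr.Z.TC0
import Pool.Agent.H.MP_08eaf3_pr.Z.SM2
import Pool.Agent.H.MP_08eaf3_pr.Z.BL1

/-!
# Part Z: lower bound of two-copy expectations
-/

set_option autoImplicit false
set_option linter.unusedSectionVars false

open MeasureTheory ProbabilityTheory Filter Topology Matrix

namespace SKC.Z

theorem Fu2_cont_of_lip {K : Type} [Fintype K] (f : (K → ℝ) → ℝ) (C : ℝ)
    (h : ∀ z z', |f z - f z'| ≤ C * n1 (z - z')) : Continuous f := by
  rw [continuous_iff_continuousAt]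
  intro z0
  unfold ContinuousAt
  rw [tendsto_iff_norm_sub_tendsto_zero]
  have h1 : Tendsto (fun z : K → ℝ => C * n1 (z - z0)) (𝓝 z0) (𝓝 (C * n1 (z0 - z0))) :=
    ((A.continuous_n1.comp (continuous_id.sub continuous_const)).const_mul C).tendsto z0
  have h2 : C * n1 (z0 - z0) = 0 := by
    rw [sub_self, A.n1_zero, mul_zero]
  rw [h2] at h1
  exact squeeze_zero (fun z => norm_nonneg _) (fun z => by rw [Real.norm_eq_abs]; exact h z z0) h1

theorem Fu2_ChE_close {K : Type} [Fintype K] [DecidableEq K] (β : K → ℝ) (l : List (Step K))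
    (F g g' : (K → ℝ) → ℝ) (hF : LG F) (hg : EG g) (hg' : EG g') (ε : ℝ)
    (h : ∀ z, |g z - g' z| ≤ ε) (z : K → ℝ) : |ChE β l F g z - ChE β l F g' z| ≤ ε := by
  have key : ∀ f f' : (K → ℝ) → ℝ, EG f → EG f' → (∀ z, f z ≤ f' z + ε) →
      ChE β l F f z ≤ ChE β l F f' z + ε := by
    intro f f' hf hf' hle
    have h1 := ChE_mono β l F f (fun y => f' y + ε) hF hf (hf'.add (EG.const ε)) hle z
    have h2 := ChE_add β l F f' (fun _ => ε) hF hf' (EG.const ε) z
    rw [h2, ChE_const β l F hF ε] at h1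
    exact h1
  have a1 := key g g' hg hg' (fun y => by have := (abs_le.1 (h y)).2; linarith)
  have a2 := key g' g hg' hg (fun y => by have := (abs_le.1 (h y)).1; linarith)
  rw [abs_le]
  constructor <;> linarith

theorem Fu2_ChE_cont {K : Type} [Fintype K] [DecidableEq K] (β : K → ℝ) (l : List (Step K))
    (F : (K → ℝ) → ℝ) (hF : LG F) (g : (K → ℝ) → (K → ℝ) → ℝ) (hg : ∀ w, EG (g w))
    (hu : ∀ ε : ℝ, 0 < ε → ∃ δ : ℝ, 0 < δ ∧ ∀ w w1, n1 (w - w1) < δ → ∀ w', |g w w' - g w1 w'| ≤ ε)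
    (z : K → ℝ) : Continuous (fun w => ChE β l F (g w) z) := by
  rw [continuous_iff_continuousAt]
  intro w0
  unfold ContinuousAt
  rw [Metric.tendsto_nhds]
  intro ε hε
  obtain ⟨δ, hδ, h⟩ := hu (ε / 2) (by linarith)
  have h1 : Tendsto (fun w : K → ℝ => n1 (w - w0)) (𝓝 w0) (𝓝 (n1 (w0 - w0))) :=
    (A.continuous_n1.comp (continuous_id.sub continuous_const)).tendsto w0
  rw [sub_self, A.n1_zero] at h1
  filter_upwards [h1.eventually (gt_mem_nhds hδ)] with w hw
  rw [Real.dist_eq]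
  have := Fu2_ChE_close β l F (g w) (g w0) hF (hg w) (hg w0) (ε / 2) (h w w0 hw) z
  linarith

theorem Fu2_tent_zero {K : Type} [Fintype K] (r : ℝ) (hr : 0 < r) (z0 y : K → ℝ) (h : r ≤ n1 (y - z0)) :
    tent r z0 y = 0 := by
  unfold tent
  apply max_eq_left
  have : 1 ≤ n1 (y - z0) / r := by
    rw [le_div_iff₀ hr]
    linarith
  linarith

/-- Lower bound of the two-copy expectation: if `Φ (VVt w w') ≥ κ` whenever `w, w'` are within `r` of
`z, z'` and `Φ ≥ 0`, then `E2 Φ ≥ κ c²` (`c` = constant of `ball_lb`).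

Proof. `Φ (VVt w w') ≥ κ tent r z w tent r z' w'`; `ChE_mono`, `ChE_smul` in both copies, then
`ball_lb`. -/
theorem E2_ge (b1 b2 : ℝ) (l1 l2 l3 : List (Step (Fin 2))) (hl : Ok (l1 ++ (l2 ++ l3)))
    (c : Fin 2) (e : ℕ) (Φ : (Fin 4 → ℝ) → ℝ) (hΦ : Continuous Φ) (hΦ0 : ∀ x, 0 ≤ Φ x)
    (κ r c0 : ℝ) (hr : 0 < r) (hκ : 0 ≤ κ) (hc0 : 0 ≤ c0) (z z' : Fin 2 → ℝ)
    (hz : c0 ≤ ChE (be b1 b2) l1 (PsiL (be b1 b2) (l2 ++ l3) F0) (tent r z) 0)
    (hz' : c0 ≤ ChE (be b1 b2) l1 (PsiL (be b1 b2) (l2 ++ l3) F0) (tent r z') 0)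
    (h : ∀ w w', n1 (w - z) < r → n1 (w' - z') < r → κ ≤ Φ (VVt (be b1 b2) l2 l3 c e w w')) :
    κ * c0 ^ 2 ≤ E2 (be b1 b2) l1 (PsiL (be b1 b2) (l2 ++ l3) F0)
      (fun w w' => Φ (VVt (be b1 b2) l2 l3 c e w w')) := by
  set β := be b1 b2 with hβ
  set F1 := PsiL β (l2 ++ l3) F0 with hF1
  have hF : LG F1 := LG_PsiL β _ _ LG_F0
  have hok : Ok (l2 ++ l3) := hl.right
  obtain ⟨C1, hC1, hL1⟩ := Vv_lip β 1
  obtain ⟨Ce, hCe, hLe⟩ := Vv_lip β e
  have b1' : ∀ w, |Vv β l2 l3 c 1 w| ≤ 1 := fun w => (hL1 l2 l3 hok c w w).1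
  have be' : ∀ w, |Vv β l2 l3 c e w| ≤ 1 := fun w => (hLe l2 l3 hok c w w).1
  have c1' : Continuous (Vv β l2 l3 c 1) :=
    Fu2_cont_of_lip _ C1 (fun w w' => (hL1 l2 l3 hok c w w').2)
  have ce' : Continuous (Vv β l2 l3 c e) :=
    Fu2_cont_of_lip _ Ce (fun w w' => (hLe l2 l3 hok c w w').2)
  set S : Set (Fin 4 → ℝ) := Set.pi Set.univ (fun _ => Set.Icc (-1 : ℝ) 1) with hS
  have hSc : IsCompact S := isCompact_univ_pi (fun _ => isCompact_Icc)
  have hmem : ∀ w w', VVt β l2 l3 c e w w' ∈ S := by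
    intro w w' i _
    have h1 := abs_le.1 (b1' w)
    have h2 := abs_le.1 (be' w)
    have h3 := abs_le.1 (b1' w')
    have h4 := abs_le.1 (be' w')
    unfold VVt
    fin_cases i
    · exact h1
    · exact h2
    · exact h3
    · exact h4
  obtain ⟨B, hB⟩ := hSc.exists_bound_of_continuousOn hΦ.continuousOn
  have hcontw : ∀ w, Continuous (fun w' => Φ (VVt β l2 l3 c e w w')) := by
    intro w
    refine hΦ.comp ?_
    rw [continuous_pi_iff]
    intro i
    unfold VVt
    fin_cases i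
    · exact continuous_const
    · exact continuous_const
    · exact c1'
    · exact ce'
  have hEG : ∀ w, EG (fun w' => Φ (VVt β l2 l3 c e w w')) := fun w =>
    EG.of_bdd (A := B) (hcontw w) (fun w' => by
      have := hB _ (hmem w w')
      rwa [Real.norm_eq_abs] at this)
  have hUC := hSc.uniformContinuousOn_of_continuous hΦ.continuousOn
  rw [Metric.uniformContinuousOn_iff] at hUC
  have hcontO : Continuous (fun w => ChE β l1 F1 (fun w' => Φ (VVt β l2 l3 c e w w')) 0) := by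
    refine Fu2_ChE_cont β l1 F1 hF (fun w w' => Φ (VVt β l2 l3 c e w w')) hEG ?_ 0
    intro ε hε
    obtain ⟨δ, hδ, hd⟩ := hUC ε hε
    refine ⟨δ / (C1 + Ce + 1), by positivity, ?_⟩
    intro w w1 hw w'
    have hpos : 0 < C1 + Ce + 1 := by positivity
    have hn0 : 0 ≤ n1 (w - w1) := A.n1_nonneg _
    have hw2 : (C1 + Ce + 1) * n1 (w - w1) < δ := by
      rw [lt_div_iff₀ hpos] at hw
      linarith
    have hdist : dist (VVt β l2 l3 c e w w') (VVt β l2 l3 c e w1 w') < δ := by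
      rw [dist_pi_lt_iff hδ]
      intro i
      have a1 := (hL1 l2 l3 hok c w w1).2
      have a2 := (hLe l2 l3 hok c w w1).2
      unfold VVt
      fin_cases i
      · have : dist (Vv β l2 l3 c 1 w) (Vv β l2 l3 c 1 w1) < δ := by
          rw [Real.dist_eq]
          nlinarith [mul_nonneg hCe hn0]
        exact this
      · have : dist (Vv β l2 l3 c e w) (Vv β l2 l3 c e w1) < δ := by
          rw [Real.dist_eq]
          nlinarith [mul_nonneg hC1 hn0]
        exact this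
      · have : dist (Vv β l2 l3 c 1 w') (Vv β l2 l3 c 1 w') < δ := by
          rw [dist_self]; exact hδ
        exact this
      · have : dist (Vv β l2 l3 c e w') (Vv β l2 l3 c e w') < δ := by
          rw [dist_self]; exact hδ
        exact this
    have := hd _ (hmem w w') _ (hmem w1 w') hdist
    rw [Real.dist_eq] at this
    exact this.le
  have hEGt : ∀ z0 : Fin 2 → ℝ, EG (tent r z0) := fun z0 =>
    EG.of_bdd (A := 1) (tent_continuous r z0) (fun y => by
      rw [abs_of_nonneg (tent_nonneg r z0 y)]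
      exact tent_le_one r hr z0 y)
  have hpt : ∀ w w', κ * tent r z w * tent r z' w' ≤ Φ (VVt β l2 l3 c e w w') := by
    intro w w'
    by_cases h1 : n1 (w - z) < r
    · by_cases h2 : n1 (w' - z') < r
      · refine le_trans ?_ (h w w' h1 h2)
        have t1 := tent_le_one r hr z w
        have t2 := tent_le_one r hr z' w'
        have t3 := tent_nonneg r z w
        have t4 := tent_nonneg r z' w'
        have t5 : κ * tent r z w ≤ κ := mul_le_of_le_one_right hκ t1
        calc κ * tent r z w * tent r z' w' ≤ κ * tent r z w * 1 :=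
              mul_le_mul_of_nonneg_left t2 (mul_nonneg hκ t3)
          _ ≤ κ := by linarith
      · rw [Fu2_tent_zero r hr z' w' (not_lt.1 h2), mul_zero]
        exact hΦ0 _
    · rw [Fu2_tent_zero r hr z w (not_lt.1 h1), mul_zero, zero_mul]
      exact hΦ0 _
  have hinner : ∀ w, (κ * c0) * tent r z w ≤ ChE β l1 F1 (fun w' => Φ (VVt β l2 l3 c e w w')) 0 := by
    intro w
    have t3 := tent_nonneg r z w
    have h1 := ChE_mono β l1 F1 (fun w' => (κ * tent r z w) * tent r z' w')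
      (fun w' => Φ (VVt β l2 l3 c e w w')) hF ((hEGt z').const_mul _) (hEG w) (hpt w) 0
    have h2 := ChE_smul β l1 F1 (tent r z') (κ * tent r z w) 0
    rw [h2] at h1
    have h3 : (κ * tent r z w) * c0 ≤ (κ * tent r z w) * ChE β l1 F1 (tent r z') 0 :=
      mul_le_mul_of_nonneg_left hz' (mul_nonneg hκ t3)
    linarith
  have hbdO : ∀ w, |ChE β l1 F1 (fun w' => Φ (VVt β l2 l3 c e w w')) 0| ≤ B := by
    intro w
    have h1 := ChE_mono β l1 F1 (fun w' => Φ (VVt β l2 l3 c e w w')) (fun _ => B) hF (hEG w)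
      (EG.const B) (fun w' => by
        have := hB _ (hmem w w')
        rw [Real.norm_eq_abs] at this
        exact (abs_le.1 this).2) 0
    rw [ChE_const β l1 F1 hF B] at h1
    rw [abs_of_nonneg]
    · exact h1
    · exact le_trans (mul_nonneg (mul_nonneg hκ hc0) (tent_nonneg r z w)) (hinner w)
  have hfin := ChE_mono β l1 F1 (fun w => (κ * c0) * tent r z w)
    (fun w => ChE β l1 F1 (fun w' => Φ (VVt β l2 l3 c e w w')) 0) hF ((hEGt z).const_mul _)
    (EG.of_bdd hcontO hbdO) hinner 0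
  rw [ChE_smul β l1 F1 (tent r z) (κ * c0) 0] at hfin
  have h4 : (κ * c0) * c0 ≤ (κ * c0) * ChE β l1 F1 (tent r z) 0 :=
    mul_le_mul_of_nonneg_left hz (mul_nonneg hκ hc0)
  unfold E2
  calc κ * c0 ^ 2 = (κ * c0) * c0 := by ring
    _ ≤ _ := h4
    _ ≤ _ := hfin

end SKC.Z
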