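import Pool.Agent.H.MP_08eaf3_pr.Z.TC3
import Pool.Agent.H.MP_08eaf3_pr.Z.Fu1
import Pool.Agent.H.MP_08eaf3_pr.Z.Fu2
import Pool.Agent.H.MP_08eaf3_pr.Z.BL2

/-!
# Part Z: (Fun)
-/

set_option autoImplicit false
set_option linter.unusedSectionVars false

open MeasureTheory ProbabilityTheory Filter Topology Matrix

namespace SKC.Z

/-- (Fun). For near-optimal pair paths through a nondegenerate level `Q`: if two points in a fixed
ball have nearly the same magnetisation `M_c = V_1`, then they have nearly the same `V_e`.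

Proof. Let `K` be the constant of `single_mod (be b1 b2 c) e (η/4)`, `C` the constant of `Vv_lip` for
both exponents `1` and `e`. Choose `r > 0` and `κ > 0` with
`2 C r + K (κ + 2 C r) ≤ η/4`. Let `c0` be the constant of `ball_lb` for `R, r`. Apply `two_copy` with
`Φ = phiFun (η/4) K` and `ε = (η/4) c0² / 2`. For `δ ≤ δ0` take a single path with
`exists_singlePath` (for `δ' = δ0`; use `PairPath.le` to replace `δ` by `δ0 > 0`; the levels
`0 ≤ Q c c ≤ Q' c c ≤ 1` because `Q = Qtot l1`, `Q' = Qtot (l1 ++ l2)`, `Qtot_psd`).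
`E2_single_zero` gives `E2 pair ≤ ε`. If `|V_e(z) - V_e(z')| > η` and `|V_1(z) - V_1(z')| ≤ κ`, then for
`w, w'` within `r`: `phiFun ≥ η - 2 C r - η/4 - K (κ + 2 C r) ≥ η/4` (more precisely `≥ η/2`), so
`E2 pair ≥ (η/4) c0²` by `E2_ge`: contradiction. -/
theorem Fun_lemma {b1 b2 u : ℝ} (S : Setting b1 b2 u) (Q Q' : Matrix (Fin 2) (Fin 2) ℝ)
    (hT : TreeFull b1 b2 u Q Q') (hQ : Q.PosSemidef) (hdet : 0 < Q 0 0 * Q 1 1 - Q 0 1 ^ 2)
    (c : Fin 2) (e : ℕ) (R η : ℝ) (hη : 0 < η) :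
    ∃ κ : ℝ, 0 < κ ∧ ∃ δ0 : ℝ, 0 < δ0 ∧ ∀ δ : ℝ, 0 ≤ δ → δ ≤ δ0 →
      ∀ l1 l2 l3 : List (Step (Fin 2)), PairPath b1 b2 u Q Q' δ l1 l2 l3 →
      ∀ z z' : Fin 2 → ℝ, n1 z ≤ R → n1 z' ≤ R →
        |Mg (be b1 b2) (l2 ++ l3) c z - Mg (be b1 b2) (l2 ++ l3) c z'| ≤ κ →
        |Vv (be b1 b2) l2 l3 c e z - Vv (be b1 b2) l2 l3 c e z'| ≤ η := by
  have hbc : 0 < be b1 b2 c := by
    fin_cases c
    · exact S.hb1
    · exact S.hb2
  obtain ⟨K, hK0, hK⟩ := single_mod (be b1 b2 c) e (η / 4) (by positivity)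
  obtain ⟨C1, hC1, hl1⟩ := Vv_lip (be b1 b2) 1
  obtain ⟨C2, hC2, hl2⟩ := Vv_lip (be b1 b2) e
  set C : ℝ := C1 + C2 with hC
  have hC0 : 0 ≤ C := by positivity
  set r : ℝ := η / (32 * (C + 1) * (K + 1)) with hr
  have hr0 : 0 < r := by positivity
  set κ : ℝ := η / (16 * (K + 1)) with hκ
  have hκ0 : 0 < κ := by positivity
  have hCr : C * r ≤ η / (32 * (K + 1)) := by
    rw [hr, mul_div_assoc', div_le_div_iff₀ (by positivity) (by positivity)]
    have : 0 ≤ η * (32 * (K + 1)) := by positivity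
    nlinarith
  have hκK : K * κ ≤ η / 16 := by
    rw [hκ, mul_div_assoc', div_le_div_iff₀ (by positivity) (by positivity)]
    nlinarith
  have hCr1 : 2 * (C * r) ≤ η / 16 := by
    have h1 : η / (32 * (K + 1)) ≤ η / 32 := by
      apply div_le_div_of_nonneg_left hη.le (by norm_num)
      nlinarith
    linarith
  have hCrK : K * (2 * (C * r)) ≤ η / 16 := by
    have h1 : K * (2 * (C * r)) ≤ K * (2 * (η / (32 * (K + 1)))) := by gcongr
    have h2 : K * (2 * (η / (32 * (K + 1)))) ≤ η / 16 := by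
      rw [mul_div_assoc', mul_div_assoc', div_le_div_iff₀ (by positivity) (by positivity)]
      nlinarith
    linarith
  obtain ⟨c0, hc0, hball⟩ := ball_lb b1 b2 S.hb1 S.hb2 Q hQ hdet R r hr0
  obtain ⟨δ0, hδ0, htc⟩ := two_copy S Q Q' hT c e (phiFun (η / 4) K) (phiFun_continuous _ _)
    (η / 4 * c0 ^ 2 / 2) (by positivity)
  refine ⟨κ, hκ0, δ0, hδ0, fun δ h0 hδ l1 l2 l3 hp z z' hz hz' hM => ?_⟩
  have hp0 := hp.le hδ
  have hok := hp.ok
  have hQ1 : Qtot l1 = Q := hp.2.2.1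
  have hQ2 : Qtot (l1 ++ l2) = Q' := hp.2.2.2.1
  have hQ3 : Qtot (l1 ++ (l2 ++ l3)) = mat 1 1 u := hp.2.2.2.2.1
  have hq0 : 0 ≤ Q c c := by rw [← hQ1]; exact (Qtot_psd l1).diag_nonneg
  have hq1 : Q c c ≤ Q' c c := by
    rw [← hQ2, Qtot_append, Matrix.add_apply, hQ1]
    have := (Qtot_psd l2).diag_nonneg (i := c)
    linarith
  have hq2 : Q' c c ≤ 1 := by
    have h1 : Qtot (l1 ++ l2) c c + Qtot l3 c c = 1 := by
      rw [← Matrix.add_apply, ← Qtot_append, List.append_assoc, hQ3]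
      fin_cases c <;> simp [mat]
    rw [hQ2] at h1
    have := (Qtot_psd l3).diag_nonneg (i := c)
    linarith
  obtain ⟨s1, s2, s3, hs⟩ := exists_singlePath (be b1 b2 c) (Q c c) (Q' c c) δ0 hbc hδ0 hq0 hq1 hq2
  have h1 := htc δ0 hδ0.le le_rfl l1 l2 l3 hp0 s1 s2 s3 hs
  rw [E2_single_zero (be b1 b2 c) e (η / 4) K hK s1 s2 s3 hs.ok, sub_zero] at h1
  have h2 := (abs_le.1 h1).2
  by_contra hcon
  push Not at hcon
  have h3 : ∀ w w' : Fin 2 → ℝ, n1 (w - z) < r → n1 (w' - z') < r →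
      η / 4 ≤ phiFun (η / 4) K (VVt (be b1 b2) l2 l3 c e w w') := by
    intro w w' hw hw'
    have hok2 : Ok (l2 ++ l3) := hok.right
    have e0 : |Vv (be b1 b2) l2 l3 c 1 w - Vv (be b1 b2) l2 l3 c 1 z| ≤ C * r := by
      refine ((hl1 l2 l3 hok2 c w z).2).trans ?_
      refine mul_le_mul (by rw [hC]; linarith) hw.le (by unfold n1; positivity) hC0
    have e0' : |Vv (be b1 b2) l2 l3 c 1 w' - Vv (be b1 b2) l2 l3 c 1 z'| ≤ C * r := by
      refine ((hl1 l2 l3 hok2 c w' z').2).trans ?_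
      refine mul_le_mul (by rw [hC]; linarith) hw'.le (by unfold n1; positivity) hC0
    have e1 : |Vv (be b1 b2) l2 l3 c e w - Vv (be b1 b2) l2 l3 c e z| ≤ C * r := by
      refine ((hl2 l2 l3 hok2 c w z).2).trans ?_
      refine mul_le_mul (by rw [hC]; linarith) hw.le (by unfold n1; positivity) hC0
    have e1' : |Vv (be b1 b2) l2 l3 c e w' - Vv (be b1 b2) l2 l3 c e z'| ≤ C * r := by
      refine ((hl2 l2 l3 hok2 c w' z').2).trans ?_
      refine mul_le_mul (by rw [hC]; linarith) hw'.le (by unfold n1; positivity) hC0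
    rw [← Vv_one] at hM
    have f1 : |Vv (be b1 b2) l2 l3 c 1 w - Vv (be b1 b2) l2 l3 c 1 w'| ≤ κ + 2 * (C * r) := by
      rw [abs_le] at *
      constructor <;> linarith
    have f2 : η - 2 * (C * r) ≤ |Vv (be b1 b2) l2 l3 c e w - Vv (be b1 b2) l2 l3 c e w'| := by
      have g1 : |Vv (be b1 b2) l2 l3 c e z - Vv (be b1 b2) l2 l3 c e z'| ≤
          |Vv (be b1 b2) l2 l3 c e w - Vv (be b1 b2) l2 l3 c e z| +
          |Vv (be b1 b2) l2 l3 c e w - Vv (be b1 b2) l2 l3 c e w'| +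
          |Vv (be b1 b2) l2 l3 c e w' - Vv (be b1 b2) l2 l3 c e z'| := by
        have : Vv (be b1 b2) l2 l3 c e z - Vv (be b1 b2) l2 l3 c e z' =
          -(Vv (be b1 b2) l2 l3 c e w - Vv (be b1 b2) l2 l3 c e z) +
          (Vv (be b1 b2) l2 l3 c e w - Vv (be b1 b2) l2 l3 c e w') +
          (Vv (be b1 b2) l2 l3 c e w' - Vv (be b1 b2) l2 l3 c e z') := by ring
        rw [this]
        refine (abs_add_le _ _).trans (add_le_add ((abs_add_le _ _).trans ?_) le_rfl)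
        rw [abs_neg]
      linarith
    have f3 : K * |Vv (be b1 b2) l2 l3 c 1 w - Vv (be b1 b2) l2 l3 c 1 w'| ≤ η / 8 := by
      calc _ ≤ K * (κ + 2 * (C * r)) := by gcongr
        _ ≤ η / 8 := by rw [mul_add]; linarith
    unfold phiFun VVt
    refine le_trans ?_ (le_max_right _ _)
    simp only [Matrix.cons_val_zero, Matrix.cons_val_one, Matrix.cons_val]
    linarith
  have h4 := E2_ge b1 b2 l1 l2 l3 hok c e (phiFun (η / 4) K) (phiFun_continuous _ _)
    (fun x => le_max_left _ _) (η / 4) r c0 hr0 (by positivity) hc0.le z z'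
    (hball l1 (l2 ++ l3) hok hQ1 z hz) (hball l1 (l2 ++ l3) hok hQ1 z' hz') h3
  have h5 : 0 < η / 4 * c0 ^ 2 := by positivity
  linarith

end SKC.Z
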