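import Pool.Agent.H.MP_08eaf3_pr.Z.OkP

/-!
# Part Z: positivity of the integral of u - r
-/

set_option autoImplicit false
set_option linter.unusedSectionVars false

open MeasureTheory ProbabilityTheory Filter Topology Matrix

namespace SKC.Z

/-- the integral of `u - r(max s x)` is positive if `r(s) < u`

Proof. For `x ∈ T` the integrand is nonnegative by `hr`. Let `ε = (u - r(s))/2`. For
`x ∈ T ∩ (s - ε, s + ε)` the integrand is at least `ε`: if `x ≤ s` it equals `u - r(s)`, if `x > s`
use `LData.Q_lip`. `μ Tᶜ = 0` and `μ (s - ε, s + ε) > 0` (`supp2`). The function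
`x ↦ L.Q (max s x) 0 1` is continuous on `T` (`Q_lip`), hence a.e. measurable, and bounded by 2
on `T` (`abs_entry_le`), so integrable. -/
theorem int_pos {b1 b2 u : ℝ} (L : LData b1 b2 u) (hr : ∀ x ∈ L.T, L.Q x 0 1 ≤ u) (s : ℝ)
    (hs : s ∈ L.T) (hlt : L.Q s 0 1 < u) : 0 < ∫ x, (u - L.Q (max s x) 0 1) ∂L.μ := by
  have := L.prob
  have hT : ∀ᵐ x ∂L.μ, x ∈ L.T := by
    rw [ae_iff]
    exact L.supp1
  have hmax : ∀ x ∈ L.T, max s x ∈ L.T := by
    intro x hx
    rcases le_total s x with h | h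
    · rwa [max_eq_right h]
    · rwa [max_eq_left h]
  have hcont : ContinuousOn (fun x => u - L.Q (max s x) 0 1) L.T := by
    have h1 : LipschitzOnWith 1 (fun x => L.Q (max s x) 0 1) L.T := by
      refine LipschitzOnWith.of_dist_le_mul fun x hx y hy => ?_
      rw [Real.dist_eq, Real.dist_eq, NNReal.coe_one, one_mul]
      refine (L.Q_lip _ _ (hmax x hx) (hmax y hy) 0 1).trans ?_
      rw [max_comm s x, max_comm s y]
      exact abs_max_sub_max_le_abs x y s
    exact continuousOn_const.sub h1.continuousOn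
  have hmeas : AEStronglyMeasurable (fun x => u - L.Q (max s x) 0 1) L.μ := by
    have h1 := hcont.aestronglyMeasurable (μ := L.μ) L.comp.measurableSet
    rwa [Measure.restrict_eq_self_of_ae_mem hT] at h1
  have hint : Integrable (fun x => u - L.Q (max s x) 0 1) L.μ := by
    refine Integrable.of_bound hmeas (|u| + 2) ?_
    filter_upwards [hT] with x hx
    have h1 := abs_entry_le _ (L.psd _ (hmax x hx)) 0 1
    rw [L.tr _ (hmax x hx)] at h1
    have h2 := (L.sub (hmax x hx)).2
    rw [Real.norm_eq_abs]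
    exact (abs_sub _ _).trans (by linarith)
  have hnn : 0 ≤ᵐ[L.μ] fun x => u - L.Q (max s x) 0 1 := by
    filter_upwards [hT] with x hx
    have := hr _ (hmax x hx)
    simp only [Pi.zero_apply]
    linarith
  rw [integral_pos_iff_support_of_nonneg_ae hnn hint]
  set ε : ℝ := (u - L.Q s 0 1) / 2 with hε
  have hε0 : 0 < ε := by
    have : 0 < u - L.Q s 0 1 := sub_pos.2 hlt
    positivity
  have h1 := L.supp2 s hs ε hε0
  have h2 : L.μ (Set.Ioo (s - ε) (s + ε)) = L.μ (Set.Ioo (s - ε) (s + ε) ∩ L.T) := by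
    refine le_antisymm ?_ (measure_mono Set.inter_subset_left)
    calc L.μ (Set.Ioo (s - ε) (s + ε))
        ≤ L.μ ((Set.Ioo (s - ε) (s + ε) ∩ L.T) ∪ L.Tᶜ) := by
          refine measure_mono fun x hx => ?_
          by_cases hxT : x ∈ L.T
          · exact Or.inl ⟨hx, hxT⟩
          · exact Or.inr hxT
      _ ≤ L.μ (Set.Ioo (s - ε) (s + ε) ∩ L.T) + L.μ L.Tᶜ := measure_union_le _ _
      _ = L.μ (Set.Ioo (s - ε) (s + ε) ∩ L.T) := by rw [L.supp1, add_zero]
  rw [h2] at h1
  refine lt_of_lt_of_le h1 (measure_mono ?_)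
  rintro x ⟨hx, hxT⟩
  rw [Function.mem_support]
  have h3 : |L.Q (max s x) 0 1 - L.Q s 0 1| ≤ ε := by
    refine (L.Q_lip _ _ (hmax x hxT) hs 0 1).trans ?_
    rcases le_total s x with h | h
    · rw [max_eq_right h, abs_of_nonneg (by linarith)]
      linarith [hx.2]
    · rw [max_eq_left h, sub_self, abs_zero]
      exact hε0.le
  have h4 := (abs_le.1 h3).2
  intro h5
  have : L.Q (max s x) 0 1 = u := by linarith
  rw [this] at h4
  linarith

end SKC.Z
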