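import Pool.Agent.H.MP_08eaf3_pr.Z.Setup

/-! # Part Z, step S7: the factor from the other coordinate (helper4) -/

set_option autoImplicit false

open MeasureTheory ProbabilityTheory Filter Topology Matrix

namespace SKC.Z

theorem S7g3b_mgf (t : ℝ) : ∫ y, Real.exp (t * y) ∂(gaussianReal 0 1) = Real.exp (t ^ 2 / 2) := by
  have h := congrFun (mgf_id_gaussianReal (μ := 0) (v := 1)) t
  unfold mgf at h
  simpa using h

theorem S7g3b_int (t : ℝ) : Integrable (fun y : ℝ => Real.exp (t * y)) (gaussianReal 0 1) :=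
  integrable_exp_mul_gaussianReal t

theorem S7g3b_pos (t : ℝ) : 0 < ∫ y in Set.Ioi (0 : ℝ), Real.exp (t * y) ∂(gaussianReal 0 1) := by
  have hne : NeZero ((gaussianReal 0 1).restrict (Set.Ioi (0 : ℝ))) := by
    constructor
    intro h
    rw [Measure.restrict_eq_zero] at h
    have h1 := gaussianReal_absolutelyContinuous' 0 (one_ne_zero) h
    simp at h1
  exact integral_exp_pos ((S7g3b_int t).integrableOn)

/-- Proof. `psi1_corner`: `psi1 b l w = w + a + rem w`, `0 ≤ rem w ≤ log(1 + C e^{-2w})`, and `rem w ≥ C⁻¹ e^{-2w}` for `w ≥ 0`; `|a| ≤ C`. So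
`∫ exp(x psi1(ρv+sy)) = exp(xρv + xa) ∫ exp(x s y) exp(x rem(ρv+sy))`; `a0 = x a + x² s²/2`, `κ v = exp(-x²s²/2) ∫ exp(x s y) exp(x rem(ρv+sy)) dN(y)`. -/
theorem kap_est (b x ρ s : ℝ) (hx : 0 < x) (hx1 : x ≤ 1) (hρ : 0 < ρ) (hs : 0 ≤ s) :
    ∃ c1 C1 : ℝ, 0 < c1 ∧ 0 < C1 ∧ ∀ l : List (Step Unit), Ok l → ∃ (a0 : ℝ) (κ : ℝ → ℝ),
      |a0| ≤ C1 ∧ Continuous κ ∧ (∀ v, 1 ≤ κ v) ∧
      (∀ v, κ v ≤ 1 + C1 * Real.exp (-(2 * ρ * v))) ∧
      (∀ v, 0 ≤ v → 1 + c1 * Real.exp (-(2 * ρ * v)) ≤ κ v) ∧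
      ∀ v, ∫ y, Real.exp (x * psi1 b l (ρ * v + s * y)) ∂(gaussianReal 0 1) =
        Real.exp (x * ρ * v + a0) * κ v := by
  obtain ⟨C, hC, hcor⟩ := psi1_corner b
  set I0 := ∫ y in Set.Ioi (0 : ℝ), Real.exp ((x - 2) * s * y) ∂(gaussianReal 0 1) with hI0
  have hI0p : 0 < I0 := S7g3b_pos ((x - 2) * s)
  set E := Real.exp (-(x ^ 2 * s ^ 2 / 2)) with hE
  have hEp : 0 < E := Real.exp_pos _
  set M2 := Real.exp (((x - 2) * s) ^ 2 / 2) with hM2
  have hM2p : 0 < M2 := Real.exp_pos _
  refine ⟨E * (x * C⁻¹ * I0), C + s ^ 2 / 2 + E * (C * M2), by positivity, by positivity, ?_⟩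
  intro l hl
  obtain ⟨a, ha, hrem⟩ := hcor l hl
  set rem : ℝ → ℝ := fun w => psi1 b l w - (w + a) with hremd
  have hpc : Continuous (psi1 b l) :=
    continuous_iff_continuousAt.mpr (fun v => (psi1_deriv b l v).continuousAt)
  have hrc : Continuous rem := by
    simp only [hremd]
    exact hpc.sub (by fun_prop)
  have hr0 : ∀ w, 0 ≤ rem w := fun w => (hrem w).1
  have hr1 : ∀ w, rem w ≤ Real.log (1 + C * Real.exp (-(2 * w))) := fun w => (hrem w).2.1
  have hr2 : ∀ w, 0 ≤ w → C⁻¹ * Real.exp (-(2 * w)) ≤ rem w := fun w => (hrem w).2.2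
  have hup : ∀ w, Real.exp (x * rem w) ≤ 1 + C * Real.exp (-(2 * w)) := by
    intro w
    have h1 : 0 < 1 + C * Real.exp (-(2 * w)) := by positivity
    have h2 : x * rem w ≤ Real.log (1 + C * Real.exp (-(2 * w))) := by
      have h3 : x * rem w ≤ 1 * rem w := mul_le_mul_of_nonneg_right hx1 (hr0 w)
      linarith [hr1 w]
    calc Real.exp (x * rem w) ≤ Real.exp (Real.log (1 + C * Real.exp (-(2 * w)))) :=
          Real.exp_le_exp.mpr h2
      _ = _ := Real.exp_log h1
  -- the integrand
  set F : ℝ → ℝ → ℝ := fun v y => Real.exp (x * s * y) * Real.exp (x * rem (ρ * v + s * y)) with hF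
  have hFc : ∀ v, Continuous (F v) := by
    intro v
    simp only [hF]
    have := hrc
    fun_prop
  have hFub : ∀ v y, F v y ≤ Real.exp (x * s * y) +
      C * Real.exp (-(2 * ρ * v)) * Real.exp ((x - 2) * s * y) := by
    intro v y
    have h1 := mul_le_mul_of_nonneg_left (hup (ρ * v + s * y)) (Real.exp_nonneg (x * s * y))
    simp only [hF]
    refine h1.trans (le_of_eq ?_)
    have h2 : Real.exp (-(2 * (ρ * v + s * y))) = Real.exp (-(2 * ρ * v)) * Real.exp (-(2 * s * y)) := by
      rw [← Real.exp_add]; congr 1; ring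
    have h3 : Real.exp ((x - 2) * s * y) = Real.exp (x * s * y) * Real.exp (-(2 * s * y)) := by
      rw [← Real.exp_add]; congr 1; ring
    rw [h2, h3]
    ring
  have hF0 : ∀ v y, 0 ≤ F v y := fun v y => by simp only [hF]; positivity
  have hgi : ∀ v, Integrable (fun y => Real.exp (x * s * y) +
      C * Real.exp (-(2 * ρ * v)) * Real.exp ((x - 2) * s * y)) (gaussianReal 0 1) :=
    fun v => (S7g3b_int (x * s)).add ((S7g3b_int ((x - 2) * s)).const_mul _)
  have hFi : ∀ v, Integrable (F v) (gaussianReal 0 1) := by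
    intro v
    apply Integrable.mono' (hgi v) (hFc v).aestronglyMeasurable
    filter_upwards with y
    rw [Real.norm_eq_abs, abs_of_nonneg (hF0 v y)]
    exact hFub v y
  have hxs : ∫ y, Real.exp (x * s * y) ∂(gaussianReal 0 1) = Real.exp (x ^ 2 * s ^ 2 / 2) := by
    rw [S7g3b_mgf (x * s), mul_pow]
  have hEE : E * Real.exp (x ^ 2 * s ^ 2 / 2) = 1 := by
    rw [hE, ← Real.exp_add]
    simp
  have hx2s : x ^ 2 * s ^ 2 / 2 ≤ s ^ 2 / 2 := by
    have : x ^ 2 ≤ 1 := by nlinarith
    nlinarith [sq_nonneg s]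
  refine ⟨x * a + x ^ 2 * s ^ 2 / 2, fun v => E * ∫ y, F v y ∂(gaussianReal 0 1), ?_, ?_, ?_, ?_, ?_, ?_⟩
  · have h1 : |x * a| ≤ C := by
      rw [abs_mul, abs_of_pos hx]
      have := mul_le_mul_of_nonneg_right hx1 (abs_nonneg a)
      linarith
    have h2 : 0 ≤ x ^ 2 * s ^ 2 / 2 := by positivity
    have h3 : 0 ≤ E * (C * M2) := by positivity
    refine (abs_add_le _ _).trans ?_
    rw [abs_of_nonneg h2]
    linarith
  · apply Continuous.mul continuous_const
    rw [continuous_iff_continuousAt]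
    intro v0
    apply continuousAt_of_dominated (bound := fun y => Real.exp (x * s * y) +
      C * Real.exp (2 * ρ * (|v0| + 1)) * Real.exp ((x - 2) * s * y))
    · filter_upwards with v
      exact (hFc v).aestronglyMeasurable
    · filter_upwards [Metric.ball_mem_nhds v0 one_pos] with v hv
      filter_upwards with y
      rw [Real.norm_eq_abs, abs_of_nonneg (hF0 v y)]
      refine (hFub v y).trans ?_
      have h1 : Real.exp (-(2 * ρ * v)) ≤ Real.exp (2 * ρ * (|v0| + 1)) := by
        apply Real.exp_le_exp.mpr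
        have h2 : |v - v0| < 1 := by rwa [Metric.mem_ball, Real.dist_eq] at hv
        have h3 : -v ≤ |v0| + 1 := by
          have := abs_lt.mp h2
          have := neg_abs_le v0
          linarith [this]
        have := mul_le_mul_of_nonneg_left h3 (by positivity : (0 : ℝ) ≤ 2 * ρ)
        linarith
      have h4 : 0 ≤ Real.exp ((x - 2) * s * y) := Real.exp_nonneg _
      have h5 := mul_le_mul_of_nonneg_right (mul_le_mul_of_nonneg_left h1 hC.le) h4
      linarith
    · exact (S7g3b_int (x * s)).add ((S7g3b_int ((x - 2) * s)).const_mul _)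
    · filter_upwards with y
      have : Continuous (fun v => F v y) := by
        simp only [hF]
        have := hrc
        fun_prop
      exact this.continuousAt
  · intro v
    have h1 : Real.exp (x ^ 2 * s ^ 2 / 2) ≤ ∫ y, F v y ∂(gaussianReal 0 1) := by
      rw [← hxs]
      apply integral_mono (S7g3b_int (x * s)) (hFi v)
      intro y
      simp only [hF]
      have h2 : 1 ≤ Real.exp (x * rem (ρ * v + s * y)) := by
        rw [Real.one_le_exp_iff]
        exact mul_nonneg hx.le (hr0 _)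
      have h3 := mul_le_mul_of_nonneg_left h2 (Real.exp_nonneg (x * s * y))
      linarith
    have h2 := mul_le_mul_of_nonneg_left h1 hEp.le
    rw [hEE] at h2
    exact h2
  · intro v
    have h1 : ∫ y, F v y ∂(gaussianReal 0 1) ≤ Real.exp (x ^ 2 * s ^ 2 / 2) +
        C * Real.exp (-(2 * ρ * v)) * M2 := by
      have h2 : ∫ y, F v y ∂(gaussianReal 0 1) ≤ ∫ y, (Real.exp (x * s * y) +
          C * Real.exp (-(2 * ρ * v)) * Real.exp ((x - 2) * s * y)) ∂(gaussianReal 0 1) :=
        integral_mono (hFi v) (hgi v) (hFub v)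
      rw [integral_add (S7g3b_int (x * s)) ((S7g3b_int ((x - 2) * s)).const_mul _), hxs,
        integral_const_mul, S7g3b_mgf] at h2
      exact h2
    have h2 := mul_le_mul_of_nonneg_left h1 hEp.le
    rw [mul_add, hEE] at h2
    refine h2.trans ?_
    have h3 : E * (C * Real.exp (-(2 * ρ * v)) * M2) = E * (C * M2) * Real.exp (-(2 * ρ * v)) := by ring
    rw [h3]
    have h4 : E * (C * M2) ≤ C + s ^ 2 / 2 + E * (C * M2) := by
      have : 0 ≤ s ^ 2 / 2 := by positivity
      linarith
    have h5 := mul_le_mul_of_nonneg_right h4 (Real.exp_nonneg (-(2 * ρ * v)))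
    linarith
  · intro v hv
    -- lower bound
    set G : ℝ → ℝ := (Set.Ioi (0 : ℝ)).indicator (fun y => x * C⁻¹ * Real.exp (-(2 * ρ * v)) *
      Real.exp ((x - 2) * s * y)) with hG
    have hGi : Integrable G (gaussianReal 0 1) :=
      ((S7g3b_int ((x - 2) * s)).const_mul _).indicator measurableSet_Ioi
    have hle : ∀ y, Real.exp (x * s * y) + G y ≤ F v y := by
      intro y
      simp only [hF, hG]
      have h2 : x * rem (ρ * v + s * y) + 1 ≤ Real.exp (x * rem (ρ * v + s * y)) := Real.add_one_le_exp _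
      by_cases hy : y ∈ Set.Ioi (0 : ℝ)
      · rw [Set.indicator_of_mem hy]
        have hy' : 0 < y := hy
        have h3 := hr2 (ρ * v + s * y) (by positivity)
        have h4 : x * (C⁻¹ * Real.exp (-(2 * (ρ * v + s * y)))) ≤ x * rem (ρ * v + s * y) :=
          mul_le_mul_of_nonneg_left h3 hx.le
        have h5 : Real.exp (-(2 * (ρ * v + s * y))) = Real.exp (-(2 * ρ * v)) * Real.exp (-(2 * s * y)) := by
          rw [← Real.exp_add]; congr 1; ring
        have h6 : Real.exp ((x - 2) * s * y) = Real.exp (x * s * y) * Real.exp (-(2 * s * y)) := by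
          rw [← Real.exp_add]; congr 1; ring
        rw [h5] at h4
        have h7 : Real.exp (x * s * y) * (1 + x * (C⁻¹ * (Real.exp (-(2 * ρ * v)) * Real.exp (-(2 * s * y))))) ≤
            Real.exp (x * s * y) * Real.exp (x * rem (ρ * v + s * y)) :=
          mul_le_mul_of_nonneg_left (by linarith) (Real.exp_nonneg _)
        rw [h6]
        refine le_trans (le_of_eq ?_) h7
        ring
      · rw [Set.indicator_of_notMem hy, add_zero]
        have h3 : 1 ≤ Real.exp (x * rem (ρ * v + s * y)) := by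
          have := mul_nonneg hx.le (hr0 (ρ * v + s * y))
          linarith
        have h4 := mul_le_mul_of_nonneg_left h3 (Real.exp_nonneg (x * s * y))
        linarith
    have h1 : Real.exp (x ^ 2 * s ^ 2 / 2) + x * C⁻¹ * Real.exp (-(2 * ρ * v)) * I0 ≤
        ∫ y, F v y ∂(gaussianReal 0 1) := by
      have h2 : ∫ y, (Real.exp (x * s * y) + G y) ∂(gaussianReal 0 1) ≤
          ∫ y, F v y ∂(gaussianReal 0 1) :=
        integral_mono ((S7g3b_int (x * s)).add hGi) (hFi v) hle
      rw [integral_add (S7g3b_int (x * s)) hGi, hxs, hG, integral_indicator measurableSet_Ioi,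
        integral_const_mul] at h2
      exact h2
    have h2 := mul_le_mul_of_nonneg_left h1 hEp.le
    rw [mul_add, hEE] at h2
    refine le_trans (le_of_eq ?_) h2
    ring
  · intro v
    simp only [hF]
    rw [← mul_assoc, ← integral_const_mul]
    apply integral_congr_ae
    filter_upwards with y
    have h1 : psi1 b l (ρ * v + s * y) = rem (ρ * v + s * y) + (ρ * v + s * y + a) := by
      simp only [hremd]; ring
    rw [h1, hE, ← Real.exp_add, ← Real.exp_add, ← Real.exp_add]
    congr 1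
    ring

end SKC.Z
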