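import Mathlib

/-! # Part Z, step S7: level sets of the magnetisation (helper4) -/

set_option autoImplicit false

open MeasureTheory Filter Topology

namespace SKC.Z

/-- `M` is monotone with the expansion `1 - M(v) = 2 α e^{-2v} + O(e^{-4v})` -/
structure Exp1 (Cm α : ℝ) (M : ℝ → ℝ) : Prop where
  mono : Monotone M
  cont : Continuous M
  le : ∀ v, |M v| ≤ 1
  a1 : 1 ≤ α
  a2 : α ≤ Cm
  ex : ∀ v, |1 - M v - 2 * α * Real.exp (-(2 * v))| ≤ Cm * Real.exp (-(4 * v))

theorem S7c_tanh (y : ℝ) : 1 - Real.tanh y = 2 * Real.exp (-(2 * y)) / (1 + Real.exp (-(2 * y))) := by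
  have h1 : Real.exp (-(2 * y)) = Real.exp (-y) * Real.exp (-y) := by
    rw [← Real.exp_add]; congr 1; ring
  have h2 : Real.exp y * Real.exp (-y) = 1 := by rw [← Real.exp_add]; simp
  have ha := Real.exp_pos y
  have hb := Real.exp_pos (-y)
  rw [Real.tanh_eq_sinh_div_cosh, Real.sinh_eq, Real.cosh_eq, h1]
  generalize Real.exp y = a at *
  generalize Real.exp (-y) = b at *
  have hab : a + b ≠ 0 := by positivity
  have hb1 : 1 + b * b ≠ 0 := by positivity
  field_simp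
  have h3 : b * b * a = b := by
    calc b * b * a = b * (a * b) := by ring
      _ = b := by rw [h2, mul_one]
  nlinarith [h3, h2]

theorem S7c_bounds (y : ℝ) : 1 - Real.tanh y ≤ 2 * Real.exp (-(2 * y)) ∧
    2 * Real.exp (-(2 * y)) - 2 * Real.exp (-(2 * y)) ^ 2 ≤ 1 - Real.tanh y := by
  rw [S7c_tanh]
  have hX := Real.exp_pos (-(2 * y))
  generalize Real.exp (-(2 * y)) = X at *
  constructor
  · rw [div_le_iff₀ (by positivity)]
    nlinarith
  · rw [le_div_iff₀ (by positivity)]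
    nlinarith [pow_pos hX 3]

theorem S7c_exp {x : ℝ} (h0 : 0 ≤ x) (h1 : x ≤ 1) : Real.exp (-x) ≤ 1 - x / 2 := by
  have h2 : 1 + x ≤ Real.exp x := by linarith [Real.add_one_le_exp x]
  have h3 : Real.exp (-x) * Real.exp x = 1 := by rw [← Real.exp_add]; simp
  have h4 := Real.exp_pos (-x)
  have h5 : Real.exp (-x) * (1 + x) ≤ Real.exp (-x) * Real.exp x :=
    mul_le_mul_of_nonneg_left h2 h4.le
  rw [h3] at h5
  by_contra hcon
  rw [not_le] at hcon
  nlinarith

/-- Proof. `1 - tanh y = 2/(1+e^{2y})`, so `2e^{-2y} - 2e^{-4y} ≤ 1 - tanh y ≤ 2e^{-2y}`. Let `v0` with `Cm e^{-2 v0} ≤ 1`, `y0` large (depending on `Cm` only).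
First claim: let `tanh y ≤ M v`. If `v ≤ v0`: `M v ≤ M v0 ≤ 1 - 2α e^{-2v0} + Cm e^{-4v0} ≤ 1 - e^{-2v0} < tanh y`, contradiction. If `v ≥ v0`: `Cm e^{-4v} ≤ α e^{-2v}`, so
`α e^{-2v} ≤ 1 - M v ≤ 2 e^{-2y}`, so `e^{-2v} ≤ 2e^{-2y}` and then `2α e^{-2v} ≤ 2e^{-2y} + Cm e^{-4v} ≤ 2e^{-2y}(1 + 2Cm e^{-2y})`, i.e.
`-2v ≤ -2y - log α + log(1 + 2Cm e^{-2y}) ≤ -2y - log α + 2Cm e^{-2y}`.
Second claim: `v ≥ y + (log α)/2 + C e^{-2y}` gives `2α e^{-2v} ≤ 2e^{-2y} exp(-2C e^{-2y})` and `Cm e^{-4v} ≤ Cm e^{-4y}` (`α ≥ 1`), `1 - exp(-x) ≥ x/2` for `0 ≤ x ≤ 1`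
(`x = 2Ce^{-2y} ≤ 1` for `y ≥ y0`), so `1 - M v ≤ 2e^{-2y} - 2C e^{-4y} + Cm e^{-4y} ≤ 2e^{-2y} - 2e^{-4y} ≤ 1 - tanh y` if `2C ≥ Cm + 2`. -/
theorem level_set (Cm : ℝ) : ∃ C y0 : ℝ, 0 < C ∧ 0 ≤ y0 ∧ ∀ (α : ℝ) (M : ℝ → ℝ), Exp1 Cm α M →
    ∀ y, y0 ≤ y →
    (∀ v, Real.tanh y ≤ M v → y + Real.log α / 2 - C * Real.exp (-(2 * y)) ≤ v) ∧
    (∀ v, y + Real.log α / 2 + C * Real.exp (-(2 * y)) ≤ v → Real.tanh y ≤ M v) := by
  set C : ℝ := max Cm 1 + 2 with hCdef
  have hK1 : (1 : ℝ) ≤ max Cm 1 := le_max_right _ _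
  have hKC : Cm ≤ max Cm 1 := le_max_left _ _
  have hC0 : 0 < C := by linarith
  have h2C : 1 ≤ 2 * C := by linarith
  refine ⟨C, Real.log (2 * C) / 2, hC0, by
    have := Real.log_nonneg h2C
    linarith, fun α M hE y hy => ?_⟩
  have hα0 : 0 < α := lt_of_lt_of_le one_pos hE.a1
  have hCm1 : 1 ≤ Cm := hE.a1.trans hE.a2
  have hCm0 : 0 < Cm := by linarith
  have hX0 := Real.exp_pos (-(2 * y))
  have hXle : Real.exp (-(2 * y)) * (2 * C) ≤ 1 := by
    have h1 : Real.log (2 * C) ≤ 2 * y := by linarith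
    have h2 : 2 * C ≤ Real.exp (2 * y) := by
      rw [← Real.log_le_iff_le_exp (by linarith)]; exact h1
    have h3 : Real.exp (-(2 * y)) * Real.exp (2 * y) = 1 := by rw [← Real.exp_add]; simp
    calc Real.exp (-(2 * y)) * (2 * C) ≤ Real.exp (-(2 * y)) * Real.exp (2 * y) :=
          mul_le_mul_of_nonneg_left h2 hX0.le
      _ = 1 := h3
  obtain ⟨hb1, hb2⟩ := S7c_bounds y
  have h4v : ∀ v : ℝ, Real.exp (-(4 * v)) = Real.exp (-(2 * v)) ^ 2 := by
    intro v
    rw [← Real.exp_nat_mul]; congr 1; push_cast; ring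
  constructor
  · intro v hv
    have hex := (abs_le.1 (hE.ex v)).1
    rw [h4v v] at hex
    have hW0 := Real.exp_pos (-(2 * v))
    by_cases hcase : Cm * Real.exp (-(2 * v)) ≤ 1
    · -- the main case
      have key : α * Real.exp (-(2 * v)) ≤ Real.exp (-(2 * y)) * (1 + 2 * Cm * Real.exp (-(2 * y))) := by
        generalize Real.exp (-(2 * v)) = W at *
        generalize Real.exp (-(2 * y)) = X at *
        have e1 : Cm * W ^ 2 ≤ α * W := by
          have : Cm * W ^ 2 = (Cm * W) * W := by ring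
          rw [this]
          exact mul_le_mul_of_nonneg_right (hcase.trans hE.a1) hW0.le
        have e2 : α * W ≤ 2 * X := by linarith
        have e3 : W ≤ 2 * X := by
          have : W ≤ α * W := le_mul_of_one_le_left hW0.le hE.a1
          linarith
        have e4 : Cm * W ^ 2 ≤ Cm * (2 * X) ^ 2 :=
          mul_le_mul_of_nonneg_left (pow_le_pow_left₀ hW0.le e3 2) hCm0.le
        nlinarith
      have h5 : 1 + 2 * Cm * Real.exp (-(2 * y)) ≤ Real.exp (2 * Cm * Real.exp (-(2 * y))) := by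
        linarith [Real.add_one_le_exp (2 * Cm * Real.exp (-(2 * y)))]
      have h6 : α * Real.exp (-(2 * v)) ≤
          Real.exp (-(2 * y) + 2 * Cm * Real.exp (-(2 * y))) := by
        rw [Real.exp_add]
        exact key.trans (mul_le_mul_of_nonneg_left h5 hX0.le)
      have h7 : Real.exp (Real.log α + -(2 * v)) ≤
          Real.exp (-(2 * y) + 2 * Cm * Real.exp (-(2 * y))) := by
        rw [Real.exp_add, Real.exp_log hα0]; exact h6
      have h8 := Real.exp_le_exp.1 h7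
      have h9 : Cm * Real.exp (-(2 * y)) ≤ C * Real.exp (-(2 * y)) :=
        mul_le_mul_of_nonneg_right (by linarith) hX0.le
      linarith
    · -- small `v`
      exfalso
      rw [not_le] at hcase
      set v0 : ℝ := Real.log Cm / 2 with hv0
      have hW0' : Real.exp (-(2 * v0)) = Cm⁻¹ := by
        rw [hv0, show -(2 * (Real.log Cm / 2)) = -Real.log Cm by ring, Real.exp_neg,
          Real.exp_log hCm0]
      have hvv : v ≤ v0 := by
        have h1 : Real.exp (-(2 * v0)) < Real.exp (-(2 * v)) := by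
          rw [hW0', inv_lt_iff_one_lt_mul₀ hCm0, mul_comm]; exact hcase
        have h2 := Real.exp_lt_exp.1 h1
        linarith
      have hM : M v ≤ M v0 := hE.mono hvv
      have hex0 := (abs_le.1 (hE.ex v0)).1
      rw [h4v v0, hW0'] at hex0
      have h3 : Cm * Cm⁻¹ ^ 2 = Cm⁻¹ := by field_simp
      rw [h3] at hex0
      have h4 : Cm⁻¹ ≤ α * Cm⁻¹ := le_mul_of_one_le_left (inv_nonneg.2 hCm0.le) hE.a1
      have h5 : Cm⁻¹ ≤ 2 * Real.exp (-(2 * y)) := by linarith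
      have h6 : 1 ≤ 2 * Real.exp (-(2 * y)) * Cm := by
        have := mul_le_mul_of_nonneg_right h5 hCm0.le
        rwa [inv_mul_cancel₀ hCm0.ne'] at this
      nlinarith
  · intro v hv
    have hex := (abs_le.1 (hE.ex v)).2
    rw [h4v v] at hex
    have hW0 := Real.exp_pos (-(2 * v))
    have h1 : α * Real.exp (-(2 * v)) ≤
        Real.exp (-(2 * y)) * Real.exp (-(2 * C * Real.exp (-(2 * y)))) := by
      rw [← Real.exp_add]
      calc α * Real.exp (-(2 * v)) = Real.exp (Real.log α + -(2 * v)) := by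
            rw [Real.exp_add, Real.exp_log hα0]
        _ ≤ _ := Real.exp_le_exp.2 (by linarith)
    have h2 : Real.exp (-(2 * C * Real.exp (-(2 * y)))) ≤
        1 - (2 * C * Real.exp (-(2 * y))) / 2 :=
      S7c_exp (by positivity) (by linarith)
    generalize Real.exp (-(2 * C * Real.exp (-(2 * y)))) = Y at *
    generalize Real.exp (-(2 * v)) = W at *
    generalize Real.exp (-(2 * y)) = X at *
    have h3 : α * W ≤ X * (1 - C * X) := by
      refine h1.trans (mul_le_mul_of_nonneg_left ?_ hX0.le)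
      linarith
    have h4 : W ≤ X := by
      have e1 : W ≤ α * W := le_mul_of_one_le_left hW0.le hE.a1
      have e2 : X * (1 - C * X) ≤ X := by nlinarith [mul_pos hC0 (mul_pos hX0 hX0)]
      linarith
    have h5 : Cm * W ^ 2 ≤ Cm * X ^ 2 :=
      mul_le_mul_of_nonneg_left (pow_le_pow_left₀ hW0.le h4 2) hCm0.le
    have h6 : (Cm + 2) * X ^ 2 ≤ 2 * C * X ^ 2 :=
      mul_le_mul_of_nonneg_right (by linarith) (by positivity)
    nlinarith

end SKC.Z
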