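import Pool.Agent.H.MP_08eaf3_pr.Z.Setup
import Pool.Agent.H.MP_08eaf3_pr.Z.S7c

/-! # Part Z, step S7: magnetisations of diagonal paths (helper4) -/

set_option autoImplicit false

open MeasureTheory ProbabilityTheory Filter Topology Matrix

namespace SKC.Z

/-- Proof: induction; the diagonal entries of `a.2 * a.2ᵀ` are sums of squares, `Real.mul_self_sqrt`. -/
theorem Qtot_pr (d : Fin 2) (l : List (Step (Fin 2))) :
    Qtot (l.map (pr d)) = fun _ _ => Qtot l d d := by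
  induction l with
  | nil =>
    funext i j
    simp [Qtot]
  | cons a l ih =>
    have hnn : 0 ≤ (a.2 * a.2ᵀ) d d := by
      rw [Matrix.mul_apply]
      exact Finset.sum_nonneg (fun j _ => by rw [Matrix.transpose_apply]; exact mul_self_nonneg _)
    funext i j
    have h1 : ((pr d a).2 * (pr d a).2ᵀ) i j = (a.2 * a.2ᵀ) d d := by
      rw [Matrix.mul_apply]
      simp only [Finset.univ_unique, Finset.sum_singleton, Matrix.transpose_apply]
      exact Real.mul_self_sqrt hnn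
    rw [List.map_cons]
    show ((pr d a).2 * (pr d a).2ᵀ + Qtot (l.map (pr d))) i j = (a.2 * a.2ᵀ + Qtot l) d d
    rw [Matrix.add_apply, Matrix.add_apply, h1, ih]

theorem Ok_pr (d : Fin 2) (l : List (Step (Fin 2))) (hl : Ok l) : Ok (l.map (pr d)) := by
  obtain ⟨h1, h2, h3⟩ := hl
  refine ⟨?_, ?_, ?_⟩
  · rw [List.pairwise_map]
    exact h1
  · intro a ha
    rw [List.mem_map] at ha
    obtain ⟨a', ha', rfl⟩ := ha
    exact h2 a' ha'
  · intro c
    rw [Qtot_pr]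
    exact h3 d

/-- Proof: both sides are the derivative at `0` of `h ↦ PsiL (be b1 b2) l F0 (z + h e_c)` (`PsiL_deriv`, and `PsiL_diag` with `psi1_deriv`, where the other
summand is constant); `HasDerivAt.unique`. -/
theorem Mg_diag (b1 b2 : ℝ) (l : List (Step (Fin 2))) (hl : Ok l)
    (hd : ∀ a ∈ l, (a.2 * a.2ᵀ) 0 1 = 0) (c : Fin 2) (z : Fin 2 → ℝ) :
    Mg (be b1 b2) l c z = mg1 (be b1 b2 c) (l.map (pr c)) (z c) := by
  have h1 := PsiL_deriv (be b1 b2) l c z
  have h2 : (fun h : ℝ => PsiL (be b1 b2) l F0 (z + h • Pi.single c 1)) = fun h : ℝ =>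
      psi1 b1 (l.map (pr 0)) ((z + h • (Pi.single c 1 : Fin 2 → ℝ)) 0) +
        psi1 b2 (l.map (pr 1)) ((z + h • (Pi.single c 1 : Fin 2 → ℝ)) 1) := by
    funext h
    exact PsiL_diag b1 b2 l hl hd _
  rw [h2] at h1
  refine h1.unique ?_
  fin_cases c
  · have h3 : (fun h : ℝ => psi1 b1 (l.map (pr 0)) ((z + h • (Pi.single (0 : Fin 2) 1 : Fin 2 → ℝ)) 0) +
        psi1 b2 (l.map (pr 1)) ((z + h • (Pi.single (0 : Fin 2) 1 : Fin 2 → ℝ)) 1)) =
        fun h : ℝ => psi1 b1 (l.map (pr 0)) (z 0 + h) + psi1 b2 (l.map (pr 1)) (z 1) := by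
      funext h
      simp [Pi.add_apply, Pi.smul_apply, Pi.single_apply]
    have h4 : HasDerivAt (psi1 b1 (l.map (pr 0))) (mg1 b1 (l.map (pr 0)) (z 0)) (z 0 + 0) := by
      rw [add_zero]
      exact psi1_deriv b1 _ (z 0)
    have h5 := (h4.comp_const_add (z 0) 0).add_const (psi1 b2 (l.map (pr 1)) (z 1))
    rw [← h3] at h5
    exact h5
  · have h3 : (fun h : ℝ => psi1 b1 (l.map (pr 0)) ((z + h • (Pi.single (1 : Fin 2) 1 : Fin 2 → ℝ)) 0) +
        psi1 b2 (l.map (pr 1)) ((z + h • (Pi.single (1 : Fin 2) 1 : Fin 2 → ℝ)) 1)) =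
        fun h : ℝ => psi1 b1 (l.map (pr 0)) (z 0) + psi1 b2 (l.map (pr 1)) (z 1 + h) := by
      funext h
      simp [Pi.add_apply, Pi.smul_apply, Pi.single_apply]
    have h4 : HasDerivAt (psi1 b2 (l.map (pr 1))) (mg1 b2 (l.map (pr 1)) (z 1)) (z 1 + 0) := by
      rw [add_zero]
      exact psi1_deriv b2 _ (z 1)
    have h5 := (h4.comp_const_add (z 1) 0).const_add (psi1 b1 (l.map (pr 0)) (z 0))
    rw [← h3] at h5
    exact h5

theorem S7g4_tanh_mono {v v' : ℝ} (h : v ≤ v') : Real.tanh v ≤ Real.tanh v' := by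
  rw [Real.tanh_eq_sinh_div_cosh, Real.tanh_eq_sinh_div_cosh,
    div_le_div_iff₀ (Real.cosh_pos _) (Real.cosh_pos _)]
  have h1 : 0 ≤ Real.sinh (v' - v) := Real.sinh_nonneg_iff.mpr (by linarith)
  rw [Real.sinh_sub] at h1
  linarith

/-- Proof: `mg1_expand`, `mg1_mono` (`tanh` is monotone, so `mg1` is), continuity from `EG_ChE` (`Mg` is a chain expectation of `tanh`), `Mg_lt_one`. -/
theorem exp1_mg1 (b : ℝ) : ∃ Cm : ℝ, 1 ≤ Cm ∧ ∀ l : List (Step Unit), Ok l → ∃ α : ℝ,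
    Exp1 Cm α (mg1 b l) := by
  obtain ⟨C, hC, h1⟩ := mg1_expand b
  obtain ⟨c, hc, h2⟩ := mg1_mono b
  refine ⟨C, hC, fun l hl => ?_⟩
  obtain ⟨α, ha1, ha2, ha3⟩ := h1 l hl
  refine ⟨α, ?_, ?_, ?_, ha1, ha2, ha3⟩
  · intro v v' hv
    have h3 := h2 l hl v v' hv
    have h4 : Real.tanh v ≤ Real.tanh v' := S7g4_tanh_mono hv
    have h5 : 0 ≤ c * (Real.tanh v' - Real.tanh v) := mul_nonneg hc.le (by linarith)
    linarith
  · have h6 : LipschitzWith 1 (mg1 b l) := by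
      refine LipschitzWith.of_dist_le_mul (fun v v' => ?_)
      have h7 := Mg_lip (fun _ : Unit => b) l hl () (fun _ => v) (fun _ => v')
      have h8 : n1 ((fun _ : Unit => v) - (fun _ : Unit => v')) = |v - v'| := by
        simp [n1]
      rw [h8] at h7
      rw [Real.dist_eq, Real.dist_eq, NNReal.coe_one, one_mul]
      exact h7
    exact h6.continuous
  · intro v
    exact (Mg_lt_one (fun _ : Unit => b) l () (fun _ => v)).le

end SKC.Z
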