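import Pool.Agent.H.MP_08eaf3_pr.Z.S7g3a
import Pool.Agent.H.MP_08eaf3_pr.Z.S7g3b
import Pool.Agent.H.MP_08eaf3_pr.Z.S7g4

/-! # Part Z, step S7: density of the pair chain at the smallest positive level (helper4) -/

set_option autoImplicit false

open MeasureTheory ProbabilityTheory Filter Topology Matrix

namespace SKC.Z

theorem S7g3_cont (b : ℝ) (l : List (Step Unit)) : Continuous (psi1 b l) := by
  unfold psi1
  have h := (LG_PsiL (fun _ : Unit => b) l F0 LG_F0).1
  exact h.comp (continuous_pi (fun _ => continuous_id))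

theorem S7g3_growth (b : ℝ) (l : List (Step Unit)) : ∃ D : ℝ, 0 ≤ D ∧ ∀ v, |psi1 b l v| ≤ D * (1 + |v|) := by
  obtain ⟨_, C, hC⟩ := LG_PsiL (fun _ : Unit => b) l F0 LG_F0
  refine ⟨|C|, abs_nonneg _, fun v => ?_⟩
  have h := hC (fun _ => v)
  have e : n1 (fun _ : Unit => v) = |v| := by
    unfold n1
    simp
  rw [e] at h
  refine h.trans (mul_le_mul_of_nonneg_right (le_abs_self C) ?_)
  have := abs_nonneg v
  linarith

theorem S7g3_Psi (b1 b2 : ℝ) (l : List (Step (Fin 2))) (hl : Ok l)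
    (hd : ∀ a ∈ l, (a.2 * a.2ᵀ) 0 1 = 0) (c d : Fin 2) (hcd : c ≠ d) (z : Fin 2 → ℝ) :
    PsiL (be b1 b2) l F0 z = psi1 (be b1 b2 c) (l.map (pr c)) (z c) +
      psi1 (be b1 b2 d) (l.map (pr d)) (z d) := by
  rw [PsiL_diag b1 b2 l hl hd z]
  have hc : (c = 0 ∧ d = 1) ∨ (c = 1 ∧ d = 0) := by
    fin_cases c <;> fin_cases d <;> simp_all
  rcases hc with ⟨rfl, rfl⟩ | ⟨rfl, rfl⟩
  · simp [be]
  · simp [be, add_comm]

theorem S7g3_gw_mul (A L θ v : ℝ) : gw A L v * Real.exp (θ * v) = gw A (L + θ) v := by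
  unfold gw
  rw [← Real.exp_add]
  congr 1
  ring

/-- the upper bound of the density -/
theorem S7g3_int (A L ρ C C1 : ℝ) (hA : 0 < A) :
    Integrable (fun v => gw A L v * ((1 + C * Real.exp (-(2 * v))) * (1 + C1 * Real.exp (-(2 * ρ * v))))) := by
  have e : (fun v => gw A L v * ((1 + C * Real.exp (-(2 * v))) * (1 + C1 * Real.exp (-(2 * ρ * v))))) =
      fun v => gw A L v + C * gw A (L + -2) v + C1 * gw A (L + -(2 * ρ)) v +
        C * C1 * gw A (L + (-2 + -(2 * ρ))) v := by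
    funext v
    rw [← S7g3_gw_mul A L (-2), ← S7g3_gw_mul A L (-(2 * ρ)), ← S7g3_gw_mul A L (-2 + -(2 * ρ))]
    have e1 : -(2 * v) = -2 * v := by ring
    have e2 : -(2 * ρ * v) = -(2 * ρ) * v := by ring
    have e3 : Real.exp ((-2 + -(2 * ρ)) * v) = Real.exp (-2 * v) * Real.exp (-(2 * ρ) * v) := by
      rw [← Real.exp_add]; congr 1; ring
    rw [e1, e2, e3]
    ring
  rw [e]
  exact (((gw_integrable A _ hA).add ((gw_integrable A _ hA).const_mul _)).add
    ((gw_integrable A _ hA).const_mul _)).add ((gw_integrable A _ hA).const_mul _)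

/-- Proof. `Es x B f h 0 = (∫ h(Bx) exp(x f(Bx)))/(∫ exp(x f(Bx)))`, `f = PsiL (be b1 b2) l3 F0`, `f z = psi_c(z c) + psi_d(z d)` with
`psi_c = psi1 (be b1 b2 c) (l3.map (pr c))` (`PsiL_diag`). `gauss_two` with `H v w = h v * exp(x (psi_c v + psi_d w))` and `kap_est` (for `s = √(…) ≥ 0`) and `psi1_corner` for `psi_c`:
`psi_c v = v + a + rem v`: numerator `= K ∫ h v gw A L v R v`, `K = exp(a0 + x a)/√(2πA)`, `R v = exp(x rem v) κ v`, `L = x(1+ρ)`. Denominator: `h = 1`. So `Z = (∫ gw A L R)⁻¹`.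
`R ≥ 1`, `R v ≤ (1 + C e^{-2v})(1 + C1 e^{-2ρv})` for all `v` gives `Z1`, `Z2` and the upper bound for `v ≥ 0` (`e^{-2v} ≤ e^{-2ρv}` as `ρ < 1`); lower bound `R ≥ κ`. `Ok (l3.map (pr c))`: `Ok_pr`. -/
theorem pair_density (b1 b2 x : ℝ) (hb1 : 0 < b1) (hb2 : 0 < b2) (hx : 0 < x) (hx1 : x ≤ 1)
    (Q : Matrix (Fin 2) (Fin 2) ℝ) (hQ : Q.PosSemidef) (c d : Fin 2) (hcd : c ≠ d)
    (hc : 0 < Q c c) (A ρ L : ℝ) (hA : A = 2 * be b1 b2 c ^ 2 * Q c c)
    (hρ : ρ = be b1 b2 d * Q c d / (be b1 b2 c * Q c c)) (hρ0 : 0 < ρ) (hρ1 : ρ < 1)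
    (hL : L = x * (1 + ρ)) :
    ∃ c1 C1 Z1 Z2 : ℝ, 0 < c1 ∧ 0 < Z1 ∧ ∀ l3 : List (Step (Fin 2)), Ok l3 →
      (∀ a ∈ l3, (a.2 * a.2ᵀ) 0 1 = 0) → ∀ E : Matrix (Fin 2) (Fin 2) ℝ, E * Eᵀ = Q →
      ∃ (Z : ℝ) (R : ℝ → ℝ), Z1 ≤ Z ∧ Z ≤ Z2 ∧ Continuous R ∧ (∀ v, 0 ≤ R v) ∧
        (∀ v, 0 ≤ v → 1 + c1 * Real.exp (-(2 * ρ * v)) ≤ R v ∧
          R v ≤ 1 + C1 * Real.exp (-(2 * ρ * v))) ∧
        Integrable (fun v => gw A L v * R v) ∧
        ∀ h : ℝ → ℝ, Continuous h → (∃ B, ∀ v, |h v| ≤ B) →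
          Es x (Bm (be b1 b2) E) (PsiL (be b1 b2) l3 F0) (fun z => h (z c)) 0 =
            Z * ∫ v, h v * (gw A L v * R v) := by
  have hbc : 0 < be b1 b2 c := by
    fin_cases c
    · exact hb1
    · exact hb2
  have hA0 : 0 < A := by rw [hA]; positivity
  set s : ℝ := Real.sqrt (2 * be b1 b2 d ^ 2 * Q d d - ρ ^ 2 * A) with hs
  obtain ⟨c1, C1, hc1, hC1, hkap⟩ := kap_est (be b1 b2 d) x ρ s hx hx1 hρ0 (Real.sqrt_nonneg _)
  obtain ⟨C, hC, hcor⟩ := psi1_corner (be b1 b2 c)
  set I0 : ℝ := ∫ v, gw A L v with hI0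
  set I1 : ℝ := ∫ v, gw A L v * ((1 + C * Real.exp (-(2 * v))) * (1 + C1 * Real.exp (-(2 * ρ * v)))) with hI1
  have hI0pos : 0 < I0 := by
    rw [hI0, integral_pos_iff_support_of_nonneg (fun v => (gw_pos A L v).le) (gw_integrable A L hA0)]
    have : Function.support (gw A L) = Set.univ := by
      ext v
      simp [Function.mem_support, (gw_pos A L v).ne']
    rw [this]
    simp
  have hle1 : ∀ v, gw A L v ≤ gw A L v * ((1 + C * Real.exp (-(2 * v))) * (1 + C1 * Real.exp (-(2 * ρ * v)))) := by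
    intro v
    have e1 := Real.exp_pos (-(2 * v))
    have e2 := Real.exp_pos (-(2 * ρ * v))
    have : 1 ≤ (1 + C * Real.exp (-(2 * v))) * (1 + C1 * Real.exp (-(2 * ρ * v))) := by
      have h1 : 1 ≤ 1 + C * Real.exp (-(2 * v)) := by
        have := mul_pos hC e1; linarith
      have h2 : 1 ≤ 1 + C1 * Real.exp (-(2 * ρ * v)) := by
        have := mul_pos hC1 e2; linarith
      nlinarith
    calc gw A L v = gw A L v * 1 := (mul_one _).symm
      _ ≤ _ := mul_le_mul_of_nonneg_left this (gw_pos A L v).le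
  have hI1pos : 0 < I1 := hI0pos.trans_le (integral_mono (gw_integrable A L hA0)
    (S7g3_int A L ρ C C1 hA0) hle1)
  refine ⟨c1, C + C1 + C * C1, I1⁻¹, I0⁻¹, hc1, inv_pos.2 hI1pos, ?_⟩
  intro l3 hl3 hdiag E hE
  obtain ⟨a0, κ, _, hκc, hκ1, hκu, hκl, hκi⟩ := hkap (l3.map (pr d)) (Ok_pr d l3 hl3)
  obtain ⟨a, _, hrem⟩ := hcor (l3.map (pr c)) (Ok_pr c l3 hl3)
  set ψc : ℝ → ℝ := psi1 (be b1 b2 c) (l3.map (pr c)) with hψc
  set ψd : ℝ → ℝ := psi1 (be b1 b2 d) (l3.map (pr d)) with hψd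
  set rem : ℝ → ℝ := fun v => ψc v - (v + a) with hremdef
  set R : ℝ → ℝ := fun v => Real.exp (x * rem v) * κ v with hR
  have hψcc : Continuous ψc := S7g3_cont _ _
  have hψdc : Continuous ψd := S7g3_cont _ _
  have hRc : Continuous R := by
    rw [hR, hremdef]
    exact (Real.continuous_exp.comp (continuous_const.mul (hψcc.sub (continuous_id.add continuous_const)))).mul hκc
  have hrem0 : ∀ v, 0 ≤ rem v := fun v => (hrem v).1
  have hrem1 : ∀ v, Real.exp (x * rem v) ≤ 1 + C * Real.exp (-(2 * v)) := by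
    intro v
    have h1 : x * rem v ≤ rem v := by
      have := mul_le_mul_of_nonneg_right hx1 (hrem0 v)
      linarith
    have h2 : 0 < 1 + C * Real.exp (-(2 * v)) := by
      have := mul_pos hC (Real.exp_pos (-(2 * v))); linarith
    have h3 : rem v ≤ Real.log (1 + C * Real.exp (-(2 * v))) := (hrem v).2.1
    calc Real.exp (x * rem v) ≤ Real.exp (Real.log (1 + C * Real.exp (-(2 * v)))) :=
          Real.exp_le_exp.2 (h1.trans h3)
      _ = _ := Real.exp_log h2
  have hrem2 : ∀ v, 1 ≤ Real.exp (x * rem v) := fun v => Real.one_le_exp (mul_nonneg hx.le (hrem0 v))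
  have hR1 : ∀ v, 1 ≤ R v := by
    intro v
    have h1 := hrem2 v
    have h2 := hκ1 v
    simp only [hR]
    nlinarith
  have hRu : ∀ v, R v ≤ (1 + C * Real.exp (-(2 * v))) * (1 + C1 * Real.exp (-(2 * ρ * v))) := by
    intro v
    simp only [hR]
    exact mul_le_mul (hrem1 v) (hκu v) (by linarith [hκ1 v]) (by
      have := mul_pos hC (Real.exp_pos (-(2 * v))); linarith)
  have hRint : Integrable (fun v => gw A L v * R v) := by
    refine (S7g3_int A L ρ C C1 hA0).mono' ((gw_cont A L).mul hRc).aestronglyMeasurable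
      (Eventually.of_forall fun v => ?_)
    rw [Real.norm_eq_abs, abs_of_nonneg (mul_nonneg (gw_pos A L v).le (zero_le_one.trans (hR1 v)))]
    exact mul_le_mul_of_nonneg_left (hRu v) (gw_pos A L v).le
  set D : ℝ := ∫ v, gw A L v * R v with hD
  have hD1 : I0 ≤ D := by
    apply integral_mono (gw_integrable A L hA0) hRint
    intro v
    calc gw A L v = gw A L v * 1 := (mul_one _).symm
      _ ≤ _ := mul_le_mul_of_nonneg_left (hR1 v) (gw_pos A L v).le
  have hD2 : D ≤ I1 := by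
    apply integral_mono hRint (S7g3_int A L ρ C C1 hA0)
    intro v
    exact mul_le_mul_of_nonneg_left (hRu v) (gw_pos A L v).le
  have hDpos : 0 < D := hI0pos.trans_le hD1
  -- representation of the integrals
  have hrepr : ∀ h : ℝ → ℝ, Continuous h → (∃ B, ∀ v, |h v| ≤ B) →
      ∫ y, h ((Bm (be b1 b2) E).mulVec y c) * Real.exp (x * PsiL (be b1 b2) l3 F0 ((Bm (be b1 b2) E).mulVec y))
        ∂(gam (Fin 2)) =
      ((Real.sqrt (2 * Real.pi * A))⁻¹ * Real.exp (a0 + x * a)) * ∫ v, h v * (gw A L v * R v) := by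
    intro h hh ⟨B, hB⟩
    have hB0 : 0 ≤ B := (abs_nonneg _).trans (hB 0)
    obtain ⟨D1, hD10, hD1b⟩ := S7g3_growth (be b1 b2 c) (l3.map (pr c))
    obtain ⟨D2, hD20, hD2b⟩ := S7g3_growth (be b1 b2 d) (l3.map (pr d))
    have hg := gauss_two b1 b2 hb1 hb2 Q hQ c d hcd hc A ρ hA hρ E hE
      (fun v w => h v * Real.exp (x * (ψc v + ψd w)))
      (by
        apply Continuous.mul
        · exact hh.comp continuous_fst
        · apply Real.continuous_exp.comp
          exact continuous_const.mul ((hψcc.comp continuous_fst).add (hψdc.comp continuous_snd)))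
      (by
        refine ⟨B * Real.exp (D1 + D2) + (D1 + D2), fun v w => ?_⟩
        rw [abs_mul, abs_of_pos (Real.exp_pos _)]
        have e1 : x * (ψc v + ψd w) ≤ (D1 + D2) + (D1 + D2) * (|v| + |w|) := by
          have h1 := (le_abs_self _).trans (hD1b v)
          have h2 := (le_abs_self _).trans (hD2b w)
          have h3 := abs_nonneg v
          have h4 := abs_nonneg w
          have h5 : ψc v + ψd w ≤ (D1 + D2) + (D1 + D2) * (|v| + |w|) := by
            have h6 : 0 ≤ D1 * |w| := mul_nonneg hD10 h4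
            have h7 : 0 ≤ D2 * |v| := mul_nonneg hD20 h3
            have h8 : ψc v ≤ D1 * (1 + |v|) := h1
            have h9 : ψd w ≤ D2 * (1 + |w|) := h2
            nlinarith
          have h10 : 0 ≤ (D1 + D2) + (D1 + D2) * (|v| + |w|) := by positivity
          calc x * (ψc v + ψd w) ≤ x * ((D1 + D2) + (D1 + D2) * (|v| + |w|)) :=
                mul_le_mul_of_nonneg_left h5 hx.le
            _ ≤ 1 * ((D1 + D2) + (D1 + D2) * (|v| + |w|)) := mul_le_mul_of_nonneg_right hx1 h10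
            _ = _ := one_mul _
        have e2 : Real.exp (x * (ψc v + ψd w)) ≤
            Real.exp (D1 + D2) * Real.exp ((D1 + D2) * (|v| + |w|)) := by
          rw [← Real.exp_add]
          exact Real.exp_le_exp.2 e1
        have e3 : Real.exp ((D1 + D2) * (|v| + |w|)) ≤
            Real.exp ((B * Real.exp (D1 + D2) + (D1 + D2)) * (|v| + |w|)) := by
          apply Real.exp_le_exp.2
          apply mul_le_mul_of_nonneg_right _ (by positivity)
          have : 0 ≤ B * Real.exp (D1 + D2) := mul_nonneg hB0 (Real.exp_pos _).le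
          linarith
        have e4 := Real.exp_pos (D1 + D2)
        have e5 := Real.exp_pos ((D1 + D2) * (|v| + |w|))
        calc |h v| * Real.exp (x * (ψc v + ψd w)) ≤
              B * (Real.exp (D1 + D2) * Real.exp ((D1 + D2) * (|v| + |w|))) :=
              mul_le_mul (hB v) e2 (Real.exp_pos _).le hB0
          _ = (B * Real.exp (D1 + D2)) * Real.exp ((D1 + D2) * (|v| + |w|)) := by ring
          _ ≤ (B * Real.exp (D1 + D2) + (D1 + D2)) *
                Real.exp ((B * Real.exp (D1 + D2) + (D1 + D2)) * (|v| + |w|)) := by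
              apply mul_le_mul _ e3 e5.le
              · have : 0 ≤ B * Real.exp (D1 + D2) := mul_nonneg hB0 e4.le
                linarith
              · linarith)
    have e1 : ∀ y : Fin 2 → ℝ, h ((Bm (be b1 b2) E).mulVec y c) *
        Real.exp (x * PsiL (be b1 b2) l3 F0 ((Bm (be b1 b2) E).mulVec y)) =
        (fun v w => h v * Real.exp (x * (ψc v + ψd w))) ((Bm (be b1 b2) E).mulVec y c)
          ((Bm (be b1 b2) E).mulVec y d) := by
      intro y
      rw [S7g3_Psi b1 b2 l3 hl3 hdiag c d hcd]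
    simp only [e1]
    rw [hg, mul_assoc ((Real.sqrt (2 * Real.pi * A))⁻¹) (Real.exp (a0 + x * a))]
    congr 1
    rw [← integral_const_mul]
    congr 1
    funext v
    have e2 : ∫ y, h v * Real.exp (x * (ψc v + ψd (ρ * v + s * y))) ∂(gaussianReal 0 1) =
        h v * Real.exp (x * ψc v) * (Real.exp (x * ρ * v + a0) * κ v) := by
      rw [← hκi v, ← integral_const_mul]
      congr 1
      funext y
      rw [mul_add x, Real.exp_add]
      ring
    rw [e2]
    have e3 : Real.exp (x * ψc v) = Real.exp (x * v + x * a) * Real.exp (x * rem v) := by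
      rw [← Real.exp_add]
      congr 1
      simp only [hremdef]
      ring
    have e4 : gw A L v = gw A 0 v * Real.exp (x * v) * Real.exp (x * ρ * v) := by
      unfold gw
      rw [← Real.exp_add, ← Real.exp_add, hL]
      congr 1
      ring
    rw [e3, e4]
    simp only [hR]
    rw [Real.exp_add (x * v), Real.exp_add (x * ρ * v), Real.exp_add a0]
    ring
  refine ⟨D⁻¹, R, ?_, ?_, hRc, fun v => zero_le_one.trans (hR1 v), ?_, hRint, ?_⟩
  · exact inv_anti₀ hDpos hD2
  · exact inv_anti₀ hI0pos hD1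
  · intro v hv
    constructor
    · refine (hκl v hv).trans ?_
      have h1 := hrem2 v
      have h2 := hκ1 v
      simp only [hR]
      nlinarith
    · refine (hRu v).trans ?_
      have e1 : Real.exp (-(2 * v)) ≤ Real.exp (-(2 * ρ * v)) := by
        apply Real.exp_le_exp.2
        nlinarith
      have e2 : Real.exp (-(2 * v)) ≤ 1 := by
        rw [Real.exp_le_one_iff]; linarith
      have e3 := Real.exp_pos (-(2 * v))
      have e4 := Real.exp_pos (-(2 * ρ * v))
      have e5 : Real.exp (-(2 * v)) * Real.exp (-(2 * ρ * v)) ≤ Real.exp (-(2 * ρ * v)) := by nlinarith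
      have e6 : C * C1 * (Real.exp (-(2 * v)) * Real.exp (-(2 * ρ * v))) ≤
          C * C1 * Real.exp (-(2 * ρ * v)) := mul_le_mul_of_nonneg_left e5 (by positivity)
      have e7 : C * Real.exp (-(2 * v)) ≤ C * Real.exp (-(2 * ρ * v)) :=
        mul_le_mul_of_nonneg_left e1 hC.le
      nlinarith
  · intro h hh hB
    unfold Es
    have e1 : ∀ y : Fin 2 → ℝ, (0 : Fin 2 → ℝ) + (Bm (be b1 b2) E).mulVec y =
        (Bm (be b1 b2) E).mulVec y := fun y => zero_add _
    simp only [e1]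
    rw [hrepr h hh hB]
    have h1 := hrepr (fun _ => 1) continuous_const ⟨1, fun _ => by simp⟩
    simp only [one_mul] at h1
    rw [h1, ← hD]
    have hK : (Real.sqrt (2 * Real.pi * A))⁻¹ * Real.exp (a0 + x * a) ≠ 0 := by
      have : 0 < Real.sqrt (2 * Real.pi * A) := Real.sqrt_pos.2 (by positivity)
      positivity
    rw [mul_div_mul_left _ _ hK]
    rw [div_eq_inv_mul]

end SKC.Z
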