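import Mathlib

/-! # Part Z, step S7: Gaussian tails with exponential weight (helper4) -/

set_option autoImplicit false

open MeasureTheory Filter Topology

namespace SKC.Z

/-- the weight `exp(-v²/2A + Λ v)` -/
noncomputable def gw (A Λ v : ℝ) : ℝ := Real.exp (-(v ^ 2 / (2 * A)) + Λ * v)

/-- its tail -/
noncomputable def Ph (A Λ y : ℝ) : ℝ := ∫ v in Set.Ioi y, gw A Λ v

theorem gw_pos (A Λ v : ℝ) : 0 < gw A Λ v := Real.exp_pos _

theorem gw_cont (A Λ : ℝ) : Continuous (gw A Λ) := by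
  unfold gw
  fun_prop

/-- Proof: `field_simp`, `ring_nf` in the exponent. -/
theorem gw_shift (A L κ w : ℝ) (hA : 0 < A) : gw A L (w + κ) = gw A L κ * gw A (L - κ / A) w := by
  unfold gw
  rw [← Real.exp_add]
  congr 1
  have h2 : A ≠ 0 := hA.ne'
  field_simp
  ring

theorem S7a_square (A Λ v : ℝ) (hA : 0 < A) :
    gw A Λ v = Real.exp (A * Λ ^ 2 / 2) * Real.exp (-(1 / (2 * A)) * (v - A * Λ) ^ 2) := by
  unfold gw
  rw [← Real.exp_add]
  congr 1
  have h2 : A ≠ 0 := hA.ne'
  field_simp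
  ring

theorem S7a_Ph_eq (A Λ y : ℝ) (hA : 0 < A) :
    Ph A Λ y = Real.exp (A * Λ ^ 2 / 2) *
      ∫ w in Set.Ioi (y - A * Λ), Real.exp (-(1 / (2 * A)) * w ^ 2) := by
  unfold Ph
  rw [← integral_indicator measurableSet_Ioi, ← integral_indicator measurableSet_Ioi,
    ← integral_const_mul]
  rw [← integral_sub_right_eq_self (fun v : ℝ => Real.exp (A * Λ ^ 2 / 2) *
    (Set.Ioi (y - A * Λ)).indicator (fun w => Real.exp (-(1 / (2 * A)) * w ^ 2)) v) (A * Λ)]
  congr 1
  funext v
  by_cases hv : y < v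
  · rw [Set.indicator_of_mem (show v ∈ Set.Ioi y from hv),
      Set.indicator_of_mem (show v - A * Λ ∈ Set.Ioi (y - A * Λ) from by
        simp only [Set.mem_Ioi]; linarith), S7a_square A Λ v hA]
  · rw [Set.indicator_of_notMem (show v ∉ Set.Ioi y from hv),
      Set.indicator_of_notMem (show v - A * Λ ∉ Set.Ioi (y - A * Λ) from by
        simp only [Set.mem_Ioi]; intro h; exact hv (by linarith)), mul_zero]

theorem S7a_tail_cont (A : ℝ) (hA : 0 < A) :
    Continuous (fun c : ℝ => ∫ w in Set.Ioi c, Real.exp (-(1 / (2 * A)) * w ^ 2)) := by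
  have hi : Integrable (fun w : ℝ => Real.exp (-(1 / (2 * A)) * w ^ 2)) :=
    integrable_exp_neg_mul_sq (by positivity)
  have hE : (fun c : ℝ => ∫ w in Set.Ioi c, Real.exp (-(1 / (2 * A)) * w ^ 2)) =
      (fun c : ℝ => (∫ w, Real.exp (-(1 / (2 * A)) * w ^ 2)) -
        ((∫ w in Set.Iic (0 : ℝ), Real.exp (-(1 / (2 * A)) * w ^ 2)) +
          ∫ w in (0 : ℝ)..c, Real.exp (-(1 / (2 * A)) * w ^ 2))) := by
    funext c
    have h1 := MeasureTheory.integral_add_compl (μ := volume) (measurableSet_Iic (a := c)) hi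
    rw [Set.compl_Iic] at h1
    have h2 := intervalIntegral.integral_Iic_sub_Iic (μ := volume) (a := (0 : ℝ)) (b := c)
      hi.integrableOn hi.integrableOn
    linarith
  rw [hE]
  exact continuous_const.sub (continuous_const.add
    (intervalIntegral.continuous_primitive (fun a b => hi.intervalIntegrable) 0))

/-- Proof: complete the square, `integrable_exp_neg_mul_sq` and translation (`Integrable.comp_sub_right`); or
`integrable_exp_mul_exp_add_real` style lemmas of Mathlib for Gaussians. -/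
theorem gw_integrable (A Λ : ℝ) (hA : 0 < A) : Integrable (gw A Λ) := by
  have h1 : Integrable (fun v : ℝ => Real.exp (-(1 / (2 * A)) * v ^ 2)) :=
    integrable_exp_neg_mul_sq (by positivity)
  have h2 := (h1.comp_sub_right (A * Λ)).const_mul (Real.exp (A * Λ ^ 2 / 2))
  refine h2.congr (Filter.Eventually.of_forall (fun v => ?_))
  simp only
  rw [S7a_square A Λ v hA]

theorem Ph_pos (A Λ y : ℝ) (hA : 0 < A) : 0 < Ph A Λ y := by
  unfold Ph
  have hi := (gw_integrable A Λ hA).integrableOn (s := Set.Ioi y)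
  rw [MeasureTheory.setIntegral_pos_iff_support_of_nonneg_ae
    (Filter.Eventually.of_forall (fun v => (gw_pos A Λ v).le)) hi]
  have h1 : Function.support (gw A Λ) ∩ Set.Ioi y = Set.Ioi y := by
    ext v
    simp [Function.mem_support, (gw_pos A Λ v).ne']
  rw [h1]
  simp

theorem Ph_anti (A Λ : ℝ) (hA : 0 < A) {y y' : ℝ} (h : y ≤ y') : Ph A Λ y' ≤ Ph A Λ y := by
  unfold Ph
  exact MeasureTheory.setIntegral_mono_set (gw_integrable A Λ hA).integrableOn
    (Filter.Eventually.of_forall (fun v => (gw_pos A Λ v).le))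
    (Filter.Eventually.of_forall (fun v hv => lt_of_le_of_lt h hv))

/-- continuity in `(Λ, y)` along convergent families.
Proof: `Ph A Λ y = exp(A Λ²/2) ∫_{w > y - A Λ} exp(-w²/2A)` (complete the square, translation), and the tail integral of an
integrable function is continuous in its lower limit (`total - ∫ Iic`, or dominated convergence). -/
theorem Ph_cont (A : ℝ) (hA : 0 < A) : Continuous (fun p : ℝ × ℝ => Ph A p.1 p.2) := by
  have hE : (fun p : ℝ × ℝ => Ph A p.1 p.2) = (fun p : ℝ × ℝ =>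
      Real.exp (A * p.1 ^ 2 / 2) * (fun c : ℝ => ∫ w in Set.Ioi c, Real.exp (-(1 / (2 * A)) * w ^ 2))
        (p.2 - A * p.1)) := by
    funext p
    exact S7a_Ph_eq A p.1 p.2 hA
  rw [hE]
  have h3 := S7a_tail_cont A hA
  exact (by fun_prop : Continuous (fun p : ℝ × ℝ => Real.exp (A * p.1 ^ 2 / 2))).mul
    (h3.comp (by fun_prop : Continuous (fun p : ℝ × ℝ => p.2 - A * p.1)))

/-- Proof: for `v > y` one has `exp((Λ' - Λ) y) ≤ exp((Λ' - Λ) v)`; `setIntegral_mono_on`. -/
theorem Ph_lam (A Λ Λ' y : ℝ) (hA : 0 < A) (h : Λ ≤ Λ') :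
    Real.exp ((Λ' - Λ) * y) * Ph A Λ y ≤ Ph A Λ' y := by
  unfold Ph
  rw [← integral_const_mul]
  refine MeasureTheory.setIntegral_mono_on
    (((gw_integrable A Λ hA).const_mul _).integrableOn) (gw_integrable A Λ' hA).integrableOn
    measurableSet_Ioi (fun v hv => ?_)
  unfold gw
  rw [← Real.exp_add]
  apply Real.exp_le_exp.mpr
  have h4 : (Λ' - Λ) * y ≤ (Λ' - Λ) * v :=
    mul_le_mul_of_nonneg_left (le_of_lt hv) (sub_nonneg.mpr h)
  linarith

end SKC.Z
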