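import Pool.Agent.H.MP_08eaf3_pr.Z.S7g4
import Pool.Agent.H.MP_08eaf3_pr.Z.S7a

/-! # Part Z, step S7: density of the single chain (helper4) -/

set_option autoImplicit false

open MeasureTheory ProbabilityTheory Filter Topology Matrix

namespace SKC.Z

theorem S7g5_Qtot_append {K : Type} [Fintype K] (l l' : List (Step K)) :
    Qtot (l ++ l') = Qtot l + Qtot l' := by
  induction l with
  | nil => simp [Qtot]
  | cons a l ih => simp only [List.cons_append, Qtot, ih, add_assoc]

theorem S7g5_Qtot_nonneg {K : Type} [Fintype K] (l : List (Step K)) (c : K) : 0 ≤ Qtot l c c := by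
  induction l with
  | nil => simp [Qtot]
  | cons a l ih =>
    simp only [Qtot, Matrix.add_apply]
    refine add_nonneg ?_ ih
    rw [Matrix.mul_apply]
    exact Finset.sum_nonneg fun j _ => by
      rw [Matrix.transpose_apply]
      exact mul_self_nonneg _

theorem S7g5_ok_right {K : Type} [Fintype K] {l l' : List (Step K)} (h : Ok (l ++ l')) : Ok l' := by
  obtain ⟨h1, h2, h3⟩ := h
  refine ⟨(List.pairwise_append.1 h1).2.1, fun a ha => h2 a (List.mem_append_right _ ha), fun c => ?_⟩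
  have := h3 c
  rw [S7g5_Qtot_append, Matrix.add_apply] at this
  have h0 : 0 ≤ Qtot l c c := S7g5_Qtot_nonneg l c
  linarith

/-- Proof. `single_density` for `s1`, `s2`: density `exp(-v²/2A + m psi1(v) - k v) G0(v)`, `psi1_corner` for `s2`: `psi1 b s2 v = v + a + rem v`; `L = m - k ∈ [0, 1]`,
`G v = exp(m a) G0 v`, `R v = exp(m rem v)` (`0 ≤ rem v ≤ log(1 + C e^{-2v})`, `m ≤ 1`). `R` is continuous as `psi1` is. Integrability: the integral of the density is `1` (`h = 1`, `ChE_const`), not `0`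
(`MeasureTheory.integral_undef`). -/
theorem single_data (b q : ℝ) (hb : 0 < b) (hq : 0 < q) : ∃ Cg C1 : ℝ, ∀ s1 s2 : List (Step Unit),
    Ok (s1 ++ s2) → Qtot s1 = (fun _ _ => q) → ∃ (L : ℝ) (G R : ℝ → ℝ), |L| ≤ 1 ∧ Monotone G ∧
      (∀ v, 0 ≤ G v) ∧ (∀ v, G v ≤ Cg) ∧ Continuous R ∧ (∀ v, 1 ≤ R v) ∧
      (∀ v, 0 ≤ v → R v ≤ 1 + C1 * Real.exp (-(2 * v))) ∧
      Integrable (fun v => gw (2 * b ^ 2 * q) L v * (G v * R v)) ∧
      ∀ h : ℝ → ℝ, Continuous h → (∃ B, ∀ v, |h v| ≤ B) →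
        ChE (fun _ : Unit => b) s1 (PsiL (fun _ : Unit => b) s2 F0) (fun y => h (y ())) 0 =
          ∫ v, h v * (gw (2 * b ^ 2 * q) L v * (G v * R v)) := by
  obtain ⟨C, hC, hsd⟩ := single_density b hb q hq
  obtain ⟨Cp, hCp, hpc⟩ := psi1_corner b
  refine ⟨Real.exp Cp * C, Cp, ?_⟩
  intro s1 s2 hok hq1
  obtain ⟨m, k, G, hk0, hkm, hm1, hG0, hGC, hGm, -, hdens⟩ := hsd s1 s2 hok hq1
  obtain ⟨a, ha, hcor⟩ := hpc s2 (S7g5_ok_right hok)
  have hm0 : 0 ≤ m := hk0.trans hkm
  have hma : m * a ≤ Cp := by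
    calc m * a ≤ |m * a| := le_abs_self _
      _ = m * |a| := by rw [abs_mul, abs_of_nonneg hm0]
      _ ≤ 1 * |a| := mul_le_mul_of_nonneg_right hm1 (abs_nonneg _)
      _ ≤ Cp := by linarith
  have hcont : Continuous (psi1 b s2) :=
    continuous_iff_continuousAt.2 fun v => (psi1_deriv b s2 v).continuousAt
  have hdens' : ∀ v : ℝ, Real.exp (-(v ^ 2 / (2 * (2 * b ^ 2 * q))) + m * psi1 b s2 v - k * v) * G v =
      gw (2 * b ^ 2 * q) (m - k) v * (Real.exp (m * a) * G v *
        Real.exp (m * (psi1 b s2 v - (v + a)))) := by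
    intro v
    have h1 : Real.exp (-(v ^ 2 / (2 * (2 * b ^ 2 * q))) + m * psi1 b s2 v - k * v) =
        gw (2 * b ^ 2 * q) (m - k) v * (Real.exp (m * a) *
          Real.exp (m * (psi1 b s2 v - (v + a)))) := by
      unfold gw
      rw [← Real.exp_add, ← Real.exp_add]
      congr 1
      ring
    rw [h1]
    ring
  have hLG : LG (PsiL (fun _ : Unit => b) s2 F0) := LG_PsiL _ _ _ LG_F0
  have hformula : ∀ h : ℝ → ℝ, Continuous h → (∃ B, ∀ v, |h v| ≤ B) →
      ChE (fun _ : Unit => b) s1 (PsiL (fun _ : Unit => b) s2 F0) (fun y => h (y ())) 0 =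
        ∫ v, h v * (gw (2 * b ^ 2 * q) (m - k) v * (Real.exp (m * a) * G v *
          Real.exp (m * (psi1 b s2 v - (v + a))))) := by
    intro h hh hB
    rw [hdens h hh hB]
    refine integral_congr_ae (ae_of_all _ fun v => ?_)
    show h v * (Real.exp (-(v ^ 2 / (2 * (2 * b ^ 2 * q))) + m * psi1 b s2 v - k * v) * G v) = _
    rw [hdens' v]
  refine ⟨m - k, fun v => Real.exp (m * a) * G v, fun v => Real.exp (m * (psi1 b s2 v - (v + a))),
    ?_, ?_, ?_, ?_, ?_, ?_, ?_, ?_, hformula⟩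
  · rw [abs_le]
    constructor <;> linarith
  · intro v v' hv
    exact mul_le_mul_of_nonneg_left (hGm hv) (Real.exp_pos _).le
  · intro v
    exact mul_nonneg (Real.exp_pos _).le (hG0 v).le
  · intro v
    exact mul_le_mul (Real.exp_le_exp.2 hma) (hGC v) (hG0 v).le (Real.exp_pos _).le
  · exact Real.continuous_exp.comp (continuous_const.mul
      (hcont.sub (continuous_id.add continuous_const)))
  · intro v
    exact Real.one_le_exp (mul_nonneg hm0 (hcor v).1)
  · intro v _
    obtain ⟨h1, h2, -⟩ := hcor v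
    have h3 : 0 < 1 + Cp * Real.exp (-(2 * v)) := by positivity
    calc Real.exp (m * (psi1 b s2 v - (v + a))) ≤
          Real.exp (Real.log (1 + Cp * Real.exp (-(2 * v)))) := by
          refine Real.exp_le_exp.2 ?_
          calc m * (psi1 b s2 v - (v + a)) ≤ 1 * (psi1 b s2 v - (v + a)) :=
                mul_le_mul_of_nonneg_right hm1 h1
            _ ≤ _ := by rw [one_mul]; exact h2
      _ = 1 + Cp * Real.exp (-(2 * v)) := Real.exp_log h3
  · by_contra hnot
    have h1 := hformula (fun _ => 1) continuous_const ⟨1, fun _ => by simp⟩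
    rw [ChE_const _ _ _ hLG] at h1
    have h2 : (∫ v, (fun _ : ℝ => (1 : ℝ)) v * (gw (2 * b ^ 2 * q) (m - k) v *
        (Real.exp (m * a) * G v * Real.exp (m * (psi1 b s2 v - (v + a)))))) = 0 := by
      simp only [one_mul]
      exact integral_undef hnot
    rw [h2] at h1
    norm_num at h1

end SKC.Z
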