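import Pool.Agent.H.MP_08eaf3_pr.Z.S7d

/-! # Part Z, step S7: tail of the single chain (helper4) -/

set_option autoImplicit false

open MeasureTheory Filter Topology

namespace SKC.Z

theorem S7e_small {CT CS y : ℝ} (hCT : 0 < CT) (hCS : 0 < CS) (hy : CT * (1 + 2 * CS) ≤ y) :
    (1 + 2 * CS) * (CT * (1 + y) * Real.exp (-(2 * y))) ≤ 1 := by
  have hy0 : 0 ≤ y := le_trans (by positivity) hy
  have h1 : 1 + y ≤ Real.exp y := by linarith [Real.add_one_le_exp y]
  have h2 : Real.exp (-(2 * y)) * (Real.exp y * Real.exp y) = 1 := by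
    rw [← Real.exp_add, ← Real.exp_add]
    simp [two_mul]
  have hE := Real.exp_pos (-(2 * y))
  have h3 : (1 + y) * (1 + y) ≤ Real.exp y * Real.exp y :=
    mul_le_mul h1 h1 (by linarith) (Real.exp_pos _).le
  have h4 : Real.exp (-(2 * y)) * ((1 + y) * (1 + y)) ≤ 1 :=
    (mul_le_mul_of_nonneg_left h3 hE.le).trans h2.le
  have h5 : CT * (1 + 2 * CS) * ((1 + y) * Real.exp (-(2 * y))) ≤
      (1 + y) * ((1 + y) * Real.exp (-(2 * y))) :=
    mul_le_mul_of_nonneg_right (by linarith) (by positivity)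
  linarith

theorem S7e_mono {y y' : ℝ} (hy : 0 ≤ y) (h : y ≤ y') :
    (1 + y') * Real.exp (-(2 * y')) ≤ (1 + y) * Real.exp (-(2 * y)) := by
  have h1 : Real.exp (-(2 * y)) = Real.exp (2 * (y' - y)) * Real.exp (-(2 * y')) := by
    rw [← Real.exp_add]
    congr 1
    ring
  have h2 : 1 + 2 * (y' - y) ≤ Real.exp (2 * (y' - y)) := by
    linarith [Real.add_one_le_exp (2 * (y' - y))]
  have h3 : 1 + y' ≤ (1 + y) * Real.exp (2 * (y' - y)) := by
    calc 1 + y' ≤ (1 + y) * (1 + 2 * (y' - y)) := by nlinarith [mul_nonneg hy (sub_nonneg.2 h)]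
      _ ≤ _ := mul_le_mul_of_nonneg_left h2 (by linarith)
  rw [h1, ← mul_assoc]
  exact mul_le_mul_of_nonneg_right h3 (Real.exp_pos _).le

theorem S7e_int {A Λ : ℝ} (hA : 0 < A) {G : ℝ → ℝ} (hG : Monotone G) (hG0 : ∀ v, 0 ≤ G v) {Cg : ℝ}
    (hGC : ∀ v, G v ≤ Cg) (κ : ℝ) : Integrable (fun w => gw A Λ w * G (w + κ)) := by
  have hm : Monotone (fun w => G (w + κ)) := fun a b h => hG (by linarith)
  refine ((gw_integrable A Λ hA).const_mul Cg).mono' ?_ ?_
  · exact ((gw_cont A Λ).measurable.mul hm.measurable).aestronglyMeasurable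
  · refine Eventually.of_forall fun v => ?_
    rw [Real.norm_eq_abs, abs_of_nonneg (mul_nonneg (gw_pos A Λ v).le (hG0 _)), mul_comm]
    exact mul_le_mul_of_nonneg_right (hGC _) (gw_pos A Λ v).le

theorem S7e_upper {A Λ : ℝ} (hA : 0 < A) {G R : ℝ → ℝ} (hG : Monotone G) (hG0 : ∀ v, 0 ≤ G v)
    {Cg : ℝ} (hGC : ∀ v, G v ≤ Cg) (hR1 : ∀ v, 1 ≤ R v) {z κ b : ℝ}
    (hR : ∀ w, z < w → R (w + κ) ≤ 1 + b) :
    ∫ w in Set.Ioi z, gw A Λ w * (G (w + κ) * R (w + κ)) ≤
      (1 + b) * ∫ w in Set.Ioi z, gw A Λ w * G (w + κ) := by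
  rw [← integral_const_mul]
  refine integral_mono_of_nonneg (Eventually.of_forall fun w => ?_)
    ((S7e_int hA hG hG0 hGC κ).const_mul _).integrableOn
    ((ae_restrict_iff' measurableSet_Ioi).2 (Eventually.of_forall fun w hw => ?_))
  · exact mul_nonneg (gw_pos A Λ w).le
      (mul_nonneg (hG0 _) (zero_le_one.trans (hR1 _)))
  · have h1 := hR w hw
    have h2 : 0 ≤ gw A Λ w * G (w + κ) := mul_nonneg (gw_pos A Λ w).le (hG0 _)
    calc gw A Λ w * (G (w + κ) * R (w + κ)) = R (w + κ) * (gw A Λ w * G (w + κ)) := by ring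
      _ ≤ (1 + b) * (gw A Λ w * G (w + κ)) := mul_le_mul_of_nonneg_right h1 h2

theorem S7e_lower {A Λ : ℝ} (hA : 0 < A) {G R : ℝ → ℝ} (hG : Monotone G) (hG0 : ∀ v, 0 ≤ G v)
    {Cg : ℝ} (hGC : ∀ v, G v ≤ Cg) (hR1 : ∀ v, 1 ≤ R v) {z κ : ℝ}
    (hi : Integrable (fun w => gw A Λ w * (G (w + κ) * R (w + κ)))) :
    ∫ w in Set.Ioi z, gw A Λ w * G (w + κ) ≤
      ∫ w in Set.Ioi z, gw A Λ w * (G (w + κ) * R (w + κ)) := by
  refine integral_mono_ae (S7e_int hA hG hG0 hGC κ).integrableOn hi.integrableOn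
    (Eventually.of_forall fun w => ?_)
  exact mul_le_mul_of_nonneg_left (le_mul_of_one_le_right (hG0 _) (hR1 _)) (gw_pos A Λ w).le

theorem S7e_shift_int {A L : ℝ} (hA : 0 < A) (κ : ℝ) {P : ℝ → ℝ}
    (hi : Integrable (fun v => gw A L v * P v)) :
    Integrable (fun w => gw A (L - κ / A) w * P (w + κ)) := by
  have h1 := (hi.comp_add_right κ).const_mul (gw A L κ)⁻¹
  refine h1.congr (Eventually.of_forall fun w => ?_)
  have h2 : gw A L κ ≠ 0 := (gw_pos A L κ).ne'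
  simp only
  rw [gw_shift A L κ w hA]
  field_simp

/-- The tail of the single chain.
Proof. `tail_between` with `P = G R`; `κ = (log α)/2`, `ε(y) = C e^{-2y}`, `N(y) = ∫_{w>y} gw A Λ w G(w+κ)`, `Λ = sL A L α`. Upper: for `w > y - ε ≥ 0`, `R(w+κ) ≤ 1 + |C1| e^{2} e^{-2y}`, so
`T(y) ≤ sC (1 + C'e^{-2y}) N(y-ε(y))`; lower (`R ≥ 1`): `T(y') ≥ sC N(y'+ε(y'))`. `Ph_avg` for `G(· + κ)` from `y - ε(y)` to `y' + ε(y')`: `N(y-ε) Ph(y'+ε') ≤ N(y'+ε') Ph(y-ε)`, so
`T(y) Ph(y'+ε') ≤ (1 + C'e^{-2y}) T(y') Ph(y-ε)`. Finally `Ph(y'+ε') ≥ Ph y' (1 - C''(1+y')e^{-2y'})`, `Ph(y-ε) ≤ Ph y (1 + C''(1+y)e^{-2y})` (`Ph_shift`) and `(1+y')e^{-2y'} ≤ (1+y)e^{-2y}`, `1/(1-a) ≤ 1+2a` for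
`0 ≤ a ≤ 1/2`. Second claim: `T(y) ≤ sC (1+C') Cg Ph(y-ε) ≤ C''' Ph y` (`sC` is bounded: `0 ≤ κ ≤ (log Cm)/2`). -/
theorem single_tail (A Cm Cg C1 L0 : ℝ) (hA : 0 < A) :
    ∃ C y0 : ℝ, 0 < C ∧ 0 ≤ y0 ∧ ∀ (α L : ℝ) (M G R : ℝ → ℝ), Exp1 Cm α M → |L| ≤ L0 →
      Monotone G → (∀ v, 0 ≤ G v) → (∀ v, G v ≤ Cg) → Continuous R → (∀ v, 1 ≤ R v) →
      (∀ v, 0 ≤ v → R v ≤ 1 + C1 * Real.exp (-(2 * v))) →
      Integrable (fun v => gw A L v * (G v * R v)) →
      (∀ y y', y0 ≤ y → y ≤ y' →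
        (∫ v in {v | Real.tanh y ≤ M v}, gw A L v * (G v * R v)) * Ph A (sL A L α) y' ≤
        (∫ v in {v | Real.tanh y' ≤ M v}, gw A L v * (G v * R v)) * Ph A (sL A L α) y *
          (1 + C * (1 + y) * Real.exp (-(2 * y)))) ∧
      (∀ y, y0 ≤ y → ∫ v in {v | Real.tanh y ≤ M v}, gw A L v * (G v * R v) ≤
        C * Ph A (sL A L α) y) := by
  obtain ⟨CT, yT, hCT, hyT, hTB⟩ := tail_between A Cm hA
  obtain ⟨CS, hCS, hSh⟩ := Ph_shift A (L0 + Real.log (max Cm 1) / 2 / A) hA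
  set C' : ℝ := |C1| * Real.exp 2 with hC'
  have hC'0 : 0 ≤ C' := mul_nonneg (abs_nonneg _) (Real.exp_pos _).le
  set Kc : ℝ := Real.exp (L0 * (Real.log (max Cm 1) / 2)) with hKc
  have hKc0 : 0 < Kc := Real.exp_pos _
  refine ⟨4 * (CS * CT) + 3 * C' + 2 * (Kc * (1 + C') * |Cg|) + 1,
    yT + CT * (1 + 2 * CS) + 1, ?_, ?_, ?_⟩
  · have : 0 ≤ Kc * (1 + C') * |Cg| := by positivity
    have : 0 ≤ CS * CT := by positivity
    linarith
  · have : 0 ≤ CT * (1 + 2 * CS) := by positivity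
    linarith
  intro α L M G R hM hL hG hG0 hGC hR hR1 hR2 hi
  have hCTS : 0 ≤ CT * (1 + 2 * CS) := by positivity
  have hα0 : 0 < α := lt_of_lt_of_le one_pos hM.a1
  have hκ0 : 0 ≤ Real.log α / 2 := by
    have := Real.log_nonneg hM.a1
    linarith
  have hκ1 : Real.log α / 2 ≤ Real.log (max Cm 1) / 2 := by
    have := Real.log_le_log hα0 (hM.a2.trans (le_max_left Cm 1))
    linarith
  have hL00 : 0 ≤ L0 := (abs_nonneg _).trans hL
  set Λ : ℝ := sL A L α with hΛ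
  have hΛb : |Λ| ≤ L0 + Real.log (max Cm 1) / 2 / A := by
    rw [hΛ]
    unfold sL
    refine (abs_sub _ _).trans (add_le_add hL ?_)
    rw [abs_of_nonneg (div_nonneg hκ0 hA.le)]
    exact div_le_div_of_nonneg_right hκ1 hA.le
  have hsC0 : 0 < sC A L α := gw_pos _ _ _
  have hsC : sC A L α ≤ Kc := by
    unfold sC gw
    rw [hKc]
    apply Real.exp_le_exp.mpr
    have h1 : 0 ≤ (Real.log α / 2) ^ 2 / (2 * A) := by positivity
    have h2 : L * (Real.log α / 2) ≤ L0 * (Real.log (max Cm 1) / 2) :=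
      mul_le_mul ((le_abs_self L).trans hL) hκ1 hκ0 hL00
    linarith
  have hCg0 : 0 ≤ Cg := (hG0 0).trans (hGC 0)
  have hPi : Integrable (fun w => gw A Λ w * (G (w + Real.log α / 2) * R (w + Real.log α / 2))) :=
    S7e_shift_int (P := fun v => G v * R v) hA (Real.log α / 2) hi
  have hP0 : ∀ v, 0 ≤ (fun v => G v * R v) v := fun v =>
    mul_nonneg (hG0 v) (zero_le_one.trans (hR1 v))
  have hTB' := hTB α L M (fun v => G v * R v) hM hP0 hi
  simp only [← hΛ] at hTB'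
  set T : ℝ → ℝ := fun y => ∫ v in {v | Real.tanh y ≤ M v}, gw A L v * (G v * R v) with hT
  set N : ℝ → ℝ := fun z => ∫ w in Set.Ioi z, gw A Λ w * G (w + Real.log α / 2) with hN
  have hN0 : ∀ z, 0 ≤ N z := fun z => integral_nonneg fun w =>
    mul_nonneg (gw_pos A Λ w).le (hG0 _)
  -- the size of the error terms
  have hq : ∀ y, yT + CT * (1 + 2 * CS) + 1 ≤ y →
      CS * (CT * (1 + y) * Real.exp (-(2 * y))) ≤ 1 / 2 ∧
      CT * Real.exp (-(2 * y)) * (1 + y) ≤ 1 ∧ CT * Real.exp (-(2 * y)) ≤ 1 ∧ 1 ≤ y := by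
    intro y hy
    have h1 := S7e_small hCT hCS (by linarith : CT * (1 + 2 * CS) ≤ y)
    have hy1 : 1 ≤ y := by linarith
    have h2 : 0 ≤ CT * (1 + y) * Real.exp (-(2 * y)) := by positivity
    have h3 : 0 ≤ CS * (CT * (1 + y) * Real.exp (-(2 * y))) := by positivity
    have h4 : 0 ≤ CT * Real.exp (-(2 * y)) * y := by positivity
    refine ⟨by linarith, by linarith, by nlinarith, hy1⟩
  -- upper bound
  have hup : ∀ y, yT + CT * (1 + 2 * CS) + 1 ≤ y →
      T y ≤ sC A L α * ((1 + C' * Real.exp (-(2 * y))) * N (y - CT * Real.exp (-(2 * y)))) := by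
    intro y hy
    obtain ⟨h1, h2, h3, h4⟩ := hq y hy
    refine ((hTB' y (by linarith)).2).trans (mul_le_mul_of_nonneg_left ?_ hsC0.le)
    refine S7e_upper hA hG hG0 hGC hR1 ?_
    intro w hw
    have hw0 : 0 ≤ w + Real.log α / 2 := by linarith
    refine (hR2 _ hw0).trans ?_
    have h5 : C1 * Real.exp (-(2 * (w + Real.log α / 2))) ≤
        |C1| * Real.exp (-(2 * (w + Real.log α / 2))) :=
      mul_le_mul_of_nonneg_right (le_abs_self _) (Real.exp_pos _).le
    have h6 : Real.exp (-(2 * (w + Real.log α / 2))) ≤ Real.exp 2 * Real.exp (-(2 * y)) := by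
      rw [← Real.exp_add]
      apply Real.exp_le_exp.mpr
      linarith
    have h7 := mul_le_mul_of_nonneg_left h6 (abs_nonneg C1)
    rw [hC']
    linarith
  -- lower bound
  have hlo : ∀ y, yT + CT * (1 + 2 * CS) + 1 ≤ y →
      sC A L α * N (y + CT * Real.exp (-(2 * y))) ≤ T y := by
    intro y hy
    refine le_trans (mul_le_mul_of_nonneg_left ?_ hsC0.le) ((hTB' y (by linarith)).1)
    exact S7e_lower hA hG hG0 hGC hR1 hPi
  have hT0 : ∀ y, 0 ≤ T y := fun y => integral_nonneg fun v =>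
    mul_nonneg (gw_pos A L v).le (mul_nonneg (hG0 v) (zero_le_one.trans (hR1 v)))
  constructor
  · intro y y' hy hyy
    obtain ⟨h1, h2, h3, h4⟩ := hq y hy
    obtain ⟨h1', h2', h3', h4'⟩ := hq y' (hy.trans hyy)
    have hE := Real.exp_pos (-(2 * y))
    have hE' := Real.exp_pos (-(2 * y'))
    have hGm : Monotone (fun w => G (w + Real.log α / 2)) := fun a b h => hG (by linarith)
    have hle : y - CT * Real.exp (-(2 * y)) ≤ y' + CT * Real.exp (-(2 * y')) := by
      have e1 : 0 ≤ CT * Real.exp (-(2 * y)) := by positivity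
      have e2 : 0 ≤ CT * Real.exp (-(2 * y')) := by positivity
      linarith
    have havg : N (y - CT * Real.exp (-(2 * y))) * Ph A Λ (y' + CT * Real.exp (-(2 * y'))) ≤
        N (y' + CT * Real.exp (-(2 * y'))) * Ph A Λ (y - CT * Real.exp (-(2 * y))) :=
      Ph_avg A Λ hA (fun w => G (w + Real.log α / 2)) hGm (fun v => hG0 _) Cg (fun v => hGC _) hle
    have hs1 := (hSh Λ y (CT * Real.exp (-(2 * y))) hΛb (by linarith) (by positivity) h2).1
    have hs2 := (hSh Λ y' (CT * Real.exp (-(2 * y'))) hΛb (by linarith) (by positivity) h2').2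
    have hu := hup y hy
    have hl := hlo y' (hy.trans hyy)
    have hP1 := Ph_pos A Λ y hA
    have hP2 := Ph_pos A Λ y' hA
    have hP3 := Ph_pos A Λ (y - CT * Real.exp (-(2 * y))) hA
    have hP4 := Ph_pos A Λ (y' + CT * Real.exp (-(2 * y'))) hA
    have hmo := S7e_mono (by linarith : (0 : ℝ) ≤ y) hyy
    have hTy := hT0 y
    have hTy' := hT0 y'
    have hb0 : 0 ≤ 1 + C' * Real.exp (-(2 * y)) := by positivity
    -- step 1
    have k1 : T y * Ph A Λ (y' + CT * Real.exp (-(2 * y'))) ≤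
        (1 + C' * Real.exp (-(2 * y))) * (T y' * Ph A Λ (y - CT * Real.exp (-(2 * y)))) := by
      calc T y * Ph A Λ (y' + CT * Real.exp (-(2 * y')))
          ≤ sC A L α * ((1 + C' * Real.exp (-(2 * y))) * N (y - CT * Real.exp (-(2 * y)))) *
              Ph A Λ (y' + CT * Real.exp (-(2 * y'))) := mul_le_mul_of_nonneg_right hu hP4.le
        _ = (sC A L α * (1 + C' * Real.exp (-(2 * y)))) *
            (N (y - CT * Real.exp (-(2 * y))) * Ph A Λ (y' + CT * Real.exp (-(2 * y')))) := by ring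
        _ ≤ (sC A L α * (1 + C' * Real.exp (-(2 * y)))) *
            (N (y' + CT * Real.exp (-(2 * y'))) * Ph A Λ (y - CT * Real.exp (-(2 * y)))) :=
            mul_le_mul_of_nonneg_left havg (mul_nonneg hsC0.le hb0)
        _ = (1 + C' * Real.exp (-(2 * y))) * ((sC A L α * N (y' + CT * Real.exp (-(2 * y')))) *
              Ph A Λ (y - CT * Real.exp (-(2 * y)))) := by ring
        _ ≤ _ := mul_le_mul_of_nonneg_left (mul_le_mul_of_nonneg_right hl hP3.le) hb0
    set a : ℝ := CS * (CT * (1 + y) * Real.exp (-(2 * y))) with ha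
    have ha0 : 0 ≤ a := by positivity
    have ha' : CS * (1 + y') * (CT * Real.exp (-(2 * y'))) ≤ a := by
      rw [ha]
      have e1 := mul_le_mul_of_nonneg_left hmo (by positivity : 0 ≤ CS * CT)
      calc CS * (1 + y') * (CT * Real.exp (-(2 * y'))) =
            CS * CT * ((1 + y') * Real.exp (-(2 * y'))) := by ring
        _ ≤ CS * CT * ((1 + y) * Real.exp (-(2 * y))) := e1
        _ = _ := by ring
    have k2 : Ph A Λ y' * (1 - a) ≤ Ph A Λ (y' + CT * Real.exp (-(2 * y'))) :=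
      le_trans (mul_le_mul_of_nonneg_left (by linarith) hP2.le) hs2
    have k3 : Ph A Λ (y - CT * Real.exp (-(2 * y))) ≤ Ph A Λ y * (1 + a) := by
      refine hs1.trans (le_of_eq ?_)
      rw [ha]
      ring
    have k4 : T y * (Ph A Λ y' * (1 - a)) ≤
        (1 + C' * Real.exp (-(2 * y))) * (T y' * (Ph A Λ y * (1 + a))) :=
      ((mul_le_mul_of_nonneg_left k2 hTy).trans k1).trans
        (mul_le_mul_of_nonneg_left (mul_le_mul_of_nonneg_left k3 hTy') hb0)
    have k5 : (1 + C' * Real.exp (-(2 * y))) * (1 + a) ≤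
        (1 - a) * (1 + (4 * (CS * CT) + 3 * C' + 2 * (Kc * (1 + C') * |Cg|) + 1) * (1 + y) *
          Real.exp (-(2 * y))) := by
      set E := Real.exp (-(2 * y)) with hEdef
      have e1 : 0 ≤ C' * E := by positivity
      have e2 : C' * E ≤ C' * ((1 + y) * E) := by
        refine mul_le_mul_of_nonneg_left ?_ hC'0
        have : 0 ≤ y * E := mul_nonneg (by linarith) hE.le
        linarith
      have e3 : 0 ≤ (2 * (Kc * (1 + C') * |Cg|) + 1) * ((1 + y) * E) := by positivity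
      have e4 : 4 * a + 3 * (C' * E) ≤ (4 * (CS * CT) + 3 * C' + 2 * (Kc * (1 + C') * |Cg|) + 1) *
          (1 + y) * E := by
        have e5 : (4 * (CS * CT) + 3 * C' + 2 * (Kc * (1 + C') * |Cg|) + 1) * (1 + y) * E =
            4 * a + 3 * (C' * ((1 + y) * E)) + (2 * (Kc * (1 + C') * |Cg|) + 1) * ((1 + y) * E) := by
          rw [ha]
          ring
        rw [e5]
        linarith
      have e6 : (1 - a) * (1 + (4 * a + 3 * (C' * E))) ≤
          (1 - a) * (1 + (4 * (CS * CT) + 3 * C' + 2 * (Kc * (1 + C') * |Cg|) + 1) *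
            (1 + y) * E) :=
        mul_le_mul_of_nonneg_left (by linarith) (by linarith)
      refine le_trans ?_ e6
      have e7 : 0 ≤ a * (1 / 2 - a) := mul_nonneg ha0 (by linarith)
      have e8 : 0 ≤ (C' * E) * (1 / 2 - a) := mul_nonneg e1 (by linarith)
      nlinarith
    have hpos : 0 < 1 - a := by linarith
    have k6 : (1 - a) * (T y * Ph A Λ y') ≤
        (1 - a) * (T y' * Ph A Λ y * (1 + (4 * (CS * CT) + 3 * C' + 2 * (Kc * (1 + C') * |Cg|) + 1) *
          (1 + y) * Real.exp (-(2 * y)))) := by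
      calc (1 - a) * (T y * Ph A Λ y') = T y * (Ph A Λ y' * (1 - a)) := by ring
        _ ≤ (1 + C' * Real.exp (-(2 * y))) * (T y' * (Ph A Λ y * (1 + a))) := k4
        _ = (T y' * Ph A Λ y) * ((1 + C' * Real.exp (-(2 * y))) * (1 + a)) := by ring
        _ ≤ (T y' * Ph A Λ y) * ((1 - a) * (1 + (4 * (CS * CT) + 3 * C' +
              2 * (Kc * (1 + C') * |Cg|) + 1) * (1 + y) * Real.exp (-(2 * y)))) :=
            mul_le_mul_of_nonneg_left k5 (mul_nonneg hTy' hP1.le)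
        _ = _ := by ring
    exact le_of_mul_le_mul_left k6 hpos
  · intro y hy
    obtain ⟨h1, h2, h3, h4⟩ := hq y hy
    have hE := Real.exp_pos (-(2 * y))
    have hP1 := Ph_pos A Λ y hA
    have hs1 := (hSh Λ y (CT * Real.exp (-(2 * y))) hΛb (by linarith) (by positivity) h2).1
    have hNb : N (y - CT * Real.exp (-(2 * y))) ≤ Cg * Ph A Λ (y - CT * Real.exp (-(2 * y))) := by
      unfold Ph
      rw [← integral_const_mul]
      refine integral_mono_ae (S7e_int hA hG hG0 hGC _).integrableOn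
        ((gw_integrable A Λ hA).const_mul Cg).integrableOn (Eventually.of_forall fun w => ?_)
      simp only
      rw [mul_comm]
      exact mul_le_mul_of_nonneg_right (hGC _) (gw_pos A Λ w).le
    have hE1 : Real.exp (-(2 * y)) ≤ 1 := by
      rw [Real.exp_le_one_iff]
      linarith
    have k1 : Ph A Λ (y - CT * Real.exp (-(2 * y))) ≤ Ph A Λ y * 2 := by
      refine hs1.trans (mul_le_mul_of_nonneg_left ?_ hP1.le)
      linarith
    have k2 : (1 + C' * Real.exp (-(2 * y))) ≤ 1 + C' := by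
      have := mul_le_mul_of_nonneg_left hE1 hC'0
      linarith
    have k3 : N (y - CT * Real.exp (-(2 * y))) ≤ Cg * (Ph A Λ y * 2) :=
      hNb.trans (mul_le_mul_of_nonneg_left k1 hCg0)
    have k4 : T y ≤ Kc * ((1 + C') * (Cg * (Ph A Λ y * 2))) := by
      refine (hup y hy).trans (mul_le_mul hsC ?_ ?_ hKc0.le)
      · exact mul_le_mul k2 k3 (hN0 _) (by linarith)
      · exact mul_nonneg (by positivity) (hN0 _)
    refine k4.trans ?_
    have e1 : Kc * ((1 + C') * (Cg * (Ph A Λ y * 2))) =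
        (2 * (Kc * (1 + C') * |Cg|)) * Ph A Λ y := by
      rw [abs_of_nonneg hCg0]
      ring
    rw [e1]
    refine mul_le_mul_of_nonneg_right ?_ hP1.le
    have : 0 ≤ CS * CT := by positivity
    linarith

end SKC.Z
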