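import Mathlib

/-! # Part Z, step S7: convergence of moments gives comparison of tails (helper4) -/

set_option autoImplicit false

open MeasureTheory Filter Topology

namespace SKC.Z

theorem S7f_int {p M : ℝ → ℝ} (hpi : Integrable p) (hM : Continuous M) (hMb : ∀ v, |M v| ≤ 1)
    {f : ℝ → ℝ} (hf : Continuous f) : Integrable fun v => f (M v) * p v := by
  obtain ⟨C, hC⟩ := (isCompact_Icc (a := (-1 : ℝ)) (b := 1)).exists_bound_of_continuousOn
    hf.continuousOn
  refine hpi.bdd_mul (c := C) (hf.comp hM).aestronglyMeasurable (Filter.Eventually.of_forall fun v => ?_)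
  exact hC _ (abs_le.1 (hMb v))

theorem S7f_near {p M : ℝ → ℝ} (hp0 : ∀ v, 0 ≤ p v) (hpi : Integrable p) (hp1 : ∫ v, p v = 1)
    (hM : Continuous M) (hMb : ∀ v, |M v| ≤ 1) {f g : ℝ → ℝ} (hf : Continuous f)
    (hg : Continuous g) {ε : ℝ} (h : ∀ x ∈ Set.Icc (-1 : ℝ) 1, |g x - f x| ≤ ε) :
    |(∫ v, g (M v) * p v) - ∫ v, f (M v) * p v| ≤ ε := by
  have h1 := S7f_int hpi hM hMb hf
  have h2 := S7f_int hpi hM hMb hg
  rw [← integral_sub h2 h1]
  have h3 : ‖∫ v, (g (M v) * p v - f (M v) * p v)‖ ≤ ∫ v, ε * p v := by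
    refine norm_integral_le_of_norm_le (hpi.const_mul ε) (Filter.Eventually.of_forall fun v => ?_)
    rw [← sub_mul, norm_mul, Real.norm_eq_abs, Real.norm_eq_abs, abs_of_nonneg (hp0 v)]
    exact mul_le_mul_of_nonneg_right (h _ (abs_le.1 (hMb v))) (hp0 v)
  rw [Real.norm_eq_abs, integral_const_mul, hp1, mul_one] at h3
  exact h3

theorem S7f_poly {p M : ℝ → ℝ} (hpi : Integrable p) (hM : Continuous M) (hMb : ∀ v, |M v| ≤ 1)
    (P : Polynomial ℝ) : ∫ v, P.eval (M v) * p v =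
      ∑ e ∈ Finset.range (P.natDegree + 1), P.coeff e * ∫ v, M v ^ e * p v := by
  have h1 : ∀ v, P.eval (M v) * p v =
      ∑ e ∈ Finset.range (P.natDegree + 1), P.coeff e * (M v ^ e * p v) := by
    intro v
    rw [Polynomial.eval_eq_sum_range, Finset.sum_mul]
    exact Finset.sum_congr rfl fun e _ => by ring
  have h2 : ∀ e ∈ Finset.range (P.natDegree + 1),
      Integrable fun v => P.coeff e * (M v ^ e * p v) := fun e _ =>
    (S7f_int hpi hM hMb (continuous_pow e)).const_mul _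
  simp only [h1]
  rw [integral_finsetSum _ h2]
  exact Finset.sum_congr rfl fun e _ => integral_const_mul _ _

/-- Proof. Weierstrass (`exists_polynomial_near_of_continuousOn (-1) 1`): for `ε > 0` a polynomial `P` with `|P - f| < ε` on `[-1, 1]`; then
`|∫ f(M k) p k - ∫ P(M k) p k| ≤ ε` (total mass `1`), the same for `q`, and `∫ P(M k) p k - ∫ P(M' k) q k` is a finite linear combination of the differences of moments
(`Polynomial.eval_eq_sum_range`, `integral_finsetSum`; `M k ^ e * p k` is integrable as `|M k| ≤ 1`). -/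
theorem cont_of_moments (p q M M' : ℕ → ℝ → ℝ) (hp0 : ∀ k v, 0 ≤ p k v) (hq0 : ∀ k v, 0 ≤ q k v)
    (hpi : ∀ k, Integrable (p k)) (hqi : ∀ k, Integrable (q k)) (hp1 : ∀ k, ∫ v, p k v = 1)
    (hq1 : ∀ k, ∫ v, q k v = 1) (hM : ∀ k, Continuous (M k)) (hM' : ∀ k, Continuous (M' k))
    (hMb : ∀ k v, |M k v| ≤ 1) (hMb' : ∀ k v, |M' k v| ≤ 1)
    (hm : ∀ e : ℕ, Tendsto (fun k => (∫ v, M k v ^ e * p k v) - ∫ v, M' k v ^ e * q k v) atTop (𝓝 0))
    (f : ℝ → ℝ) (hf : Continuous f) :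
    Tendsto (fun k => (∫ v, f (M k v) * p k v) - ∫ v, f (M' k v) * q k v) atTop (𝓝 0) := by
  rw [Metric.tendsto_atTop]
  intro ε hε
  obtain ⟨P, hP⟩ := exists_polynomial_near_of_continuousOn (-1) 1 f hf.continuousOn (ε / 4)
    (by positivity)
  have hPt : Tendsto (fun k => (∫ v, P.eval (M k v) * p k v) - ∫ v, P.eval (M' k v) * q k v)
      atTop (𝓝 0) := by
    have h1 : (fun k => (∫ v, P.eval (M k v) * p k v) - ∫ v, P.eval (M' k v) * q k v) = fun k =>
        ∑ e ∈ Finset.range (P.natDegree + 1), P.coeff e *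
          ((∫ v, M k v ^ e * p k v) - ∫ v, M' k v ^ e * q k v) := by
      funext k
      rw [S7f_poly (hpi k) (hM k) (hMb k), S7f_poly (hqi k) (hM' k) (hMb' k),
        ← Finset.sum_sub_distrib]
      exact Finset.sum_congr rfl fun e _ => by ring
    rw [h1]
    have h2 := tendsto_finsetSum (Finset.range (P.natDegree + 1))
      (fun e _ => (hm e).const_mul (P.coeff e))
    simpa using h2
  rw [Metric.tendsto_atTop] at hPt
  obtain ⟨K, hK⟩ := hPt (ε / 4) (by positivity)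
  refine ⟨K, fun k hk => ?_⟩
  have h1 := S7f_near (hp0 k) (hpi k) (hp1 k) (hM k) (hMb k) hf P.continuous
    (fun x hx => (hP x hx).le)
  have h2 := S7f_near (hq0 k) (hqi k) (hq1 k) (hM' k) (hMb' k) hf P.continuous
    (fun x hx => (hP x hx).le)
  have h3 := hK k hk
  rw [Real.dist_eq, sub_zero] at h3 ⊢
  rw [abs_lt] at h3 ⊢
  rw [abs_le] at h1 h2
  constructor <;> linarith [h1.1, h1.2, h2.1, h2.2, h3.1, h3.2]

theorem S7f_tanh {x y : ℝ} (h : x < y) : Real.tanh x < Real.tanh y := by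
  rw [Real.tanh_eq_sinh_div_cosh, Real.tanh_eq_sinh_div_cosh,
    div_lt_div_iff₀ (Real.cosh_pos x) (Real.cosh_pos y)]
  have h1 : 0 < Real.sinh (y - x) := Real.sinh_pos_iff.2 (by linarith)
  rw [Real.sinh_sub] at h1
  linarith

/-- Proof. `f` = continuous with `0 ≤ f ≤ 1`, `f m = 0` for `m ≤ tanh y`, `f m = 1` for `m ≥ tanh (y + η)` (piecewise linear:
`max 0 (min 1 ((m - tanh y)/(tanh (y+η) - tanh y)))`, `tanh` is strictly increasing). Then `∫_{tanh(y+η) ≤ M} p ≤ ∫ f(M) p ≤ ∫ f(M') q + ε ≤ ∫_{tanh y ≤ M'} q + ε` eventually,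
by `cont_of_moments`. -/
theorem tails_of_moments (p q M M' : ℕ → ℝ → ℝ) (hp0 : ∀ k v, 0 ≤ p k v) (hq0 : ∀ k v, 0 ≤ q k v)
    (hpi : ∀ k, Integrable (p k)) (hqi : ∀ k, Integrable (q k)) (hp1 : ∀ k, ∫ v, p k v = 1)
    (hq1 : ∀ k, ∫ v, q k v = 1) (hM : ∀ k, Continuous (M k)) (hM' : ∀ k, Continuous (M' k))
    (hMb : ∀ k v, |M k v| ≤ 1) (hMb' : ∀ k v, |M' k v| ≤ 1)
    (hm : ∀ e : ℕ, Tendsto (fun k => (∫ v, M k v ^ e * p k v) - ∫ v, M' k v ^ e * q k v) atTop (𝓝 0))
    (y η ε : ℝ) (hη : 0 < η) (hε : 0 < ε) :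
    ∀ᶠ k in atTop, ∫ v in {v | Real.tanh (y + η) ≤ M k v}, p k v ≤
      (∫ v in {v | Real.tanh y ≤ M' k v}, q k v) + ε := by
  have ht : Real.tanh y < Real.tanh (y + η) := S7f_tanh (by linarith)
  generalize Real.tanh (y + η) = t1 at ht ⊢
  generalize Real.tanh y = t0 at ht ⊢
  obtain ⟨f, hf⟩ : ∃ f : ℝ → ℝ, f = fun m => max 0 (min 1 ((m - t0) / (t1 - t0))) := ⟨_, rfl⟩
  have hfc : Continuous f := by
    rw [hf]
    exact continuous_const.max (continuous_const.min ((continuous_id.sub continuous_const).div_const _))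
  have hd : 0 < t1 - t0 := by linarith
  have hf0 : ∀ m, 0 ≤ f m := fun m => by
    rw [hf]
    exact le_max_left _ _
  have hf1 : ∀ m, f m ≤ 1 := fun m => by
    rw [hf]
    exact max_le zero_le_one (min_le_left _ _)
  have hft1 : ∀ m, t1 ≤ m → f m = 1 := fun m hm1 => by
    rw [hf]
    have h1 : 1 ≤ (m - t0) / (t1 - t0) := by
      rw [le_div_iff₀ hd]
      linarith
    simp only []
    rw [min_eq_left h1, max_eq_right zero_le_one]
  have hft0 : ∀ m, m ≤ t0 → f m = 0 := fun m hm0 => by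
    rw [hf]
    have h1 : (m - t0) / (t1 - t0) ≤ 0 := div_nonpos_of_nonpos_of_nonneg (by linarith) hd.le
    simp only []
    rw [min_eq_right (h1.trans zero_le_one), max_eq_left h1]
  have hlim := cont_of_moments p q M M' hp0 hq0 hpi hqi hp1 hq1 hM hM' hMb hMb' hm f hfc
  rw [Metric.tendsto_atTop] at hlim
  obtain ⟨K, hK⟩ := hlim ε hε
  filter_upwards [eventually_ge_atTop K] with k hk
  have h1 := hK k hk
  rw [Real.dist_eq, sub_zero, abs_lt] at h1
  have hSm : MeasurableSet {v | t1 ≤ M k v} := measurableSet_le measurable_const (hM k).measurable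
  have hSm' : MeasurableSet {v | t0 ≤ M' k v} := measurableSet_le measurable_const (hM' k).measurable
  have i1 := S7f_int (hpi k) (hM k) (hMb k) hfc
  have i2 := S7f_int (hqi k) (hM' k) (hMb' k) hfc
  have h2 : ∫ v in {v | t1 ≤ M k v}, p k v ≤ ∫ v, f (M k v) * p k v := by
    have h3 : ∫ v in {v | t1 ≤ M k v}, p k v = ∫ v in {v | t1 ≤ M k v}, f (M k v) * p k v := by
      refine setIntegral_congr_fun hSm fun v hv => ?_
      rw [hft1 _ hv, one_mul]
    rw [h3]
    exact setIntegral_le_integral i1 (Filter.Eventually.of_forall fun v =>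
      mul_nonneg (hf0 _) (hp0 k v))
  have h4 : ∫ v, f (M' k v) * q k v ≤ ∫ v in {v | t0 ≤ M' k v}, q k v := by
    rw [← setIntegral_eq_integral_of_forall_compl_eq_zero (s := {v | t0 ≤ M' k v})]
    · refine setIntegral_mono_on i2.integrableOn (hqi k).integrableOn hSm' fun v _ => ?_
      calc f (M' k v) * q k v ≤ 1 * q k v := mul_le_mul_of_nonneg_right (hf1 _) (hq0 k v)
        _ = q k v := one_mul _
    · intro v hv
      have h5 : M' k v ≤ t0 := le_of_lt (not_le.1 hv)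
      rw [hft0 _ h5, zero_mul]
  linarith [h1.2]

end SKC.Z
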