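import Pool.Agent.H.MP_08eaf3_pr.Z.S7b
import Pool.Agent.H.MP_08eaf3_pr.Z.S7e
import Pool.Agent.H.MP_08eaf3_pr.Z.S7f

/-! # Part Z, step S7: the limit argument (helper4) -/

set_option autoImplicit false

open MeasureTheory Filter Topology

namespace SKC.Z

theorem S7h_ulim (U : Ultrafilter ℕ) (f : ℕ → ℝ) (a b : ℝ) (h : ∀ k, a ≤ f k ∧ f k ≤ b) :
    ∃ x, a ≤ x ∧ x ≤ b ∧ Tendsto f U (𝓝 x) := by
  have h1 : (U.map f : Filter ℝ) ≤ 𝓟 (Set.Icc a b) := by
    rw [Ultrafilter.coe_map, le_principal_iff, mem_map]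
    exact univ_mem' h
  obtain ⟨x, hx, hx'⟩ := isCompact_Icc.ultrafilter_le_nhds (U.map f) h1
  exact ⟨x, hx.1, hx.2, hx'⟩

/-- continuity in the limit from the right -/
theorem S7h_right (F : ℝ → ℝ) (hF : Continuous F) (y T : ℝ)
    (h : ∀ η ε : ℝ, 0 < η → η ≤ 1 → 0 < ε → F (y + η) ≤ T + ε) : F y ≤ T := by
  have h1 : ∀ η : ℝ, 0 < η → η ≤ 1 → F (y + η) ≤ T := fun η h0 h1 =>
    le_of_forall_pos_le_add fun ε hε => h η ε h0 h1 hε
  have h2 : Tendsto (fun n : ℕ => F (y + 1 / ((n : ℝ) + 1))) atTop (𝓝 (F (y + 0))) := by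
    refine (hF.tendsto _).comp ?_
    exact tendsto_const_nhds.add tendsto_one_div_add_atTop_nhds_zero_nat
  rw [add_zero] at h2
  refine le_of_tendsto h2 (Eventually.of_forall fun n => ?_)
  refine h1 _ (by positivity) ?_
  rw [div_le_one (by positivity)]
  have : (0 : ℝ) ≤ n := Nat.cast_nonneg n
  linarith

theorem S7h_left (F : ℝ → ℝ) (hF : Continuous F) (y T : ℝ)
    (h : ∀ η ε : ℝ, 0 < η → η ≤ 1 → 0 < ε → T ≤ F (y - η) + ε) : T ≤ F y := by
  have h1 : ∀ η : ℝ, 0 < η → η ≤ 1 → T ≤ F (y - η) := fun η h0 h1 =>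
    le_of_forall_pos_le_add fun ε hε => h η ε h0 h1 hε
  have h2 : Tendsto (fun n : ℕ => F (y - 1 / ((n : ℝ) + 1))) atTop (𝓝 (F (y - 0))) := by
    refine (hF.tendsto _).comp ?_
    exact tendsto_const_nhds.sub tendsto_one_div_add_atTop_nhds_zero_nat
  rw [sub_zero] at h2
  refine ge_of_tendsto h2 (Eventually.of_forall fun n => ?_)
  refine h1 _ (by positivity) ?_
  rw [div_le_one (by positivity)]
  have : (0 : ℝ) ≤ n := Nat.cast_nonneg n
  linarith

theorem S7h_Ph_tendsto (A : ℝ) (hA : 0 < A) {F : Filter ℕ} {f : ℕ → ℝ} {Λ : ℝ}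
    (h : Tendsto f F (𝓝 Λ)) (y : ℝ) : Tendsto (fun k => Ph A (f k) y) F (𝓝 (Ph A Λ y)) := by
  have h1 := (Ph_cont A hA).tendsto (Λ, y)
  exact h1.comp (h.prodMk_nhds (tendsto_const_nhds (x := y)))

theorem S7h_Ph_cont (A Λ : ℝ) (hA : 0 < A) : Continuous (Ph A Λ) :=
  (Ph_cont A hA).comp (continuous_const.prodMk continuous_id)

theorem S7h_log {F : Filter ℕ} {f : ℕ → ℝ} {α : ℝ} (h : Tendsto f F (𝓝 α)) (hα : 1 ≤ α) :
    Tendsto (fun k => Real.log (f k)) F (𝓝 (Real.log α)) :=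
  ((Real.continuousAt_log (by linarith)).tendsto).comp h

/-- the contradiction from a sequence of pair chains and single chains with asymptotically equal
moments of the magnetisations -/
theorem S7_limit (A ρ L Cm c1 C1 Cg C1s Z1 Z2 : ℝ) (hA : 0 < A) (hρ : 0 < ρ) (hρ1 : ρ < 1)
    (hc1 : 0 < c1) (hZ1 : 0 < Z1)
    (α α' L' Z : ℕ → ℝ) (R R' G M M' : ℕ → ℝ → ℝ)
    (hM : ∀ k, Exp1 Cm (α k) (M k)) (hM' : ∀ k, Exp1 Cm (α' k) (M' k))
    (hZ : ∀ k, Z1 ≤ Z k ∧ Z k ≤ Z2) (hRc : ∀ k, Continuous (R k)) (hR0 : ∀ k v, 0 ≤ R k v)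
    (hR : ∀ k v, 0 ≤ v → 1 + c1 * Real.exp (-(2 * ρ * v)) ≤ R k v ∧
      R k v ≤ 1 + C1 * Real.exp (-(2 * ρ * v)))
    (hRi : ∀ k, Integrable (fun v => gw A L v * R k v))
    (hp1 : ∀ k, ∫ v, Z k * (gw A L v * R k v) = 1)
    (hL' : ∀ k, |L' k| ≤ 1) (hGm : ∀ k, Monotone (G k)) (hG0 : ∀ k v, 0 ≤ G k v)
    (hGC : ∀ k v, G k v ≤ Cg) (hR'c : ∀ k, Continuous (R' k)) (hR'1 : ∀ k v, 1 ≤ R' k v)
    (hR' : ∀ k v, 0 ≤ v → R' k v ≤ 1 + C1s * Real.exp (-(2 * v)))
    (hGi : ∀ k, Integrable (fun v => gw A (L' k) v * (G k v * R' k v)))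
    (hq1 : ∀ k, ∫ v, gw A (L' k) v * (G k v * R' k v) = 1)
    (hm : ∀ e : ℕ, Tendsto (fun k => (∫ v, M k v ^ e * (Z k * (gw A L v * R k v))) -
      ∫ v, M' k v ^ e * (gw A (L' k) v * (G k v * R' k v))) atTop (𝓝 0)) : False := by
  classical
  obtain ⟨c, C, y0, hc, hC, hy0, hpair⟩ := pair_tail A ρ Cm c1 C1 |L| hA hρ hρ1 hc1
  obtain ⟨C', y0', hC', hy0', hsing⟩ := single_tail A Cm Cg C1s 1 hA
  -- densities
  set p : ℕ → ℝ → ℝ := fun k v => Z k * (gw A L v * R k v) with hpdef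
  set q : ℕ → ℝ → ℝ := fun k v => gw A (L' k) v * (G k v * R' k v) with hqdef
  have hZ0 : ∀ k, 0 < Z k := fun k => lt_of_lt_of_le hZ1 (hZ k).1
  have hp0 : ∀ k v, 0 ≤ p k v := fun k v =>
    mul_nonneg (hZ0 k).le (mul_nonneg (gw_pos _ _ _).le (hR0 k v))
  have hq0 : ∀ k v, 0 ≤ q k v := fun k v =>
    mul_nonneg (gw_pos _ _ _).le (mul_nonneg (hG0 k v) (by linarith [hR'1 k v]))
  have hpi : ∀ k, Integrable (p k) := fun k => (hRi k).const_mul (Z k)
  have hqi : ∀ k, Integrable (q k) := hGi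
  have hPQ := tails_of_moments p q M M' hp0 hq0 hpi hqi hp1 hq1 (fun k => (hM k).cont)
    (fun k => (hM' k).cont) (fun k => (hM k).le) (fun k => (hM' k).le) hm
  have hm' : ∀ e : ℕ, Tendsto (fun k => (∫ v, M' k v ^ e * q k v) - ∫ v, M k v ^ e * p k v)
      atTop (𝓝 0) := by
    intro e
    have h1 := (hm e).neg
    rw [neg_zero] at h1
    refine h1.congr fun k => ?_
    rw [neg_sub]
  have hQP := tails_of_moments q p M' M hq0 hp0 hqi hpi hq1 hp1 (fun k => (hM' k).cont)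
    (fun k => (hM k).cont) (fun k => (hM' k).le) (fun k => (hM k).le) hm'
  -- the tail functions
  set T : ℕ → ℝ → ℝ := fun k y => ∫ v in {v | Real.tanh y ≤ M' k v}, q k v with hTdef
  have hT01 : ∀ k y, 0 ≤ T k y ∧ T k y ≤ 1 := by
    intro k y
    refine ⟨setIntegral_nonneg_of_ae (Eventually.of_forall (hq0 k)), ?_⟩
    rw [← hq1 k]
    exact setIntegral_le_integral (hqi k) (Eventually.of_forall (hq0 k))
  have hPT : ∀ k y, ∫ v in {v | Real.tanh y ≤ M k v}, p k v =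
      Z k * ∫ v in {v | Real.tanh y ≤ M k v}, gw A L v * R k v := by
    intro k y
    exact integral_const_mul _ _
  -- the limits
  obtain ⟨U, hU⟩ : ∃ U : Ultrafilter ℕ, (U : Filter ℕ) ≤ atTop := ⟨Filter.hyperfilter ℕ, by
    rw [← Nat.cofinite_eq_atTop]; exact Filter.hyperfilter_le_cofinite⟩
  obtain ⟨αi, ha1, ha2, hα⟩ := S7h_ulim U α 1 Cm fun k => ⟨(hM k).a1, (hM k).a2⟩
  obtain ⟨αs, hs1, hs2, hαs⟩ := S7h_ulim U α' 1 Cm fun k => ⟨(hM' k).a1, (hM' k).a2⟩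
  obtain ⟨Ls, hl1, hl2, hLs⟩ := S7h_ulim U L' (-1) 1 fun k => abs_le.1 (hL' k)
  obtain ⟨Zi, hz1, hz2, hZi⟩ := S7h_ulim U Z Z1 Z2 hZ
  have hTl : ∀ y, ∃ x, 0 ≤ x ∧ x ≤ 1 ∧ Tendsto (fun k => T k y) U (𝓝 x) := fun y =>
    S7h_ulim U (fun k => T k y) 0 1 fun k => hT01 k y
  choose Ti hTi0 hTi1 hTi using hTl
  have hlogα := S7h_log hα ha1
  have hlogs := S7h_log hαs hs1
  -- slopes and constants
  have hsLp : Tendsto (fun k => sL A L (α k)) U (𝓝 (sL A L αi)) := by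
    unfold sL
    exact tendsto_const_nhds.sub ((hlogα.div_const 2).div_const A)
  have hsLs : Tendsto (fun k => sL A (L' k) (α' k)) U (𝓝 (sL A Ls αs)) := by
    unfold sL
    exact hLs.sub ((hlogs.div_const 2).div_const A)
  have hsCp : Tendsto (fun k => sC A L (α k)) U (𝓝 (sC A L αi)) := by
    unfold sC
    exact ((gw_cont A L).tendsto _).comp (hlogα.div_const 2)
  set Cp : ℝ := Zi * sC A L αi with hCp
  have hCp0 : 0 < Cp := mul_pos (lt_of_lt_of_le hZ1 hz1) (gw_pos _ _ _)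
  have hPhp : ∀ y, 0 < Ph A (sL A L αi) y := fun y => Ph_pos _ _ _ hA
  have hPhs : ∀ y, 0 < Ph A (sL A Ls αs) y := fun y => Ph_pos _ _ _ hA
  -- the two functions
  let F1 : ℝ → ℝ := fun y => Cp * Ph A (sL A L αi) y *
    (1 + c * Real.exp (-(2 * ρ * y)) - C * (1 + y) * Real.exp (-(2 * y)))
  let F2 : ℝ → ℝ := fun y => Cp * Ph A (sL A L αi) y * (1 + C * Real.exp (-(2 * ρ * y)))
  have hPc := S7h_Ph_cont A (sL A L αi) hA
  have hF1c : Continuous F1 := by
    refine (continuous_const.mul hPc).mul ?_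
    fun_prop
  have hF2c : Continuous F2 := by
    refine (continuous_const.mul hPc).mul ?_
    fun_prop
  have g1 : ∀ y, y0 ≤ y → F1 y ≤ Ti y := by
    intro y hy
    refine S7h_right F1 hF1c y (Ti y) ?_
    intro η ε hη _ hε
    have e1 := hU (hPQ y η ε hη hε)
    have e2 : Tendsto (fun k => Z k * (sC A L (α k) * Ph A (sL A L (α k)) (y + η) *
        (1 + c * Real.exp (-(2 * ρ * (y + η))) - C * (1 + (y + η)) * Real.exp (-(2 * (y + η))))))
        U (𝓝 (F1 (y + η))) := by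
      have := hZi.mul ((hsCp.mul (S7h_Ph_tendsto A hA hsLp (y + η))).mul_const
        (1 + c * Real.exp (-(2 * ρ * (y + η))) - C * (1 + (y + η)) * Real.exp (-(2 * (y + η)))))
      have e3 : F1 (y + η) = Zi * (sC A L αi * Ph A (sL A L αi) (y + η) *
        (1 + c * Real.exp (-(2 * ρ * (y + η))) - C * (1 + (y + η)) * Real.exp (-(2 * (y + η))))) := by
        change Cp * _ * _ = _
        rw [hCp]
        ring
      rw [e3]
      exact this
    refine le_of_tendsto_of_tendsto e2 ((hTi y).add_const ε) ?_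
    filter_upwards [e1] with k hk
    refine le_trans ?_ hk
    rw [hPT k (y + η)]
    refine mul_le_mul_of_nonneg_left ?_ (hZ0 k).le
    exact (hpair (α k) L (M k) (R k) (hM k) (le_refl _) (hRc k) (hR0 k) (hR k) (hRi k) (y + η)
      (by linarith)).1
  have g2 : ∀ y, y0 + 1 ≤ y → Ti y ≤ F2 y := by
    intro y hy
    refine S7h_left F2 hF2c y (Ti y) ?_
    intro η ε hη hη1 hε
    have e1 := hU (hQP (y - η) η ε hη hε)
    rw [sub_add_cancel] at e1
    have e2 : Tendsto (fun k => Z k * (sC A L (α k) * Ph A (sL A L (α k)) (y - η) *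
        (1 + C * Real.exp (-(2 * ρ * (y - η)))))) U (𝓝 (F2 (y - η))) := by
      have := hZi.mul ((hsCp.mul (S7h_Ph_tendsto A hA hsLp (y - η))).mul_const
        (1 + C * Real.exp (-(2 * ρ * (y - η)))))
      have e3 : F2 (y - η) = Zi * (sC A L αi * Ph A (sL A L αi) (y - η) *
        (1 + C * Real.exp (-(2 * ρ * (y - η))))) := by
        change Cp * _ * _ = _
        rw [hCp]
        ring
      rw [e3]
      exact this
    refine le_of_tendsto_of_tendsto (hTi y) (e2.add_const ε) ?_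
    filter_upwards [e1] with k hk
    refine le_trans hk ?_
    rw [hPT k (y - η)]
    have := mul_le_mul_of_nonneg_left
      (hpair (α k) L (M k) (R k) (hM k) (le_refl _) (hRc k) (hR0 k) (hR k) (hRi k) (y - η)
        (by linarith)).2 (hZ0 k).le
    linarith
  have g3 : ∀ y y', y0' ≤ y → y ≤ y' → Ti y * Ph A (sL A Ls αs) y' ≤
      Ti y' * Ph A (sL A Ls αs) y * (1 + C' * (1 + y) * Real.exp (-(2 * y))) := by
    intro y y' hy hyy
    refine le_of_tendsto_of_tendsto ((hTi y).mul (S7h_Ph_tendsto A hA hsLs y'))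
      (((hTi y').mul (S7h_Ph_tendsto A hA hsLs y)).mul_const _) ?_
    refine Eventually.of_forall fun k => ?_
    exact (hsing (α' k) (L' k) (M' k) (G k) (R' k) (hM' k) (hL' k) (hGm k) (hG0 k) (hGC k) (hR'c k)
      (hR'1 k) (hR' k) (hGi k)).1 y y' hy hyy
  have g4 : ∀ y, y0' ≤ y → Ti y ≤ C' * Ph A (sL A Ls αs) y := by
    intro y hy
    refine le_of_tendsto_of_tendsto (hTi y) ((S7h_Ph_tendsto A hA hsLs y).const_mul C') ?_
    refine Eventually.of_forall fun k => ?_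
    exact (hsing (α' k) (L' k) (M' k) (G k) (R' k) (hM' k) (hL' k) (hGm k) (hG0 k) (hGC k) (hR'c k)
      (hR'1 k) (hR' k) (hGi k)).2 y hy
  -- common constants
  set D : ℝ := max C C' with hD
  set z0 : ℝ := max (y0 + 1) y0' with hz0
  have hD1 : C ≤ D := le_max_left _ _
  have hD2 : C' ≤ D := le_max_right _ _
  have hz01 : y0 + 1 ≤ z0 := le_max_left _ _
  have hz02 : y0' ≤ z0 := le_max_right _ _
  refine tail_contra A ρ c D Cp (sL A L αi) (sL A Ls αs) z0 hA hρ hρ1 hc (hC.le.trans hD1) hCp0 Ti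
    ?_ ?_ ?_ ?_
  · intro y hy
    refine le_trans ?_ (g1 y (by linarith))
    refine mul_le_mul_of_nonneg_left ?_ (mul_pos hCp0 (hPhp y)).le
    have h1 : C * (1 + y) * Real.exp (-(2 * y)) ≤ D * (1 + y) * Real.exp (-(2 * y)) := by
      refine mul_le_mul_of_nonneg_right ?_ (Real.exp_pos _).le
      exact mul_le_mul_of_nonneg_right hD1 (by linarith)
    linarith
  · intro y hy
    refine le_trans (g2 y (by linarith)) ?_
    refine mul_le_mul_of_nonneg_left ?_ (mul_pos hCp0 (hPhp y)).le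
    have h1 := mul_le_mul_of_nonneg_right hD1 (Real.exp_pos (-(2 * ρ * y))).le
    linarith
  · intro y y' hy hyy
    refine le_trans (g3 y y' (by linarith) hyy) ?_
    refine mul_le_mul_of_nonneg_left ?_ (mul_nonneg (hTi0 y') (hPhs y).le)
    have h1 : C' * (1 + y) * Real.exp (-(2 * y)) ≤ D * (1 + y) * Real.exp (-(2 * y)) := by
      refine mul_le_mul_of_nonneg_right ?_ (Real.exp_pos _).le
      exact mul_le_mul_of_nonneg_right hD2 (by linarith)
    linarith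
  · intro y hy
    refine le_trans (g4 y (by linarith)) ?_
    exact mul_le_mul_of_nonneg_right hD2 (hPhs y).le

end SKC.Z
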