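import Pool.Agent.H.MP_08eaf3_pr.Z.S7g2
import Pool.Agent.H.MP_08eaf3_pr.Z.S7g3
import Pool.Agent.H.MP_08eaf3_pr.Z.S7g5
import Pool.Agent.H.MP_08eaf3_pr.Z.S7h

/-! # Part Z, step S7: the final contradiction (helper4) -/

set_option autoImplicit false

open MeasureTheory ProbabilityTheory Filter Topology Matrix

namespace SKC.Z

theorem S7_EG_pow {K : Type} [Fintype K] (f : (K → ℝ) → ℝ) (hf : Continuous f)
    (hb : ∀ z, |f z| ≤ 1) (e : ℕ) : EG (fun z => f z ^ e) := by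
  refine ⟨hf.pow e, 1, fun z => ?_⟩
  rw [abs_pow]
  have h1 : |f z| ^ e ≤ 1 := pow_le_one₀ (abs_nonneg _) (hb z)
  have h2 : (1 : ℝ) ≤ Real.exp (1 * n1 z) := by
    apply Real.one_le_exp
    unfold n1
    rw [one_mul]
    exact Finset.sum_nonneg fun i _ => abs_nonneg _
  linarith

/-- data of one pair path -/
theorem S7_pair {b1 b2 u : ℝ} (S : Setting b1 b2 u) (L : LData b1 b2 u) (h0 : (0 : ℝ) ∈ L.T) (t : ℝ)
    (ht : t ∈ L.T) (htpos : 0 < t) (hmin : ∀ x ∈ L.T, 0 < x → t ≤ x)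
    (hr : ∀ x ∈ L.T, 0 < x → L.Q x 0 1 = u) (c d : Fin 2) (hcd : c ≠ d)
    (A ρ Lp : ℝ) (hq : 0 < L.Q t c c) (hA : A = 2 * be b1 b2 c ^ 2 * L.Q t c c)
    (hρ : ρ = be b1 b2 d * L.Q t c d / (be b1 b2 c * L.Q t c c)) (hρ0 : 0 < ρ) (hρ1 : ρ < 1)
    (hL : Lp = x0 L * (1 + ρ)) (Cm : ℝ)
    (hCm : ∀ l : List (Step Unit), Ok l → ∃ α : ℝ, Exp1 Cm α (mg1 (be b1 b2 c) l)) :
    ∃ c1 C1 Z1 Z2 : ℝ, 0 < c1 ∧ 0 < Z1 ∧ ∀ δ : ℝ, 0 < δ → ∃ (l1 l2 l3 : List (Step (Fin 2)))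
      (α Z : ℝ) (R M : ℝ → ℝ), PairPath b1 b2 u (L.Q 0) (L.Q t) δ l1 l2 l3 ∧ Exp1 Cm α M ∧
      Z1 ≤ Z ∧ Z ≤ Z2 ∧ Continuous R ∧ (∀ v, 0 ≤ R v) ∧
        (∀ v, 0 ≤ v → 1 + c1 * Real.exp (-(2 * ρ * v)) ≤ R v ∧
          R v ≤ 1 + C1 * Real.exp (-(2 * ρ * v))) ∧
        Integrable (fun v => gw A Lp v * R v) ∧ (∫ v, Z * (gw A Lp v * R v) = 1) ∧
        ∀ e : ℕ, ChE (be b1 b2) l1 (PsiL (be b1 b2) (l2 ++ l3) F0)
          (fun z => ∏ _i : Fin 1, Vv (be b1 b2) l2 l3 c e z) 0 =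
            ∫ v, M v ^ e * (Z * (gw A Lp v * R v)) := by
  obtain ⟨c1, C1, Z1, Z2, hc1, hZ1, hd⟩ := pair_density b1 b2 (x0 L) S.hb1 S.hb2
    (x0_pos L h0 t htpos hmin) (x0_le L) (L.Q t) (L.psd t ht) c d hcd hq A ρ Lp hA hρ hρ0 hρ1 hL
  refine ⟨c1, C1, Z1, Z2, hc1, hZ1, fun δ hδ => ?_⟩
  obtain ⟨l1, l2, l3, E, hpp, hok, hdiag, hE, hch⟩ := pair_data S L h0 t ht htpos hmin hr δ hδ
  obtain ⟨Z, R, hZ, hZ', hRc, hR0, hR, hRi, hdens⟩ := hd l3 hok hdiag E hE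
  obtain ⟨α, hα⟩ := hCm (l3.map (pr c)) (Ok_pr c l3 hok)
  refine ⟨l1, l2, l3, α, Z, R, mg1 (be b1 b2 c) (l3.map (pr c)), hpp, hα, hZ, hZ', hRc, hR0, hR,
    hRi, ?_, ?_⟩
  · have h1 := hdens (fun _ => 1) continuous_const ⟨1, fun _ => by simp⟩
    have h2 : Es (x0 L) (Bm (be b1 b2) E) (PsiL (be b1 b2) l3 F0) (fun _ => 1) 0 = 1 := by
      have h3 := ChE_const (be b1 b2) [(x0 L, E)] (PsiL (be b1 b2) l3 F0)
        (LG_PsiL _ _ _ LG_F0) 1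
      exact congrFun h3 0
    rw [h2] at h1
    rw [integral_const_mul, h1]
    simp only [one_mul]
  · intro e
    have h1 : (fun z => ∏ _i : Fin 1, Vv (be b1 b2) l2 l3 c e z) =
        ChE (be b1 b2) l2 (PsiL (be b1 b2) l3 F0)
          (fun z' => (mg1 (be b1 b2 c) (l3.map (pr c)) (z' c)) ^ e) := by
      funext z
      rw [Fin.prod_univ_one]
      unfold Vv
      congr 1
      funext z'
      rw [Mg_diag b1 b2 l3 hok hdiag c z']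
    rw [h1, hch]
    · rw [hdens (fun v => mg1 (be b1 b2 c) (l3.map (pr c)) v ^ e) (hα.cont.pow e) ⟨1, fun v => by
        rw [abs_pow]; exact pow_le_one₀ (abs_nonneg _) (hα.le v)⟩, ← integral_const_mul]
      refine integral_congr_ae (Eventually.of_forall fun v => ?_)
      beta_reduce
      ring
    · exact S7_EG_pow (fun z => mg1 (be b1 b2 c) (l3.map (pr c)) (z c))
        (hα.cont.comp (continuous_apply c)) (fun z => hα.le _) e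

theorem S7_Ok_of_SinglePath {b q q' δ : ℝ} {s1 s2 s3 : List (Step Unit)}
    (h : SinglePath b q q' δ s1 s2 s3) : Ok ((s1 ++ s2) ++ s3) := by
  obtain ⟨⟨h1, h2, _⟩, _, _, _, h3, _⟩ := h
  rw [List.append_assoc]
  refine ⟨h1, h2, fun c => ?_⟩
  rw [h3]
  simp

/-- data of one single path -/
theorem S7_single (b q : ℝ) (hb : 0 < b) (hq : 0 < q) (hq1 : q ≤ 1) (Cm : ℝ)
    (hCm : ∀ l : List (Step Unit), Ok l → ∃ α : ℝ, Exp1 Cm α (mg1 b l)) :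
    ∃ Cg C1s : ℝ, ∀ δ : ℝ, 0 < δ → ∃ (s1 s2 s3 : List (Step Unit)) (α L : ℝ) (G R M : ℝ → ℝ),
      SinglePath b 0 q δ s1 s2 s3 ∧ Exp1 Cm α M ∧ |L| ≤ 1 ∧ Monotone G ∧
      (∀ v, 0 ≤ G v) ∧ (∀ v, G v ≤ Cg) ∧ Continuous R ∧ (∀ v, 1 ≤ R v) ∧
      (∀ v, 0 ≤ v → R v ≤ 1 + C1s * Real.exp (-(2 * v))) ∧
      Integrable (fun v => gw (2 * b ^ 2 * q) L v * (G v * R v)) ∧
      (∫ v, gw (2 * b ^ 2 * q) L v * (G v * R v) = 1) ∧
      ∀ e : ℕ, ChE (fun _ : Unit => b) s1 (PsiL (fun _ : Unit => b) (s2 ++ s3) F0)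
          (fun z => ∏ _i : Fin 1, Vv (fun _ : Unit => b) s2 s3 () e z) 0 =
            ∫ v, M v ^ e * (gw (2 * b ^ 2 * q) L v * (G v * R v)) := by
  obtain ⟨Cg, C1s, hd⟩ := single_data b q hb hq
  refine ⟨Cg, C1s, fun δ hδ => ?_⟩
  obtain ⟨s1, s2, s3, hsp⟩ := exists_singlePath b 0 q δ hb hδ le_rfl hq.le hq1
  have hok := S7_Ok_of_SinglePath hsp
  obtain ⟨L, G, R, hL, hGm, hG0, hGC, hRc, hR1, hR, hi, hdens⟩ := hd (s1 ++ s2) s3 hok hsp.2.2.2.1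
  have hok3 : Ok s3 := by
    refine ⟨(List.pairwise_append.1 hok.1).2.1, fun a ha => hok.2.1 a (List.mem_append_right _ ha),
      fun c => ?_⟩
    have h1 := hok.2.2 c
    rw [Qtot_append] at h1
    have h2 : 0 ≤ Qtot (s1 ++ s2) c c := (Qtot_posSemidef (s1 ++ s2)).diag_nonneg
    have h3 : (Qtot (s1 ++ s2) + Qtot s3) c c = Qtot (s1 ++ s2) c c + Qtot s3 c c := rfl
    rw [h3] at h1
    linarith
  obtain ⟨α, hα⟩ := hCm s3 hok3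
  refine ⟨s1, s2, s3, α, L, G, R, mg1 b s3, hsp, hα, hL, hGm, hG0, hGC, hRc, hR1, hR, hi, ?_, ?_⟩
  · have h1 := hdens (fun _ => 1) continuous_const ⟨1, fun _ => by simp⟩
    have h2 := ChE_const (fun _ : Unit => b) (s1 ++ s2) (PsiL (fun _ : Unit => b) s3 F0)
        (LG_PsiL _ _ _ LG_F0) 1
    rw [congrFun h2 0] at h1
    rw [h1]
    simp only [one_mul]
  · intro e
    have h1 : (fun z => ∏ _i : Fin 1, Vv (fun _ : Unit => b) s2 s3 () e z) =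
        ChE (fun _ : Unit => b) s2 (PsiL (fun _ : Unit => b) s3 F0)
          (fun z' => (mg1 b s3 (z' ())) ^ e) := by
      funext z
      rw [Fin.prod_univ_one]
      rfl
    rw [h1, PsiL_append, ← ChE_append,
      hdens (fun v => mg1 b s3 v ^ e) (hα.cont.pow e) ⟨1, fun v => by
        rw [abs_pow]; exact pow_le_one₀ (abs_nonneg _) (hα.le v)⟩]

/-- S7: the final contradiction -/
theorem S7_proof {b1 b2 u : ℝ} (S : Setting b1 b2 u) (L : LData b1 b2 u) (h0 : (0 : ℝ) ∈ L.T) (t : ℝ)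
    (ht : t ∈ L.T) (htpos : 0 < t) (hmin : ∀ x ∈ L.T, 0 < x → t ≤ x)
    (hr : ∀ x ∈ L.T, 0 < x → L.Q x 0 1 = u) (c d : Fin 2) (hcd : c ≠ d)
    (hrho : be b1 b2 d * u < be b1 b2 c * L.Q t c c) : False := by
  have hbe : ∀ i : Fin 2, 0 < be b1 b2 i := by
    intro i
    fin_cases i
    · exact S.hb1
    · exact S.hb2
  have hu := S.hu
  have hsym : L.Q t 1 0 = L.Q t 0 1 := by
    have h1 := (L.psd t ht).isHermitian
    have h2 := congrFun (congrFun h1 0) 1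
    simpa using h2
  have hcdu : L.Q t c d = u := by
    have h01 := hr t ht htpos
    fin_cases c <;> fin_cases d
    · exact absurd rfl hcd
    · exact h01
    · exact hsym.trans h01
    · exact absurd rfl hcd
  have hbc := hbe c
  have hbd := hbe d
  have hq : 0 < L.Q t c c := by
    have h1 : 0 < be b1 b2 c * L.Q t c c := lt_trans (mul_pos hbd hu) hrho
    exact (mul_pos_iff_of_pos_left hbc).1 h1
  have hq1 : L.Q t c c ≤ 1 := by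
    have h1 : 0 ≤ (mat 1 1 u - L.Q t) c c := (L.leD t ht).diag_nonneg
    have h2 : (mat 1 1 u - L.Q t) c c = 1 - L.Q t c c := by
      fin_cases c <;> simp [mat]
    linarith
  set A : ℝ := 2 * be b1 b2 c ^ 2 * L.Q t c c with hA
  have hA0 : 0 < A := by positivity
  set ρ : ℝ := be b1 b2 d * L.Q t c d / (be b1 b2 c * L.Q t c c) with hρ
  have hρ0 : 0 < ρ := by
    rw [hρ, hcdu]
    positivity
  have hρ1 : ρ < 1 := by
    rw [hρ, hcdu, div_lt_one (by positivity)]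
    exact hrho
  obtain ⟨Cm, hCm1, hCm⟩ := exp1_mg1 (be b1 b2 c)
  obtain ⟨c1, C1, Z1, Z2, hc1, hZ1, hpair⟩ := S7_pair S L h0 t ht htpos hmin hr c d hcd A ρ
    (x0 L * (1 + ρ)) hq hA hρ hρ0 hρ1 rfl Cm hCm
  obtain ⟨Cg, C1s, hsingle⟩ := S7_single (be b1 b2 c) (L.Q t c c) hbc hq hq1 Cm hCm
  have hδ : ∀ k : ℕ, (0 : ℝ) < 1 / ((k : ℝ) + 1) := fun k => by positivity
  choose l1 l2 l3 α Z R M hpp hα hZ hZ' hRc hR0 hR hRi hp1 hmom using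
    fun k : ℕ => hpair (1 / ((k : ℝ) + 1)) (hδ k)
  choose s1 s2 s3 α' L' G R' M' hsp hα' hL' hGm hG0 hGC hR'c hR'1 hR' hGi hq1' hmom' using
    fun k : ℕ => hsingle (1 / ((k : ℝ) + 1)) (hδ k)
  refine S7_limit A ρ (x0 L * (1 + ρ)) Cm c1 C1 Cg C1s Z1 Z2 hA0 hρ0 hρ1 hc1 hZ1 α α' L' Z R R' G M
    M' hα hα' (fun k => ⟨hZ k, hZ' k⟩) hRc hR0 hR hRi hp1 hL' hGm hG0 hGC hR'c hR'1 hR' hGi hq1' ?_
  intro e
  obtain ⟨C, hC0, hC⟩ := touch_single b1 b2 u S.hb1 S.hb2 S.hP1 S.hP2 (L.Q 0) (L.Q t)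
    (L.tree 0 h0 t ht htpos.le) 1 (fun _ => e)
  have hb : ∀ k : ℕ, |(∫ v, M k v ^ e * (Z k * (gw A (x0 L * (1 + ρ)) v * R k v))) -
      ∫ v, M' k v ^ e * (gw A (L' k) v * (G k v * R' k v))| ≤ C * Real.sqrt (1 / ((k : ℝ) + 1)) := by
    intro k
    rw [← hmom k e, ← hmom' k e]
    refine hC (1 / ((k : ℝ) + 1)) (hδ k).le (l1 k) (l2 k) (l3 k) (hpp k) c (s1 k) (s2 k) (s3 k) ?_
    have h1 : L.Q 0 c c = 0 := by rw [Q_zero L h0]; rfl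
    rw [h1]
    exact hsp k
  rw [tendsto_zero_iff_abs_tendsto_zero]
  refine squeeze_zero (fun k => abs_nonneg _) hb ?_
  have h1 : Tendsto (fun k : ℕ => C * Real.sqrt (1 / ((k : ℝ) + 1))) atTop (𝓝 (C * Real.sqrt 0)) :=
    ((Real.continuous_sqrt.tendsto 0).comp tendsto_one_div_add_atTop_nhds_zero_nat).const_mul C
  rwa [Real.sqrt_zero, mul_zero] at h1

end SKC.Z
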