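import Pool.Agent.H.MP_08eaf3_pr.Z.Setup

/-!
# Part Z: Cholesky factor
-/

set_option autoImplicit false

open MeasureTheory ProbabilityTheory Filter Topology Matrix

namespace SKC.Z

/-- Cholesky factor -/
noncomputable def chol (q1 q2 r : ℝ) : Matrix (Fin 2) (Fin 2) ℝ :=
  !![Real.sqrt q1, 0; r / Real.sqrt q1, Real.sqrt (q2 - r ^ 2 / q1)]

theorem chol_mul (q1 q2 r : ℝ) (h1 : 0 < q1) (h : r ^ 2 ≤ q1 * q2) :
    chol q1 q2 r * (chol q1 q2 r)ᵀ = mat q1 q2 r := by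
  have hs : Real.sqrt q1 * Real.sqrt q1 = q1 := Real.mul_self_sqrt h1.le
  have hs0 : Real.sqrt q1 ≠ 0 := (Real.sqrt_pos.2 h1).ne'
  have h2 : 0 ≤ q2 - r ^ 2 / q1 := by
    rw [sub_nonneg, div_le_iff₀ h1]
    linarith
  have h3 : Real.sqrt (q2 - r ^ 2 / q1) * Real.sqrt (q2 - r ^ 2 / q1) = q2 - r ^ 2 / q1 :=
    Real.mul_self_sqrt h2
  have h4 : r / Real.sqrt q1 * (r / Real.sqrt q1) = r ^ 2 / q1 := by
    rw [div_mul_div_comm, hs]
    ring
  ext i j
  fin_cases i <;> fin_cases j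
  · simp [chol, mat, Matrix.mul_apply, Fin.sum_univ_two, hs]
  · simp [chol, mat, Matrix.mul_apply, Fin.sum_univ_two]
    field_simp
  · simp [chol, mat, Matrix.mul_apply, Fin.sum_univ_two]
    field_simp
  · simp only [chol, mat, Matrix.mul_apply, Fin.sum_univ_two, Matrix.transpose_apply, Matrix.of_apply,
      Matrix.cons_val', Matrix.cons_val_zero, Matrix.cons_val_one, Fin.mk_one, h3, h4]
    ring

/-- first coordinate of the field -/
theorem chol_field0 (b1 b2 q1 q2 r : ℝ) (x : Fin 2 → ℝ) :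
    (Bm (be b1 b2) (chol q1 q2 r)).mulVec x 0 = Real.sqrt 2 * b1 * Real.sqrt q1 * x 0 := by
  simp [Matrix.mulVec, dotProduct, Fin.sum_univ_two, Bm, chol, be]

/-- the support of the field of a rank one level is the line `{(v, κ v)}`,
`κ = b2 r / (b1 q1)`; `v = sqrt 2 b1 sqrt q1 x_0` -/
theorem chol_line (b1 b2 q1 q2 r : ℝ) (hb1 : 0 < b1) (h1 : 0 < q1) (v : ℝ) :
    (Bm (be b1 b2) (chol q1 q2 r)).mulVec ![v / (Real.sqrt 2 * b1 * Real.sqrt q1), 0] =
      ![v, b2 * r / (b1 * q1) * v] := by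
  have hs : Real.sqrt q1 * Real.sqrt q1 = q1 := Real.mul_self_sqrt h1.le
  have hs0 : Real.sqrt q1 ≠ 0 := (Real.sqrt_pos.2 h1).ne'
  have h2 : Real.sqrt 2 ≠ 0 := by positivity
  ext i
  fin_cases i
  · simp [Matrix.mulVec, dotProduct, Fin.sum_univ_two, Bm, chol, be]
    field_simp
  · simp [Matrix.mulVec, dotProduct, Fin.sum_univ_two, Bm, chol, be]
    calc Real.sqrt 2 * b2 * (r / Real.sqrt q1) * (v / (Real.sqrt 2 * b1 * Real.sqrt q1))
        = b2 * r / (b1 * (Real.sqrt q1 * Real.sqrt q1)) * v := by field_simp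
      _ = b2 * r / (b1 * q1) * v := by rw [hs]

end SKC.Z
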