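import Pool.Agent.H.MP_08eaf3_pr.Z.Setup

/-!
# Part Z: comparison of tails (real analysis)
-/

set_option autoImplicit false

open MeasureTheory ProbabilityTheory Filter Topology Matrix

namespace SKC.Z

/-- real analysis: comparison of exponentials. If `exp (2 a v) ≤ K (1 + exp (2 b v))` for all
`v > 0`, `0 ≤ b`, then `a ≤ b`. (Otherwise `exp (2 (a-b) v) ≤ 2 K` for all `v > 0`.) -/
theorem exp_compare (a b K : ℝ) (hb : 0 ≤ b)
    (h : ∀ v : ℝ, 0 < v → Real.exp (2 * a * v) ≤ K * (1 + Real.exp (2 * b * v))) : a ≤ b := by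
  by_contra hab
  push Not at hab
  have hd : 0 < a - b := by linarith
  have hK : 0 < K := by
    have h1 := h 1 one_pos
    by_contra hK
    push Not at hK
    have h2 : K * (1 + Real.exp (2 * b * 1)) ≤ 0 :=
      mul_nonpos_of_nonpos_of_nonneg hK (by positivity)
    linarith [Real.exp_pos (2 * a * 1)]
  have hv : 0 < K / (a - b) := div_pos hK hd
  have h1 := h (K / (a - b)) hv
  have h2 : 1 ≤ Real.exp (2 * b * (K / (a - b))) := Real.one_le_exp (by positivity)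
  have h3 : Real.exp (2 * a * (K / (a - b))) =
      Real.exp (2 * K) * Real.exp (2 * b * (K / (a - b))) := by
    rw [← Real.exp_add]
    congr 1
    field_simp
    ring
  rw [h3] at h1
  have h4 := Real.add_one_le_exp (2 * K)
  nlinarith

/-- real analysis: `p ≤ q + η + p C exp (-(2 a v))` for all `v > 0`, `η > 0` (`a > 0`) implies
`p ≤ q` -/
theorem le_of_tail (p q C a : ℝ) (ha : 0 < a)
    (h : ∀ v η : ℝ, 0 < v → 0 < η → p ≤ q + η + p * (C * Real.exp (-(2 * a * v)))) : p ≤ q := by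
  have h1 : Tendsto (fun v : ℝ => q + v⁻¹ + p * (C * Real.exp (-(2 * a * v)))) atTop
      (𝓝 (q + 0 + p * (C * 0))) := by
    apply Tendsto.add (tendsto_const_nhds.add tendsto_inv_atTop_zero)
    apply Tendsto.const_mul
    apply Tendsto.const_mul
    apply Real.tendsto_exp_neg_atTop_nhds_zero.comp
    exact Tendsto.const_mul_atTop (by positivity) tendsto_id
  have h2 : p ≤ q + 0 + p * (C * 0) := by
    apply ge_of_tendsto h1
    filter_upwards [eventually_gt_atTop (0 : ℝ)] with v hv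
    exact h v v⁻¹ hv (inv_pos.mpr hv)
  simpa using h2

/-- one direction of the comparison of the tails -/
theorem zTa7_one (p κ μ C : ℝ) (hp : 0 < p) (hμ : 0 ≤ μ) (hC : 1 ≤ C)
    (h : ∀ v η : ℝ, 0 < v → 0 < η → ∃ X Y : ℝ, |X - Y| ≤ η / p ∧
      C⁻¹ / (1 + Real.exp (2 * (μ * v))) ≤ 1 - X ∧
      1 - Y ≤ C * Real.exp (-(2 * (κ * v)))) : κ ≤ μ := by
  apply exp_compare κ μ (C ^ 2) hμ
  intro v hv
  have hC0 : 0 < C := by linarith
  have h1 : C⁻¹ / (1 + Real.exp (2 * (μ * v))) ≤ C * Real.exp (-(2 * (κ * v))) := by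
    apply le_of_forall_pos_le_add
    intro ε hε
    obtain ⟨X, Y, h2, h3, h4⟩ := h v (ε * p) hv (mul_pos hε hp)
    have h5 : ε * p / p = ε := by field_simp
    rw [h5] at h2
    have h6 := (abs_le.mp h2).1
    linarith
  have h7 : 0 < 1 + Real.exp (2 * (μ * v)) := by positivity
  rw [div_le_iff₀ h7, Real.exp_neg] at h1
  have h8 : 0 < Real.exp (2 * (κ * v)) := Real.exp_pos _
  have h9 : C⁻¹ * (C * Real.exp (2 * (κ * v))) ≤
      (C * (Real.exp (2 * (κ * v)))⁻¹ * (1 + Real.exp (2 * (μ * v)))) *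
        (C * Real.exp (2 * (κ * v))) :=
    mul_le_mul_of_nonneg_right h1 (by positivity)
  have h10 : C⁻¹ * (C * Real.exp (2 * (κ * v))) = Real.exp (2 * κ * v) := by
    rw [← mul_assoc, inv_mul_cancel₀ hC0.ne', one_mul, mul_assoc]
  have h11 : (C * (Real.exp (2 * (κ * v)))⁻¹ * (1 + Real.exp (2 * (μ * v)))) *
        (C * Real.exp (2 * (κ * v))) = C ^ 2 * (1 + Real.exp (2 * μ * v)) := by
    have e1 : 2 * μ * v = 2 * (μ * v) := by ring
    rw [e1]
    field_simp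
  rw [h10, h11] at h9
  exact h9

/-- Abstract form of the end of S2a, for positive `κ`: `X, Y` in `[0,1]` with tails of rates `1`
and `κ`, and `|p X - q Y| ≤ η`. Then `p = q` and `κ = 1`.

Proof. `p (1 - C e^{-2v}) ≤ p X ≤ q Y + η ≤ q + η`: `le_of_tail`, similarly `q ≤ p`. So
`|X - Y| ≤ η / p`, hence `C⁻¹ / (1 + e^{2v}) ≤ 1 - X ≤ 1 - Y + η / p ≤ C e^{-2κv} + η / p` for all `η`
(with `v` fixed), so `e^{2κv} ≤ C^2 (1 + e^{2v})` for all `v > 0`; `exp_compare` gives `κ ≤ 1`. The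
other direction is the same. -/
theorem tails_compare (p q κ C : ℝ) (hp : 0 < p) (hq : 0 < q) (hκ : 0 < κ) (hC : 1 ≤ C)
    (h : ∀ v η : ℝ, 0 < v → 0 < η → ∃ X Y : ℝ, |p * X - q * Y| ≤ η ∧ X ≤ 1 ∧ Y ≤ 1 ∧
      1 - X ≤ C * Real.exp (-(2 * v)) ∧ C⁻¹ / (1 + Real.exp (2 * v)) ≤ 1 - X ∧
      1 - Y ≤ C * Real.exp (-(2 * (κ * v))) ∧
      C⁻¹ / (1 + Real.exp (2 * (κ * v))) ≤ 1 - Y) : p = q ∧ κ = 1 := by
  have hpq : p ≤ q := by
    apply le_of_tail p q C 1 one_pos
    intro v η hv hη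
    obtain ⟨X, Y, h1, h2, h3, h4, h5, h6, h7⟩ := h v η hv hη
    have h8 := (abs_le.mp h1).2
    have h9 : p * (1 - X) ≤ p * (C * Real.exp (-(2 * v))) := mul_le_mul_of_nonneg_left h4 hp.le
    have h10 : q * Y ≤ q * 1 := mul_le_mul_of_nonneg_left h3 hq.le
    have h11 : -(2 * 1 * v) = -(2 * v) := by ring
    rw [h11]
    linarith
  have hqp : q ≤ p := by
    apply le_of_tail q p C κ hκ
    intro v η hv hη
    obtain ⟨X, Y, h1, h2, h3, h4, h5, h6, h7⟩ := h v η hv hη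
    have h8 := (abs_le.mp h1).1
    have h9 : q * (1 - Y) ≤ q * (C * Real.exp (-(2 * (κ * v)))) :=
      mul_le_mul_of_nonneg_left h6 hq.le
    have h10 : p * X ≤ p * 1 := mul_le_mul_of_nonneg_left h2 hp.le
    have h11 : -(2 * κ * v) = -(2 * (κ * v)) := by ring
    rw [h11]
    linarith
  have hpq' : p = q := le_antisymm hpq hqp
  subst hpq'
  refine ⟨rfl, ?_⟩
  have hXY : ∀ X Y η : ℝ, |p * X - p * Y| ≤ η → |X - Y| ≤ η / p := by
    intro X Y η h1
    rw [← mul_sub, abs_mul, abs_of_pos hp] at h1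
    rw [le_div_iff₀ hp]
    linarith
  apply le_antisymm
  · apply zTa7_one p κ 1 C hp zero_le_one hC
    intro v η hv hη
    obtain ⟨X, Y, h1, h2, h3, h4, h5, h6, h7⟩ := h v η hv hη
    refine ⟨X, Y, hXY X Y η h1, ?_, h6⟩
    rw [one_mul]
    exact h5
  · apply zTa7_one p 1 κ C hp hκ.le hC
    intro v η hv hη
    obtain ⟨X, Y, h1, h2, h3, h4, h5, h6, h7⟩ := h v η hv hη
    refine ⟨Y, X, ?_, h7, ?_⟩
    · rw [abs_sub_comm]
      exact hXY X Y η h1
    · rw [one_mul]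
      exact h4

end SKC.Z
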