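import Pool.Agent.H.MP_08eaf3_pr.Z.Ta5
import Pool.Agent.H.MP_08eaf3_pr.Z.Ta6
import Pool.Agent.H.MP_08eaf3_pr.Z.Ta7

/-!
# Part Z: step S2a (rank one levels)
-/

set_option autoImplicit false

open MeasureTheory ProbabilityTheory Filter Topology Matrix

namespace SKC.Z

/-- The same for the magnetisations: `r` and `κ` have the same sign `σ`;
`X = M_0(v, κ v)`, `Y = σ M_1(v, κ v)` (`Mg_odd` if `σ = -1`, `Mg_tails`). -/
theorem S2a_tails (b1 b2 q r κ : ℝ) (hq : 0 < q) (hrκ : 0 < r * κ)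
    (h : ∀ v η : ℝ, 0 < v → 0 < η → ∃ l : List (Step (Fin 2)), Ok l ∧
      |r * Mg (be b1 b2) l 0 ![v, κ * v] - q * Mg (be b1 b2) l 1 ![v, κ * v]| ≤ η) :
    |r| = q ∧ |κ| = 1 := by
  obtain ⟨C, hC1, hC⟩ := Mg_tails (be b1 b2)
  rcases pos_and_pos_or_neg_and_neg_of_mul_pos hrκ with ⟨hr, hκ⟩ | ⟨hr, hκ⟩
  · have key := tails_compare r q κ C hr hq hκ hC1 (fun v η hv hη => by
      obtain ⟨l, hl, hle⟩ := h v η hv hη
      have t0 := hC l hl 0 ![v, κ * v]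
      have t1 := hC l hl 1 ![v, κ * v]
      simp only [Matrix.cons_val_zero, Matrix.cons_val_one] at t0 t1
      refine ⟨Mg (be b1 b2) l 0 ![v, κ * v], Mg (be b1 b2) l 1 ![v, κ * v], hle,
        ((abs_lt.1 (Mg_lt_one (be b1 b2) l 0 _)).2).le, ((abs_lt.1 (Mg_lt_one (be b1 b2) l 1 _)).2).le,
        t0.1, t0.2, t1.1, t1.2⟩)
    rw [abs_of_pos hr, abs_of_pos hκ]
    exact key
  · have key := tails_compare (-r) q (-κ) C (neg_pos.2 hr) hq (neg_pos.2 hκ) hC1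
      (fun v η hv hη => by
      obtain ⟨l, hl, hle⟩ := h v η hv hη
      have t0 := hC l hl 0 ![v, κ * v]
      have t1 := hC l hl 1 (-![v, κ * v])
      have e1 : (-![v, κ * v] : Fin 2 → ℝ) 1 = -κ * v := by simp
      rw [e1] at t1
      simp only [Matrix.cons_val_zero] at t0
      have e2 : Mg (be b1 b2) l 1 (-![v, κ * v]) = -Mg (be b1 b2) l 1 ![v, κ * v] :=
        Mg_odd (be b1 b2) l 1 _
      refine ⟨Mg (be b1 b2) l 0 ![v, κ * v], Mg (be b1 b2) l 1 (-![v, κ * v]), ?_,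
        ((abs_lt.1 (Mg_lt_one (be b1 b2) l 0 _)).2).le, ((abs_lt.1 (Mg_lt_one (be b1 b2) l 1 _)).2).le,
        t0.1, t0.2, t1.1, t1.2⟩
      rw [e2]
      have e3 : -r * Mg (be b1 b2) l 0 ![v, κ * v] - q * -Mg (be b1 b2) l 1 ![v, κ * v] =
          -(r * Mg (be b1 b2) l 0 ![v, κ * v] - q * Mg (be b1 b2) l 1 ![v, κ * v]) := by ring
      rw [e3, abs_neg]
      exact hle)
    rw [abs_of_neg hr, abs_of_neg hκ]
    exact key

/-- S2a. Suppose `dt L t ≤ 0`, so `r^2 = q1 q2` (`dt_nonneg`) and `r ≠ 0`. `w = (r, -q1)` is a null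
vector: `r^2 q1 - 2 r q1 r + q1^2 q2 = 0`. By `close` with `E = chol q1 q2 r` (`LD_eq_mat`,
`chol_mul`, `chol_line`) and paths from `L.path` at `(t, t)`, the hypothesis of `S2a_tails` holds with
`q = q1`, `κ = b2 r / (b1 q1)`. So `|r| = q1` and `|κ| = b2 / b1 = 1`: contradiction. -/
theorem S2a' {b1 b2 u : ℝ} (S : Setting b1 b2 u) (hne : b1 ≠ b2) (L : LData b1 b2 u) (t : ℝ)
    (ht : t ∈ L.T) (h0 : 0 < L.Q t 0 0) (h1 : 0 < L.Q t 1 1) : 0 < dt L t := by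
  by_contra hcon
  have hdt : dt L t = 0 := le_antisymm (not_lt.1 hcon) (dt_nonneg L t ht)
  have hQ := LD_eq_mat L t ht
  have hb1 := S.hb1
  have hb2 := S.hb2
  unfold dt at hdt
  set q1 : ℝ := L.Q t 0 0 with hq1
  set q2 : ℝ := L.Q t 1 1 with hq2
  set r : ℝ := L.Q t 0 1 with hr
  have hr2 : r ^ 2 = q1 * q2 := by linarith
  have hr2pos : 0 < r ^ 2 := by rw [hr2]; positivity
  have hE : chol q1 q2 r * (chol q1 q2 r)ᵀ = L.Q t := by
    rw [chol_mul q1 q2 r h0 hr2.le, hQ]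
  have hrκ : 0 < r * (b2 * r / (b1 * q1)) := by
    have : r * (b2 * r / (b1 * q1)) = b2 * r ^ 2 / (b1 * q1) := by ring
    rw [this]; positivity
  obtain ⟨ha, hb⟩ := S2a_tails b1 b2 q1 r (b2 * r / (b1 * q1)) h0 hrκ (fun v η hv hη => by
    obtain ⟨δ0, hδ0, hcl⟩ := close S L t ht (chol q1 q2 r) hE ![r, -q1] (by
      simp only [Matrix.cons_val_zero, Matrix.cons_val_one]
      rw [← hq1, ← hq2, ← hr]
      linear_combination q1 * hdt) ![v / (Real.sqrt 2 * b1 * Real.sqrt q1), 0] η hη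
    obtain ⟨l1, l2, l3, hp, -⟩ := L.path δ0 hδ0 t ht t ht le_rfl
    have h2 := hcl δ0 hδ0.le le_rfl l1 l2 l3 hp
    rw [chol_line b1 b2 q1 q2 r hb1 h0 v] at h2
    simp only [Matrix.cons_val_zero, Matrix.cons_val_one] at h2
    refine ⟨l2 ++ l3, Ok_tail (Ok_of_path hp), ?_⟩
    rw [neg_mul, ← sub_eq_add_neg] at h2
    exact h2)
  have h3 : |b2 * r / (b1 * q1)| = b2 / b1 := by
    rw [abs_div, abs_mul, abs_of_pos hb2, ha, abs_of_pos (mul_pos hb1 h0)]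
    field_simp
  rw [h3, div_eq_one_iff_eq hb1.ne'] at hb
  exact hne hb.symm

end SKC.Z
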