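import Pool.Agent.H.MP_08eaf3_pr.Z.Setup
import Pool.Agent.H.MP_08eaf3_pr.I.Split

/-!
# Part Z: admissible lists
-/

set_option autoImplicit false

open MeasureTheory ProbabilityTheory Filter Topology Matrix

namespace SKC.Z

variable {b1 b2 u : ℝ}

/-! ### lists of steps -/

theorem zTa2_sq_nonneg {K : Type} [Fintype K] (E : Matrix K K ℝ) (c : K) : 0 ≤ (E * Eᵀ) c c := by
  rw [Matrix.mul_apply]
  refine Finset.sum_nonneg fun k _ => ?_
  rw [Matrix.transpose_apply]
  exact mul_self_nonneg _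

theorem Qtot_diag_nonneg {K : Type} [Fintype K] (l : List (Step K)) (c : K) : 0 ≤ Qtot l c c := by
  induction l with
  | nil => simp [Qtot]
  | cons a l ih =>
    rw [Qtot, Matrix.add_apply]
    exact add_nonneg (zTa2_sq_nonneg a.2 c) ih

/-- a valid path with end value `D_u` is admissible -/
theorem Ok_of_path {Q Q' : Matrix (Fin 2) (Fin 2) ℝ} {δ : ℝ} {l1 l2 l3 : List (Step (Fin 2))}
    (h : PairPath b1 b2 u Q Q' δ l1 l2 l3) : Ok (l1 ++ (l2 ++ l3)) := by
  obtain ⟨⟨h1, h2, _⟩, _, _, _, h5, _⟩ := h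
  refine ⟨h1, h2, fun c => ?_⟩
  rw [h5]
  fin_cases c <;> simp [mat]

/-- tails of admissible lists are admissible -/
theorem Ok_tail {K : Type} [Fintype K] {l l' : List (Step K)} (h : Ok (l ++ l')) : Ok l' := by
  obtain ⟨h1, h2, h3⟩ := h
  refine ⟨(List.pairwise_append.1 h1).2.1, fun a ha => h2 a (List.mem_append_right _ ha),
    fun c => ?_⟩
  have h4 := h3 c
  rw [SKC.I.Qtot_append, Matrix.add_apply] at h4
  have h0 := Qtot_diag_nonneg l c
  linarith

theorem zTa2_Qtot_pr (l : List (Step (Fin 2))) (d : Fin 2) :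
    Qtot (l.map (pr d)) () () = Qtot l d d := by
  induction l with
  | nil => simp [Qtot]
  | cons a l ih =>
    rw [List.map_cons, Qtot, Qtot, Matrix.add_apply, Matrix.add_apply, ih]
    congr 1
    have h0 := zTa2_sq_nonneg a.2 d
    rw [Matrix.mul_apply]
    simp only [pr, Matrix.transpose_apply, Finset.univ_unique, Finset.sum_singleton]
    exact Real.mul_self_sqrt h0

/-- projections of admissible lists are admissible -/
theorem Ok_proj {l : List (Step (Fin 2))} (h : Ok l) (d : Fin 2) : Ok (l.map (pr d)) := by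
  obtain ⟨h1, h2, h3⟩ := h
  refine ⟨List.pairwise_map.2 h1, ?_, ?_⟩
  · intro a ha
    obtain ⟨b, hb, rfl⟩ := List.mem_map.1 ha
    exact h2 b hb
  · rintro ⟨⟩
    rw [zTa2_Qtot_pr]
    exact h3 d

end SKC.Z
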