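import Pool.Agent.H.MP_08eaf3_pr.Z.Setup

/-!
# Part Z: positivity of the chain law near the points of its support
-/

set_option autoImplicit false

open MeasureTheory ProbabilityTheory Filter Topology Matrix

namespace SKC.Z

/-- nonempty open sets have positive Gaussian measure (`gaussianReal 0 1` has a positive density:
`gaussianReal_absolutelyContinuous'`, `AbsolutelyContinuous.isOpenPosMeasure`, and the instance
`Measure.pi.isOpenPosMeasure`) -/
theorem gam_open_pos {K : Type} [Fintype K] (U : Set (K → ℝ)) (hU : IsOpen U) (hne : U.Nonempty) :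
    0 < (gam K).real U := by
  haveI : (gaussianReal 0 1).IsOpenPosMeasure :=
    (gaussianReal_absolutelyContinuous' 0 (by norm_num)).isOpenPosMeasure
  haveI : (gam K).IsOpenPosMeasure := by
    unfold gam
    infer_instance
  have h1 : 0 < (gam K) U := hU.measure_pos _ hne
  exact ENNReal.toReal_pos h1.ne' (measure_ne_top _ _)

/-- lower bound of Gaussian averages of functions that are Lipschitz (constant `Λ`) and at least
`η` at a point: the set `{x | Λ * n1 (B x - B x0) < η / 2}` is open and contains `x0`; on it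
`h (B x) ≥ η / 2`. -/
theorem gauss_avg_ge {K : Type} [Fintype K] (B : Matrix K K ℝ) (x0 : K → ℝ) (Λ η : ℝ)
    (hΛ : 0 ≤ Λ) (hη : 0 < η) : ∃ m : ℝ, 0 < m ∧ ∀ h : (K → ℝ) → ℝ, Continuous h →
      (∀ z, 0 ≤ h z) → (∀ z, h z ≤ 1) → (∀ z z', |h z - h z'| ≤ Λ * n1 (z - z')) →
      η ≤ h (B.mulVec x0) → m ≤ ∫ x, h (B.mulVec x) ∂(gam K) := by
  have hU : IsOpen {x : K → ℝ | Λ * n1 (B.mulVec x - B.mulVec x0) < η / 2} := by
    refine isOpen_lt ?_ continuous_const
    unfold n1
    have h1 : Continuous (fun x : K → ℝ => B.mulVec x) := by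
      exact Continuous.matrix_mulVec continuous_const continuous_id
    have h2 : Continuous (fun x : K → ℝ => B.mulVec x - B.mulVec x0) := h1.sub continuous_const
    refine continuous_const.mul (continuous_finsetSum _ (fun c _ => ?_))
    exact ((continuous_apply c).comp h2).abs
  have hne : ({x : K → ℝ | Λ * n1 (B.mulVec x - B.mulVec x0) < η / 2}).Nonempty := by
    refine ⟨x0, ?_⟩
    simp only [Set.mem_setOf_eq, sub_self]
    have h0 : n1 (0 : K → ℝ) = 0 := by simp [n1]
    rw [h0, mul_zero]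
    exact half_pos hη
  refine ⟨η / 2 * (gam K).real {x : K → ℝ | Λ * n1 (B.mulVec x - B.mulVec x0) < η / 2},
    mul_pos (half_pos hη) (gam_open_pos _ hU hne), ?_⟩
  intro h hc h0 h1 hL hx
  have hcB : Continuous (fun x : K → ℝ => h (B.mulVec x)) :=
    hc.comp (Continuous.matrix_mulVec continuous_const continuous_id)
  have hint : Integrable (fun x : K → ℝ => h (B.mulVec x)) (gam K) := by
    refine Integrable.of_bound hcB.aestronglyMeasurable 1 (Filter.Eventually.of_forall (fun x => ?_))
    rw [Real.norm_eq_abs, abs_of_nonneg (h0 _)]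
    exact h1 _
  calc η / 2 * (gam K).real {x : K → ℝ | Λ * n1 (B.mulVec x - B.mulVec x0) < η / 2}
      ≤ ∫ x in {x : K → ℝ | Λ * n1 (B.mulVec x - B.mulVec x0) < η / 2}, h (B.mulVec x) ∂(gam K) := by
        refine setIntegral_ge_of_const_le_real hU.measurableSet (measure_ne_top _ _) ?_
          hint.integrableOn
        intro x hxU
        have h3 := hL (B.mulVec x) (B.mulVec x0)
        have h4 : Λ * n1 (B.mulVec x - B.mulVec x0) < η / 2 := hxU
        have h5 := (abs_le.mp (h3.trans h4.le)).1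
        linarith
    _ ≤ ∫ x, h (B.mulVec x) ∂(gam K) :=
        setIntegral_le_integral hint (Filter.Eventually.of_forall (fun x => h0 _))

/-- If a chain expectation of a Lipschitz function is small then the function is small at every
point of the support. (`gauss_avg_ge` gives `m`; by `ChE_ge_gauss`, if `η ≤ h (B x0)` then
`m * exp (-(C/m)) ≤ ChE ...`; so `a = m * exp (-(C/m)) / 2` works.) -/
theorem chain_small {K : Type} [Fintype K] [DecidableEq K] (β : K → ℝ) (E : Matrix K K ℝ)
    (x0 : K → ℝ) (Λ η : ℝ) (hΛ : 0 ≤ Λ) (hη : 0 < η) :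
    ∃ a : ℝ, 0 < a ∧ ∀ l1 l2 : List (Step K), Ok (l1 ++ l2) → E * Eᵀ = Qtot l1 →
      ∀ h : (K → ℝ) → ℝ, Continuous h → (∀ z, 0 ≤ h z) → (∀ z, h z ≤ 1) →
        (∀ z z', |h z - h z'| ≤ Λ * n1 (z - z')) →
        ChE β l1 (PsiL β l2 F0) h 0 ≤ a → h ((Bm β E).mulVec x0) < η := by
  obtain ⟨C, hC, hG⟩ := ChE_ge_gauss β
  obtain ⟨m, hm, hM⟩ := gauss_avg_ge (Bm β E) x0 Λ η hΛ hη
  refine ⟨m * Real.exp (-(C / m)) / 2, by positivity, ?_⟩
  intro l1 l2 hok hE h hc h0 h1 hL ha
  by_contra hcon
  have h5 := hM h hc h0 h1 hL (not_lt.mp hcon)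
  have h6 := hG l1 l2 hok E hE h hc h0 h1 m hm h5
  have h7 : 0 < m * Real.exp (-(C / m)) := by positivity
  linarith

end SKC.Z
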