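import Pool.Agent.H.MP_08eaf3_pr.Z.Setup

/-!
# Part Z: square of a combination of magnetisations
-/

set_option autoImplicit false

open MeasureTheory ProbabilityTheory Filter Topology Matrix

namespace SKC.Z

theorem zTa4_n1_nonneg {K : Type} [Fintype K] (z : K → ℝ) : 0 ≤ n1 z :=
  Finset.sum_nonneg fun _ _ => abs_nonneg _

theorem zTa4_n1_cont {K : Type} [Fintype K] : Continuous (n1 : (K → ℝ) → ℝ) := by
  unfold n1
  fun_prop

/-- continuity of the magnetisations (from `Mg_lip`) -/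
theorem Mg_cont {K : Type} [Fintype K] [DecidableEq K] (β : K → ℝ) (l : List (Step K)) (hl : Ok l)
    (c : K) : Continuous (Mg β l c) := by
  rw [continuous_iff_continuousAt]
  intro z
  have h1 : Tendsto (fun y : K → ℝ => n1 (y - z)) (𝓝 z) (𝓝 0) := by
    have h2 : Continuous fun y : K → ℝ => n1 (y - z) :=
      zTa4_n1_cont.comp (continuous_id.sub continuous_const)
    have h3 := h2.tendsto z
    have h4 : n1 (z - z) = 0 := by simp [n1]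
    rwa [h4] at h3
  refine tendsto_iff_dist_tendsto_zero.2 (squeeze_zero (fun _ => dist_nonneg) (fun y => ?_) h1)
  rw [Real.dist_eq]
  exact Mg_lip β l hl c y z

theorem zTa4_W (w : Fin 2 → ℝ) : 0 < |w 0| + |w 1| + 1 := by positivity

theorem zTa4_le (w : Fin 2 → ℝ) (a b m : ℝ) (ha : |a| ≤ m) (hb : |b| ≤ m) (hm : 0 ≤ m) :
    |(w 0 * a + w 1 * b) / (|w 0| + |w 1| + 1)| ≤ m := by
  have hW := zTa4_W w
  rw [abs_div, abs_of_pos hW, div_le_iff₀ hW]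
  have h1 : |w 0 * a + w 1 * b| ≤ |w 0| * m + |w 1| * m := by
    refine (abs_add_le _ _).trans ?_
    rw [abs_mul, abs_mul]
    exact add_le_add (mul_le_mul_of_nonneg_left ha (abs_nonneg _))
      (mul_le_mul_of_nonneg_left hb (abs_nonneg _))
  nlinarith

/-- the square of `s = ∑ w_c M_c / W`, `W = |w 0| + |w 1| + 1`, is in `[0,1]`, continuous and
`2`-Lipschitz -/
theorem sq_comb_prop (β w : Fin 2 → ℝ) (l : List (Step (Fin 2))) (hl : Ok l) :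
    Continuous (fun z => ((w 0 * Mg β l 0 z + w 1 * Mg β l 1 z) / (|w 0| + |w 1| + 1)) ^ 2) ∧
    (∀ z, 0 ≤ ((w 0 * Mg β l 0 z + w 1 * Mg β l 1 z) / (|w 0| + |w 1| + 1)) ^ 2) ∧
    (∀ z, ((w 0 * Mg β l 0 z + w 1 * Mg β l 1 z) / (|w 0| + |w 1| + 1)) ^ 2 ≤ 1) ∧
    (∀ z z', |((w 0 * Mg β l 0 z + w 1 * Mg β l 1 z) / (|w 0| + |w 1| + 1)) ^ 2 -
      ((w 0 * Mg β l 0 z' + w 1 * Mg β l 1 z') / (|w 0| + |w 1| + 1)) ^ 2| ≤ 2 * n1 (z - z')) := by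
  have hb : ∀ z, |(w 0 * Mg β l 0 z + w 1 * Mg β l 1 z) / (|w 0| + |w 1| + 1)| ≤ 1 := fun z =>
    zTa4_le w _ _ 1 (Mg_lt_one β l 0 z).le (Mg_lt_one β l 1 z).le zero_le_one
  refine ⟨?_, fun z => sq_nonneg _, fun z => ?_, fun z z' => ?_⟩
  · exact ((((Mg_cont β l hl 0).const_mul _).add ((Mg_cont β l hl 1).const_mul _)).div_const _).pow 2
  · rw [← sq_abs]
    exact pow_le_one₀ (abs_nonneg _) (hb z)
  · set s := (w 0 * Mg β l 0 z + w 1 * Mg β l 1 z) / (|w 0| + |w 1| + 1) with hs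
    set s' := (w 0 * Mg β l 0 z' + w 1 * Mg β l 1 z') / (|w 0| + |w 1| + 1) with hs'
    have h1 : |s - s'| ≤ n1 (z - z') := by
      have h2 : s - s' = (w 0 * (Mg β l 0 z - Mg β l 0 z') + w 1 * (Mg β l 1 z - Mg β l 1 z')) /
          (|w 0| + |w 1| + 1) := by
        rw [hs, hs', ← sub_div]
        congr 1
        ring
      rw [h2]
      exact zTa4_le w _ _ _ (Mg_lip β l hl 0 z z') (Mg_lip β l hl 1 z z') (zTa4_n1_nonneg _)
    have h3 : |s + s'| ≤ 2 := (abs_add_le _ _).trans (by linarith [hb z, hb z'])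
    have h4 : s ^ 2 - s' ^ 2 = (s + s') * (s - s') := by ring
    rw [h4, abs_mul]
    exact mul_le_mul h3 h1 (abs_nonneg _) (by norm_num)

theorem zTa4_EG {h : (Fin 2 → ℝ) → ℝ} (hc : Continuous h) (B : ℝ) (hB : ∀ z, |h z| ≤ B) :
    EG h := by
  refine ⟨hc, max B 0, fun z => (hB z).trans ?_⟩
  have h1 : 1 ≤ Real.exp (max B 0 * n1 z) :=
    Real.one_le_exp (mul_nonneg (le_max_right _ _) (zTa4_n1_nonneg z))
  calc B ≤ max B 0 * 1 := by rw [mul_one]; exact le_max_left _ _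
    _ ≤ max B 0 * Real.exp (max B 0 * n1 z) := mul_le_mul_of_nonneg_left h1 (le_max_right _ _)

/-- chain expectation of this square: expand, use linearity (`ChE_add`, `ChE_smul`), and
`E M_c M_c' = Q_cc' ± e` -/
theorem ChE_sq_comb (β w : Fin 2 → ℝ) (Q : Matrix (Fin 2) (Fin 2) ℝ)
    (hw : w 0 ^ 2 * Q 0 0 + 2 * (w 0 * w 1 * Q 0 1) + w 1 ^ 2 * Q 1 1 = 0) (e : ℝ)
    (l1 l : List (Step (Fin 2))) (hl : Ok l)
    (h00 : |ChE β l1 (PsiL β l F0) (fun z => Mg β l 0 z * Mg β l 0 z) 0 - Q 0 0| ≤ e)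
    (h01 : |ChE β l1 (PsiL β l F0) (fun z => Mg β l 0 z * Mg β l 1 z) 0 - Q 0 1| ≤ e)
    (h11 : |ChE β l1 (PsiL β l F0) (fun z => Mg β l 1 z * Mg β l 1 z) 0 - Q 1 1| ≤ e) :
    ChE β l1 (PsiL β l F0)
      (fun z => ((w 0 * Mg β l 0 z + w 1 * Mg β l 1 z) / (|w 0| + |w 1| + 1)) ^ 2) 0 ≤ e := by
  have hW := zTa4_W w
  have he : 0 ≤ e := (abs_nonneg _).trans h00
  set W := |w 0| + |w 1| + 1 with hWd
  have hE : ∀ c d : Fin 2, EG (fun z => Mg β l c z * Mg β l d z) := fun c d =>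
    zTa4_EG ((Mg_cont β l hl c).mul (Mg_cont β l hl d)) 1 fun z => by
      rw [abs_mul]
      exact mul_le_one₀ (Mg_lt_one β l c z).le (abs_nonneg _) (Mg_lt_one β l d z).le
  have hEs : ∀ (k : ℝ) (c d : Fin 2), EG (fun z => k * (Mg β l c z * Mg β l d z)) := fun k c d =>
    zTa4_EG (((Mg_cont β l hl c).mul (Mg_cont β l hl d)).const_mul k) |k| fun z => by
      rw [abs_mul, abs_mul]
      exact mul_le_of_le_one_right (abs_nonneg _)
        (mul_le_one₀ (Mg_lt_one β l c z).le (abs_nonneg _) (Mg_lt_one β l d z).le)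
  have hF : LG (PsiL β l F0 : (Fin 2 → ℝ) → ℝ) := LG_PsiL β l F0 LG_F0
  have hfun : (fun z => ((w 0 * Mg β l 0 z + w 1 * Mg β l 1 z) / W) ^ 2) =
      fun z => (w 0 ^ 2 / W ^ 2) * (Mg β l 0 z * Mg β l 0 z) +
        ((2 * (w 0 * w 1) / W ^ 2) * (Mg β l 0 z * Mg β l 1 z) +
          (w 1 ^ 2 / W ^ 2) * (Mg β l 1 z * Mg β l 1 z)) := by
    funext z
    field_simp
    ring
  have hE2 : EG (fun z => (2 * (w 0 * w 1) / W ^ 2) * (Mg β l 0 z * Mg β l 1 z) +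
          (w 1 ^ 2 / W ^ 2) * (Mg β l 1 z * Mg β l 1 z)) := by
    refine zTa4_EG ((((Mg_cont β l hl 0).mul (Mg_cont β l hl 1)).const_mul _).add
      (((Mg_cont β l hl 1).mul (Mg_cont β l hl 1)).const_mul _))
      (|2 * (w 0 * w 1) / W ^ 2| + |w 1 ^ 2 / W ^ 2|) fun z => ?_
    refine (abs_add_le _ _).trans (add_le_add ?_ ?_)
    · rw [abs_mul, abs_mul]
      exact mul_le_of_le_one_right (abs_nonneg _)
        (mul_le_one₀ (Mg_lt_one β l 0 z).le (abs_nonneg _) (Mg_lt_one β l 1 z).le)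
    · rw [abs_mul, abs_mul]
      exact mul_le_of_le_one_right (abs_nonneg _)
        (mul_le_one₀ (Mg_lt_one β l 1 z).le (abs_nonneg _) (Mg_lt_one β l 1 z).le)
  rw [hfun, ChE_add β l1 _ _ _ hF (hEs _ 0 0) hE2, ChE_add β l1 _ _ _ hF (hEs _ 0 1) (hEs _ 1 1),
    ChE_smul, ChE_smul, ChE_smul]
  set a := ChE β l1 (PsiL β l F0) (fun z => Mg β l 0 z * Mg β l 0 z) 0
  set b := ChE β l1 (PsiL β l F0) (fun z => Mg β l 0 z * Mg β l 1 z) 0
  set d := ChE β l1 (PsiL β l F0) (fun z => Mg β l 1 z * Mg β l 1 z) 0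
  have hexp : w 0 ^ 2 / W ^ 2 * a + (2 * (w 0 * w 1) / W ^ 2 * b + w 1 ^ 2 / W ^ 2 * d) =
      (w 0 ^ 2 * (a - Q 0 0) + 2 * (w 0 * w 1) * (b - Q 0 1) + w 1 ^ 2 * (d - Q 1 1)) / W ^ 2 := by
    have h1 : w 0 ^ 2 * (a - Q 0 0) + 2 * (w 0 * w 1) * (b - Q 0 1) + w 1 ^ 2 * (d - Q 1 1) =
        w 0 ^ 2 * a + 2 * (w 0 * w 1) * b + w 1 ^ 2 * d := by linear_combination -hw
    rw [h1]
    ring
  rw [hexp, div_le_iff₀ (by positivity)]
  have t1 : w 0 ^ 2 * (a - Q 0 0) ≤ w 0 ^ 2 * e :=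
    mul_le_mul_of_nonneg_left ((le_abs_self _).trans h00) (sq_nonneg _)
  have t2 : 2 * (w 0 * w 1) * (b - Q 0 1) ≤ 2 * (|w 0| * |w 1|) * e := by
    refine (le_abs_self _).trans ?_
    rw [abs_mul, abs_mul, abs_mul, abs_of_pos (by norm_num : (0 : ℝ) < 2)]
    exact mul_le_mul_of_nonneg_left h01 (by positivity)
  have t3 : w 1 ^ 2 * (d - Q 1 1) ≤ w 1 ^ 2 * e :=
    mul_le_mul_of_nonneg_left ((le_abs_self _).trans h11) (sq_nonneg _)
  have t4 : w 0 ^ 2 * e + 2 * (|w 0| * |w 1|) * e + w 1 ^ 2 * e = e * (|w 0| + |w 1|) ^ 2 := by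
    rw [← sq_abs (w 0), ← sq_abs (w 1)]
    ring
  have t5 : (|w 0| + |w 1|) ^ 2 ≤ W ^ 2 := by
    apply pow_le_pow_left₀ (by positivity)
    rw [hWd]
    linarith
  calc _ ≤ w 0 ^ 2 * e + 2 * (|w 0| * |w 1|) * e + w 1 ^ 2 * e := by linarith
    _ = e * (|w 0| + |w 1|) ^ 2 := t4
    _ ≤ e * W ^ 2 := mul_le_mul_of_nonneg_left t5 he

end SKC.Z
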