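import Pool.Agent.H.MP_08eaf3_pr.Z.Ta1
import Pool.Agent.H.MP_08eaf3_pr.Z.Ta2
import Pool.Agent.H.MP_08eaf3_pr.Z.Ta3
import Pool.Agent.H.MP_08eaf3_pr.Z.Ta4

/-!
# Part Z: touching at a null vector of the level matrix
-/

set_option autoImplicit false

open MeasureTheory ProbabilityTheory Filter Topology Matrix

namespace SKC.Z

/-- If `w` is a null vector of the level matrix then `w 0 M_0 + w 1 M_1` is small at every point of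
the support of the chain at that level, for near-optimal paths. -/
theorem close {b1 b2 u : ℝ} (S : Setting b1 b2 u) (L : LData b1 b2 u) (t : ℝ) (ht : t ∈ L.T)
    (E : Matrix (Fin 2) (Fin 2) ℝ) (hE : E * Eᵀ = L.Q t) (w : Fin 2 → ℝ)
    (hw : w 0 ^ 2 * L.Q t 0 0 + 2 * (w 0 * w 1 * L.Q t 0 1) + w 1 ^ 2 * L.Q t 1 1 = 0)
    (x0 : Fin 2 → ℝ) (η : ℝ) (hη : 0 < η) :
    ∃ δ0 : ℝ, 0 < δ0 ∧ ∀ δ : ℝ, 0 ≤ δ → δ ≤ δ0 → ∀ l1 l2 l3 : List (Step (Fin 2)),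
      PairPath b1 b2 u (L.Q t) (L.Q t) δ l1 l2 l3 →
      |w 0 * Mg (be b1 b2) (l2 ++ l3) 0 ((Bm (be b1 b2) E).mulVec x0) +
        w 1 * Mg (be b1 b2) (l2 ++ l3) 1 ((Bm (be b1 b2) E).mulVec x0)| ≤ η := by
  have hW : 0 < |w 0| + |w 1| + 1 := by positivity
  obtain ⟨a, ha, hsm⟩ := chain_small (be b1 b2) E x0 2 ((η / (|w 0| + |w 1| + 1)) ^ 2) (by norm_num)
    (by positivity)
  refine ⟨(a / 6) ^ 2, by positivity, fun δ hδ0 hδ l1 l2 l3 hp => ?_⟩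
  have hok := Ok_of_path hp
  have hl := Ok_tail hok
  have hT := L.tree t ht t ht le_rfl
  have hsq : 6 * Real.sqrt δ ≤ a := by
    have h1 : Real.sqrt δ ≤ a / 6 := Real.sqrt_le_iff.2 ⟨by positivity, hδ⟩
    linarith
  have h1 := ChE_sq_comb (be b1 b2) w (L.Q t) hw a l1 (l2 ++ l3) hl
    ((touch_low b1 b2 u S.hb1 S.hb2 _ _ hT δ hδ0 l1 l2 l3 hp 0 0).trans hsq)
    ((touch_low b1 b2 u S.hb1 S.hb2 _ _ hT δ hδ0 l1 l2 l3 hp 0 1).trans hsq)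
    ((touch_low b1 b2 u S.hb1 S.hb2 _ _ hT δ hδ0 l1 l2 l3 hp 1 1).trans hsq)
  obtain ⟨p1, p2, p3, p4⟩ := sq_comb_prop (be b1 b2) w (l2 ++ l3) hl
  have h2 := hsm l1 (l2 ++ l3) hok (hE.trans hp.2.2.1.symm) _ p1 p2 p3 p4 h1
  have h3 := abs_lt_of_sq_lt_sq h2 (by positivity)
  rw [abs_div, abs_of_pos hW, div_lt_div_iff_of_pos_right hW] at h3
  exact h3.le

end SKC.Z
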