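import Pool.Agent.H.MP_08eaf3_pr.Z.Ta2

/-!
# Part Z: slope on the axis (for S2b)
-/

set_option autoImplicit false

open MeasureTheory ProbabilityTheory Filter Topology Matrix

namespace SKC.Z

theorem zTb2_tanh_mono {x y : ℝ} (h : x ≤ y) : Real.tanh x ≤ Real.tanh y := by
  rw [Real.tanh_eq, Real.tanh_eq, div_le_div_iff₀ (by positivity) (by positivity)]
  have h1 : Real.exp x * Real.exp (-y) ≤ Real.exp (-x) * Real.exp y := by
    rw [← Real.exp_add, ← Real.exp_add]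
    exact Real.exp_le_exp.2 (by linarith)
  nlinarith

theorem zTb2_tanh_nonneg {x : ℝ} (h : 0 ≤ x) : 0 ≤ Real.tanh x := by
  have := zTb2_tanh_mono h
  rwa [Real.tanh_zero] at this

theorem zTb2_tanh_pos {x : ℝ} (h : 0 < x) : 0 < Real.tanh x := by
  rw [Real.tanh_eq]
  have h1 : Real.exp (-x) < Real.exp x := Real.exp_lt_exp.2 (by linarith)
  have h2 : 0 < Real.exp x - Real.exp (-x) := by linarith
  positivity

theorem zTb2_mg1_zero (b : ℝ) (l : List (Step Unit)) : mg1 b l 0 = 0 := by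
  have h := Mg_odd (fun _ : Unit => b) l () (fun _ => 0)
  have h1 : (-(fun _ : Unit => (0 : ℝ))) = fun _ => 0 := by
    funext c
    simp
  rw [h1] at h
  unfold mg1
  linarith

/-- Gain of the one coordinate functional: `mg1 b l 0 = 0` (`Mg_odd`), `mg1 b l v ≥ c tanh v` for
`v ≥ 0` (`mg1_mono`); mean value theorem for `psi1` (`psi1_deriv`) on `[0, G/2]` (nonnegative
increment) and on `[G/2, G]` (increment `≥ (G/2) c tanh (G/2)`). -/
theorem psi1_gain (b : ℝ) : ∃ c : ℝ, 0 < c ∧ ∀ l : List (Step Unit), Ok l → ∀ G : ℝ, 0 ≤ G →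
    c * (G / 2 * Real.tanh (G / 2)) ≤ psi1 b l G - psi1 b l 0 := by
  obtain ⟨c, hc, h⟩ := mg1_mono b
  refine ⟨c, hc, fun l hl G hG => ?_⟩
  have hm : ∀ v : ℝ, 0 ≤ v → c * Real.tanh v ≤ mg1 b l v := by
    intro v hv
    have h1 := h l hl 0 v hv
    rw [zTb2_mg1_zero, Real.tanh_zero, sub_zero, sub_zero] at h1
    exact h1
  have hd : ∀ v, HasDerivAt (psi1 b l) (mg1 b l v) v := psi1_deriv b l
  have hcont : Continuous (psi1 b l) :=
    continuous_iff_continuousAt.2 fun v => (hd v).continuousAt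
  have hdiff : Differentiable ℝ (psi1 b l) := fun v => (hd v).differentiableAt
  have e1 : 0 * (G / 2 - 0) ≤ psi1 b l (G / 2) - psi1 b l 0 := by
    refine (convex_Icc (0 : ℝ) (G / 2)).mul_sub_le_image_sub_of_le_deriv hcont.continuousOn
      hdiff.differentiableOn ?_ 0 ⟨le_rfl, by linarith⟩ (G / 2) ⟨by linarith, le_rfl⟩
      (by linarith)
    intro v hv
    rw [interior_Icc] at hv
    rw [(hd v).deriv]
    exact (mul_nonneg hc.le (zTb2_tanh_nonneg hv.1.le)).trans (hm v hv.1.le)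
  have e2 : (c * Real.tanh (G / 2)) * (G - G / 2) ≤ psi1 b l G - psi1 b l (G / 2) := by
    refine (convex_Icc (G / 2) G).mul_sub_le_image_sub_of_le_deriv hcont.continuousOn
      hdiff.differentiableOn ?_ (G / 2) ⟨le_rfl, by linarith⟩ G ⟨by linarith, le_rfl⟩
      (by linarith)
    intro v hv
    rw [interior_Icc] at hv
    rw [(hd v).deriv]
    have hv0 : 0 ≤ v := by linarith [hv.1]
    exact (mul_le_mul_of_nonneg_left (zTb2_tanh_mono hv.1.le) hc.le).trans (hm v hv0)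
  nlinarith

/-- Convexity: the increment over `[-G, 0]` in direction `d` is at most `G` times the derivative
at `0`. (`PsiL_convex` composed with the line `h ↦ z + h e_d` is convex, `PsiL_deriv`.) -/
theorem PsiL_incr_le (β : Fin 2 → ℝ) (l : List (Step (Fin 2))) (hl : Ok l) (d : Fin 2)
    (z : Fin 2 → ℝ) (G : ℝ) (hG : 0 ≤ G) :
    PsiL β l F0 z - PsiL β l F0 (z + (-G) • Pi.single d (1 : ℝ)) ≤ G * Mg β l d z := by
  rcases hG.eq_or_lt with rfl | hG
  · simp
  have h1 := PsiL_deriv β l d z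
  have h2 : ConvexOn ℝ Set.univ (fun h : ℝ => PsiL β l F0 (z + h • Pi.single d 1)) := by
    refine ⟨convex_univ, fun x _ y _ a b ha hb hab => ?_⟩
    have h3 := (PsiL_convex β l hl).2 (Set.mem_univ (z + x • Pi.single d (1 : ℝ)))
      (Set.mem_univ (z + y • Pi.single d (1 : ℝ))) ha hb hab
    have h4 : a • (z + x • Pi.single d (1 : ℝ)) + b • (z + y • Pi.single d (1 : ℝ)) =
        z + (a • x + b • y) • Pi.single d (1 : ℝ) := by
      have h5 : z = a • z + b • z := by rw [← add_smul, hab, one_smul]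
      conv_rhs => rw [h5]
      rw [add_smul, smul_add, smul_add, smul_assoc, smul_assoc]
      abel
    rw [h4] at h3
    exact h3
  have h3 := h2.slope_le_of_hasDerivAt (Set.mem_univ (-G)) (Set.mem_univ (0 : ℝ))
    (by linarith) h1
  rw [slope_def_field, div_le_iff₀ (by linarith)] at h3
  simp only [zero_smul, add_zero] at h3
  linarith

/-- If `Gl l ≥ g0 > 0` then the magnetisation `M_d` is bounded below at some point of the axis
`{z_d = 0}`.

Proof. `G = 2 b1 b2 Gl l ∈ [2 b1 b2 g0, 6 b1 b2]`. By `halfplane` at `(z_c, z_d) = (x, 0)` and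
`(x, -G)`, `Psi(x,0) - Psi(x,-G) ≥ psi1(G) - psi1(0) - log (1 + C e^{-2x})`. By `psi1_gain`
(`tanh` is increasing) the difference is `≥ p := c (G0/2) tanh (G0/2)`, `G0 = 2 b1 b2 g0`, for both
values of `d` (take the minimum of the two constants). Choose `x` with `C e^{-2x} ≤ p / 2`
(`log (1 + y) ≤ y`). Then `G M_d ≥ p / 2` by `PsiL_incr_le`, so `M_d ≥ p / (12 b1 b2)`. -/
theorem axis_slope (b1 b2 g0 : ℝ) (hb1 : 0 < b1) (hb2 : 0 < b2) (hg0 : 0 < g0) :
    ∃ x p : ℝ, 0 < p ∧ ∀ l : List (Step (Fin 2)), Ok l → g0 ≤ Gl l → Gl l ≤ 3 →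
      ∀ c d : Fin 2, c ≠ d → p ≤ Mg (be b1 b2) l d (x • Pi.single c (1 : ℝ)) := by
  obtain ⟨c0, hc0, h0⟩ := psi1_gain (be b1 b2 0)
  obtain ⟨c1, hc1, h1⟩ := psi1_gain (be b1 b2 1)
  obtain ⟨C, hC, hp⟩ := halfplane b1 b2
  obtain ⟨G0, hG0⟩ : ∃ G0 : ℝ, G0 = 2 * b1 * b2 * g0 := ⟨_, rfl⟩
  have hG0p : 0 < G0 := by rw [hG0]; positivity
  obtain ⟨p0, hp0⟩ : ∃ p0 : ℝ, p0 = min c0 c1 * (G0 / 2 * Real.tanh (G0 / 2)) := ⟨_, rfl⟩
  have hp0p : 0 < p0 := by
    rw [hp0]
    exact mul_pos (lt_min hc0 hc1) (mul_pos (by positivity) (zTb2_tanh_pos (by positivity)))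
  obtain ⟨x, hx⟩ : ∃ x : ℝ, x = Real.log (2 * (C + 1) / p0) / 2 := ⟨_, rfl⟩
  have hex : C * Real.exp (-(2 * x)) ≤ p0 / 2 := by
    have e1 : -(2 * x) = - Real.log (2 * (C + 1) / p0) := by rw [hx]; ring
    rw [e1, Real.exp_neg, Real.exp_log (by positivity), inv_div, ← mul_div_assoc,
      div_le_div_iff₀ (by positivity) (by norm_num)]
    nlinarith
  refine ⟨x, p0 / (12 * b1 * b2), by positivity, fun l hl hg hg3 c d hcd => ?_⟩
  obtain ⟨a, ha⟩ := hp l hl c d hcd
  obtain ⟨G, hG⟩ : ∃ G : ℝ, G = 2 * b1 * b2 * Gl l := ⟨_, rfl⟩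
  have hbb : 0 < 2 * b1 * b2 := by positivity
  have hG1 : G0 ≤ G := by
    rw [hG0, hG]
    exact mul_le_mul_of_nonneg_left hg hbb.le
  have hG2 : G ≤ 6 * b1 * b2 := by
    rw [hG]
    have := mul_le_mul_of_nonneg_left hg3 hbb.le
    linarith
  have hgain : p0 ≤ psi1 (be b1 b2 d) (l.map (pr d)) G - psi1 (be b1 b2 d) (l.map (pr d)) 0 := by
    have e2 : G0 / 2 * Real.tanh (G0 / 2) ≤ G / 2 * Real.tanh (G / 2) :=
      mul_le_mul (by linarith) (zTb2_tanh_mono (by linarith)) (zTb2_tanh_pos (by linarith)).le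
        (by linarith)
    have e3 : 0 ≤ G / 2 * Real.tanh (G / 2) :=
      mul_nonneg (by linarith) (zTb2_tanh_nonneg (by linarith))
    have e4 : p0 ≤ min c0 c1 * (G / 2 * Real.tanh (G / 2)) := by
      rw [hp0]
      exact mul_le_mul_of_nonneg_left e2 (lt_min hc0 hc1).le
    have e5 : d = 0 ∨ d = 1 := by omega
    rcases e5 with rfl | rfl
    · exact (e4.trans (mul_le_mul_of_nonneg_right (min_le_left _ _) e3)).trans
        (h0 _ (Ok_proj hl 0) G (by linarith))
    · exact (e4.trans (mul_le_mul_of_nonneg_right (min_le_right _ _) e3)).trans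
        (h1 _ (Ok_proj hl 1) G (by linarith))
  have hdc : d ≠ c := fun h => hcd h.symm
  have z1c : (x • Pi.single c (1 : ℝ) : Fin 2 → ℝ) c = x := by simp
  have z1d : (x • Pi.single c (1 : ℝ) : Fin 2 → ℝ) d = 0 := by simp [hdc]
  have z2c : (x • Pi.single c (1 : ℝ) + (-G) • Pi.single d (1 : ℝ) : Fin 2 → ℝ) c = x := by
    simp [hcd]
  have z2d : (x • Pi.single c (1 : ℝ) + (-G) • Pi.single d (1 : ℝ) : Fin 2 → ℝ) d = -G := by
    simp [hdc]
  have i1 := (ha (x • Pi.single c (1 : ℝ))).1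
  have i2 := (ha (x • Pi.single c (1 : ℝ) + (-G) • Pi.single d (1 : ℝ))).2
  rw [z1c, z1d, ← hG, zero_add] at i1
  rw [z2c, z2d, ← hG, neg_add_cancel] at i2
  have i3 := PsiL_incr_le (be b1 b2) l hl d (x • Pi.single c (1 : ℝ)) G (by linarith)
  have i4 : Real.log (1 + C * Real.exp (-(2 * x))) ≤ C * Real.exp (-(2 * x)) := by
    have h7 : 0 ≤ C * Real.exp (-(2 * x)) := by positivity
    have := Real.log_le_sub_one_of_pos (show 0 < 1 + C * Real.exp (-(2 * x)) by linarith)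
    linarith
  have i5 : p0 / 2 ≤ G * Mg (be b1 b2) l d (x • Pi.single c (1 : ℝ)) := by linarith
  have hMpos : 0 ≤ Mg (be b1 b2) l d (x • Pi.single c (1 : ℝ)) := by
    by_contra hneg
    push Not at hneg
    have : G * Mg (be b1 b2) l d (x • Pi.single c (1 : ℝ)) < 0 :=
      mul_neg_of_pos_of_neg (by linarith) hneg
    linarith
  rw [div_le_iff₀ (by positivity)]
  have i6 := mul_le_mul_of_nonneg_right hG2 hMpos
  linarith

end SKC.Z
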