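import Pool.Agent.H.MP_08eaf3_pr.Z.Tb1
import Pool.Agent.H.MP_08eaf3_pr.Z.Tb2
import Pool.Agent.H.MP_08eaf3_pr.Z.Ta5

/-!
# Part Z: step S2b
-/

set_option autoImplicit false

open MeasureTheory ProbabilityTheory Filter Topology Matrix

namespace SKC.Z

/-- factor of the matrix with the single entry `q` at `(c,c)` -/
noncomputable def sing (c : Fin 2) (q : ℝ) : Matrix (Fin 2) (Fin 2) ℝ :=
  fun i j => if i = c ∧ j = c then Real.sqrt q else 0

theorem sing_mul (q : ℝ) (hq : 0 ≤ q) (c : Fin 2) (M : Matrix (Fin 2) (Fin 2) ℝ)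
    (hM : ∀ i j, M i j = if i = c ∧ j = c then q else 0) : sing c q * (sing c q)ᵀ = M := by
  have hs : Real.sqrt q * Real.sqrt q = q := Real.mul_self_sqrt hq
  ext i j
  rw [hM, Matrix.mul_apply, Fin.sum_univ_two]
  fin_cases c <;> fin_cases i <;> fin_cases j <;> simp [sing, hs]

theorem sing_field (b1 b2 q : ℝ) (hb1 : 0 < b1) (hb2 : 0 < b2) (hq : 0 < q) (c : Fin 2) (x : ℝ) :
    (Bm (be b1 b2) (sing c q)).mulVec
      ((x / (Real.sqrt 2 * be b1 b2 c * Real.sqrt q)) • Pi.single c (1 : ℝ)) =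
      x • Pi.single c (1 : ℝ) := by
  have h2 : Real.sqrt 2 ≠ 0 := by positivity
  have hq2 : Real.sqrt q ≠ 0 := by positivity
  have hb1' : b1 ≠ 0 := hb1.ne'
  have hb2' : b2 ≠ 0 := hb2.ne'
  ext i
  rw [Matrix.mulVec, dotProduct, Fin.sum_univ_two]
  fin_cases c <;> fin_cases i <;> simp [sing, Bm, be] <;> field_simp

/-- S2b. Suppose `L.Q t d d = 0` (it is `≥ 0`). By `psd2` the off-diagonal entry is `0`, so
`L.Q t` has the single entry `q = L.Q t c c` at `(c,c)`. By `Gint_pos` (`0 < u`) the integral `I` is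
positive; `g0 = I / 2`. For `δ ≤ min (I/2) 1`, the path at `(t,t)` has
`g0 ≤ Gl (l2 ++ l3) ≤ 2 + 1 = 3`, so `M_d ≥ p` at `x e_c` by `axis_slope`; `close` with
`w = Pi.single d 1` and `η = p / 2` contradicts this for small `δ`. -/
theorem S2b' {b1 b2 u : ℝ} (S : Setting b1 b2 u) (L : LData b1 b2 u) (t : ℝ)
    (ht : t ∈ L.T) (c d : Fin 2) (hcd : c ≠ d) (h0 : 0 < L.Q t c c) : 0 < L.Q t d d := by
  by_contra hcon
  have hd0 : L.Q t d d = 0 := le_antisymm (not_lt.mp hcon) (LD_nonneg L t ht d)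
  obtain ⟨p1, p2, p3, p4⟩ := psd2 _ (L.psd t ht)
  have hprod : L.Q t 0 0 * L.Q t 1 1 = 0 := by
    fin_cases d
    · have h : L.Q t 0 0 = 0 := hd0
      rw [h, zero_mul]
    · have h : L.Q t 1 1 = 0 := hd0
      rw [h, mul_zero]
  have h01 : L.Q t 0 1 = 0 := by
    rw [hprod] at p4
    nlinarith [sq_nonneg (L.Q t 0 1)]
  have h10 : L.Q t 1 0 = 0 := by rw [p1, h01]
  have hM : ∀ i j, L.Q t i j = if i = c ∧ j = c then L.Q t c c else 0 := by
    intro i j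
    fin_cases c <;> fin_cases d
    · exact absurd rfl hcd
    · have h : L.Q t 1 1 = 0 := hd0
      fin_cases i <;> fin_cases j <;> simp [h01, h10, h]
    · have h : L.Q t 0 0 = 0 := hd0
      fin_cases i <;> fin_cases j <;> simp [h01, h10, h]
    · exact absurd rfl hcd
  have hE := sing_mul (L.Q t c c) h0.le c (L.Q t) hM
  have hI := Gint_pos S L t ht (by rw [h01]; exact S.hu)
  have hI2 := Gint_le S L t ht
  set I := ∫ x, (u - L.Q (max t x) 0 1) ∂L.μ with hIdef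
  obtain ⟨x, p, hp, hax⟩ := axis_slope b1 b2 (I / 2) S.hb1 S.hb2 (by linarith)
  have hw : (Pi.single d (1 : ℝ) : Fin 2 → ℝ) 0 ^ 2 * L.Q t 0 0 +
      2 * ((Pi.single d (1 : ℝ) : Fin 2 → ℝ) 0 * (Pi.single d (1 : ℝ) : Fin 2 → ℝ) 1 * L.Q t 0 1) +
      (Pi.single d (1 : ℝ) : Fin 2 → ℝ) 1 ^ 2 * L.Q t 1 1 = 0 := by
    fin_cases d
    · have h : L.Q t 0 0 = 0 := hd0
      simp [h]
    · have h : L.Q t 1 1 = 0 := hd0
      simp [h]
  obtain ⟨δ0, hδ0, hcl⟩ := close S L t ht (sing c (L.Q t c c)) hE (Pi.single d (1 : ℝ)) hw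
    ((x / (Real.sqrt 2 * be b1 b2 c * Real.sqrt (L.Q t c c))) • Pi.single c (1 : ℝ)) (p / 2)
    (by linarith)
  have hδ : 0 < min δ0 (min (I / 2) 1) := lt_min hδ0 (lt_min (by linarith) one_pos)
  obtain ⟨l1, l2, l3, hpath, -, -, -, -, hG, -⟩ := L.path _ hδ t ht t ht le_rfl
  have hok := Ok_tail (Ok_of_path hpath)
  have hδ1 : min δ0 (min (I / 2) 1) ≤ I / 2 := (min_le_right _ _).trans (min_le_left _ _)
  have hδ2 : min δ0 (min (I / 2) 1) ≤ 1 := (min_le_right _ _).trans (min_le_right _ _)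
  rw [← hIdef, abs_le] at hG
  have h1 := hax (l2 ++ l3) hok (by linarith [hG.1]) (by linarith [hG.2]) c d hcd
  have h2 := hcl _ hδ.le (min_le_left _ _) l1 l2 l3 hpath
  rw [sing_field b1 b2 (L.Q t c c) S.hb1 S.hb2 h0 c x] at h2
  have h3 : (Pi.single d (1 : ℝ) : Fin 2 → ℝ) 0 *
      Mg (be b1 b2) (l2 ++ l3) 0 (x • Pi.single c (1 : ℝ)) +
      (Pi.single d (1 : ℝ) : Fin 2 → ℝ) 1 * Mg (be b1 b2) (l2 ++ l3) 1 (x • Pi.single c (1 : ℝ))
      = Mg (be b1 b2) (l2 ++ l3) d (x • Pi.single c (1 : ℝ)) := by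
    fin_cases d <;> simp
  rw [h3] at h2
  have h4 := le_abs_self (Mg (be b1 b2) (l2 ++ l3) d (x • Pi.single c (1 : ℝ)))
  linarith

end SKC.Z
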