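import Pool.Agent.H.MP_08eaf3_pr.Z.Setup

/-!
# Part Z: 2x2 matrices, levels of `LData`
-/

set_option autoImplicit false

open MeasureTheory ProbabilityTheory Filter Topology Matrix

namespace SKC.Z

variable {b1 b2 u : ℝ}

/-- positive semidefinite 2x2 matrices -/
theorem psd2 (M : Matrix (Fin 2) (Fin 2) ℝ) (h : M.PosSemidef) :
    M 1 0 = M 0 1 ∧ 0 ≤ M 0 0 ∧ 0 ≤ M 1 1 ∧ M 0 1 ^ 2 ≤ M 0 0 * M 1 1 := by
  have h1 : M 1 0 = M 0 1 := by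
    have h2 := h.isHermitian.apply 0 1
    simpa using h2
  refine ⟨h1, h.diag_nonneg, h.diag_nonneg, ?_⟩
  have h3 := h.det_nonneg
  rw [Matrix.det_fin_two, h1] at h3
  nlinarith [h3]

/-- off-diagonal entry: half the trace -/
theorem zTa1_half (M : Matrix (Fin 2) (Fin 2) ℝ) (h : M.PosSemidef) :
    |M 0 1| ≤ Matrix.trace M / 2 := by
  obtain ⟨_, h2, h3, h4⟩ := psd2 M h
  rw [Matrix.trace_fin_two]
  refine abs_le_of_sq_le_sq ?_ (by linarith)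
  nlinarith [sq_nonneg (M 0 0 - M 1 1)]

/-- entries of a positive semidefinite 2x2 matrix are bounded by the trace
(`|M 0 1| ≤ sqrt (M 0 0 * M 1 1) ≤ (M 0 0 + M 1 1) / 2`) -/
theorem psd2_le_trace (M : Matrix (Fin 2) (Fin 2) ℝ) (h : M.PosSemidef) (i j : Fin 2) :
    |M i j| ≤ Matrix.trace M := by
  obtain ⟨h1, h2, h3, h4⟩ := psd2 M h
  have h5 := zTa1_half M h
  rw [Matrix.trace_fin_two] at *
  fin_cases i <;> fin_cases j
  · show |M 0 0| ≤ _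
    rw [abs_of_nonneg h2]
    linarith
  · show |M 0 1| ≤ _
    linarith
  · show |M 1 0| ≤ _
    rw [h1]
    linarith
  · show |M 1 1| ≤ _
    rw [abs_of_nonneg h3]
    linarith

/-- off-diagonal entry: half the trace -/
theorem psd2_le_half_trace (M : Matrix (Fin 2) (Fin 2) ℝ) (h : M.PosSemidef) :
    |M 0 1| ≤ Matrix.trace M / 2 := zTa1_half M h

theorem LD_sym (L : LData b1 b2 u) (t : ℝ) (ht : t ∈ L.T) : L.Q t 1 0 = L.Q t 0 1 :=
  (psd2 _ (L.psd t ht)).1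

theorem LD_eq_mat (L : LData b1 b2 u) (t : ℝ) (ht : t ∈ L.T) :
    L.Q t = mat (L.Q t 0 0) (L.Q t 1 1) (L.Q t 0 1) := by
  ext i j
  fin_cases i <;> fin_cases j <;> simp [mat, LD_sym L t ht]

theorem LD_nonneg (L : LData b1 b2 u) (t : ℝ) (ht : t ∈ L.T) (c : Fin 2) : 0 ≤ L.Q t c c :=
  (L.psd t ht).diag_nonneg

theorem dt_nonneg (L : LData b1 b2 u) (t : ℝ) (ht : t ∈ L.T) : 0 ≤ dt L t := by
  have := (psd2 _ (L.psd t ht)).2.2.2
  unfold dt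
  linarith

/-- diagonal entries are at most `1` (`L.leD`) -/
theorem LD_le_one (L : LData b1 b2 u) (t : ℝ) (ht : t ∈ L.T) (c : Fin 2) : L.Q t c c ≤ 1 := by
  have h1 : 0 ≤ (mat 1 1 u - L.Q t) c c := (L.leD t ht).diag_nonneg
  rw [Matrix.sub_apply] at h1
  have h2 : mat 1 1 u c c = 1 := by
    fin_cases c <;> simp [mat]
  rw [h2] at h1
  linarith

/-- diagonal entries are nondecreasing (`L.mono`) -/
theorem LD_mono (L : LData b1 b2 u) (s t : ℝ) (hs : s ∈ L.T) (ht : t ∈ L.T) (hst : s ≤ t)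
    (c : Fin 2) : L.Q s c c ≤ L.Q t c c := by
  have h1 : 0 ≤ (L.Q t - L.Q s) c c := (L.mono s hs t ht hst).diag_nonneg
  rw [Matrix.sub_apply] at h1
  linarith

/-- the levels are Lipschitz functions of the trace (`psd2_le_trace` for `L.Q t - L.Q s`) -/
theorem LD_lip (L : LData b1 b2 u) (s t : ℝ) (hs : s ∈ L.T) (ht : t ∈ L.T) (hst : s ≤ t)
    (i j : Fin 2) : |L.Q t i j - L.Q s i j| ≤ t - s := by
  have h1 := psd2_le_trace _ (L.mono s hs t ht hst) i j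
  rw [Matrix.trace_sub, L.tr t ht, L.tr s hs, Matrix.sub_apply] at h1
  exact h1

/-- off-diagonal entries: half of it -/
theorem LD_lip_half (L : LData b1 b2 u) (s t : ℝ) (hs : s ∈ L.T) (ht : t ∈ L.T) (hst : s ≤ t) :
    |L.Q t 0 1 - L.Q s 0 1| ≤ (t - s) / 2 := by
  have h1 := psd2_le_half_trace _ (L.mono s hs t ht hst)
  rw [Matrix.trace_sub, L.tr t ht, L.tr s hs, Matrix.sub_apply] at h1
  exact h1

/-- entries are at most `1` in absolute value -/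
theorem LD_abs_le (L : LData b1 b2 u) (t : ℝ) (ht : t ∈ L.T) (i j : Fin 2) : |L.Q t i j| ≤ 1 := by
  obtain ⟨h1, h2, h3, h4⟩ := psd2 _ (L.psd t ht)
  have h5 := LD_le_one L t ht 0
  have h6 := LD_le_one L t ht 1
  have h7 : |L.Q t 0 1| ≤ 1 := by
    refine abs_le_of_sq_le_sq ?_ zero_le_one
    have h8 : L.Q t 0 0 * L.Q t 1 1 ≤ 1 := mul_le_one₀ h5 h3 h6
    rw [one_pow]
    exact h4.trans h8
  fin_cases i <;> fin_cases j
  · show |L.Q t 0 0| ≤ 1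
    rw [abs_of_nonneg h2]
    exact h5
  · exact h7
  · show |L.Q t 1 0| ≤ 1
    rw [h1]
    exact h7
  · show |L.Q t 1 1| ≤ 1
    rw [abs_of_nonneg h3]
    exact h6

/-- real inequality behind `dt_mono` -/
theorem zTa1_real {a1 a2 a3 c1 c2 c3 : ℝ} (h1 : 0 ≤ a1) (h2 : 0 ≤ a2) (h3 : a3 ^ 2 ≤ a1 * a2)
    (h4 : 0 ≤ c1 - a1) (h5 : 0 ≤ c2 - a2) (h6 : (c3 - a3) ^ 2 ≤ (c1 - a1) * (c2 - a2)) :
    a1 * a2 - a3 ^ 2 ≤ c1 * c2 - c3 ^ 2 := by
  obtain ⟨d1, hd1⟩ : ∃ d, d = c1 - a1 := ⟨_, rfl⟩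
  obtain ⟨d2, hd2⟩ : ∃ d, d = c2 - a2 := ⟨_, rfl⟩
  obtain ⟨d3, hd3⟩ : ∃ d, d = c3 - a3 := ⟨_, rfl⟩
  rw [← hd1] at h4 h6
  rw [← hd2] at h5 h6
  rw [← hd3] at h6
  have e1 : c1 = a1 + d1 := by linarith
  have e2 : c2 = a2 + d2 := by linarith
  have e3 : c3 = a3 + d3 := by linarith
  have k1 : |a3 * d3| ≤ (a1 * d2 + a2 * d1) / 2 := by
    refine abs_le_of_sq_le_sq ?_ (by positivity)
    have k2 : (a3 * d3) ^ 2 ≤ (a1 * a2) * (d1 * d2) := by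
      rw [mul_pow]
      exact mul_le_mul h3 h6 (sq_nonneg _) (mul_nonneg h1 h2)
    nlinarith [sq_nonneg (a1 * d2 - a2 * d1)]
  have k3 := (abs_le.1 k1).2
  rw [e1, e2, e3]
  nlinarith [k3, h6]

/-- the determinant is nondecreasing. `det (A + B) = det A + det B + (a1 b2 + a2 b1 - 2 a3 b3)` and
`(a1 b2 + a2 b1)^2 ≥ 4 (a1 a2) (b1 b2) ≥ 4 (a3 b3)^2` -/
theorem dt_mono (L : LData b1 b2 u) (s t : ℝ) (hs : s ∈ L.T) (ht : t ∈ L.T) (hst : s ≤ t) :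
    dt L s ≤ dt L t := by
  obtain ⟨_, a1, a2, a3⟩ := psd2 _ (L.psd s hs)
  obtain ⟨_, c1, c2, c3⟩ := psd2 _ (L.mono s hs t ht hst)
  simp only [Matrix.sub_apply] at c1 c2 c3
  have h := zTa1_real a1 a2 a3 c1 c2 c3
  unfold dt
  linarith

end SKC.Z
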