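import Pool.Agent.H.MP_08eaf3_pr.Z.Tc1

/-!
# Part Z, S5: annealed bound, real analysis
-/

set_option autoImplicit false

open MeasureTheory ProbabilityTheory Filter Topology Matrix

namespace SKC.Z

theorem zTc3_valid : Valid [((1 : ℝ), (1 : Matrix Unit Unit ℝ))] := by
  refine ⟨List.pairwise_singleton _ _, fun a ha => ?_, [], 1, rfl⟩
  rw [List.mem_singleton] at ha
  rw [ha]
  exact ⟨zero_le_one, le_rfl⟩

theorem zTc3_Qtot : Qtot [((1 : ℝ), (1 : Matrix Unit Unit ℝ))] = 1 := by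
  change (1 : Matrix Unit Unit ℝ) * (1 : Matrix Unit Unit ℝ)ᵀ + 0 = 1
  rw [Matrix.transpose_one, Matrix.one_mul, add_zero]

theorem zTc3_sg (b : Bool) : sg b * sg b = 1 := by
  cases b <;> simp [sg]

theorem zTc3_Psi (b : ℝ) :
    PsiL (fun _ : Unit => b) [((1 : ℝ), (1 : Matrix Unit Unit ℝ))] F0 0 =
      Real.log 2 + b ^ 2 := by
  rw [PsiL_one]
  have h1 : ∀ s : Unit → Bool, (∑ c : Unit, ∑ c' : Unit, b * b * (sg (s c) * sg (s c')) *
      ((1 : Matrix Unit Unit ℝ) * (1 : Matrix Unit Unit ℝ)ᵀ) c c') = b ^ 2 := by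
    intro s
    rw [Matrix.transpose_one, Matrix.one_mul]
    simp only [Finset.univ_unique, Finset.sum_singleton, Matrix.one_apply_eq, mul_one]
    rw [zTc3_sg, mul_one, sq]
  simp only [h1]
  rw [Finset.sum_const, Finset.card_univ, nsmul_eq_mul,
    Real.log_mul (by simp) (Real.exp_pos _).ne', Real.log_exp]
  simp

theorem zTc3_corr (b : ℝ) :
    corr (fun _ : Unit => b) 0 [((1 : ℝ), (1 : Matrix Unit Unit ℝ))] = b ^ 2 := by
  change 1 * (Cf (fun _ : Unit => b) (0 + (1 : Matrix Unit Unit ℝ) * (1 : Matrix Unit Unit ℝ)ᵀ) -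
    Cf (fun _ : Unit => b) 0) + 0 = b ^ 2
  rw [Matrix.transpose_one, Matrix.one_mul, zero_add]
  unfold Cf
  simp only [Finset.univ_unique, Finset.sum_singleton, Matrix.one_apply_eq, Matrix.zero_apply]
  ring

theorem zTc3_Pf (b : ℝ) :
    Pf (fun _ : Unit => b) (fun _ => 0) 0 [((1 : ℝ), (1 : Matrix Unit Unit ℝ))] =
      Real.log 2 + b ^ 2 / 2 := by
  have h1 := zTc3_Psi b
  have h2 := zTc3_corr b
  unfold Pf
  unfold F0 at h1
  rw [h1, h2]
  ring

theorem zTc3_FN (b : ℝ) (hb : 0 < b) (N : ℕ) (hN : 0 < N) :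
    FN b N ≤ Real.log 2 + b ^ 2 / 2 := by
  have hNr : (0 : ℝ) < N := Nat.cast_pos.mpr hN
  have h1 := guerra (K := Unit) (fun _ => b) (fun _ => hb.le) (fun _ => 0) 0
    [((1 : ℝ), (1 : Matrix Unit Unit ℝ))] zTc3_valid 0 le_rfl N hN
    (Finset.univ : Finset (Cfg Unit N)) Finset.univ_nonempty (by
      intro ρ _ c c'
      rw [zTc3_Qtot]
      have h2 : (1 : Matrix Unit Unit ℝ) c c' = 1 := Matrix.one_apply_eq c
      rw [h2]
      unfold ov
      have h3 : ∀ i : Fin N, sg (ρ i c) * sg (ρ i c') = 1 := fun i => zTc3_sg (ρ i c)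
      simp only [h3]
      rw [Finset.sum_const, Finset.card_univ, Fintype.card_fin, nsmul_eq_mul, mul_one,
        div_self hNr.ne', sub_self, abs_zero])
  rw [zTc3_Pf] at h1
  unfold FN
  rw [div_le_iff₀ hNr]
  have h4 : (fun ρ : Cfg Unit N => (0 : ℝ) * ∑ i : Fin N, (fun _ : Unit → Bool => (0 : ℝ)) (ρ i)) =
      fun _ => 0 := by
    funext ρ
    rw [zero_mul]
  rw [h4] at h1
  linarith

/-- annealed bound: `Fo b ≤ log 2 + b²/2`. `guerra` for `K = Unit`, the path `[(1, 1)]`, all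
configurations (self overlap `1` for `N > 0`, `ε = 0`): `FN b N ≤ Pf = log 2 + b²/2`
(`PsiL_one`); pass to the limit (`hP`). -/
theorem Fo_le (b : ℝ) (hb : 0 < b) (hP : Tendsto (FN b) atTop (𝓝 (Fo b))) :
    Fo b ≤ Real.log 2 + b ^ 2 / 2 := by
  refine le_of_tendsto hP ?_
  filter_upwards [eventually_gt_atTop 0] with N hN
  exact zTc3_FN b hb N hN

theorem zTc3_der (w : ℝ) : HasDerivAt (fun w => Real.log (Real.cosh w) - w * Real.tanh w / 2)
    ((Real.sinh w * Real.cosh w - w) / (2 * Real.cosh w ^ 2)) w := by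
  have hc : Real.cosh w ≠ 0 := (Real.cosh_pos w).ne'
  have h1 : HasDerivAt (fun w => Real.log (Real.cosh w)) (Real.sinh w / Real.cosh w) w :=
    (Real.hasDerivAt_cosh w).log hc
  have h2 : HasDerivAt (fun w => Real.sinh w / Real.cosh w)
      ((Real.cosh w * Real.cosh w - Real.sinh w * Real.sinh w) / Real.cosh w ^ 2) w :=
    (Real.hasDerivAt_sinh w).div (Real.hasDerivAt_cosh w) hc
  have h3 : HasDerivAt (fun w => w * Real.tanh w / 2)
      ((1 * (Real.sinh w / Real.cosh w) +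
        w * ((Real.cosh w * Real.cosh w - Real.sinh w * Real.sinh w) / Real.cosh w ^ 2)) / 2) w := by
    have h4 := ((hasDerivAt_id w).mul h2).div_const 2
    have e1 : (fun w => w * Real.tanh w / 2) =
        fun w => (id w * (Real.sinh w / Real.cosh w)) / 2 := by
      funext w
      rw [Real.tanh_eq_sinh_div_cosh]
      rfl
    rw [e1]
    exact h4
  have h5 := h1.sub h3
  refine h5.congr_deriv ?_
  have h6 : Real.cosh w * Real.cosh w - Real.sinh w * Real.sinh w = 1 := by
    have := Real.cosh_sq_sub_sinh_sq w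
    rw [← this]
    ring
  rw [h6]
  field_simp
  ring

/-- `w tanh w / 2 < log cosh w` for `w > 0`: the difference vanishes at `0` and has the derivative
`(sinh (2w) / 2 - w) / (2 cosh² w) > 0` -/
theorem logcosh_gt (w : ℝ) (hw : 0 < w) : w * Real.tanh w / 2 < Real.log (Real.cosh w) := by
  have hmono : StrictMonoOn (fun w => Real.log (Real.cosh w) - w * Real.tanh w / 2)
      (Set.Ici (0 : ℝ)) := by
    refine strictMonoOn_of_deriv_pos (convex_Ici 0) ?_ ?_
    · exact fun w _ => (zTc3_der w).continuousAt.continuousWithinAt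
    · intro w hw
      rw [interior_Ici] at hw
      have hw' : 0 < w := hw
      rw [(zTc3_der w).deriv]
      have h1 : w < Real.sinh w := Real.self_lt_sinh_iff.2 hw'
      have h2 : 1 ≤ Real.cosh w := Real.one_le_cosh w
      have h3 : 0 < Real.sinh w := hw'.trans h1
      have h4 : Real.sinh w * 1 ≤ Real.sinh w * Real.cosh w :=
        mul_le_mul_of_nonneg_left h2 h3.le
      have h5 : 0 < 2 * Real.cosh w ^ 2 := by positivity
      exact div_pos (by linarith) h5
  have h1 := hmono (Set.mem_Ici.2 le_rfl) (Set.mem_Ici.2 hw.le) hw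
  simp only [Real.cosh_zero, Real.log_one, zero_mul, zero_div, sub_zero] at h1
  linarith

end SKC.Z
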