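import Pool.Agent.H.MP_08eaf3_pr.Z.Tc2
import Pool.Agent.H.MP_08eaf3_pr.Z.Tc3
import Pool.Agent.H.MP_08eaf3_pr.Z.Ta1

/-!
# Part Z: step S5
-/

set_option autoImplicit false

open MeasureTheory ProbabilityTheory Filter Topology Matrix

namespace SKC.Z

/-- the path at the level `0` if the support is `{0}` -/
theorem zTc4_path {b1 b2 u : ℝ} (S : Setting b1 b2 u) (L : LData b1 b2 u)
    (hT : ∀ t ∈ L.T, t ≤ 0) (h0 : (0 : ℝ) ∈ L.T) (δ : ℝ) (hδ : 0 < δ) :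
    Real.log (Real.cosh (2 * b1 * b2 * u)) ≤ (2 * b1 * b2 * u) * u / 2 + δ ∧
      |Real.tanh (2 * b1 * b2 * u) - u| ≤ 6 * Real.sqrt δ := by
  obtain ⟨l1, l2, l3, hp, -, -, -, -, -, -, h2, h1, h3⟩ := L.path δ hδ 0 h0 0 h0 le_rfl
  have e2 := h2 rfl
  have e1 := h1 rfl
  obtain ⟨E, e3⟩ := h3 hT
  subst e1 e2 e3
  have hE : E * Eᵀ = mat 1 1 u := by
    have h := hp.2.2.2.2.1
    simpa [Qtot] using h
  have hP := hp.2.2.2.2.2
  have hl : ([((0 : ℝ), (0 : Matrix (Fin 2) (Fin 2) ℝ))] ++ ([] ++ [((1 : ℝ), E)])) =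
      [((0 : ℝ), 0), ((1 : ℝ), E)] := rfl
  have ht := touch_pair b1 b2 u S.hb1 S.hb2 (L.Q 0) (L.Q 0) (L.tree 0 h0 0 h0 le_rfl) δ hδ.le
    _ _ _ hp
  rw [hl] at hP ht
  rw [Pf_top b1 b2 u E hE] at hP
  rw [ChE_top b1 b2 u E hE] at ht
  refine ⟨?_, ht⟩
  have hF1 := Fo_le b1 S.hb1 S.hP1
  have hF2 := Fo_le b2 S.hb2 S.hP2
  have h4 : Real.log 4 = 2 * Real.log 2 := by
    have h5 : (4 : ℝ) = 2 ^ 2 := by norm_num
    rw [h5, Real.log_pow]
    norm_num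
  rw [h4] at hP
  have h6 : b1 * b2 * u ^ 2 = (2 * b1 * b2 * u) * u / 2 := by ring
  rw [h6] at hP
  linarith

/-- S5. Otherwise `L.T = {0}` (`L.sub`, `L.ne`), `L.Q 0 = 0` (trace `0`: `psd2_le_trace`), and for all
`δ > 0` the path of `L.path` at `(0,0)` is `[(0,0), (1,E)]` with `E Eᵀ = D_u` (`l2 = []` as `s = t`,
`l1 = [(0,0)]`, `l3 = [(1,E)]`). `Pf_top` and `Fo_le`: with `w = 2 b1 b2 u`,
`log cosh w - w u / 2 ≤ δ` for all `δ > 0`; `touch_pair` and `ChE_top`: `|tanh w - u| ≤ 6 sqrt δ`, so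
`u = tanh w`. This contradicts `logcosh_gt`. -/
theorem S5' {b1 b2 u : ℝ} (S : Setting b1 b2 u) (L : LData b1 b2 u) : ∃ t ∈ L.T, 0 < t := by
  by_contra hcon
  push Not at hcon
  obtain ⟨t, ht⟩ := L.ne
  have h0 : (0 : ℝ) ∈ L.T := by
    have h1 : t = 0 := le_antisymm (hcon t ht) (L.sub ht).1
    rwa [h1] at ht
  have hw : 0 < 2 * b1 * b2 * u := by
    have := S.hb1
    have := S.hb2
    have := S.hu
    positivity
  have hlog : Real.log (Real.cosh (2 * b1 * b2 * u)) ≤ (2 * b1 * b2 * u) * u / 2 :=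
    le_of_forall_pos_le_add fun δ hδ => (zTc4_path S L hcon h0 δ hδ).1
  have htanh : Real.tanh (2 * b1 * b2 * u) = u := by
    by_contra hne
    have hpos : 0 < |Real.tanh (2 * b1 * b2 * u) - u| := abs_pos.2 (sub_ne_zero.2 hne)
    have h1 := (zTc4_path S L hcon h0 ((|Real.tanh (2 * b1 * b2 * u) - u| / 12) ^ 2)
      (by positivity)).2
    rw [Real.sqrt_sq (by positivity)] at h1
    linarith
  have h2 := logcosh_gt _ hw
  rw [htanh] at h2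
  linarith

end SKC.Z
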