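import Pool.Agent.H.MP_08eaf3_pr.Z.Setup

/-!
# Part Z, S4: Guerra bound for pair paths
-/

set_option autoImplicit false

open MeasureTheory ProbabilityTheory Filter Topology Matrix

namespace SKC.Z

variable {b1 b2 u : ℝ}

/-- GUERRA BOUND FOR PAIR PATHS. Take `n = k = 1` in `hT`: for `ε > 0`, `δ > 0` frequently
`(Fo b1 + Fo b2) - δ ≤ EL (near (treeM 1 1 u Q Q') ε) / N`, and by `guerra` (for
`K = (Fin 1 × Fin 1) × Fin 2`, the path `lift 1 1 l1 l2 l3`, `φ = 0`, `t = 0`), `lift_valid`,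
`Qtot_lift`, `Pf_lift` this is at most `Pf + (1/2) (b1 + b2)² ε²` for `N > 0`. -/
theorem guerra_pair (hb1 : 0 < b1) (hb2 : 0 < b2) (Q Q' : Matrix (Fin 2) (Fin 2) ℝ)
    (hT : TreeFull b1 b2 u Q Q') (l1 l2 l3 : List (Step (Fin 2)))
    (hv : Valid (l1 ++ (l2 ++ l3))) (h3 : l3 ≠ []) (hQ : Qtot l1 = Q) (hQ' : Qtot (l1 ++ l2) = Q')
    (hD : Qtot (l1 ++ (l2 ++ l3)) = mat 1 1 u) :
    Fo b1 + Fo b2 ≤ Pf (be b1 b2) (fun _ => 0) 0 (l1 ++ (l2 ++ l3)) := by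
  refine le_of_forall_pos_le_add fun η hη => ?_
  set S : ℝ := ∑ c : (Fin 1 × Fin 1) × Fin 2, beN b1 b2 (Fin 1 × Fin 1) c with hS
  have hS1 : 0 < S ^ 2 + 1 := by positivity
  set ε : ℝ := Real.sqrt (η / (S ^ 2 + 1)) with hε
  have hε0 : 0 < ε := Real.sqrt_pos.mpr (div_pos hη hS1)
  have hε2 : ε ^ 2 = η / (S ^ 2 + 1) := Real.sq_sqrt (div_pos hη hS1).le
  have hSε : S ^ 2 * ε ^ 2 ≤ η := by
    rw [hε2, ← mul_div_assoc, div_le_iff₀ hS1]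
    nlinarith
  have hF := hT 1 1 one_pos one_pos ε hε0 (η / 2) (half_pos hη)
  obtain ⟨N, ⟨hne, hN⟩, hN0⟩ := (hF.and_eventually (eventually_gt_atTop 0)).exists
  have hβ : ∀ c, 0 ≤ beN b1 b2 (Fin 1 × Fin 1) c := by
    rintro ⟨_, c⟩
    fin_cases c
    · exact hb1.le
    · exact hb2.le
  have hQt : Qtot (lift 1 1 l1 l2 l3) = treeM 1 1 u Q Q' := by
    rw [Qtot_lift 1 1 one_pos one_pos, hD, hQ, hQ']
    rfl
  have hG := guerra (beN b1 b2 (Fin 1 × Fin 1)) hβ (fun _ => 0) 0 (lift 1 1 l1 l2 l3)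
    (lift_valid 1 1 one_pos one_pos l1 l2 l3 hv h3) ε hε0.le N hN0
    (near (treeM 1 1 u Q Q') ε) hne (by
      intro ρ hρ c c'
      rw [hQt]
      unfold near at hρ
      exact (Finset.mem_filter.mp hρ).2 c c')
  have hP : Pf (beN b1 b2 (Fin 1 × Fin 1)) (fun _ => 0) 0 (lift 1 1 l1 l2 l3) =
      Pf (be b1 b2) (fun _ => 0) 0 (l1 ++ (l2 ++ l3)) := by
    have h := Pf_lift (be b1 b2) 1 1 one_pos one_pos l1 l2 l3 hv
    rw [Nat.cast_one, one_mul, one_mul] at h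
    exact h
  have hN' : (0 : ℝ) < N := Nat.cast_pos.mpr hN0
  have e0 : (fun ρ : Cfg ((Fin 1 × Fin 1) × Fin 2) N =>
      (0 : ℝ) * ∑ i, (fun _ : ((Fin 1 × Fin 1) × Fin 2 → Bool) => (0 : ℝ)) (ρ i)) = fun _ => 0 := by
    funext ρ
    rw [zero_mul]
  rw [e0, hP] at hG
  have hG2 : EL (near (treeM 1 1 u Q Q') ε) (vH (beN b1 b2 (Fin 1 × Fin 1)) N) (fun _ => 0) / N ≤
      Pf (be b1 b2) (fun _ => 0) 0 (l1 ++ (l2 ++ l3)) + 1 / 2 * (S ^ 2 * ε ^ 2) := by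
    rw [div_le_iff₀ hN']
    refine hG.trans (le_of_eq ?_)
    rw [← hS]
    ring
  have hc : (Fintype.card (Fin 1 × Fin 1) : ℝ) = 1 := by simp
  rw [hc, one_mul] at hN
  linarith

end SKC.Z
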