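import Pool.Agent.H.MP_08eaf3_pr.Z.Td8

/-!
# Part Z, S4: improved variance bound, uniform
-/

set_option autoImplicit false

open MeasureTheory ProbabilityTheory Filter Topology Matrix

namespace SKC.Z

/-- `B Bᵀ` for `B = Bm β E`: entries `2 β_c β_c' (E Eᵀ)_cc'` -/
theorem Bm_mul {K : Type} [Fintype K] (β : K → ℝ) (E : Matrix K K ℝ) (c c' : K) :
    (Bm β E * (Bm β E)ᵀ) c c' = 2 * (β c * β c') * (E * Eᵀ) c c' := by
  simp only [Matrix.mul_apply, Matrix.transpose_apply, Bm, Finset.mul_sum]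
  refine Finset.sum_congr rfl fun d _ => ?_
  have h : Real.sqrt 2 * Real.sqrt 2 = 2 := Real.mul_self_sqrt (by norm_num)
  calc Real.sqrt 2 * β c * E c d * (Real.sqrt 2 * β c' * E c' d)
      = (Real.sqrt 2 * Real.sqrt 2) * (β c * β c') * (E c d * E c' d) := by ring
    _ = 2 * (β c * β c') * (E c d * E c' d) := by rw [h]

/-- IMPROVED VARIANCE BOUND, uniform. `var_psi_raw` with `B = Bm β (chol q1 q2 r)`,
`lam = 2 b1² d0` (`lam A_11 = 4 b1² b2² d0 q2 ≤ 4 b1² b2² (q1 q2 - r²)`, as `q2 ≤ 1`), `Bm_mul`,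
`chol_mul`, `VV_int_lower`. -/
theorem var_psi_le (b1 b2 q0 d0 : ℝ) (hb1 : 0 < b1) (hb2 : 0 < b2) (hq0 : 0 < q0) (hd0 : 0 < d0) :
    ∃ j0 : ℝ, 0 < j0 ∧ ∀ l : List (Step (Fin 2)), Ok l → ∀ q1 q2 r : ℝ, q0 ≤ q1 → q1 ≤ 1 →
      0 < q2 → q2 ≤ 1 → d0 ≤ q1 * q2 - r ^ 2 →
      ∫ x, (PsiL (be b1 b2) l F0 ((Bm (be b1 b2) (chol q1 q2 r)).mulVec x) -
          ∫ y, PsiL (be b1 b2) l F0 ((Bm (be b1 b2) (chol q1 q2 r)).mulVec y) ∂(gam (Fin 2))) ^ 2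
          ∂(gam (Fin 2)) ≤
        (∑ c, ∑ c', be b1 b2 c * be b1 b2 c' * mat q1 q2 r c c' *
          ∫ x, Mg (be b1 b2) l c ((Bm (be b1 b2) (chol q1 q2 r)).mulVec x) *
            Mg (be b1 b2) l c' ((Bm (be b1 b2) (chol q1 q2 r)).mulVec x) ∂(gam (Fin 2))) - j0 := by
  obtain ⟨κ, hκ, hlow⟩ := VV_int_lower b1 b2 q0 hb1 hq0
  refine ⟨b1 ^ 2 * d0 * κ / 2, by positivity, fun l hl q1 q2 r h1 h1' h2 h2' hd => ?_⟩
  have hq1 : 0 < q1 := lt_of_lt_of_le hq0 h1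
  have hA : ∀ c c', (Bm (be b1 b2) (chol q1 q2 r) * (Bm (be b1 b2) (chol q1 q2 r))ᵀ) c c' =
      2 * (be b1 b2 c * be b1 b2 c') * mat q1 q2 r c c' := by
    intro c c'
    rw [Bm_mul, chol_mul q1 q2 r hq1 (by linarith)]
  have h11 : (Bm (be b1 b2) (chol q1 q2 r) * (Bm (be b1 b2) (chol q1 q2 r))ᵀ) 1 1 =
      2 * (b2 * b2) * q2 := hA 1 1
  have h00 : (Bm (be b1 b2) (chol q1 q2 r) * (Bm (be b1 b2) (chol q1 q2 r))ᵀ) 0 0 =
      2 * (b1 * b1) * q1 := hA 0 0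
  have h01 : (Bm (be b1 b2) (chol q1 q2 r) * (Bm (be b1 b2) (chol q1 q2 r))ᵀ) 0 1 =
      2 * (b1 * b2) * r := hA 0 1
  have hraw := var_psi_raw (be b1 b2) l hl (Bm (be b1 b2) (chol q1 q2 r)) (2 * b1 ^ 2 * d0)
    (by positivity) (by rw [h11]; positivity) (by
      rw [h11, h00, h01]
      have e1 : 2 * b1 ^ 2 * d0 * (2 * (b2 * b2) * q2) = 4 * b1 ^ 2 * b2 ^ 2 * (d0 * q2) := by ring
      have e2 : 2 * (b1 * b1) * q1 * (2 * (b2 * b2) * q2) - (2 * (b1 * b2) * r) ^ 2 =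
          4 * b1 ^ 2 * b2 ^ 2 * (q1 * q2 - r ^ 2) := by ring
      rw [e1, e2]
      refine mul_le_mul_of_nonneg_left ?_ (by positivity)
      nlinarith)
  refine hraw.trans ?_
  have hsum : (1 / 2) * (∑ c, ∑ c', (Bm (be b1 b2) (chol q1 q2 r) * (Bm (be b1 b2) (chol q1 q2 r))ᵀ) c c' *
        ∫ x, Mg (be b1 b2) l c ((Bm (be b1 b2) (chol q1 q2 r)).mulVec x) *
          Mg (be b1 b2) l c' ((Bm (be b1 b2) (chol q1 q2 r)).mulVec x) ∂(gam (Fin 2))) =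
      ∑ c, ∑ c', be b1 b2 c * be b1 b2 c' * mat q1 q2 r c c' *
          ∫ x, Mg (be b1 b2) l c ((Bm (be b1 b2) (chol q1 q2 r)).mulVec x) *
            Mg (be b1 b2) l c' ((Bm (be b1 b2) (chol q1 q2 r)).mulVec x) ∂(gam (Fin 2)) := by
    rw [Finset.mul_sum]
    refine Finset.sum_congr rfl fun c _ => ?_
    rw [Finset.mul_sum]
    refine Finset.sum_congr rfl fun c' _ => ?_
    rw [hA]
    ring
  rw [hsum]
  have hI := mul_le_mul_of_nonneg_left (hlow l hl q1 q2 r h1 h1')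
    (show (0 : ℝ) ≤ 2 * b1 ^ 2 * d0 by positivity)
  have e3 : b1 ^ 2 * d0 * κ / 2 = (1 / 4) * (2 * b1 ^ 2 * d0 * κ) := by ring
  rw [e3]
  exact sub_le_sub_left (mul_le_mul_of_nonneg_left hI (by norm_num)) _

end SKC.Z
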