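import Pool.Agent.H.MP_08eaf3_pr.Z.Ta1
import Pool.Agent.H.MP_08eaf3_pr.Z.Ta4

/-!
# Part Z, S4: touching for the new path
-/

set_option autoImplicit false

open MeasureTheory ProbabilityTheory Filter Topology Matrix

namespace SKC.Z

variable {b1 b2 u : ℝ}

/-- TOUCHING FOR THE NEW PATH. `touch_low` (the chain `[(ε, E)]` is one step `Es`), and
`Es_near_gauss` (the product of two magnetisations is continuous, bounded by `1`). -/
theorem gauss_overlap (S : Setting b1 b2 u) (L : LData b1 b2 u) : ∃ C : ℝ, 0 ≤ C ∧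
    ∀ s ∈ L.T, ∀ ε : ℝ, 0 < ε → ε ≤ 1 → ∀ E : Matrix (Fin 2) (Fin 2) ℝ, E * Eᵀ = L.Q s →
      ∀ l3 : List (Step (Fin 2)), Ok l3 → ∀ δ' : ℝ, 0 ≤ δ' →
      PairPath b1 b2 u (L.Q s) (L.Q s) δ' [(ε, E)] [] l3 → ∀ c c' : Fin 2,
      |∫ x, Mg (be b1 b2) l3 c ((Bm (be b1 b2) E).mulVec x) *
          Mg (be b1 b2) l3 c' ((Bm (be b1 b2) E).mulVec x) ∂(gam (Fin 2)) - L.Q s c c'| ≤
        6 * Real.sqrt δ' + C * ε := by
  obtain ⟨C, hC, h⟩ := Es_near_gauss (be b1 b2)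
  refine ⟨C, hC, fun s hs ε h0 h1 E hE l3 hl δ' hδ' hp c c' => ?_⟩
  have ht := touch_low b1 b2 u S.hb1 S.hb2 (L.Q s) (L.Q s) (L.tree s hs s hs le_rfl) δ' hδ'
    [(ε, E)] [] l3 hp c c'
  have hEs : ChE (be b1 b2) [(ε, E)] (PsiL (be b1 b2) ([] ++ l3) F0)
      (fun z => Mg (be b1 b2) ([] ++ l3) c z * Mg (be b1 b2) ([] ++ l3) c' z) 0 =
      Es ε (Bm (be b1 b2) E) (PsiL (be b1 b2) l3 F0)
        (fun z => Mg (be b1 b2) l3 c z * Mg (be b1 b2) l3 c' z) 0 := rfl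
  rw [hEs] at ht
  have hg := h l3 hl E (fun d => by rw [hE]; exact LD_le_one L s hs d) ε h0.le h1
    (fun z => Mg (be b1 b2) l3 c z * Mg (be b1 b2) l3 c' z)
    ((Mg_cont (be b1 b2) l3 hl c).mul (Mg_cont (be b1 b2) l3 hl c'))
    (fun z => by
      rw [abs_mul]
      exact mul_le_one₀ (Mg_lt_one _ _ _ _).le (abs_nonneg _) (Mg_lt_one _ _ _ _).le)
  rw [abs_le] at ht hg ⊢
  constructor <;> linarith [ht.1, ht.2, hg.1, hg.2]

end SKC.Z
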