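import Pool.Agent.H.MP_08eaf3_pr.Z.Te1
import Pool.Agent.H.MP_08eaf3_pr.Z.Te2
import Pool.Agent.H.MP_08eaf3_pr.Z.Td3
import Pool.Agent.H.MP_08eaf3_pr.Z.Td9

/-!
# Part Z, S4: gain, end of the step
-/

set_option autoImplicit false

open MeasureTheory ProbabilityTheory Filter Topology Matrix

namespace SKC.Z

variable {b1 b2 u : ℝ}

/-- GAIN. Let `C1`, `C2`, `j0` be the constants of `new_path`, `gauss_overlap`, `var_psi_le`
(`q0 = Q t0 00`, `d0 = dt L t0`; for `s ≥ t0` use `LD_mono`, `dt_mono`, `LD_le_one`, `LD_eq_mat`,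
`chol_mul`), `V = (b1+b2)²`. For the new path with `E = chol ..`: `Var ≤ V` (all
`|∫ M_c M_c'| ≤ 1`, `|Q_cc'| ≤ 1`), so its value is at most `Fo b1 + Fo b2 + δ'`,
`δ' = δ + (ε/2) V + C1 ε²` (`Cf ≥ 0`); `gauss_overlap` gives
`Var ≤ Cf (Q s) + V (6 sqrt δ' + C2 ε) - j0`; `guerra_pair` (tree at `(s,s)`) and `Cf_lip`:
`0 ≤ δ + (ε/2) (2 V (s - t0) + V (6 sqrt δ' + C2 ε) - j0) + C1 ε²`. -/
theorem gain (S : Setting b1 b2 u) (L : LData b1 b2 u) (t0 : ℝ) (ht0 : t0 ∈ L.T)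
    (hmin : ∀ x ∈ L.T, t0 ≤ x) (h0 : 0 < L.Q t0 0 0) (h1 : 0 < L.Q t0 1 1) (hd : 0 < dt L t0) :
    ∃ C j0 : ℝ, 0 ≤ C ∧ 0 < j0 ∧ ∀ s ∈ L.T, ∀ ε δ : ℝ, 0 < ε → ε ≤ 1 → 0 < δ →
      L.μ.real (Set.Iio s) ≤ ε → ε ≤ L.μ.real (Set.Iic s) →
      0 ≤ δ + (ε / 2) * (C * (s - t0) + C * Real.sqrt (δ + C * ε) + C * ε - j0) := by
  obtain ⟨C1, hC1, hnew⟩ := new_path S L t0 ht0 hmin
  obtain ⟨C2, hC2, hgo⟩ := gauss_overlap S L
  obtain ⟨j0, hj0, hvar⟩ := var_psi_le b1 b2 (L.Q t0 0 0) (dt L t0) S.hb1 S.hb2 h0 hd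
  set V : ℝ := (b1 + b2) ^ 2 with hV
  have hb1 := S.hb1
  have hb2 := S.hb2
  have hV0 : 0 ≤ V := by positivity
  refine ⟨6 * V + V * C2 + 2 * C1, j0, by positivity, hj0, fun s hs ε δ e0 e1 hδ hlo hhi => ?_⟩
  have hts : t0 ≤ s := hmin s hs
  have hq1 : L.Q t0 0 0 ≤ L.Q s 0 0 := LD_mono L t0 s ht0 hs hts 0
  have hq1' : L.Q s 0 0 ≤ 1 := LD_le_one L s hs 0
  have hq2 : 0 < L.Q s 1 1 := lt_of_lt_of_le h1 (LD_mono L t0 s ht0 hs hts 1)
  have hq2' : L.Q s 1 1 ≤ 1 := LD_le_one L s hs 1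
  have hdt : dt L t0 ≤ L.Q s 0 0 * L.Q s 1 1 - L.Q s 0 1 ^ 2 := dt_mono L t0 s ht0 hs hts
  set E : Matrix (Fin 2) (Fin 2) ℝ := chol (L.Q s 0 0) (L.Q s 1 1) (L.Q s 0 1) with hEdef
  have hmat : mat (L.Q s 0 0) (L.Q s 1 1) (L.Q s 0 1) = L.Q s := (LD_eq_mat L s hs).symm
  have hE : E * Eᵀ = L.Q s := by
    rw [hEdef, chol_mul _ _ _ (lt_of_lt_of_le h0 hq1) (by linarith), hmat]
  obtain ⟨l3, hok, hne, hval, hQ, hPf⟩ := hnew s hs ε e0 e1 hlo hhi E hE δ hδ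
  set Var : ℝ := ∫ x, (PsiL (be b1 b2) l3 F0 ((Bm (be b1 b2) E).mulVec x) -
            ∫ y, PsiL (be b1 b2) l3 F0 ((Bm (be b1 b2) E).mulVec y) ∂(gam (Fin 2))) ^ 2
            ∂(gam (Fin 2)) with hVar
  have hv := hvar l3 hok (L.Q s 0 0) (L.Q s 1 1) (L.Q s 0 1) hq1 hq1' hq2 hq2' hdt
  rw [← hEdef, ← hVar, hmat] at hv
  -- the moments
  set m : Fin 2 → Fin 2 → ℝ := fun c c' =>
    ∫ x, Mg (be b1 b2) l3 c ((Bm (be b1 b2) E).mulVec x) *
      Mg (be b1 b2) l3 c' ((Bm (be b1 b2) E).mulVec x) ∂(gam (Fin 2)) with hm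
  have hm1 : ∀ c c', |m c c'| ≤ 1 := by
    intro c c'
    have h := norm_integral_le_of_norm_le_const (μ := gam (Fin 2)) (C := 1)
      (f := fun x => Mg (be b1 b2) l3 c ((Bm (be b1 b2) E).mulVec x) *
        Mg (be b1 b2) l3 c' ((Bm (be b1 b2) E).mulVec x))
      (Filter.Eventually.of_forall fun x => by
        rw [Real.norm_eq_abs, abs_mul]
        exact mul_le_one₀ (Mg_lt_one _ _ _ _).le (abs_nonneg _) (Mg_lt_one _ _ _ _).le)
    rw [probReal_univ, mul_one, Real.norm_eq_abs] at h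
    exact h
  have hsum : ∀ f : Fin 2 → Fin 2 → ℝ, (∑ c, ∑ c', be b1 b2 c * be b1 b2 c' * f c c') =
      b1 * b1 * f 0 0 + b1 * b2 * f 0 1 + (b2 * b1 * f 1 0 + b2 * b2 * f 1 1) := by
    intro f
    simp only [Fin.sum_univ_two, be, Matrix.cons_val_zero, Matrix.cons_val_one]
  have hv' : Var ≤ (∑ c, ∑ c', be b1 b2 c * be b1 b2 c' * (L.Q s c c' * m c c')) - j0 := by
    refine hv.trans (le_of_eq ?_)
    congr 1
    refine Finset.sum_congr rfl fun c _ => Finset.sum_congr rfl fun c' _ => ?_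
    rw [hm]
    ring
  have hQabs : ∀ c c', |L.Q s c c'| ≤ 1 := fun c c' => LD_abs_le L s hs c c'
  have hprod : ∀ c c', L.Q s c c' * m c c' ≤ 1 := by
    intro c c'
    refine (le_abs_self _).trans ?_
    rw [abs_mul]
    exact mul_le_one₀ (hQabs c c') (abs_nonneg _) (hm1 c c')
  have hb11 : 0 ≤ b1 * b1 := by positivity
  have hb12 : 0 ≤ b1 * b2 := by positivity
  have hb22 : 0 ≤ b2 * b2 := by positivity
  have hVarV : Var ≤ V := by
    rw [hsum] at hv'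
    have g1 := mul_le_mul_of_nonneg_left (hprod 0 0) hb11
    have g2 := mul_le_mul_of_nonneg_left (hprod 0 1) hb12
    have g3 := mul_le_mul_of_nonneg_left (hprod 1 0) hb12
    have g4 := mul_le_mul_of_nonneg_left (hprod 1 1) hb22
    rw [hV]
    nlinarith
  have hCf0 : 0 ≤ Cf (be b1 b2) (L.Q t0) := by
    unfold Cf
    refine Finset.sum_nonneg fun c _ => Finset.sum_nonneg fun c' _ => ?_
    have : 0 ≤ be b1 b2 c * be b1 b2 c' := by
      fin_cases c <;> fin_cases c' <;> simp [be] <;> positivity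
    positivity
  -- the path is near-optimal
  set δ' : ℝ := δ + (ε / 2) * V + C1 * ε ^ 2 with hδ'
  have hδ'0 : 0 ≤ δ' := by positivity
  have hp : PairPath b1 b2 u (L.Q s) (L.Q s) δ' [(ε, E)] [] l3 := by
    refine ⟨hval, hne, ?_, ?_, hQ, hPf.trans ?_⟩
    · show E * Eᵀ + 0 = L.Q s
      rw [add_zero, hE]
    · show E * Eᵀ + 0 = L.Q s
      rw [add_zero, hE]
    · have g1 : (ε / 2) * (Var - Cf (be b1 b2) (L.Q t0)) ≤ (ε / 2) * V :=
        mul_le_mul_of_nonneg_left (by linarith) (by positivity)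
      rw [hδ']
      linarith
  have hov := hgo s hs ε e0 e1 E hE l3 hok δ' hδ'0 hp
  set e : ℝ := 6 * Real.sqrt δ' + C2 * ε with he
  have he0 : 0 ≤ e := by positivity
  have hQm : ∀ c c', L.Q s c c' * m c c' ≤ L.Q s c c' ^ 2 + e := by
    intro c c'
    have g1 := hov c c'
    have g2 : L.Q s c c' * (m c c' - L.Q s c c') ≤ 1 * e := by
      refine (le_abs_self _).trans ?_
      rw [abs_mul]
      exact mul_le_mul (hQabs c c') g1 (abs_nonneg _) zero_le_one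
    nlinarith
  have hVar2 : Var ≤ Cf (be b1 b2) (L.Q s) + V * e - j0 := by
    have hCfs : Cf (be b1 b2) (L.Q s) = b1 * b1 * L.Q s 0 0 ^ 2 + b1 * b2 * L.Q s 0 1 ^ 2 +
        (b2 * b1 * L.Q s 1 0 ^ 2 + b2 * b2 * L.Q s 1 1 ^ 2) := by
      unfold Cf
      exact hsum (fun c c' => L.Q s c c' ^ 2)
    rw [hsum] at hv'
    have g1 := mul_le_mul_of_nonneg_left (hQm 0 0) hb11
    have g2 := mul_le_mul_of_nonneg_left (hQm 0 1) hb12
    have g3 := mul_le_mul_of_nonneg_left (hQm 1 0) hb12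
    have g4 := mul_le_mul_of_nonneg_left (hQm 1 1) hb22
    rw [hCfs, hV]
    nlinarith
  have hg := guerra_pair hb1 hb2 (L.Q s) (L.Q s) (L.tree s hs s hs le_rfl) [(ε, E)] [] l3 hval hne
    hp.2.2.1 hp.2.2.2.1 hQ
  have hlip := Cf_lip hb1.le hb2.le L t0 s ht0 hs hts
  rw [← hV] at hlip
  -- collect
  have hst : 0 ≤ s - t0 := by linarith
  have hδle : δ' ≤ δ + (6 * V + V * C2 + 2 * C1) * ε := by
    rw [hδ']
    have g1 : C1 * ε ^ 2 ≤ C1 * ε := mul_le_mul_of_nonneg_left (by nlinarith) hC1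
    have g2 : 0 ≤ V * C2 * ε := by positivity
    have g3 : 0 ≤ C1 * ε := by positivity
    have g4 : 0 ≤ V * ε := by positivity
    nlinarith
  have hsq : Real.sqrt δ' ≤ Real.sqrt (δ + (6 * V + V * C2 + 2 * C1) * ε) := Real.sqrt_le_sqrt hδle
  have hsq0 : 0 ≤ Real.sqrt (δ + (6 * V + V * C2 + 2 * C1) * ε) := Real.sqrt_nonneg _
  set X : ℝ := Real.sqrt (δ + (6 * V + V * C2 + 2 * C1) * ε) with hX
  have hmain : 0 ≤ δ + (ε / 2) * (Var - Cf (be b1 b2) (L.Q t0)) + C1 * ε ^ 2 := by linarith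
  have hin : Var - Cf (be b1 b2) (L.Q t0) + 2 * C1 * ε ≤
      (6 * V + V * C2 + 2 * C1) * (s - t0) + (6 * V + V * C2 + 2 * C1) * X +
        (6 * V + V * C2 + 2 * C1) * ε - j0 := by
    have g1 : V * e ≤ 6 * V * X + V * C2 * ε := by
      rw [he]
      have : V * Real.sqrt δ' ≤ V * X := mul_le_mul_of_nonneg_left hsq hV0
      nlinarith
    have g2 : 0 ≤ V * C2 * (s - t0) := by positivity
    have g3 : 0 ≤ C1 * (s - t0) := by positivity
    have g4 : 0 ≤ V * (s - t0) := by positivity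
    have g5 : 0 ≤ V * C2 * X := by positivity
    have g6 : 0 ≤ C1 * X := by positivity
    have g7 : 0 ≤ V * ε := by positivity
    nlinarith
  have hfin : δ + (ε / 2) * (Var - Cf (be b1 b2) (L.Q t0)) + C1 * ε ^ 2 =
      δ + (ε / 2) * (Var - Cf (be b1 b2) (L.Q t0) + 2 * C1 * ε) := by ring
  rw [hfin] at hmain
  refine hmain.trans ?_
  have := mul_le_mul_of_nonneg_left hin (by positivity : (0 : ℝ) ≤ ε / 2)
  linarith

/-- S4. Otherwise `t0 = sInf T > 0`, `t0 ∈ T`, `dt L t0 > 0`, so `Q t0 00, Q t0 11 > 0`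
(`r² ≥ 0`, `LD_nonneg`). In `gain` choose `θ` with `C θ ≤ j0 / 8`, then `ε` small with `s < t0 + θ`
(`quantile`, `quantile_near`) and `C sqrt (2 (1+C) ε) + C ε ≤ j0 / 8`, and then
`δ = min ε (ε j0 / 8)`: `0 ≤ ε j0 / 8 + (ε/2) (- 3 j0 / 4) < 0`. -/
theorem S4' (S : Setting b1 b2 u) (L : LData b1 b2 u)
    (hd : ∀ t ∈ L.T, 0 < t → 0 < dt L t) : (0 : ℝ) ∈ L.T := by
  by_contra hz
  have ht0 : sInf L.T ∈ L.T := L.comp.sInf_mem L.ne
  have hmin : ∀ x ∈ L.T, sInf L.T ≤ x := fun x hx => csInf_le L.comp.bddBelow hx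
  set t0 : ℝ := sInf L.T with ht0def
  have ht0p : 0 < t0 := by
    rcases (L.sub ht0).1.lt_or_eq with h | h
    · exact h
    · exact absurd (h ▸ ht0) hz
  have hdt := hd t0 ht0 ht0p
  have hn0 := LD_nonneg L t0 ht0 0
  have hn1 := LD_nonneg L t0 ht0 1
  have hprod : 0 < L.Q t0 0 0 * L.Q t0 1 1 := by
    unfold dt at hdt
    nlinarith [sq_nonneg (L.Q t0 0 1)]
  have h0 : 0 < L.Q t0 0 0 := by
    rcases hn0.lt_or_eq with h | h
    · exact h
    · rw [← h, zero_mul] at hprod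
      exact absurd hprod (lt_irrefl _)
  have h1 : 0 < L.Q t0 1 1 := by
    rcases hn1.lt_or_eq with h | h
    · exact h
    · rw [← h, mul_zero] at hprod
      exact absurd hprod (lt_irrefl _)
  obtain ⟨C, j0, hC, hj0, hgain⟩ := gain S L t0 ht0 hmin h0 h1 hdt
  set w : ℝ := j0 / (8 * (C + 1)) with hw
  have hw0 : 0 < w := by positivity
  have hCw : C * w ≤ j0 / 8 := by
    rw [hw, mul_div_assoc', div_le_div_iff₀ (by positivity) (by norm_num)]
    nlinarith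
  obtain ⟨ε0, hε0, hnear⟩ := quantile_near L t0 ht0 w hw0
  set ε : ℝ := min (min (1 / 2) (ε0 / 2)) (min w (w ^ 2 / (1 + C))) with hε
  have hεpos : 0 < ε := by
    rw [hε]
    refine lt_min (lt_min (by norm_num) (by positivity)) (lt_min hw0 (by positivity))
  have e1 : ε ≤ 1 / 2 := (min_le_left _ _).trans (min_le_left _ _)
  have e2 : ε ≤ ε0 / 2 := (min_le_left _ _).trans (min_le_right _ _)
  have e3 : ε ≤ w := (min_le_right _ _).trans (min_le_left _ _)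
  have e4 : ε ≤ w ^ 2 / (1 + C) := (min_le_right _ _).trans (min_le_right _ _)
  obtain ⟨s, hs, hlo, hhi⟩ := quantile L ε hεpos (by linarith)
  have hsw := hnear ε s (by linarith) hlo
  set δ : ℝ := min ε (ε * j0 / 8) with hδ
  have hδ0 : 0 < δ := lt_min hεpos (by positivity)
  have hg := hgain s hs ε δ hεpos (by linarith) hδ0 hlo hhi
  have hδ1 : δ ≤ ε := min_le_left _ _
  have hδ2 : δ ≤ ε * j0 / 8 := min_le_right _ _
  have f1 : C * (s - t0) ≤ j0 / 8 := by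
    refine le_trans (mul_le_mul_of_nonneg_left (by linarith) hC) hCw
  have f2 : C * Real.sqrt (δ + C * ε) ≤ j0 / 8 := by
    have g1 : Real.sqrt (δ + C * ε) ≤ w := by
      rw [Real.sqrt_le_left hw0.le]
      have g2 : (1 + C) * ε ≤ w ^ 2 := by
        have := mul_le_mul_of_nonneg_left e4 (by positivity : (0 : ℝ) ≤ 1 + C)
        rwa [mul_div_cancel₀ _ (by positivity : (1 + C : ℝ) ≠ 0)] at this
      nlinarith
    exact le_trans (mul_le_mul_of_nonneg_left g1 hC) hCw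
  have f3 : C * ε ≤ j0 / 8 := le_trans (mul_le_mul_of_nonneg_left e3 hC) hCw
  have f4 : (ε / 2) * (C * (s - t0) + C * Real.sqrt (δ + C * ε) + C * ε - j0) ≤
      (ε / 2) * (3 * (j0 / 8) - j0) :=
    mul_le_mul_of_nonneg_left (by linarith) (by positivity)
  have f5 : 0 < ε * j0 := by positivity
  nlinarith

end SKC.Z
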