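import Pool.Agent.H.MP_08eaf3_pr.Z.S3a
import Pool.Agent.H.MP_08eaf3_pr.Z.Ta8
import Pool.Agent.H.MP_08eaf3_pr.Z.Tb3
import Pool.Agent.H.MP_08eaf3_pr.Z.Tc4
import Pool.Agent.H.MP_08eaf3_pr.Z.Te3
import Pool.Agent.H.MP_08eaf3_pr.Z.S7

/-!
# Part Z: the steps S2-S7 (statements)
-/

set_option autoImplicit false

open MeasureTheory ProbabilityTheory Filter Topology Matrix

namespace SKC.Z

/-- the cross overlap of a level is at most `u` in absolute value -/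
theorem absr_le {b1 b2 u : ℝ} (S : Setting b1 b2 u) (L : LData b1 b2 u) (t : ℝ) (ht : t ∈ L.T) :
    |L.Q t 0 1| ≤ u :=
  S.hmax _ (memU_of_tree b1 b2 u S.hb1 S.hb2 S.hP1 S.hP2 (L.Q t) (L.Q t) (L.tree t ht t ht le_rfl))

/-- S2a: rank one levels with both diagonal entries positive are impossible if `b1 ≠ b2` -/
theorem S2a {b1 b2 u : ℝ} (S : Setting b1 b2 u) (hne : b1 ≠ b2) (L : LData b1 b2 u) (t : ℝ)
    (ht : t ∈ L.T) (h0 : 0 < L.Q t 0 0) (h1 : 0 < L.Q t 1 1) : 0 < dt L t :=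
  S2a' S hne L t ht h0 h1

/-- S2b: a level cannot have exactly one vanishing diagonal entry -/
theorem S2b {b1 b2 u : ℝ} (S : Setting b1 b2 u) (L : LData b1 b2 u) (t : ℝ)
    (ht : t ∈ L.T) (c d : Fin 2) (hcd : c ≠ d) (h0 : 0 < L.Q t c c) : 0 < L.Q t d d :=
  S2b' S L t ht c d hcd h0

/-- S2: all levels of positive trace are nondegenerate -/
theorem S2 {b1 b2 u : ℝ} (S : Setting b1 b2 u) (hne : b1 ≠ b2) (L : LData b1 b2 u) (t : ℝ)
    (ht : t ∈ L.T) (h0 : 0 < t) : 0 < L.Q t 0 0 ∧ 0 < L.Q t 1 1 ∧ 0 < dt L t := by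
  have htr := L.tr t ht
  rw [Matrix.trace_fin_two] at htr
  have hd0 : 0 ≤ L.Q t 0 0 := (L.psd t ht).diag_nonneg
  have hd1 : 0 ≤ L.Q t 1 1 := (L.psd t ht).diag_nonneg
  have h1 : 0 < L.Q t 0 0 := by
    by_contra hn
    have hz : L.Q t 0 0 = 0 := le_antisymm (not_lt.1 hn) hd0
    have : 0 < L.Q t 1 1 := by rw [hz] at htr; linarith
    exact hn (S2b S L t ht 1 0 (by decide) this)
  have h2 : 0 < L.Q t 1 1 := S2b S L t ht 0 1 (by decide) h1
  exact ⟨h1, h2, S2a S hne L t ht h1 h2⟩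

/-- S5: the support is not `{0}` -/
theorem S5 {b1 b2 u : ℝ} (S : Setting b1 b2 u) (L : LData b1 b2 u) : ∃ t ∈ L.T, 0 < t :=
  S5' S L

/-- S3': at the top level the cross overlap is `u` -/
theorem S3top {b1 b2 u : ℝ} (S : Setting b1 b2 u) (L : LData b1 b2 u) (t : ℝ)
    (ht : t ∈ L.T) (hd : 0 < dt L t) (htop : ∀ x ∈ L.T, x ≤ t) : L.Q t 0 1 = u :=
  S3top' S L (fun x hx => (le_abs_self _).trans (absr_le S L x hx)) t ht hd htop

/-- S3: at all nondegenerate levels the cross overlap is `u` -/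
theorem S3 {b1 b2 u : ℝ} (S : Setting b1 b2 u) (L : LData b1 b2 u) (s t : ℝ)
    (hs : s ∈ L.T) (hds : 0 < dt L s) (ht : t ∈ L.T) (htop : ∀ x ∈ L.T, x ≤ t)
    (htu : L.Q t 0 1 = u) : L.Q s 0 1 = u :=
  S3' S L (fun x hx => (le_abs_self _).trans (absr_le S L x hx)) s t hs hds ht htop htu

/-- S4: `0` is in the support, if all levels are nondegenerate outside `0` -/
theorem S4 {b1 b2 u : ℝ} (S : Setting b1 b2 u) (L : LData b1 b2 u)
    (hd : ∀ t ∈ L.T, 0 < t → 0 < dt L t) : (0 : ℝ) ∈ L.T :=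
  S4' S L hd

/-- S7: the final contradiction. `t` = smallest positive level, `r = u` at all positive levels,
`c` = the coordinate with `rho = b_d u / (b_c q_c) < 1` -/
theorem S7 {b1 b2 u : ℝ} (S : Setting b1 b2 u) (L : LData b1 b2 u) (h0 : (0 : ℝ) ∈ L.T) (t : ℝ)
    (ht : t ∈ L.T) (htpos : 0 < t) (hmin : ∀ x ∈ L.T, 0 < x → t ≤ x)
    (hr : ∀ x ∈ L.T, 0 < x → L.Q x 0 1 = u) (c d : Fin 2) (hcd : c ≠ d)
    (hrho : be b1 b2 d * u < be b1 b2 c * L.Q t c c) : False :=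
  S7_proof S L h0 t ht htpos hmin hr c d hcd hrho

end SKC.Z
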