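import Pool.Agent.H.MP_08eaf3_pr.Z.Setup

/-!
# Part Z: elementary facts on lists of steps
-/

set_option autoImplicit false
set_option linter.unusedSectionVars false

open MeasureTheory ProbabilityTheory Filter Topology Matrix
open scoped MatrixOrder ComplexOrder

namespace SKC

variable {K : Type} [Fintype K] [DecidableEq K]

theorem Qtot_append (l l' : List (Step K)) : Qtot (l ++ l') = Qtot l + Qtot l' := by
  induction l with
  | nil => simp [Qtot]
  | cons a l ih => simp only [List.cons_append, Qtot, ih, add_assoc]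

theorem Qtot_psd (l : List (Step K)) : (Qtot l).PosSemidef := by
  induction l with
  | nil => simpa [Qtot] using Matrix.PosSemidef.zero
  | cons a l ih =>
    simp only [Qtot]
    refine Matrix.PosSemidef.add ?_ ih
    have h := Matrix.posSemidef_self_mul_conjTranspose a.2
    simpa [Matrix.conjTranspose_eq_transpose_of_trivial] using h

theorem Ok.right {l l' : List (Step K)} (h : Ok (l ++ l')) : Ok l' := by
  obtain ⟨h1, h2, h3⟩ := h
  refine ⟨(List.pairwise_append.1 h1).2.1, fun a ha => h2 a (List.mem_append_right _ ha), fun c => ?_⟩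
  have := h3 c
  rw [Qtot_append, Matrix.add_apply] at this
  have h0 : 0 ≤ Qtot l c c := (Qtot_psd l).diag_nonneg
  linarith

theorem Ok.left {l l' : List (Step K)} (h : Ok (l ++ l')) : Ok l := by
  obtain ⟨h1, h2, h3⟩ := h
  refine ⟨(List.pairwise_append.1 h1).1, fun a ha => h2 a (List.mem_append_left _ ha), fun c => ?_⟩
  have := h3 c
  rw [Qtot_append, Matrix.add_apply] at this
  have h0 : 0 ≤ Qtot l' c c := (Qtot_psd l').diag_nonneg
  linarith

theorem PairPath.ok {b1 b2 u : ℝ} {Q Q' : Matrix (Fin 2) (Fin 2) ℝ} {δ : ℝ}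
    {l1 l2 l3 : List (Step (Fin 2))} (h : PairPath b1 b2 u Q Q' δ l1 l2 l3) :
    Ok (l1 ++ (l2 ++ l3)) := by
  obtain ⟨⟨h1, h2, _⟩, _, _, _, h5, _⟩ := h
  refine ⟨h1, h2, fun c => ?_⟩
  rw [h5]
  fin_cases c <;> simp [mat]

theorem SinglePath.ok {b q q' δ : ℝ} {s1 s2 s3 : List (Step Unit)}
    (h : SinglePath b q q' δ s1 s2 s3) : Ok (s1 ++ (s2 ++ s3)) := by
  obtain ⟨⟨h1, h2, _⟩, _, _, _, h5, _⟩ := h
  refine ⟨h1, h2, fun c => ?_⟩
  rw [h5]
  simp

theorem PairPath.le {b1 b2 u : ℝ} {Q Q' : Matrix (Fin 2) (Fin 2) ℝ} {δ δ' : ℝ}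
    {l1 l2 l3 : List (Step (Fin 2))} (h : PairPath b1 b2 u Q Q' δ l1 l2 l3) (hd : δ ≤ δ') :
    PairPath b1 b2 u Q Q' δ' l1 l2 l3 :=
  ⟨h.1, h.2.1, h.2.2.1, h.2.2.2.1, h.2.2.2.2.1, h.2.2.2.2.2.trans (by linarith)⟩

/-- the magnetisation is the moment of order one -/
theorem Vv_one (β : K → ℝ) (l2 l3 : List (Step K)) (c : K) :
    Vv β l2 l3 c 1 = Mg β (l2 ++ l3) c := by
  rw [Mg_append]
  unfold Vv
  congr 1
  funext z
  exact pow_one _

/-- a real positive semidefinite matrix has a factor -/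
theorem exists_factor (M : Matrix K K ℝ) (hM : M.PosSemidef) : ∃ E : Matrix K K ℝ, E * Eᵀ = M := by
  obtain ⟨B, hB⟩ := CStarAlgebra.nonneg_iff_eq_star_mul_self.mp hM.nonneg
  refine ⟨Bᵀ, ?_⟩
  rw [hB, Matrix.transpose_transpose, Matrix.star_eq_conjTranspose,
    Matrix.conjTranspose_eq_transpose_of_trivial]

/-- entries of a positive semidefinite matrix are bounded by the trace -/
theorem abs_entry_le (M : Matrix (Fin 2) (Fin 2) ℝ) (hM : M.PosSemidef) (i j : Fin 2) :
    |M i j| ≤ Matrix.trace M := by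
  obtain ⟨E, hE⟩ := exists_factor M hM
  have h00 : M 0 0 = E 0 0 ^ 2 + E 0 1 ^ 2 := by
    rw [← hE]; simp [Matrix.mul_apply, Fin.sum_univ_two]; ring
  have h11 : M 1 1 = E 1 0 ^ 2 + E 1 1 ^ 2 := by
    rw [← hE]; simp [Matrix.mul_apply, Fin.sum_univ_two]; ring
  have h01 : M 0 1 = E 0 0 * E 1 0 + E 0 1 * E 1 1 := by
    rw [← hE]; simp [Matrix.mul_apply, Fin.sum_univ_two]
  have h10 : M 1 0 = E 0 0 * E 1 0 + E 0 1 * E 1 1 := by
    rw [← hE]; simp [Matrix.mul_apply, Fin.sum_univ_two]; ring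
  rw [Matrix.trace_fin_two, abs_le]
  fin_cases i <;> fin_cases j <;> simp only [Fin.zero_eta, Fin.mk_one] <;>
    constructor <;>
    nlinarith [sq_nonneg (E 0 0 + E 1 0), sq_nonneg (E 0 0 - E 1 0), sq_nonneg (E 0 1 + E 1 1),
      sq_nonneg (E 0 1 - E 1 1), sq_nonneg (E 0 0), sq_nonneg (E 0 1), sq_nonneg (E 1 0),
      sq_nonneg (E 1 1)]

/-- the level matrices are Lipschitz functions of the trace -/
theorem LData.Q_lip {b1 b2 u : ℝ} (L : LData b1 b2 u) (x y : ℝ) (hx : x ∈ L.T) (hy : y ∈ L.T)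
    (i j : Fin 2) : |L.Q x i j - L.Q y i j| ≤ |x - y| := by
  rcases le_total x y with h | h
  · have h1 := abs_entry_le _ (L.mono x hx y hy h) i j
    rw [Matrix.trace_sub, L.tr x hx, L.tr y hy, Matrix.sub_apply] at h1
    rw [abs_sub_comm, abs_sub_comm x y, abs_of_nonneg (sub_nonneg.2 h)]
    exact h1
  · have h1 := abs_entry_le _ (L.mono y hy x hx h) i j
    rw [Matrix.trace_sub, L.tr x hx, L.tr y hy, Matrix.sub_apply] at h1
    rw [abs_of_nonneg (sub_nonneg.2 h)]
    exact h1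

end SKC
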