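import Pool.Agent.H.MP_08eaf3_pr.Z.OkP

/-!
# Part Z: polynomial approximation on the cube
-/

set_option autoImplicit false
set_option linter.unusedSectionVars false

open MeasureTheory ProbabilityTheory Filter Topology Matrix

namespace SKC.Z

/-- Stone-Weierstrass on the cube `[-1,1]^n`, with polynomials.

Proof. Let `X = Fin n → Set.Icc (-1) 1` (compact). The range of the algebra homomorphism
`MvPolynomial (Fin n) ℝ → C(X, ℝ)` (`MvPolynomial.aeval` at the coordinate functions) is a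
subalgebra which separates points; by
`ContinuousMap.subalgebra_topologicalClosure_eq_top_of_separatesPoints` it is dense
(see also `ContinuousMap.exists_mem_subalgebra_near_continuous_of_separatesPoints`). -/
theorem mvpoly_approx (n : ℕ) (Φ : (Fin n → ℝ) → ℝ) (hΦ : Continuous Φ) (ε : ℝ) (hε : 0 < ε) :
    ∃ p : MvPolynomial (Fin n) ℝ, ∀ x : Fin n → ℝ, (∀ i, |x i| ≤ 1) →
      |Φ x - MvPolynomial.eval x p| ≤ ε := by
  let X := Fin n → Set.Icc (-1 : ℝ) 1
  let c : Fin n → C(X, ℝ) := fun i =>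
    ⟨fun x => ((x i : Set.Icc (-1 : ℝ) 1) : ℝ), continuous_subtype_val.comp (continuous_apply i)⟩
  let A : Subalgebra ℝ C(X, ℝ) := (MvPolynomial.aeval c : MvPolynomial (Fin n) ℝ →ₐ[ℝ] C(X, ℝ)).range
  have hsep : A.SeparatesPoints := by
    intro x y hxy
    obtain ⟨i, hi⟩ := Function.ne_iff.1 hxy
    refine ⟨c i, ⟨c i, ⟨MvPolynomial.X i, MvPolynomial.aeval_X c i⟩, rfl⟩, fun h => hi ?_⟩
    exact Subtype.ext h
  have hf : Continuous (fun x : X => Φ (fun i => ((x i : Set.Icc (-1 : ℝ) 1) : ℝ))) :=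
    hΦ.comp (continuous_pi fun i => continuous_subtype_val.comp (continuous_apply i))
  obtain ⟨⟨g, p, hp⟩, hg⟩ := ContinuousMap.exists_mem_subalgebra_near_continuous_of_separatesPoints
    A hsep _ hf ε hε
  have hev : ∀ (q : MvPolynomial (Fin n) ℝ) (x : X),
      (MvPolynomial.aeval c q : C(X, ℝ)) x =
        MvPolynomial.eval (fun i => ((x i : Set.Icc (-1 : ℝ) 1) : ℝ)) q := by
    intro q x
    induction q using MvPolynomial.induction_on with
    | C a => simp
    | add q r hq hr => rw [map_add, map_add, ContinuousMap.add_apply, hq, hr]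
    | mul_X q i hq =>
      rw [map_mul, map_mul, ContinuousMap.mul_apply, hq, MvPolynomial.aeval_X, MvPolynomial.eval_X]
      rfl
  refine ⟨p, fun x hx => ?_⟩
  have h1 := hg (fun i => ⟨x i, abs_le.1 (hx i)⟩)
  have h2 := hev p (fun i => ⟨x i, abs_le.1 (hx i)⟩)
  have h3 : (MvPolynomial.aeval c p : C(X, ℝ)) = g := hp
  rw [h3] at h2
  have h4 : ‖g (fun i => ⟨x i, abs_le.1 (hx i)⟩) - Φ x‖ < ε := h1
  rw [h2, Real.norm_eq_abs, abs_sub_comm] at h4
  exact h4.le

/-- One variable version, with explicit coefficients. (From Weierstrass,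
`exists_polynomial_near_of_continuousOn`.) -/
theorem poly_approx (f : ℝ → ℝ) (hf : Continuous f) (ε : ℝ) (hε : 0 < ε) :
    ∃ (m : ℕ) (a : ℕ → ℝ), ∀ x : ℝ, |x| ≤ 1 →
      |f x - ∑ e ∈ Finset.range m, a e * x ^ e| ≤ ε := by
  obtain ⟨p, hp⟩ := exists_polynomial_near_of_continuousOn (-1) 1 f hf.continuousOn ε hε
  refine ⟨p.natDegree + 1, p.coeff, fun x hx => ?_⟩
  have h1 := hp x (abs_le.1 hx)
  rw [Polynomial.eval_eq_sum_range, abs_sub_comm] at h1
  exact h1.le

end SKC.Z
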