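import Pool.Agent.H.MP_08eaf3_pr.Z.C2
import Pool.Agent.H.MP_08eaf3_pr.Z.IP

/-!
# Part Z: S3 and S3 top
-/

set_option autoImplicit false
set_option linter.unusedSectionVars false

open MeasureTheory ProbabilityTheory Filter Topology Matrix

namespace SKC.Z

theorem Gl_top (l2 : List (Step (Fin 2))) (E : Matrix (Fin 2) (Fin 2) ℝ) :
    Gl (l2 ++ [((1 : ℝ), E)]) = Gl l2 + (E * Eᵀ) 0 1 := by
  unfold Gl
  simp

/-- S3' (see the note, S3' and I3) -/
theorem S3top' {b1 b2 u : ℝ} (S : Setting b1 b2 u) (L : LData b1 b2 u)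
    (hr : ∀ x ∈ L.T, L.Q x 0 1 ≤ u) (t : ℝ)
    (ht : t ∈ L.T) (hd : 0 < dt L t) (htop : ∀ x ∈ L.T, x ≤ t) : L.Q t 0 1 = u := by
  by_contra hne
  have hlt : L.Q t 0 1 < u := lt_of_le_of_ne (hr t ht) hne
  obtain ⟨q1, q2, hT, hps, hps'⟩ := blowup b1 b2 u S.hb1 S.hb2 (L.Q t) (L.tree t ht t ht le_rfl)
  obtain ⟨E1, hE1⟩ := exists_factor _ hps
  obtain ⟨E2, hE2⟩ := exists_factor _ hps'
  have h00 : (mat q1 q2 u - L.Q t) 0 0 = q1 - L.Q t 0 0 := by simp [mat]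
  have h11 : (mat q1 q2 u - L.Q t) 1 1 = q2 - L.Q t 1 1 := by simp [mat]
  have h01 : (mat q1 q2 u - L.Q t) 0 1 = u - L.Q t 0 1 := by simp [mat]
  have hn0 : 0 ≤ q1 - L.Q t 0 0 := by rw [← h00]; exact hps.diag_nonneg
  have hpos : L.Q t 0 0 < q1 := by
    rcases hn0.lt_or_eq with h | h
    · linarith
    · exfalso
      -- the first row of `E1` vanishes
      have e1 : E1 0 0 ^ 2 + E1 0 1 ^ 2 = 0 := by
        have := congrFun (congrFun hE1 0) 0
        rw [h00, ← h] at this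
        simp only [Matrix.mul_apply, Fin.sum_univ_two, Matrix.transpose_apply] at this
        nlinarith
      have e2 : E1 0 0 = 0 := by nlinarith [sq_nonneg (E1 0 0), sq_nonneg (E1 0 1)]
      have e3 : E1 0 1 = 0 := by nlinarith [sq_nonneg (E1 0 0), sq_nonneg (E1 0 1)]
      have := congrFun (congrFun hE1 0) 1
      rw [h01] at this
      simp only [Matrix.mul_apply, Fin.sum_univ_two, Matrix.transpose_apply, e2, e3] at this
      linarith
  have hQ' : L.Q t 0 0 < (mat q1 q2 u) 0 0 := by simpa [mat] using hpos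
  refine core2 S (L.Q t) (mat q1 q2 u) hT (L.psd t ht) hd 0 hQ' (u - L.Q t 0 1) (by linarith) ?_
  intro δ hδ
  obtain ⟨l1, l2, l3, hp, _, _, _, _, _, _, _, _, hl3⟩ := L.path δ hδ t ht t ht le_rfl
  obtain ⟨E, rfl⟩ := hl3 htop
  have hsp := PairPath_split_top b1 b2 u (L.Q t) (mat q1 q2 u) δ l1 l2 E E1 E2 hp hE1 hE2
  have e2 : (E2 * E2ᵀ) 0 1 = 0 := by rw [hE2]; simp [mat]
  have e1 : (E1 * E1ᵀ) 0 1 = u - L.Q t 0 1 := by rw [hE1, h01]
  refine ⟨l1 ++ l2, [((1 : ℝ), E1)], E2, e2, hsp, ?_⟩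
  rw [Gl_top, e2]
  unfold Gl
  simp [e1]

/-- S3 -/
theorem S3' {b1 b2 u : ℝ} (S : Setting b1 b2 u) (L : LData b1 b2 u)
    (hr : ∀ x ∈ L.T, L.Q x 0 1 ≤ u) (s t : ℝ)
    (hs : s ∈ L.T) (hds : 0 < dt L s) (ht : t ∈ L.T) (htop : ∀ x ∈ L.T, x ≤ t)
    (htu : L.Q t 0 1 = u) : L.Q s 0 1 = u := by
  rcases (htop s hs).lt_or_eq with hst | hst
  swap
  · rw [hst]; exact htu
  by_contra hne
  have hlt : L.Q s 0 1 < u := lt_of_le_of_ne (hr s hs) hne
  have hI := int_pos L hr s hs hlt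
  set I := ∫ x, (u - L.Q (max s x) 0 1) ∂L.μ with hIdef
  -- a coordinate which increases
  have hex : ∃ c : Fin 2, L.Q s c c < L.Q t c c := by
    by_contra hn
    push Not at hn
    have h1 := L.tr s hs
    have h2 := L.tr t ht
    rw [Matrix.trace_fin_two] at h1 h2
    linarith [hn 0, hn 1]
  obtain ⟨c, hc⟩ := hex
  refine core2 S (L.Q s) (L.Q t) (L.tree s hs t ht hst.le) (L.psd s hs) hds c hc (I / 2)
    (by positivity) ?_
  intro δ hδ
  obtain ⟨l1, l2, l3, hp, _, _, _, _, hG, _, _, _, hl3⟩ :=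
    L.path (min δ (I / 2)) (lt_min hδ (by positivity)) s hs t ht hst.le
  obtain ⟨E, rfl⟩ := hl3 htop
  have hQt : Qtot (l1 ++ l2) = L.Q t := hp.2.2.2.1
  have hD : Qtot (l1 ++ (l2 ++ [((1 : ℝ), E)])) = mat 1 1 u := hp.2.2.2.2.1
  rw [← List.append_assoc, Qtot_append, hQt] at hD
  have hE : (E * Eᵀ) 0 1 = 0 := by
    have := congrFun (congrFun hD 0) 1
    simp only [Qtot, Matrix.add_apply, htu, mat, Matrix.zero_apply] at this
    simp at this
    linarith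
  refine ⟨l1, l2, E, hE, hp.le (min_le_left _ _), ?_⟩
  have := (abs_le.1 hG).1
  have h3 := min_le_right δ (I / 2)
  linarith

end SKC.Z
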