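import Pool.Agent.H.MP_08eaf3_pr.Z.S7a

/-! # Part Z, step S7: shifts of Gaussian tails (helper4) -/

set_option autoImplicit false

open MeasureTheory Filter Topology

namespace SKC.Z

theorem S7a2_split (A Λ : ℝ) (hA : 0 < A) (a b : ℝ) :
    (∫ v in a..b, gw A Λ v) + Ph A Λ b = Ph A Λ a := by
  unfold Ph
  exact intervalIntegral.integral_interval_add_Ioi (gw_integrable A Λ hA).integrableOn
    (gw_integrable A Λ hA).integrableOn

/-- comparison of two weights -/
theorem S7a2_cmp (A Λ L0 x y d s : ℝ) (hA : 0 < A) (hL : |Λ| ≤ L0) (h1 : y ^ 2 - x ^ 2 ≤ 2 * d)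
    (h2 : |x - y| ≤ s) : gw A Λ x ≤ gw A Λ y * Real.exp (d / A + s * L0) := by
  unfold gw
  rw [← Real.exp_add]
  apply Real.exp_le_exp.mpr
  have e1 : -(x ^ 2 / (2 * A)) ≤ -(y ^ 2 / (2 * A)) + d / A := by
    have : -(y ^ 2 / (2 * A)) + d / A + x ^ 2 / (2 * A) = (2 * d - (y ^ 2 - x ^ 2)) / (2 * A) := by
      field_simp
      ring
    have h3 : 0 ≤ (2 * d - (y ^ 2 - x ^ 2)) / (2 * A) := div_nonneg (by linarith) (by linarith)
    linarith
  have e2 : Λ * x - Λ * y ≤ s * L0 := by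
    calc Λ * x - Λ * y = Λ * (x - y) := by ring
      _ ≤ |Λ * (x - y)| := le_abs_self _
      _ = |x - y| * |Λ| := by rw [abs_mul, mul_comm]
      _ ≤ s * L0 := mul_le_mul h2 hL (abs_nonneg _) (le_trans (abs_nonneg _) h2)
  linarith

theorem S7a2_first (A L0 : ℝ) (hA : 0 < A) (Λ y ε : ℝ) (hL : |Λ| ≤ L0) (hy : 0 ≤ y) (hε : 0 ≤ ε)
    (h : ε * (1 + y) ≤ 2) :
    Ph A Λ (y - ε) ≤ Ph A Λ y * (1 + Real.exp (3 / A + 3 * L0) * (1 + y) * ε) := by
  have hε2 : ε ≤ 2 := by nlinarith [mul_nonneg hε hy]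
  -- upper bound for the piece
  have u1 : (∫ v in (y - ε)..y, gw A Λ v) ≤ ε * (gw A Λ y * Real.exp (2 / A + 2 * L0)) := by
    have h1 : (∫ v in (y - ε)..y, gw A Λ v) ≤
        ∫ _ in (y - ε)..y, gw A Λ y * Real.exp (2 / A + 2 * L0) := by
      apply intervalIntegral.integral_mono_on (by linarith)
      · exact (gw_cont A Λ).intervalIntegrable _ _
      · exact intervalIntegrable_const
      · intro v hv
        refine S7a2_cmp A Λ L0 v y 2 2 hA hL ?_ ?_
        · have hv1 := hv.1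
          have hv2 := hv.2
          rcases le_total 0 v with hv0 | hv0
          · nlinarith [mul_nonneg hε hy]
          · nlinarith [mul_nonneg hε hy, sq_nonneg v]
        · rw [abs_le]
          constructor
          · linarith [hv.1]
          · linarith [hv.2]
    rw [intervalIntegral.integral_const] at h1
    simpa using h1
  -- lower bound for the tail
  have hd : 0 < 1 / (1 + y) := by positivity
  have l1 : 1 / (1 + y) * (gw A Λ y) ≤ Ph A Λ y * Real.exp (1 / A + 1 * L0) := by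
    have h0 := S7a2_split A Λ hA y (y + 1 / (1 + y))
    have hp := (Ph_pos A Λ (y + 1 / (1 + y)) hA).le
    have h1 : (∫ _ in y..(y + 1 / (1 + y)), gw A Λ y) ≤
        ∫ v in y..(y + 1 / (1 + y)), gw A Λ v * Real.exp (1 / A + 1 * L0) := by
      apply intervalIntegral.integral_mono_on (by linarith)
      · exact intervalIntegrable_const
      · exact ((gw_cont A Λ).mul continuous_const).intervalIntegrable _ _
      · intro v hv
        have hv1 := hv.1
        have hv2 : v - y ≤ 1 / (1 + y) := by linarith [hv.2]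
        have hone : 1 / (1 + y) ≤ 1 := by
          rw [div_le_one (by linarith)]
          linarith
        refine S7a2_cmp A Λ L0 y v 1 1 hA hL ?_ ?_
        · have e1 : v ^ 2 - y ^ 2 = (v - y) * (v + y) := by ring
          have e2 : (v - y) * (v + y) ≤ 1 / (1 + y) * (2 * y + 1) := by
            apply mul_le_mul hv2 (by linarith) (by linarith) hd.le
          have e3 : 1 / (1 + y) * (2 * y + 1) ≤ 2 := by
            rw [div_mul_eq_mul_div, div_le_iff₀ (by linarith)]
            linarith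
          linarith
        · rw [abs_le]
          constructor <;> linarith
    rw [intervalIntegral.integral_const, intervalIntegral.integral_mul_const] at h1
    have h2 : 1 / (1 + y) * gw A Λ y ≤
        (∫ v in y..(y + 1 / (1 + y)), gw A Λ v) * Real.exp (1 / A + 1 * L0) := by
      simpa using h1
    refine h2.trans (mul_le_mul_of_nonneg_right ?_ (Real.exp_pos _).le)
    linarith
  have l2 : gw A Λ y ≤ (1 + y) * (Ph A Λ y * Real.exp (1 / A + 1 * L0)) := by
    have h3 := mul_le_mul_of_nonneg_left l1 (by linarith : (0 : ℝ) ≤ 1 + y)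
    have h4 : (1 + y) * (1 / (1 + y) * gw A Λ y) = gw A Λ y := by
      field_simp
    linarith
  have h5 := S7a2_split A Λ hA (y - ε) y
  have hexp : Real.exp (3 / A + 3 * L0) =
      Real.exp (1 / A + 1 * L0) * Real.exp (2 / A + 2 * L0) := by
    rw [← Real.exp_add]
    congr 1
    ring
  have h6 : ε * (gw A Λ y * Real.exp (2 / A + 2 * L0)) ≤
      ε * ((1 + y) * (Ph A Λ y * Real.exp (1 / A + 1 * L0)) * Real.exp (2 / A + 2 * L0)) :=
    mul_le_mul_of_nonneg_left (mul_le_mul_of_nonneg_right l2 (Real.exp_pos _).le) hε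
  rw [hexp]
  calc Ph A Λ (y - ε) = (∫ v in (y - ε)..y, gw A Λ v) + Ph A Λ y := h5.symm
    _ ≤ ε * ((1 + y) * (Ph A Λ y * Real.exp (1 / A + 1 * L0)) * Real.exp (2 / A + 2 * L0))
        + Ph A Λ y := by linarith
    _ = _ := by ring

theorem S7a2_shift_eq (f : ℝ → ℝ) (y : ℝ) :
    ∫ v in Set.Ioi (y + 1), f v = ∫ v in Set.Ioi y, f (v + 1) := by
  rw [← integral_indicator measurableSet_Ioi, ← integral_indicator measurableSet_Ioi]
  rw [← integral_add_right_eq_self _ (1 : ℝ)]
  congr 1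
  ext v
  by_cases hv : y < v
  · rw [Set.indicator_of_mem (show v + 1 ∈ Set.Ioi (y + 1) by
      show y + 1 < v + 1
      linarith), Set.indicator_of_mem (show v ∈ Set.Ioi y from hv)]
  · rw [Set.indicator_of_notMem (show v + 1 ∉ Set.Ioi (y + 1) by
      intro h
      have : y + 1 < v + 1 := h
      exact hv (by linarith)), Set.indicator_of_notMem (show v ∉ Set.Ioi y from hv)]

/-- Shift of the lower limit.
Proof: with `e(y) = gw A Λ y`: on `[y - ε, y]` the weight is `≤ e(y) exp(1/A + L0)` (as `y² - v² ≤ 2 y ε ≤ 2`, also if `v < 0`: then `y < ε`,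
`y² - v² ≤ y²  ≤ 1`; `ε ≤ 1`), so `Ph (y - ε) - Ph y ≤ ε e(y) exp(1/A + L0)`; on `[y, y + 1/(1+y)]` the weight is `≥ e(y) exp(-1/A - L0)` (`v² - y² ≤ 2`: `(v - y)(v + y) ≤ (2y+1)/(1+y)`),
so `Ph y ≥ e(y) exp(-1/A - L0)/(1 + y)`. First claim with `C = exp(2/A + 2 L0)`. Second claim: first claim at `y + ε`:
`Ph y ≤ Ph (y + ε) (1 + C (1 + y + ε) ε)`, `1 + y + ε ≤ 2 (1 + y)`, `(1 + a)(1 - a) ≤ 1`; take the constant `2 C` (for the second claim, if `ε (1 + y) ≤ 1` is not enough at `y + ε`,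
prove first the version of the first claim with `ε (1 + y) ≤ 2` and a larger constant). -/
theorem Ph_shift (A L0 : ℝ) (hA : 0 < A) : ∃ C : ℝ, 0 < C ∧ ∀ Λ y ε : ℝ, |Λ| ≤ L0 → 0 ≤ y → 0 ≤ ε →
    ε * (1 + y) ≤ 1 →
    Ph A Λ (y - ε) ≤ Ph A Λ y * (1 + C * (1 + y) * ε) ∧
    Ph A Λ y * (1 - C * (1 + y) * ε) ≤ Ph A Λ (y + ε) := by
  have hE := Real.exp_pos (3 / A + 3 * L0)
  refine ⟨2 * Real.exp (3 / A + 3 * L0), by positivity, fun Λ y ε hL hy hε h => ⟨?_, ?_⟩⟩
  · refine (S7a2_first A L0 hA Λ y ε hL hy hε (by linarith)).trans ?_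
    refine mul_le_mul_of_nonneg_left ?_ (Ph_pos A Λ y hA).le
    have : 0 ≤ Real.exp (3 / A + 3 * L0) * (1 + y) * ε := by positivity
    linarith
  · have hε1 : ε ≤ 1 := by nlinarith [mul_nonneg hε hy]
    have h2 : ε * (1 + (y + ε)) ≤ 2 := by nlinarith [mul_nonneg hε hy]
    have h3 := S7a2_first A L0 hA Λ (y + ε) ε hL (by linarith) hε h2
    rw [add_sub_cancel_right] at h3
    have hP := (Ph_pos A Λ (y + ε) hA).le
    have h4 : Real.exp (3 / A + 3 * L0) * (1 + (y + ε)) * ε ≤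
        2 * Real.exp (3 / A + 3 * L0) * (1 + y) * ε := by
      refine mul_le_mul_of_nonneg_right ?_ hε
      nlinarith [mul_nonneg hE.le hy]
    set a := 2 * Real.exp (3 / A + 3 * L0) * (1 + y) * ε with ha
    have ha0 : 0 ≤ a := by positivity
    have h5 : Ph A Λ y ≤ Ph A Λ (y + ε) * (1 + a) :=
      h3.trans (mul_le_mul_of_nonneg_left (by linarith) hP)
    rcases le_total 0 (1 - a) with h6 | h6
    · calc Ph A Λ y * (1 - a) ≤ Ph A Λ (y + ε) * (1 + a) * (1 - a) :=
            mul_le_mul_of_nonneg_right h5 h6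
        _ = Ph A Λ (y + ε) - Ph A Λ (y + ε) * a ^ 2 := by ring
        _ ≤ Ph A Λ (y + ε) := by
            have : 0 ≤ Ph A Λ (y + ε) * a ^ 2 := by positivity
            linarith
    · exact (mul_nonpos_of_nonneg_of_nonpos (Ph_pos A Λ y hA).le h6).trans hP

/-- Proof: `Ph (y + 1) = ∫_{v > y} gw (v + 1)` and `gw (v + 1) ≤ gw v * exp(-v/A + L0) ≤ gw v / 2` for
`v > y ≥ y0 := A (L0 + log 2)` (`max` with `0`). -/
theorem Ph_half (A L0 : ℝ) (hA : 0 < A) : ∃ y0 : ℝ, 0 ≤ y0 ∧ ∀ Λ y : ℝ, |Λ| ≤ L0 → y0 ≤ y →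
    Ph A Λ (y + 1) ≤ (1 / 2) * Ph A Λ y := by
  refine ⟨max 0 (A * (L0 + Real.log 2)), le_max_left _ _, fun Λ y hL hy => ?_⟩
  have hy2 : A * (L0 + Real.log 2) ≤ y := (le_max_right _ _).trans hy
  unfold Ph
  rw [S7a2_shift_eq, ← integral_const_mul]
  refine setIntegral_mono_on ?_ ?_ measurableSet_Ioi ?_
  · exact ((gw_integrable A Λ hA).comp_add_right 1).integrableOn
  · exact ((gw_integrable A Λ hA).const_mul _).integrableOn
  · intro v hv
    have hv1 : y < v := hv
    have hΛ : Λ ≤ L0 := (le_abs_self _).trans hL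
    unfold gw
    have h2 : (1 / 2 : ℝ) = Real.exp (- Real.log 2) := by
      rw [Real.exp_neg, Real.exp_log (by norm_num)]
      norm_num
    rw [h2, ← Real.exp_add]
    apply Real.exp_le_exp.mpr
    have e1 : (v + 1) ^ 2 / (2 * A) = v ^ 2 / (2 * A) + v / A + 1 / (2 * A) := by
      field_simp
      ring
    have e2 : L0 + Real.log 2 ≤ v / A := by
      rw [le_div_iff₀ hA]
      linarith
    have e3 : 0 ≤ 1 / (2 * A) := by positivity
    rw [e1]
    linarith

/-- The average of a nondecreasing function over the tail is nondecreasing.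
Proof: `N(y) = ∫_{v > y} gw G`. `N(y) = N(y') + ∫_{(y,y']} gw G ≤ N(y') + G(y') (Ph y - Ph y')` and `G(y') Ph y' ≤ N(y')`. So
`N(y) Ph y' ≤ N(y') Ph y' + G(y') Ph y' (Ph y - Ph y') ≤ N(y') Ph y' + N(y') (Ph y - Ph y')`. (`G` is measurable, bounded: `gw G` is integrable.) -/
theorem Ph_avg (A Λ : ℝ) (hA : 0 < A) (G : ℝ → ℝ) (hG : Monotone G) (h0 : ∀ v, 0 ≤ G v) (C : ℝ)
    (hC : ∀ v, G v ≤ C) {y y' : ℝ} (h : y ≤ y') :
    (∫ v in Set.Ioi y, gw A Λ v * G v) * Ph A Λ y' ≤
      (∫ v in Set.Ioi y', gw A Λ v * G v) * Ph A Λ y := by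
  have hint : Integrable (fun v => gw A Λ v * G v) := by
    refine ((gw_integrable A Λ hA).const_mul C).mono' ?_ ?_
    · exact ((gw_cont A Λ).measurable.mul hG.measurable).aestronglyMeasurable
    · refine Eventually.of_forall fun v => ?_
      rw [Real.norm_eq_abs, abs_of_nonneg (mul_nonneg (gw_pos A Λ v).le (h0 v)), mul_comm]
      exact mul_le_mul_of_nonneg_right (hC v) (gw_pos A Λ v).le
  have hN : (∫ v in y..y', gw A Λ v * G v) + (∫ v in Set.Ioi y', gw A Λ v * G v) =
      ∫ v in Set.Ioi y, gw A Λ v * G v :=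
    intervalIntegral.integral_interval_add_Ioi hint.integrableOn hint.integrableOn
  have hP := S7a2_split A Λ hA y y'
  have h1 : (∫ v in y..y', gw A Λ v * G v) ≤ (∫ v in y..y', gw A Λ v) * G y' := by
    rw [← intervalIntegral.integral_mul_const]
    apply intervalIntegral.integral_mono_on h
    · exact hint.intervalIntegrable
    · exact ((gw_cont A Λ).mul continuous_const).intervalIntegrable _ _
    · intro v hv
      exact mul_le_mul_of_nonneg_left (hG hv.2) (gw_pos A Λ v).le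
  have h2 : Ph A Λ y' * G y' ≤ ∫ v in Set.Ioi y', gw A Λ v * G v := by
    unfold Ph
    rw [← integral_mul_const]
    refine setIntegral_mono_on ((gw_integrable A Λ hA).mul_const _).integrableOn
      hint.integrableOn measurableSet_Ioi ?_
    intro v hv
    exact mul_le_mul_of_nonneg_left (hG (le_of_lt hv)) (gw_pos A Λ v).le
  have h3 : 0 ≤ ∫ v in y..y', gw A Λ v :=
    intervalIntegral.integral_nonneg h fun v _ => (gw_pos A Λ v).le
  have hp' := (Ph_pos A Λ y' hA).le
  rw [← hN, ← hP]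
  have h4 := mul_le_mul_of_nonneg_right h1 hp'
  have h5 := mul_le_mul_of_nonneg_left h2 h3
  nlinarith

end SKC.Z
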