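import Pool.Agent.H.MP_08eaf3_pr.Z.S7a

/-! # Part Z, step S7: the contradiction from the tails (helper4) -/

set_option autoImplicit false

open MeasureTheory Filter Topology

namespace SKC.Z

theorem S7b_lim (k : ℝ) (hk : 0 < k) : Tendsto (fun y : ℝ => (1 + y) * Real.exp (-(k * y))) atTop (𝓝 0) := by
  have h1 : Tendsto (fun y : ℝ => Real.exp (-(k * y))) atTop (𝓝 0) := by
    apply Real.tendsto_exp_neg_atTop_nhds_zero.comp
    exact tendsto_id.const_mul_atTop hk
  have h2 : Tendsto (fun y : ℝ => y * Real.exp (-(k * y))) atTop (𝓝 0) := by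
    have h3 := (Real.tendsto_pow_mul_exp_neg_atTop_nhds_zero 1).comp (tendsto_id.const_mul_atTop hk)
    have h4 := h3.const_mul (1 / k)
    rw [mul_zero] at h4
    refine h4.congr ?_
    intro y
    simp only [Function.comp, id, pow_one]
    field_simp
  have h5 := h1.add h2
  rw [add_zero] at h5
  refine h5.congr ?_
  intro y
  ring

theorem S7b_exp_unbdd (k K : ℝ) (hk : 0 < k) (T : ℝ) (hT : 0 < T) (Y : ℝ)
    (h : ∀ y, Y ≤ y → T * Real.exp (k * y) ≤ K) : False := by
  have h1 : Tendsto (fun y : ℝ => T * Real.exp (k * y)) atTop atTop := by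
    apply Tendsto.const_mul_atTop hT
    apply Real.tendsto_exp_atTop.comp
    exact tendsto_id.const_mul_atTop hk
  have h2 := (h1.eventually_gt_atTop K).and (eventually_ge_atTop Y)
  obtain ⟨y, hy1, hy2⟩ := h2.exists
  exact absurd (h y hy2) (not_le.mpr hy1)

/-- Proof. (a) `Λp = Λs`. If `Λp > Λs`: for large `y` the bracket of `h1` is `≥ 1/2`, so by `Ph_lam`
`(Cp/2) exp((Λp-Λs) y) Ph A Λs y ≤ T y ≤ C Ph A Λs y`; divide by `Ph A Λs y > 0` and let `y → ∞`: contradiction.
If `Λp < Λs`: fix `y1 ≥ y0` with bracket of `h1` `≥ 1/2`, so `T y1 > 0`; for `y' ≥ y1` by `h3`, `h2`, `Ph_lam`: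
`T y1 Ph A Λs y' ≤ K T y' ≤ K' Ph A Λp y' ≤ K' exp(-(Λs-Λp) y') Ph A Λs y'`; divide and let `y' → ∞`: contradiction.
(b) `Λp = Λs = Λ`: by `h3` and `h2` at `y'`: `T y Ph y' ≤ Cp Ph y' (1 + C e^{-2ρy'}) Ph y (1 + C(1+y)e^{-2y})`; divide by `Ph y'`, `y' → ∞`:
`T y ≤ Cp Ph y (1 + C(1+y)e^{-2y})`; with `h1`: `c e^{-2ρy} ≤ 2C(1+y)e^{-2y}` for all `y ≥ y0`, i.e. `c ≤ 2C(1+y) e^{-2(1-ρ)y} → 0`: contradiction. -/
theorem tail_contra (A ρ c C Cp Λp Λs y0 : ℝ) (hA : 0 < A) (hρ : 0 < ρ) (hρ1 : ρ < 1) (hc : 0 < c)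
    (hC : 0 ≤ C) (hCp : 0 < Cp) (T : ℝ → ℝ)
    (h1 : ∀ y, y0 ≤ y → Cp * Ph A Λp y *
      (1 + c * Real.exp (-(2 * ρ * y)) - C * (1 + y) * Real.exp (-(2 * y))) ≤ T y)
    (h2 : ∀ y, y0 ≤ y → T y ≤ Cp * Ph A Λp y * (1 + C * Real.exp (-(2 * ρ * y))))
    (h3 : ∀ y y', y0 ≤ y → y ≤ y' → T y * Ph A Λs y' ≤
      T y' * Ph A Λs y * (1 + C * (1 + y) * Real.exp (-(2 * y))))
    (h4 : ∀ y, y0 ≤ y → T y ≤ C * Ph A Λs y) : False := by
  -- the bracket is eventually at least 1/2
  have hbr : ∀ᶠ y in atTop, 1 / 2 ≤ 1 + c * Real.exp (-(2 * ρ * y)) - C * (1 + y) * Real.exp (-(2 * y)) := by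
    have hl := (S7b_lim 2 (by norm_num)).const_mul C
    rw [mul_zero] at hl
    have := hl.eventually (ge_mem_nhds (show (0 : ℝ) < 1 / 2 by norm_num))
    filter_upwards [this] with y hy
    have h5 : 0 ≤ c * Real.exp (-(2 * ρ * y)) := by positivity
    nlinarith
  obtain ⟨Y, hY⟩ := eventually_atTop.mp hbr
  rcases lt_trichotomy Λp Λs with hlt | heq | hgt
  · -- Λp < Λs
    set y1 := max (max Y y0) 0 with hy1
    have hY1 : Y ≤ y1 := (le_max_left Y y0).trans (le_max_left _ _)
    have h01 : y0 ≤ y1 := (le_max_right Y y0).trans (le_max_left _ _)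
    have hn1 : 0 ≤ y1 := le_max_right _ _
    have hP1 := Ph_pos A Λp y1 hA
    have hT1 : 0 < T y1 := by
      have e1 := h1 y1 h01
      have e2 := hY y1 hY1
      have e3 : Cp * Ph A Λp y1 * (1 / 2) ≤ Cp * Ph A Λp y1 *
        (1 + c * Real.exp (-(2 * ρ * y1)) - C * (1 + y1) * Real.exp (-(2 * y1))) :=
        mul_le_mul_of_nonneg_left e2 (by positivity)
      have e4 : 0 < Cp * Ph A Λp y1 * (1 / 2) := by positivity
      linarith
    set M := Ph A Λs y1 * (1 + C * (1 + y1) * Real.exp (-(2 * y1))) with hM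
    have hM0 : 0 ≤ M := by
      have := Ph_pos A Λs y1 hA
      positivity
    apply S7b_exp_unbdd (Λs - Λp) (Cp * (1 + C) * M) (by linarith) (T y1) hT1 y1
    intro y hy
    have hPp := Ph_pos A Λp y hA
    have e1 := h3 y1 y h01 hy
    have e2 := h2 y (h01.trans hy)
    have e3 : Real.exp (-(2 * ρ * y)) ≤ 1 := by
      rw [Real.exp_le_one_iff]
      have : 0 ≤ 2 * ρ * y := by
        have : 0 ≤ y := hn1.trans hy
        positivity
      linarith
    have e4 : T y ≤ Cp * Ph A Λp y * (1 + C) := by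
      refine e2.trans ?_
      apply mul_le_mul_of_nonneg_left _ (by positivity)
      have := mul_le_mul_of_nonneg_left e3 hC
      linarith
    have e5 := Ph_lam A Λp Λs y hA hlt.le
    have e6 : T y1 * (Real.exp ((Λs - Λp) * y) * Ph A Λp y) ≤ T y1 * Ph A Λs y :=
      mul_le_mul_of_nonneg_left e5 hT1.le
    have e7 : T y * M ≤ Cp * Ph A Λp y * (1 + C) * M := mul_le_mul_of_nonneg_right e4 hM0
    have e8 : T y1 * Real.exp ((Λs - Λp) * y) * Ph A Λp y ≤ (Cp * (1 + C) * M) * Ph A Λp y := by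
      have e9 : T y * Ph A Λs y1 * (1 + C * (1 + y1) * Real.exp (-(2 * y1))) = T y * M := by
        rw [hM]; ring
      rw [e9] at e1
      calc T y1 * Real.exp ((Λs - Λp) * y) * Ph A Λp y = T y1 * (Real.exp ((Λs - Λp) * y) * Ph A Λp y) := by ring
        _ ≤ T y * M := e6.trans e1
        _ ≤ Cp * Ph A Λp y * (1 + C) * M := e7
        _ = (Cp * (1 + C) * M) * Ph A Λp y := by ring
    exact le_of_mul_le_mul_right e8 hPp
  · -- equality
    subst heq
    have key : ∀ y, max y0 0 ≤ y → c ≤ 2 * C * ((1 + y) * Real.exp (-(2 * (1 - ρ) * y))) := by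
      intro y hy
      have hy0 : y0 ≤ y := (le_max_left _ _).trans hy
      have hyn : 0 ≤ y := (le_max_right _ _).trans hy
      have hP := Ph_pos A Λp y hA
      set b := 1 + C * (1 + y) * Real.exp (-(2 * y)) with hb
      have hb0 : 0 ≤ b := by positivity
      have hlim : T y ≤ Cp * Ph A Λp y * b := by
        have ht : Tendsto (fun y' : ℝ => Cp * (1 + C * Real.exp (-(2 * ρ * y'))) * (Ph A Λp y * b)) atTop
            (𝓝 (Cp * (1 + C * 0) * (Ph A Λp y * b))) := by
          apply Tendsto.mul_const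
          apply Tendsto.const_mul
          apply Tendsto.const_add
          apply Tendsto.const_mul
          apply Real.tendsto_exp_neg_atTop_nhds_zero.comp
          exact tendsto_id.const_mul_atTop (by positivity)
        have he : ∀ᶠ y' in atTop, T y ≤ Cp * (1 + C * Real.exp (-(2 * ρ * y'))) * (Ph A Λp y * b) := by
          filter_upwards [eventually_ge_atTop y] with y' hy'
          have hP' := Ph_pos A Λp y' hA
          have e1 := h3 y y' hy0 hy'
          have e2 := h2 y' (hy0.trans hy')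
          have e3 : T y' * Ph A Λp y * b ≤ (Cp * Ph A Λp y' * (1 + C * Real.exp (-(2 * ρ * y')))) *
              (Ph A Λp y * b) := by
            rw [mul_assoc]
            exact mul_le_mul_of_nonneg_right e2 (by positivity)
          have e4 : T y * Ph A Λp y' ≤ (Cp * (1 + C * Real.exp (-(2 * ρ * y'))) * (Ph A Λp y * b)) *
              Ph A Λp y' := by
            refine (e1.trans e3).trans (le_of_eq ?_)
            ring
          exact le_of_mul_le_mul_right e4 hP'
        have := ge_of_tendsto ht he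
        linarith
      have e1 := h1 y hy0
      have e2 : Cp * Ph A Λp y * (1 + c * Real.exp (-(2 * ρ * y)) - C * (1 + y) * Real.exp (-(2 * y))) ≤
          Cp * Ph A Λp y * b := e1.trans hlim
      have e3 : 1 + c * Real.exp (-(2 * ρ * y)) - C * (1 + y) * Real.exp (-(2 * y)) ≤ b :=
        le_of_mul_le_mul_left e2 (by positivity)
      have e4 : c * Real.exp (-(2 * ρ * y)) ≤ 2 * C * (1 + y) * Real.exp (-(2 * y)) := by
        rw [hb] at e3
        linarith
      have e5 : Real.exp (-(2 * y)) = Real.exp (-(2 * (1 - ρ) * y)) * Real.exp (-(2 * ρ * y)) := by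
        rw [← Real.exp_add]
        congr 1
        ring
      rw [e5] at e4
      have e6 : c * Real.exp (-(2 * ρ * y)) ≤
          (2 * C * ((1 + y) * Real.exp (-(2 * (1 - ρ) * y)))) * Real.exp (-(2 * ρ * y)) := by
        linarith
      exact le_of_mul_le_mul_right e6 (Real.exp_pos _)
    have ht := (S7b_lim (2 * (1 - ρ)) (by linarith)).const_mul (2 * C)
    rw [mul_zero] at ht
    have := ge_of_tendsto ht ((eventually_ge_atTop (max y0 0)).mono key)
    linarith
  · -- Λs < Λp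
    apply S7b_exp_unbdd (Λp - Λs) C (by linarith) (Cp / 2) (by positivity) (max Y y0)
    intro y hy
    have hYy : Y ≤ y := (le_max_left _ _).trans hy
    have h0y : y0 ≤ y := (le_max_right _ _).trans hy
    have hPs := Ph_pos A Λs y hA
    have e1 := h1 y h0y
    have e2 := hY y hYy
    have hPp := Ph_pos A Λp y hA
    have e3 : Cp * Ph A Λp y * (1 / 2) ≤ Cp * Ph A Λp y *
        (1 + c * Real.exp (-(2 * ρ * y)) - C * (1 + y) * Real.exp (-(2 * y))) :=
      mul_le_mul_of_nonneg_left e2 (by positivity)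
    have e4 := Ph_lam A Λs Λp y hA hgt.le
    have e5 := h4 y h0y
    have e6 : (Cp / 2 * Real.exp ((Λp - Λs) * y)) * Ph A Λs y ≤ C * Ph A Λs y := by
      have e7 : Cp / 2 * (Real.exp ((Λp - Λs) * y) * Ph A Λs y) ≤ Cp / 2 * Ph A Λp y :=
        mul_le_mul_of_nonneg_left e4 (by positivity)
      linarith
    exact le_of_mul_le_mul_right e6 hPs

end SKC.Z
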