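import Pool.Agent.H.MP_08eaf3_pr.Z.S7a2
import Pool.Agent.H.MP_08eaf3_pr.Z.S7c

/-! # Part Z, step S7: tail of the pair chain (helper4) -/

set_option autoImplicit false

open MeasureTheory Filter Topology

namespace SKC.Z

/-- slope after the translation `v = w + (log α)/2` -/
noncomputable def sL (A L α : ℝ) : ℝ := L - (Real.log α / 2) / A

/-- constant after the translation -/
noncomputable def sC (A L α : ℝ) : ℝ := gw A L (Real.log α / 2)

theorem S7d_comp_add (f : ℝ → ℝ) (a κ : ℝ) :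
    ∫ w in Set.Ioi a, f (w + κ) = ∫ v in Set.Ioi (a + κ), f v := by
  rw [← integral_indicator measurableSet_Ioi, ← integral_indicator measurableSet_Ioi,
    ← integral_add_right_eq_self ((Set.Ioi (a + κ)).indicator f) κ]
  refine integral_congr_ae (Eventually.of_forall fun w => ?_)
  by_cases hw : a < w
  · have h1 : w ∈ Set.Ioi a := hw
    have h2 : w + κ ∈ Set.Ioi (a + κ) := by
      show a + κ < w + κ
      linarith
    simp only [Set.indicator_of_mem h1, Set.indicator_of_mem h2]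
  · have h1 : w ∉ Set.Ioi a := hw
    have h2 : w + κ ∉ Set.Ioi (a + κ) := by
      show ¬ (a + κ < w + κ)
      intro h
      exact hw (by linarith)
    simp only [Set.indicator_of_notMem h1, Set.indicator_of_notMem h2]

theorem S7d_shift (A L α : ℝ) (hA : 0 < A) (P : ℝ → ℝ) (a : ℝ) :
    sC A L α * (∫ w in Set.Ioi a, gw A (sL A L α) w * P (w + Real.log α / 2)) =
      ∫ v in Set.Ioi (a + Real.log α / 2), gw A L v * P v := by
  rw [← S7d_comp_add (fun v => gw A L v * P v) a (Real.log α / 2), ← integral_const_mul]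
  refine integral_congr_ae (Eventually.of_forall fun w => ?_)
  show sC A L α * (gw A (sL A L α) w * P (w + Real.log α / 2)) =
    gw A L (w + Real.log α / 2) * P (w + Real.log α / 2)
  rw [gw_shift A L _ w hA]
  unfold sC sL
  ring

/-- the tail integral is between the tails `v > y + κ ± ε`, `κ = (log α)/2`, `ε = C e^{-2y}`; after the translation `v = w + κ` (`gw_shift`,
`MeasureTheory.integral_add_right_eq_self` for the indicator, or `integral_comp_add_right`-type lemma for `Ioi`).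
Proof: `level_set`: `Ioi (y + κ + ε) ⊆ {v | tanh y ≤ M v} ⊆ Ici (y + κ - ε)` and `Ici`, `Ioi` differ by a null set; `setIntegral_mono_set`. The set is closed, so measurable. -/
theorem tail_between (A Cm : ℝ) (hA : 0 < A) : ∃ C y0 : ℝ, 0 < C ∧ 0 ≤ y0 ∧
    ∀ (α L : ℝ) (M P : ℝ → ℝ), Exp1 Cm α M → (∀ v, 0 ≤ P v) → Integrable (fun v => gw A L v * P v) →
      ∀ y, y0 ≤ y →
      sC A L α * (∫ w in Set.Ioi (y + C * Real.exp (-(2 * y))),
        gw A (sL A L α) w * P (w + Real.log α / 2)) ≤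
        ∫ v in {v | Real.tanh y ≤ M v}, gw A L v * P v ∧
      ∫ v in {v | Real.tanh y ≤ M v}, gw A L v * P v ≤
      sC A L α * (∫ w in Set.Ioi (y - C * Real.exp (-(2 * y))),
        gw A (sL A L α) w * P (w + Real.log α / 2)) := by
  obtain ⟨C, y0, hC, hy0, h⟩ := level_set Cm
  refine ⟨C, y0, hC, hy0, ?_⟩
  intro α L M P hM hP hI y hy
  obtain ⟨h1, h2⟩ := h α M hM y hy
  rw [S7d_shift A L α hA, S7d_shift A L α hA]
  have hS : MeasurableSet {v | Real.tanh y ≤ M v} :=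
    (isClosed_le continuous_const hM.cont).measurableSet
  have hnn : ∀ v, 0 ≤ gw A L v * P v := fun v => mul_nonneg (gw_pos A L v).le (hP v)
  constructor
  · refine setIntegral_mono_set hI.integrableOn (Eventually.of_forall hnn) ?_
    refine Eventually.of_forall (fun v hv => ?_)
    have hv' : y + C * Real.exp (-(2 * y)) + Real.log α / 2 < v := hv
    exact h2 v (by linarith)
  · rw [← integral_Ici_eq_integral_Ioi]
    refine setIntegral_mono_set hI.integrableOn (Eventually.of_forall hnn) ?_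
    refine Eventually.of_forall (fun v hv => ?_)
    have hv' := h1 v hv
    show y - C * Real.exp (-(2 * y)) + Real.log α / 2 ≤ v
    linarith

theorem S7d_gw_mul (A Λ ρ w : ℝ) :
    gw A Λ w * Real.exp (-(2 * ρ * w)) = gw A (Λ - 2 * ρ) w := by
  unfold gw
  rw [← Real.exp_add]
  congr 1
  ring

theorem S7d_Ph_split (A Λ t : ℝ) (hA : 0 < A) :
    Ph A Λ t = (∫ w in Set.Ioc t (t + 1), gw A Λ w) + Ph A Λ (t + 1) := by
  unfold Ph
  rw [← Set.Ioc_union_Ioi_eq_Ioi (show t ≤ t + 1 by linarith)]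
  exact setIntegral_union Set.Ioc_disjoint_Ioi_same measurableSet_Ioi
    (gw_integrable A Λ hA).integrableOn (gw_integrable A Λ hA).integrableOn

theorem S7d_lower (A ρ Λ b t : ℝ) (hA : 0 < A) (hρ : 0 < ρ) (hb : 0 ≤ b) (Q : ℝ → ℝ)
    (hQ : ∀ w, t < w → 1 + b * Real.exp (-(2 * ρ * w)) ≤ Q w)
    (hI : IntegrableOn (fun w => gw A Λ w * Q w) (Set.Ioi t))
    (hh : Ph A Λ (t + 1) ≤ (1 / 2) * Ph A Λ t) :
    Ph A Λ t * (1 + b * ((1 / 2) * Real.exp (-(2 * ρ * (t + 1))))) ≤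
      ∫ w in Set.Ioi t, gw A Λ w * Q w := by
  have hg := gw_integrable A Λ hA
  have hg2 := gw_integrable A (Λ - 2 * ρ) hA
  have h1 : ∫ w in Set.Ioi t, (gw A Λ w + b * gw A (Λ - 2 * ρ) w) ≤
      ∫ w in Set.Ioi t, gw A Λ w * Q w := by
    refine setIntegral_mono_on (hg.integrableOn.add (hg2.integrableOn.const_mul b)) hI
      measurableSet_Ioi (fun w hw => ?_)
    have h2 := mul_le_mul_of_nonneg_left (hQ w hw) (gw_pos A Λ w).le
    rw [mul_add, mul_one] at h2
    have h3 : gw A Λ w * (b * Real.exp (-(2 * ρ * w))) = b * gw A (Λ - 2 * ρ) w := by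
      rw [← S7d_gw_mul]; ring
    rw [h3] at h2
    exact h2
  have h2 : ∫ w in Set.Ioi t, (gw A Λ w + b * gw A (Λ - 2 * ρ) w) =
      Ph A Λ t + b * ∫ w in Set.Ioi t, gw A (Λ - 2 * ρ) w := by
    rw [integral_add hg.integrableOn (hg2.integrableOn.const_mul b), integral_const_mul]
    rfl
  have h3 : Real.exp (-(2 * ρ * (t + 1))) * ∫ w in Set.Ioc t (t + 1), gw A Λ w ≤
      ∫ w in Set.Ioc t (t + 1), gw A (Λ - 2 * ρ) w := by
    rw [← integral_const_mul]
    refine setIntegral_mono_on (hg.integrableOn.const_mul _) hg2.integrableOn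
      measurableSet_Ioc (fun w hw => ?_)
    rw [← S7d_gw_mul, mul_comm]
    refine mul_le_mul_of_nonneg_left ?_ (gw_pos A Λ w).le
    apply Real.exp_le_exp.2
    have := mul_le_mul_of_nonneg_left hw.2 hρ.le
    linarith
  have h4 : ∫ w in Set.Ioc t (t + 1), gw A (Λ - 2 * ρ) w ≤
      ∫ w in Set.Ioi t, gw A (Λ - 2 * ρ) w :=
    setIntegral_mono_set hg2.integrableOn (Eventually.of_forall fun w => (gw_pos _ _ w).le)
      (Eventually.of_forall (fun v hv => Set.Ioc_subset_Ioi_self hv))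
  have h5 : (1 / 2) * Ph A Λ t ≤ ∫ w in Set.Ioc t (t + 1), gw A Λ w := by
    have := S7d_Ph_split A Λ t hA
    linarith
  have h6 : Real.exp (-(2 * ρ * (t + 1))) * ((1 / 2) * Ph A Λ t) ≤
      ∫ w in Set.Ioi t, gw A (Λ - 2 * ρ) w :=
    (mul_le_mul_of_nonneg_left h5 (Real.exp_pos _).le).trans (h3.trans h4)
  have h7 := mul_le_mul_of_nonneg_left h6 hb
  calc Ph A Λ t * (1 + b * ((1 / 2) * Real.exp (-(2 * ρ * (t + 1))))) =
      Ph A Λ t + b * (Real.exp (-(2 * ρ * (t + 1))) * ((1 / 2) * Ph A Λ t)) := by ring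
    _ ≤ _ := by linarith

theorem S7d_upper (A Λ b t : ℝ) (hA : 0 < A) (Q : ℝ → ℝ)
    (hQ : ∀ w, t < w → Q w ≤ 1 + b)
    (hI : IntegrableOn (fun w => gw A Λ w * Q w) (Set.Ioi t)) :
    ∫ w in Set.Ioi t, gw A Λ w * Q w ≤ Ph A Λ t * (1 + b) := by
  have hg := gw_integrable A Λ hA
  have h1 : ∫ w in Set.Ioi t, gw A Λ w * Q w ≤ ∫ w in Set.Ioi t, gw A Λ w * (1 + b) := by
    refine setIntegral_mono_on hI (hg.integrableOn.mul_const _) measurableSet_Ioi (fun w hw => ?_)
    exact mul_le_mul_of_nonneg_left (hQ w hw) (gw_pos A Λ w).le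
  rw [integral_mul_const] at h1
  exact h1

theorem S7d_lin (ρ y : ℝ) (hρ1 : ρ < 1) (hy : 0 ≤ y) :
    (1 + y) * Real.exp (-(2 * y)) ≤ (1 + 1 / (2 * (1 - ρ))) * Real.exp (-(2 * ρ * y)) := by
  have h1 : 0 < 1 - ρ := by linarith
  have h2 : 2 * (1 - ρ) * y + 1 ≤ Real.exp (2 * (1 - ρ) * y) := Real.add_one_le_exp _
  have h3 : Real.exp (-(2 * ρ * y)) = Real.exp (-(2 * y)) * Real.exp (2 * (1 - ρ) * y) := by
    rw [← Real.exp_add]; congr 1; ring
  rw [h3]
  have h4 : 1 + y ≤ (1 + 1 / (2 * (1 - ρ))) * Real.exp (2 * (1 - ρ) * y) := by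
    have h5 : (1 + 1 / (2 * (1 - ρ))) * (2 * (1 - ρ) * y + 1) ≤
        (1 + 1 / (2 * (1 - ρ))) * Real.exp (2 * (1 - ρ) * y) :=
      mul_le_mul_of_nonneg_left h2 (by positivity)
    refine le_trans ?_ h5
    have h6 : (1 + 1 / (2 * (1 - ρ))) * (2 * (1 - ρ) * y + 1) =
        2 * (1 - ρ) * y + 1 + y + 1 / (2 * (1 - ρ)) := by
      field_simp
      ring
    rw [h6]
    have h7 : 0 ≤ 2 * (1 - ρ) * y := by positivity
    have h8 : 0 ≤ 1 / (2 * (1 - ρ)) := by positivity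
    linarith
  calc (1 + y) * Real.exp (-(2 * y)) ≤
      ((1 + 1 / (2 * (1 - ρ))) * Real.exp (2 * (1 - ρ) * y)) * Real.exp (-(2 * y)) :=
        mul_le_mul_of_nonneg_right h4 (Real.exp_pos _).le
    _ = _ := by ring

theorem S7d_eps (C y : ℝ) (hC : 0 < C) (hy : |Real.log C| ≤ y) :
    C * Real.exp (-(2 * y)) * (1 + y) ≤ 1 := by
  have hy0 : 0 ≤ y := (abs_nonneg _).trans hy
  have h1 : 1 + y ≤ Real.exp y := by linarith [Real.add_one_le_exp y]
  have h2 : Real.exp (-(2 * y)) * Real.exp y = Real.exp (-y) := by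
    rw [← Real.exp_add]; congr 1; ring
  calc C * Real.exp (-(2 * y)) * (1 + y) ≤ C * Real.exp (-(2 * y)) * Real.exp y :=
        mul_le_mul_of_nonneg_left h1 (by positivity)
    _ = C * Real.exp (-y) := by rw [mul_assoc, h2]
    _ ≤ C * Real.exp (-Real.log C) := by
        refine mul_le_mul_of_nonneg_left (Real.exp_le_exp.2 ?_) hC.le
        linarith [le_abs_self (Real.log C)]
    _ = 1 := by
        rw [Real.exp_neg, Real.exp_log hC]
        exact mul_inv_cancel₀ hC.ne'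

/-- The tail of the pair chain.
Proof. `tail_between` with `P = R`; `κ = (log α)/2 ∈ [0, (log Cm)/2]`, `ε = C e^{-2y}`. Lower bound: for `w > y + ε` one has `w + κ ≥ 0`, so
`∫_{w>y+ε} gw R ≥ Ph(y+ε) + c1 e^{-2ρκ} ∫_{w>y+ε} gw e^{-2ρw}`, and `∫_{w>y+ε} gw e^{-2ρw} ≥ e^{-2ρ(y+ε+1)} (Ph(y+ε) - Ph(y+ε+1)) ≥ (1/2) e^{-2ρ(y+2)} Ph(y+ε)` (`Ph_half`). With `Ph_shift`:
`Ph(y+ε) ≥ Ph y (1 - C'(1+y)e^{-2y})`, and `(1 - a)(1 + b) ≥ 1 + b - 2a` if `0 ≤ b ≤ 1`, `0 ≤ a`. Upper bound: `R(w+κ) ≤ 1 + C1 e^{-2ρw}  ≤ 1 + C1 e^{2ρ} e^{-2ρy}` for `w > y - ε` (`C1` may be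
replaced by `|C1|`), `Ph(y-ε) ≤ Ph y (1 + C'(1+y)e^{-2y})`, `(1+y)e^{-2y} ≤ C'' e^{-2ρy}`. All constants depend only on the parameters (`|sL A L α| ≤ L0 + (log Cm)/(2A)`). -/
theorem pair_tail (A ρ Cm c1 C1 L0 : ℝ) (hA : 0 < A) (hρ : 0 < ρ) (hρ1 : ρ < 1) (hc1 : 0 < c1) :
    ∃ c C y0 : ℝ, 0 < c ∧ 0 < C ∧ 0 ≤ y0 ∧ ∀ (α L : ℝ) (M R : ℝ → ℝ), Exp1 Cm α M → |L| ≤ L0 →
      Continuous R → (∀ v, 0 ≤ R v) →
      (∀ v, 0 ≤ v → 1 + c1 * Real.exp (-(2 * ρ * v)) ≤ R v ∧
        R v ≤ 1 + C1 * Real.exp (-(2 * ρ * v))) →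
      Integrable (fun v => gw A L v * R v) → ∀ y, y0 ≤ y →
        sC A L α * Ph A (sL A L α) y *
            (1 + c * Real.exp (-(2 * ρ * y)) - C * (1 + y) * Real.exp (-(2 * y))) ≤
          ∫ v in {v | Real.tanh y ≤ M v}, gw A L v * R v ∧
        ∫ v in {v | Real.tanh y ≤ M v}, gw A L v * R v ≤
          sC A L α * Ph A (sL A L α) y * (1 + C * Real.exp (-(2 * ρ * y))) := by
  obtain ⟨C0, y00, hC0, hy00, htb⟩ := tail_between A Cm hA
  obtain ⟨C2, hC2, hsh⟩ := Ph_shift A (L0 + |Real.log Cm| / 2 / A) hA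
  obtain ⟨y02, hy02, hhalf⟩ := Ph_half A (L0 + |Real.log Cm| / 2 / A) hA
  have hc3 : 0 < c1 * Real.exp (-(2 * ρ * (|Real.log Cm| / 2))) *
      ((1 / 2) * Real.exp (-(2 * ρ * 2))) := by positivity
  set c3 : ℝ := c1 * Real.exp (-(2 * ρ * (|Real.log Cm| / 2))) *
      ((1 / 2) * Real.exp (-(2 * ρ * 2))) with hc3def
  set K : ℝ := 1 + 1 / (2 * (1 - ρ)) with hKdef
  have h1ρ : 0 < 1 - ρ := by linarith
  have hK : 0 < K := by positivity
  set C4 : ℝ := |C1| * Real.exp (2 * ρ) with hC4def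
  have hC4 : 0 ≤ C4 := by positivity
  set C5 : ℝ := C2 * C0 * K with hC5def
  have hC5 : 0 < C5 := by positivity
  refine ⟨min c3 1, 2 * (C2 * C0) + (C5 + C4 + C5 * C4), max (max y00 y02) (max 1 |Real.log C0|),
    lt_min hc3 one_pos, by positivity, le_max_of_le_left (le_max_of_le_left hy00), ?_⟩
  intro α L M R hM hL hRc hR0 hR hI y hy
  have hy1 : y00 ≤ y := (le_max_left _ _).trans ((le_max_left _ _).trans hy)
  have hy2 : y02 ≤ y := (le_max_right _ _).trans ((le_max_left _ _).trans hy)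
  have hy3 : 1 ≤ y := (le_max_left _ _).trans ((le_max_right _ _).trans hy)
  have hy4 : |Real.log C0| ≤ y := (le_max_right _ _).trans ((le_max_right _ _).trans hy)
  have hy0 : 0 ≤ y := zero_le_one.trans hy3
  obtain ⟨hlo, hup⟩ := htb α L M R hM hR0 hI y hy1
  set ε : ℝ := C0 * Real.exp (-(2 * y)) with hεdef
  have hε0 : 0 ≤ ε := by positivity
  have hε1 : ε * (1 + y) ≤ 1 := S7d_eps C0 y hC0 hy4
  have hεle : ε ≤ 1 := by nlinarith
  set Λ : ℝ := sL A L α with hΛdef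
  have hα0 : 0 < α := lt_of_lt_of_le one_pos hM.a1
  have hκ0 : 0 ≤ Real.log α := Real.log_nonneg hM.a1
  have hκ1 : Real.log α ≤ |Real.log Cm| :=
    (Real.log_le_log hα0 hM.a2).trans (le_abs_self _)
  have hΛ : |Λ| ≤ L0 + |Real.log Cm| / 2 / A := by
    rw [hΛdef]
    unfold sL
    refine (abs_sub _ _).trans (add_le_add hL ?_)
    rw [abs_of_nonneg (by positivity)]
    gcongr
  have hsC : 0 < sC A L α := gw_pos _ _ _
  obtain ⟨hs1, hs2⟩ := hsh Λ y ε hΛ hy0 hε0 hε1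
  have hPy : 0 < Ph A Λ y := Ph_pos A Λ y hA
  set t : ℝ := Real.exp (-(2 * ρ * y)) with htdef
  have ht0 : 0 < t := Real.exp_pos _
  have ht1 : t ≤ 1 := by
    rw [htdef, Real.exp_le_one_iff]
    have : 0 ≤ 2 * ρ * y := by positivity
    linarith
  have hIw : Integrable (fun w => gw A Λ w * R (w + Real.log α / 2)) := by
    have h1 : Integrable (fun w => gw A L (w + Real.log α / 2) * R (w + Real.log α / 2)) :=
      hI.comp_add_right (Real.log α / 2)
    have h2 := h1.const_mul (sC A L α)⁻¹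
    refine h2.congr (Eventually.of_forall fun w => ?_)
    show (sC A L α)⁻¹ * (gw A L (w + Real.log α / 2) * R (w + Real.log α / 2)) =
      gw A Λ w * R (w + Real.log α / 2)
    rw [gw_shift A L _ w hA]
    have h3 : sC A L α = gw A L (Real.log α / 2) := rfl
    have h4 : Λ = L - Real.log α / 2 / A := rfl
    rw [← h4, ← h3]
    field_simp
  -- the lower bound
  have hlow : Ph A Λ (y + ε) * (1 + c3 * t) ≤
      ∫ w in Set.Ioi (y + ε), gw A Λ w * R (w + Real.log α / 2) := by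
    have h1 := S7d_lower A ρ Λ (c1 * Real.exp (-(2 * ρ * (|Real.log Cm| / 2)))) (y + ε) hA hρ
      (by positivity) (fun w => R (w + Real.log α / 2)) (fun w hw => ?_) hIw.integrableOn
      (hhalf Λ (y + ε) hΛ (by linarith))
    · refine le_trans ?_ h1
      refine mul_le_mul_of_nonneg_left ?_ (Ph_pos A Λ _ hA).le
      have h2 : Real.exp (-(2 * ρ * 2)) * t ≤ Real.exp (-(2 * ρ * (y + ε + 1))) := by
        rw [htdef, ← Real.exp_add]
        apply Real.exp_le_exp.2
        nlinarith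
      have h3 : c3 * t = c1 * Real.exp (-(2 * ρ * (|Real.log Cm| / 2))) *
          ((1 / 2) * (Real.exp (-(2 * ρ * 2)) * t)) := by rw [hc3def]; ring
      rw [h3]
      have h4 : 0 ≤ c1 * Real.exp (-(2 * ρ * (|Real.log Cm| / 2))) := by positivity
      have h5 := mul_le_mul_of_nonneg_left (mul_le_mul_of_nonneg_left h2
        (show (0 : ℝ) ≤ 1 / 2 by norm_num)) h4
      linarith
    · have h2 := (hR (w + Real.log α / 2) (by linarith)).1
      refine le_trans ?_ h2
      have h3 : Real.exp (-(2 * ρ * (|Real.log Cm| / 2))) * Real.exp (-(2 * ρ * w)) ≤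
          Real.exp (-(2 * ρ * (w + Real.log α / 2))) := by
        rw [← Real.exp_add]
        apply Real.exp_le_exp.2
        nlinarith
      have h4 := mul_le_mul_of_nonneg_left h3 hc1.le
      linarith
  -- the upper bound
  have hupp : ∫ w in Set.Ioi (y - ε), gw A Λ w * R (w + Real.log α / 2) ≤
      Ph A Λ (y - ε) * (1 + C4 * t) := by
    refine S7d_upper A Λ (C4 * t) (y - ε) hA (fun w => R (w + Real.log α / 2)) (fun w hw => ?_)
      hIw.integrableOn
    have h2 := (hR (w + Real.log α / 2) (by linarith)).2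
    refine h2.trans ?_
    have h3 : Real.exp (-(2 * ρ * (w + Real.log α / 2))) ≤ Real.exp (2 * ρ) * t := by
      rw [htdef, ← Real.exp_add]
      apply Real.exp_le_exp.2
      nlinarith
    have h4 : C1 * Real.exp (-(2 * ρ * (w + Real.log α / 2))) ≤ |C1| * (Real.exp (2 * ρ) * t) :=
      mul_le_mul (le_abs_self _) h3 (Real.exp_pos _).le (abs_nonneg _)
    have h5 : |C1| * (Real.exp (2 * ρ) * t) = C4 * t := by rw [hC4def]; ring
    linarith
  have ha : C2 * (1 + y) * ε = C2 * C0 * ((1 + y) * Real.exp (-(2 * y))) := by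
    rw [hεdef]; ring
  set u : ℝ := (1 + y) * Real.exp (-(2 * y)) with hudef
  have hu0 : 0 ≤ u := by positivity
  have huK : u ≤ K * t := S7d_lin ρ y hρ1 hy0
  have hC20 : 0 < C2 * C0 := by positivity
  rw [ha] at hs1 hs2
  have hmin1 : min c3 1 ≤ c3 := min_le_left _ _
  have hmin2 : min c3 1 ≤ 1 := min_le_right _ _
  have hmin0 : 0 < min c3 1 := lt_min hc3 one_pos
  constructor
  · refine le_trans ?_ hlo
    rw [mul_assoc]
    refine mul_le_mul_of_nonneg_left ?_ hsC.le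
    refine le_trans ?_ hlow
    have h1 : Ph A Λ y * (1 - C2 * C0 * u) * (1 + min c3 1 * t) ≤
        Ph A Λ (y + ε) * (1 + c3 * t) := by
      have h2 : 0 ≤ 1 + min c3 1 * t := by positivity
      calc Ph A Λ y * (1 - C2 * C0 * u) * (1 + min c3 1 * t) ≤
          Ph A Λ (y + ε) * (1 + min c3 1 * t) := mul_le_mul_of_nonneg_right hs2 h2
        _ ≤ Ph A Λ (y + ε) * (1 + c3 * t) := by
            refine mul_le_mul_of_nonneg_left ?_ (Ph_pos A Λ _ hA).le
            have := mul_le_mul_of_nonneg_right hmin1 ht0.le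
            linarith
    refine le_trans ?_ h1
    rw [mul_assoc (Ph A Λ y)]
    refine mul_le_mul_of_nonneg_left ?_ hPy.le
    have h3 : min c3 1 * t ≤ 1 := by nlinarith
    have h4 : (C2 * C0 * u) * (min c3 1 * t) ≤ (C2 * C0 * u) * 1 :=
      mul_le_mul_of_nonneg_left h3 (by positivity)
    have h5 : 0 ≤ (C5 + C4 + C5 * C4) * u := by positivity
    have h6 : (2 * (C2 * C0) + (C5 + C4 + C5 * C4)) * (1 + y) * Real.exp (-(2 * y)) =
        2 * (C2 * C0 * u) + (C5 + C4 + C5 * C4) * u := by rw [hudef]; ring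
    rw [h6]
    have h7 : (1 - C2 * C0 * u) * (1 + min c3 1 * t) = 1 + min c3 1 * t - C2 * C0 * u -
      (C2 * C0 * u) * (min c3 1 * t) := by ring
    rw [h7]
    linarith
  · refine hup.trans ?_
    rw [mul_assoc]
    refine mul_le_mul_of_nonneg_left ?_ hsC.le
    refine hupp.trans ?_
    have h1 : Ph A Λ (y - ε) * (1 + C4 * t) ≤
        Ph A Λ y * (1 + C2 * C0 * u) * (1 + C4 * t) :=
      mul_le_mul_of_nonneg_right hs1 (by positivity)
    refine h1.trans ?_
    rw [mul_assoc (Ph A Λ y)]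
    refine mul_le_mul_of_nonneg_left ?_ hPy.le
    have h2 : C2 * C0 * u ≤ C5 * t := by
      have := mul_le_mul_of_nonneg_left huK hC20.le
      rw [hC5def]
      linarith
    have h3 : (C2 * C0 * u) * (C4 * t) ≤ C5 * t * (C4 * 1) := by
      refine mul_le_mul h2 ?_ (by positivity) (by positivity)
      exact mul_le_mul_of_nonneg_left ht1 hC4
    have h4 : 0 ≤ 2 * (C2 * C0) * t := by positivity
    have h5 : (1 + C2 * C0 * u) * (1 + C4 * t) = 1 + C2 * C0 * u + C4 * t +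
      (C2 * C0 * u) * (C4 * t) := by ring
    have h6 : (2 * (C2 * C0) + (C5 + C4 + C5 * C4)) * t = 2 * (C2 * C0) * t + C5 * t + C4 * t +
      C5 * t * (C4 * 1) := by ring
    rw [h5, h6]
    linarith

end SKC.Z
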