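import Pool.Agent.H.MP_08eaf3_pr.Z.Setup

/-! # Part Z, step S7: merging of steps with equal weights (helper4) -/

set_option autoImplicit false

open MeasureTheory ProbabilityTheory Filter Topology Matrix
open scoped MatrixOrder ComplexOrder

namespace SKC.Z

variable {K : Type} [Fintype K] [DecidableEq K]

theorem Qtot_append (l l' : List (Step K)) : Qtot (l ++ l') = Qtot l + Qtot l' := by
  induction l with
  | nil => rw [List.nil_append, Qtot, zero_add]
  | cons s l ih => rw [List.cons_append, Qtot, Qtot, ih, add_assoc]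

theorem Qtot_posSemidef (l : List (Step K)) : (Qtot l).PosSemidef := by
  induction l with
  | nil => exact Matrix.PosSemidef.zero
  | cons a l ih =>
    rw [Qtot]
    refine Matrix.PosSemidef.add ?_ ih
    have h := Matrix.posSemidef_self_mul_conjTranspose a.2
    rwa [Matrix.conjTranspose_eq_transpose_of_trivial] at h

/-- Proof: `Matrix.posSemidef_iff_eq_conjTranspose_mul_self` and transpose. -/
theorem exists_factor (Q : Matrix K K ℝ) (hQ : Q.PosSemidef) : ∃ E : Matrix K K ℝ, E * Eᵀ = Q := by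
  obtain ⟨B, hB⟩ := CStarAlgebra.nonneg_iff_eq_star_mul_self.mp hQ.nonneg
  refine ⟨Bᵀ, ?_⟩
  rw [hB, Matrix.transpose_transpose, Matrix.star_eq_conjTranspose,
    Matrix.conjTranspose_eq_transpose_of_trivial]

theorem S7g1_zero (E : Matrix K K ℝ) (h : E * Eᵀ = 0) : E = 0 := by
  rw [← Matrix.conjTranspose_eq_transpose_of_trivial] at h
  exact Matrix.self_mul_conjTranspose_eq_zero.1 h

/-- Proof: induction on `l`, `E` arbitrary. `l = []`: `E * Eᵀ = 0`, so `E = 0` (`Matrix.self_mul_conjTranspose_eq_zero`), `PsiL_zero`.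
`l = a :: l2`: `E2` with `E2 * E2ᵀ = Qtot l2`; by induction `PsiL β (l2 ++ l') F = PsiL β ((m, E2) :: l') F`; then `PsiL_merge`. -/
theorem merge_Psi (β : K → ℝ) (m : ℝ) (hm : 0 ≤ m) (l l' : List (Step K)) (hl : ∀ a ∈ l, a.1 = m)
    (E : Matrix K K ℝ) (hE : E * Eᵀ = Qtot l) (F : (K → ℝ) → ℝ) (hF : LG F) :
    PsiL β (l ++ l') F = PsiL β ((m, E) :: l') F := by
  induction l generalizing E with
  | nil =>
    rw [Qtot] at hE
    rw [S7g1_zero E hE, List.nil_append, PsiL_zero β m hm]
  | cons a l ih =>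
    obtain ⟨E2, hE2⟩ := exists_factor (Qtot l) (Qtot_posSemidef l)
    have h1 := ih (fun b hb => hl b (List.mem_cons_of_mem _ hb)) E2 hE2
    have ha : a.1 = m := hl a List.mem_cons_self
    have h2 : PsiL β ((a :: l) ++ l') F = PsiL β ((m, a.2) :: (m, E2) :: l') F := by
      rw [List.cons_append, PsiL, h1, ha]
      rfl
    rw [h2]
    refine PsiL_merge β m hm a.2 E2 E ?_ l' F hF
    rw [hE, Qtot, hE2]

/-- Proof: the same with `ChE_zero`, `ChE_merge` (`ChE β (a :: l) F h = Es a.1 (Bm β a.2) (PsiL β l F) (ChE β l F h)` by `rfl`; rewrite both with the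
induction hypothesis and `merge_Psi`). -/
theorem merge_ChE (β : K → ℝ) (m : ℝ) (hm : 0 ≤ m) (l l' : List (Step K)) (hl : ∀ a ∈ l, a.1 = m)
    (E : Matrix K K ℝ) (hE : E * Eᵀ = Qtot l) (F h : (K → ℝ) → ℝ) (hF : LG F) (hh : EG h) :
    ChE β (l ++ l') F h = ChE β ((m, E) :: l') F h := by
  induction l generalizing E with
  | nil =>
    rw [Qtot] at hE
    rw [S7g1_zero E hE, List.nil_append, ChE_zero β m hm]
  | cons a l ih =>
    obtain ⟨E2, hE2⟩ := exists_factor (Qtot l) (Qtot_posSemidef l)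
    have hl' : ∀ b ∈ l, b.1 = m := fun b hb => hl b (List.mem_cons_of_mem _ hb)
    have h1 := ih hl' E2 hE2
    have h3 := merge_Psi β m hm l l' hl' E2 hE2 F hF
    have ha : a.1 = m := hl a List.mem_cons_self
    have h2 : ChE β ((a :: l) ++ l') F h = ChE β ((m, a.2) :: (m, E2) :: l') F h := by
      rw [List.cons_append, ChE, h1, h3, ha]
      rfl
    rw [h2]
    refine ChE_merge β m hm a.2 E2 E ?_ l' F h hF hh
    rw [hE, Qtot, hE2]

end SKC.Z
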