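import Pool.Agent.H.MP_08eaf3_pr.Z.S7g1

/-! # Part Z, step S7: the pair paths (helper4) -/

set_option autoImplicit false

open MeasureTheory ProbabilityTheory Filter Topology Matrix

namespace SKC.Z

/-- mass of the level `0` -/
noncomputable def x0 {b1 b2 u : ℝ} (L : LData b1 b2 u) : ℝ := L.μ.real {0}

theorem S7g2_sub {b1 b2 u : ℝ} (L : LData b1 b2 u) (t : ℝ)
    (hmin : ∀ x ∈ L.T, 0 < x → t ≤ x) (B : Set ℝ) (hB : ∀ x ∈ B, x < t) :
    L.μ B ≤ L.μ {0} := by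
  have h1 : B ⊆ {0} ∪ L.Tᶜ := by
    intro x hx
    by_cases hT : x ∈ L.T
    · left
      have h2 := L.sub hT
      rcases lt_or_eq_of_le h2.1 with h3 | h3
      · exact absurd (hmin x hT h3) (not_le.2 (hB x hx))
      · exact h3.symm
    · exact Or.inr hT
  refine (measure_mono h1).trans ((measure_union_le _ _).trans (le_of_eq ?_))
  rw [L.supp1, add_zero]

theorem S7g2_trace {K : Type} [Fintype K] [DecidableEq K] (l : List (Step K)) :
    0 ≤ Matrix.trace (Qtot l) :=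
  (Qtot_posSemidef l).trace_nonneg

/-- Proof: `(-t, t) ∩ T = {0}`, `L.supp1`, `L.supp2`. -/
theorem x0_pos {b1 b2 u : ℝ} (L : LData b1 b2 u) (h0 : (0 : ℝ) ∈ L.T) (t : ℝ) (htpos : 0 < t)
    (hmin : ∀ x ∈ L.T, 0 < x → t ≤ x) : 0 < x0 L := by
  have := L.prob
  have h1 := L.supp2 0 h0 t htpos
  have h2 := S7g2_sub L t hmin (Set.Ioo (0 - t) (0 + t)) (fun x hx => by
    have := hx.2
    linarith)
  exact ENNReal.toReal_pos (lt_of_lt_of_le h1 h2).ne' (measure_ne_top _ _)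

theorem x0_le {b1 b2 u : ℝ} (L : LData b1 b2 u) : x0 L ≤ 1 := by
  have := L.prob
  exact measureReal_le_one

/-- Proof: `Iic 0 ∩ T = {0} = Iio t ∩ T` (`L.sub`), `L.supp1`. -/
theorem x0_eq {b1 b2 u : ℝ} (L : LData b1 b2 u) (h0 : (0 : ℝ) ∈ L.T) (t : ℝ) (htpos : 0 < t)
    (hmin : ∀ x ∈ L.T, 0 < x → t ≤ x) :
    L.μ.real (Set.Iic 0) = x0 L ∧ L.μ.real (Set.Iio t) = x0 L := by
  have := L.prob
  have key : ∀ B : Set ℝ, (∀ x ∈ B, x < t) → (0 : ℝ) ∈ B → L.μ.real B = x0 L := by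
    intro B hB h0B
    have h1 := S7g2_sub L t hmin B hB
    have h2 : L.μ {0} ≤ L.μ B := measure_mono (Set.singleton_subset_iff.2 h0B)
    unfold x0 Measure.real
    rw [le_antisymm h1 h2]
  exact ⟨key _ (fun x hx => lt_of_le_of_lt hx htpos) Set.self_mem_Iic, key _ (fun x hx => hx) htpos⟩

/-- Proof: positive semidefinite with trace `0`. -/
theorem Q_zero {b1 b2 u : ℝ} (L : LData b1 b2 u) (h0 : (0 : ℝ) ∈ L.T) : L.Q 0 = 0 := by
  exact (L.psd 0 h0).trace_eq_zero_iff.1 (L.tr 0 h0)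

/-- Proof: `L.path δ 0 h0 t ht`.  `l1 = [(0, 0)]` (`s = 0`), all weights of `l2` are `x0 L` (`x0_eq`), `Qtot l2 = L.Q t` (`Q_zero`, `Qtot_append`).
The chain: `ChE β [(0, 0)] F g 0 = g 0` (`ChE_zero` with `l = []`), and `ChE β l2 F' h = ChE β [(x0, E)] F' h = Es x0 (Bm β E) F' h` (`merge_ChE` with
`l' = []`, `F' = PsiL β l3 F0`, `LG_PsiL`, `LG_F0`; `E` from `exists_factor`).
The increments of `l3` have vanishing off-diagonal entry: let `l3 = pre ++ a :: post`; `Qtot (l1 ++ (l2 ++ pre)) = L.Q x` with `x ∈ L.T` (intermediate levels clause), and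
`x = trace ≥ t > 0`, so its entry `0 1` is `u` by `hr`; the same for `Qtot (l1 ++ (l2 ++ (pre ++ [a])))` if `post ≠ []`, and if `post = []` it is `mat 1 1 u`.
The difference is `a.2 * a.2ᵀ`.  `Ok l3`: from `Valid`, and the diagonal of `Qtot l3 = mat 1 1 u - L.Q t` is `≤ 1`. -/
theorem pair_data {b1 b2 u : ℝ} (S : Setting b1 b2 u) (L : LData b1 b2 u) (h0 : (0 : ℝ) ∈ L.T) (t : ℝ)
    (ht : t ∈ L.T) (htpos : 0 < t) (hmin : ∀ x ∈ L.T, 0 < x → t ≤ x)
    (hr : ∀ x ∈ L.T, 0 < x → L.Q x 0 1 = u) (δ : ℝ) (hδ : 0 < δ) :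
    ∃ (l1 l2 l3 : List (Step (Fin 2))) (E : Matrix (Fin 2) (Fin 2) ℝ),
      PairPath b1 b2 u (L.Q 0) (L.Q t) δ l1 l2 l3 ∧ Ok l3 ∧
      (∀ a ∈ l3, (a.2 * a.2ᵀ) 0 1 = 0) ∧ E * Eᵀ = L.Q t ∧
      ∀ h : (Fin 2 → ℝ) → ℝ, EG h →
        ChE (be b1 b2) l1 (PsiL (be b1 b2) (l2 ++ l3) F0)
          (ChE (be b1 b2) l2 (PsiL (be b1 b2) l3 F0) h) 0 =
        Es (x0 L) (Bm (be b1 b2) E) (PsiL (be b1 b2) l3 F0) h 0 := by
  obtain ⟨l1, l2, l3, hPP, -, w2, -, hmid, -, -, -, e2, -⟩ := L.path δ hδ 0 h0 t ht htpos.le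
  have hl1 := e2 rfl
  obtain ⟨E, hE⟩ := exists_factor (L.Q t) (L.psd t ht)
  obtain ⟨hV, hne, hQ1, hQ2, hQ3, hPf⟩ := hPP
  have hQl2 : Qtot l2 = L.Q t := by
    rw [Qtot_append, hQ1, Q_zero L h0, zero_add] at hQ2
    exact hQ2
  have hsum : Qtot l1 + (Qtot l2 + Qtot l3) = mat 1 1 u := by
    rw [← hQ3, Qtot_append, Qtot_append]
  refine ⟨l1, l2, l3, E, ⟨hV, hne, hQ1, hQ2, hQ3, hPf⟩, ?_, ?_, hE, ?_⟩
  · refine ⟨?_, ?_, ?_⟩
    · have h1 := hV.1
      rw [List.pairwise_append] at h1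
      have h2 := h1.2.1
      rw [List.pairwise_append] at h2
      exact h2.2.1
    · intro a ha
      exact hV.2.1 a (List.mem_append_right _ (List.mem_append_right _ ha))
    · intro c
      have h1 := congrFun (congrFun hsum c) c
      rw [Matrix.add_apply, Matrix.add_apply] at h1
      have h2 : 0 ≤ Qtot l1 c c := (Qtot_posSemidef l1).diag_nonneg
      have h3 : 0 ≤ Qtot l2 c c := (Qtot_posSemidef l2).diag_nonneg
      have h4 : mat 1 1 u c c = 1 := by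
        fin_cases c <;> rfl
      linarith
  · intro a ha
    obtain ⟨pre, post, hpp⟩ := List.append_of_mem ha
    have htr : ∀ l' : List (Step (Fin 2)), ∀ x ∈ L.T, Qtot (l1 ++ (l2 ++ l')) = L.Q x →
        L.Q x 0 1 = u := by
      intro l' x hx h
      apply hr x hx
      have h1 := L.tr x hx
      rw [← h, Qtot_append, Qtot_append, Matrix.trace_add, Matrix.trace_add, hQl2, L.tr t ht] at h1
      have h2 := S7g2_trace l1
      have h3 := S7g2_trace l'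
      linarith
    have hne1 : ∀ l' : List (Step (Fin 2)), l1 ++ l' ≠ [] := by
      intro l'
      rw [hl1]
      simp
    obtain ⟨x, hx, hx2⟩ := hmid (l1 ++ (l2 ++ pre)) (a :: post) (by
      rw [hpp]
      simp) (hne1 _) (by simp)
    have k1 : Qtot (l1 ++ (l2 ++ pre)) 0 1 = u := by
      rw [hx2]
      exact htr pre x hx hx2
    have k2 : Qtot (l1 ++ (l2 ++ (pre ++ [a]))) 0 1 = u := by
      by_cases hpost : post = []
      · have h1 : l1 ++ (l2 ++ (pre ++ [a])) = l1 ++ (l2 ++ l3) := by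
          rw [hpp, hpost]
        rw [h1, hQ3]
        rfl
      · obtain ⟨x', hx', hx2'⟩ := hmid (l1 ++ (l2 ++ (pre ++ [a]))) post (by
          rw [hpp]
          simp) (hne1 _) hpost
        rw [hx2']
        exact htr (pre ++ [a]) x' hx' hx2'
    have k3 : Qtot (l1 ++ (l2 ++ (pre ++ [a]))) = Qtot (l1 ++ (l2 ++ pre)) + a.2 * a.2ᵀ := by
      have h1 : Qtot [a] = a.2 * a.2ᵀ := by
        show a.2 * a.2ᵀ + 0 = _
        rw [add_zero]
      simp only [Qtot_append, h1]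
      abel
    rw [k3, Matrix.add_apply, k1] at k2
    linarith
  · intro h hh
    have hx := x0_eq L h0 t htpos hmin
    have hw : ∀ a ∈ l2, a.1 = x0 L := by
      intro a ha
      have h1 := w2 a ha
      rw [hx.1, hx.2] at h1
      exact le_antisymm h1.2 h1.1
    have h2 : ChE (be b1 b2) l2 (PsiL (be b1 b2) l3 F0) h =
        ChE (be b1 b2) [(x0 L, E)] (PsiL (be b1 b2) l3 F0) h := by
      have h3 := merge_ChE (be b1 b2) (x0 L) measureReal_nonneg l2 [] hw E (hE.trans hQl2.symm)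
        (PsiL (be b1 b2) l3 F0) h (LG_PsiL _ _ _ LG_F0) hh
      rw [List.append_nil] at h3
      exact h3
    rw [hl1, ChE_zero (be b1 b2) 0 le_rfl [], h2]
    rfl

end SKC.Z
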