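import Pool.Agent.H.MP_08eaf3_pr.Z.Setup
import Pool.Agent.H.MP_08eaf3_pr.Z.S7a

/-! # Part Z, step S7: the two-dimensional Gaussian vector of the first step (helper4) -/

set_option autoImplicit false

open MeasureTheory ProbabilityTheory Filter Topology Matrix

namespace SKC.Z

/-- `∫ f dN(0, A) = ∫ f exp(-v²/2A) / √(2πA)`, for `N(0, A)` the law of `√A x`, `x ~ N(0,1)`.
Proof: `gaussianReal_map_const_mul`, `integral_gaussianReal_eq_integral_smul`, `gaussianPDFReal`. -/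
theorem gauss_one (A : ℝ) (hA : 0 < A) (f : ℝ → ℝ) :
    ∫ x, f (Real.sqrt A * x) ∂(gaussianReal 0 1) =
      (Real.sqrt (2 * Real.pi * A))⁻¹ * ∫ v, f v * gw A 0 v := by
  have hs : 0 < Real.sqrt A := Real.sqrt_pos.2 hA
  rw [integral_gaussianReal_eq_integral_smul one_ne_zero]
  have h1 : (fun x : ℝ => gaussianPDFReal 0 1 x • f (Real.sqrt A * x)) =
      fun x : ℝ => (fun v => (Real.sqrt (2 * Real.pi))⁻¹ * (f v * gw A 0 v)) (Real.sqrt A * x) := by
    funext x
    simp only [gaussianPDFReal, smul_eq_mul, NNReal.coe_one, mul_one, sub_zero]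
    unfold gw
    have h2 : -((Real.sqrt A * x) ^ 2 / (2 * A)) + 0 * (Real.sqrt A * x) = -x ^ 2 / 2 := by
      rw [mul_pow, Real.sq_sqrt hA.le]
      field_simp
      ring
    rw [h2]
    ring
  rw [h1, Measure.integral_comp_mul_left
    (fun v => (Real.sqrt (2 * Real.pi))⁻¹ * (f v * gw A 0 v)) (Real.sqrt A),
    integral_const_mul, abs_of_pos (inv_pos.2 hs), smul_eq_mul, ← mul_assoc]
  congr 1
  rw [Real.sqrt_mul (show (0 : ℝ) ≤ 2 * Real.pi by positivity) A, mul_inv]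
  exact mul_comm _ _

theorem S7g3a_cases : ∀ c d : Fin 2, c ≠ d → (c = 0 ∧ d = 1) ∨ (c = 1 ∧ d = 0) := by
  decide

theorem S7g3a_sum {c d : Fin 2} (hcd : c ≠ d) (f : Fin 2 → ℝ) : ∑ j, f j = f c + f d := by
  rw [Fin.sum_univ_two]
  rcases S7g3a_cases c d hcd with ⟨rfl, rfl⟩ | ⟨rfl, rfl⟩
  · rfl
  · exact add_comm _ _

theorem S7g3a_fub {c d : Fin 2} (hcd : c ≠ d) (G : ℝ → ℝ → ℝ)
    (hG : Integrable (fun x : Fin 2 → ℝ => G (x c) (x d)) (gam (Fin 2))) :
    ∫ x, G (x c) (x d) ∂(gam (Fin 2)) = ∫ x, ∫ y, G x y ∂(gaussianReal 0 1) ∂(gaussianReal 0 1) := by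
  have hmp : MeasurePreserving (MeasurableEquiv.piFinTwo (fun _ : Fin 2 => ℝ)) (gam (Fin 2))
      ((gaussianReal 0 1).prod (gaussianReal 0 1)) :=
    measurePreserving_piFinTwo (fun _ : Fin 2 => gaussianReal 0 1)
  have hme := (MeasurableEquiv.piFinTwo (fun _ : Fin 2 => ℝ)).measurableEmbedding
  rcases S7g3a_cases c d hcd with ⟨rfl, rfl⟩ | ⟨rfl, rfl⟩
  · have h1 : ∫ x, G (x 0) (x 1) ∂(gam (Fin 2)) =
        ∫ p, G p.1 p.2 ∂((gaussianReal 0 1).prod (gaussianReal 0 1)) :=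
      hmp.integral_comp hme (fun p : ℝ × ℝ => G p.1 p.2)
    have h2 : Integrable (fun p : ℝ × ℝ => G p.1 p.2)
        ((gaussianReal 0 1).prod (gaussianReal 0 1)) :=
      (hmp.integrable_comp_emb hme).1 hG
    rw [h1, integral_prod _ h2]
  · have h1 : ∫ x, G (x 1) (x 0) ∂(gam (Fin 2)) =
        ∫ p, G p.2 p.1 ∂((gaussianReal 0 1).prod (gaussianReal 0 1)) :=
      hmp.integral_comp hme (fun p : ℝ × ℝ => G p.2 p.1)
    have h2 : Integrable (fun p : ℝ × ℝ => G p.2 p.1)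
        ((gaussianReal 0 1).prod (gaussianReal 0 1)) :=
      (hmp.integrable_comp_emb hme).1 hG
    rw [h1, integral_prod_symm _ h2]

/-- The vector `Bm β E x` has covariance `2 β_c β_d Q_cd`, so it has the law of
`(√A x, ρ √A x + s y)`, `A = 2 β_c² Q_cc`, `ρ = β_d Q_cd/(β_c Q_cc)`, `s = √(2 β_d² Q_dd - ρ² A)`.
Proof: `gam_map_linear_eq` for `M = Bm (be b1 b2) E` and `M' ` = the matrix with `M' c c = √A`, `M' c d = 0`, `M' d c = ρ √A`, `M' d d = s` (`Q` is positive semidefinite, so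
`Q_cd² ≤ Q_cc Q_dd` and `2 β_d² Q_dd - ρ² A ≥ 0`); treat `c = 0, d = 1` and `c = 1, d = 0` (`fin_cases`). Then Fubini for `gam (Fin 2)` (product of two copies of
`gaussianReal 0 1`: `measurePreserving_piFinTwo`, integrability of `H` composed with the linear map by the exponential growth), and `gauss_one`. -/
theorem gauss_two (b1 b2 : ℝ) (hb1 : 0 < b1) (hb2 : 0 < b2) (Q : Matrix (Fin 2) (Fin 2) ℝ)
    (hQ : Q.PosSemidef) (c d : Fin 2) (hcd : c ≠ d) (hc : 0 < Q c c) (A ρ : ℝ)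
    (hA : A = 2 * be b1 b2 c ^ 2 * Q c c)
    (hρ : ρ = be b1 b2 d * Q c d / (be b1 b2 c * Q c c)) (E : Matrix (Fin 2) (Fin 2) ℝ)
    (hE : E * Eᵀ = Q) (H : ℝ → ℝ → ℝ) (hH : Continuous (fun p : ℝ × ℝ => H p.1 p.2))
    (hb : ∃ C : ℝ, ∀ v w, |H v w| ≤ C * Real.exp (C * (|v| + |w|))) :
    ∫ x, H ((Bm (be b1 b2) E).mulVec x c) ((Bm (be b1 b2) E).mulVec x d) ∂(gam (Fin 2)) =
      (Real.sqrt (2 * Real.pi * A))⁻¹ * ∫ v, (∫ y, H v (ρ * v +
        Real.sqrt (2 * be b1 b2 d ^ 2 * Q d d - ρ ^ 2 * A) * y) ∂(gaussianReal 0 1)) * gw A 0 v := by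
  have hβ : ∀ e : Fin 2, 0 < be b1 b2 e := by
    intro e
    fin_cases e
    · exact hb1
    · exact hb2
  have hcas : ∀ i : Fin 2, i = c ∨ i = d := by
    intro i
    rcases S7g3a_cases c d hcd with ⟨rfl, rfl⟩ | ⟨rfl, rfl⟩
    · fin_cases i
      · exact Or.inl rfl
      · exact Or.inr rfl
    · fin_cases i
      · exact Or.inr rfl
      · exact Or.inl rfl
  have hsym : ∀ i j, Q i j = Q j i := by
    intro i j
    have h1 := hQ.isHermitian.apply i j
    simpa using h1.symm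
  have hA0 : 0 < A := by
    rw [hA]
    have := hβ c
    positivity
  have hdet : Q c d ^ 2 ≤ Q c c * Q d d := by
    have h1 := hQ.det_nonneg
    rw [Matrix.det_fin_two] at h1
    have h2 := hsym 0 1
    rcases S7g3a_cases c d hcd with ⟨rfl, rfl⟩ | ⟨rfl, rfl⟩
    · rw [← h2] at h1
      nlinarith
    · rw [← h2] at h1 ⊢
      nlinarith
  have hρA : ρ ^ 2 * A = 2 * be b1 b2 d ^ 2 * (Q c d ^ 2 / Q c c) := by
    rw [hρ, hA]
    have := (hβ c).ne'
    have := hc.ne'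
    field_simp
  have hs0 : 0 ≤ 2 * be b1 b2 d ^ 2 * Q d d - ρ ^ 2 * A := by
    rw [hρA]
    have h1 : Q c d ^ 2 / Q c c ≤ Q d d := by
      rw [div_le_iff₀ hc]
      linarith
    have h2 : 0 ≤ 2 * be b1 b2 d ^ 2 := by positivity
    have := mul_le_mul_of_nonneg_left h1 h2
    linarith
  obtain ⟨s, hs⟩ : ∃ s : ℝ, s = Real.sqrt (2 * be b1 b2 d ^ 2 * Q d d - ρ ^ 2 * A) := ⟨_, rfl⟩
  have hs2 : s * s = 2 * be b1 b2 d ^ 2 * Q d d - ρ ^ 2 * A := by
    rw [hs]
    exact Real.mul_self_sqrt hs0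
  obtain ⟨a, ha⟩ : ∃ a : ℝ, a = Real.sqrt A := ⟨_, rfl⟩
  have ha2 : a * a = A := by
    rw [ha]
    exact Real.mul_self_sqrt hA0.le
  have hρQ : ρ * A = 2 * (be b1 b2 c * be b1 b2 d) * Q c d := by
    rw [hρ, hA]
    have := (hβ c).ne'
    have := hc.ne'
    field_simp
  rw [← hs]
  obtain ⟨M', hM'⟩ : ∃ M' : Matrix (Fin 2) (Fin 2) ℝ, M' = fun i j =>
      if i = c then (if j = c then a else 0) else (if j = c then ρ * a else s) := ⟨_, rfl⟩
  have m1 : M' c c = a := by rw [hM']; simp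
  have m2 : M' c d = 0 := by rw [hM']; simp [Ne.symm hcd]
  have m3 : M' d c = ρ * a := by rw [hM']; simp [Ne.symm hcd]
  have m4 : M' d d = s := by rw [hM']; simp [Ne.symm hcd]
  have hMM : Bm (be b1 b2) E * (Bm (be b1 b2) E)ᵀ = M' * M'ᵀ := by
    have hL : ∀ i j, (Bm (be b1 b2) E * (Bm (be b1 b2) E)ᵀ) i j =
        2 * (be b1 b2 i * be b1 b2 j) * Q i j := by
      intro i j
      rw [← hE, Matrix.mul_apply, Matrix.mul_apply, Finset.mul_sum]
      refine Finset.sum_congr rfl fun k _ => ?_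
      rw [Matrix.transpose_apply, Matrix.transpose_apply]
      unfold Bm
      have h2 : Real.sqrt 2 * Real.sqrt 2 = 2 := Real.mul_self_sqrt (by norm_num)
      linear_combination (be b1 b2 i * be b1 b2 j * (E i k * E j k)) * h2
    have hR : ∀ i j, (M' * M'ᵀ) i j = M' i c * M' j c + M' i d * M' j d := by
      intro i j
      rw [Matrix.mul_apply, S7g3a_sum hcd]
      rfl
    ext i j
    rw [hL, hR]
    rcases hcas i with rfl | rfl <;> rcases hcas j with rfl | rfl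
    · rw [m1, m2]
      linear_combination -ha2 - hA
    · rw [m1, m2, m3]
      linear_combination (-ρ) * ha2 - hρQ
    · rw [m1, m2, m3, hsym i j]
      linear_combination (-ρ) * ha2 - hρQ
    · rw [m3, m4]
      linear_combination (-ρ ^ 2) * ha2 - hs2
  have hlaw := gam_map_linear_eq (Bm (be b1 b2) E) M' hMM
  -- the test function
  have hcd' : Continuous (fun y : Fin 2 → ℝ => ((y c, y d) : ℝ × ℝ)) :=
    (continuous_apply c).prodMk (continuous_apply d)
  have hcont : Continuous (fun y : Fin 2 → ℝ => H (y c) (y d)) := hH.comp hcd'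
  have hEG : EG (fun y : Fin 2 → ℝ => H (y c) (y d)) := by
    obtain ⟨C, hC⟩ := hb
    refine ⟨hcont, C, fun z => (hC _ _).trans (le_of_eq ?_)⟩
    unfold n1
    rw [S7g3a_sum hcd (fun j => |z j|)]
  have hlin : ∀ M : Matrix (Fin 2) (Fin 2) ℝ, Continuous (fun x : Fin 2 → ℝ => M.mulVec x) :=
    fun M => Continuous.matrix_mulVec continuous_const continuous_id
  have h1 : ∀ M : Matrix (Fin 2) (Fin 2) ℝ,
      ∫ y, H (y c) (y d) ∂((gam (Fin 2)).map (fun x => M.mulVec x)) =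
        ∫ x, H (M.mulVec x c) (M.mulVec x d) ∂(gam (Fin 2)) := by
    intro M
    exact integral_map (hlin M).measurable.aemeasurable hcont.aestronglyMeasurable
  rw [← h1, hlaw, h1]
  have hv : ∀ x : Fin 2 → ℝ, M'.mulVec x c = a * x c ∧ M'.mulVec x d = ρ * (a * x c) + s * x d := by
    intro x
    constructor
    · rw [Matrix.mulVec, dotProduct, S7g3a_sum hcd, m1, m2]
      ring
    · rw [Matrix.mulVec, dotProduct, S7g3a_sum hcd, m3, m4]
      ring
  have h2 : (fun x : Fin 2 → ℝ => H (M'.mulVec x c) (M'.mulVec x d)) =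
      fun x => (fun p q => H (a * p) (ρ * (a * p) + s * q)) (x c) (x d) := by
    funext x
    rw [(hv x).1, (hv x).2]
  have hint : Integrable (fun x : Fin 2 → ℝ =>
      (fun p q => H (a * p) (ρ * (a * p) + s * q)) (x c) (x d)) (gam (Fin 2)) := by
    rw [← h2]
    have h3 := (hEG.comp_affine 0 M').integrable
    simp only [zero_add] at h3
    exact h3
  rw [h2, S7g3a_fub hcd (fun p q => H (a * p) (ρ * (a * p) + s * q)) hint]
  rw [ha]
  exact gauss_one A hA0 (fun v => ∫ y, H v (ρ * v + s * y) ∂(gaussianReal 0 1))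

end SKC.Z
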