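import Pool.Agent.H.MP_08eaf3_pr.Z.OkP

/-!
# Part Z: moments near magnetisation one
-/

set_option autoImplicit false
set_option linter.unusedSectionVars false

open MeasureTheory ProbabilityTheory Filter Topology Matrix

namespace SKC.Z

/-- Powers of a number in `[-1,1]`: `|1 - x^e| ≤ e (1 - x)`. -/
theorem one_sub_pow_le (x : ℝ) (h1 : -1 ≤ x) (h2 : x ≤ 1) (e : ℕ) :
    |1 - x ^ e| ≤ e * (1 - x) := by
  induction e with
  | zero => simp
  | succ n ih =>
    have he : 1 - x ^ (n + 1) = (1 - x) + x * (1 - x ^ n) := by ring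
    rw [he]
    refine (abs_add_le _ _).trans ?_
    rw [abs_mul, abs_of_nonneg (sub_nonneg.mpr h2)]
    have hx : |x| ≤ 1 := abs_le.mpr ⟨h1, h2⟩
    have h3 : |x| * |1 - x ^ n| ≤ 1 * |1 - x ^ n| :=
      mul_le_mul_of_nonneg_right hx (abs_nonneg _)
    push_cast
    linarith

/-- bounded continuous functions are in the class `EG` -/
theorem SM1_EG {K : Type} [Fintype K] {h : (K → ℝ) → ℝ} (hc : Continuous h) (B : ℝ)
    (hb : ∀ z, |h z| ≤ B) : EG h := by
  refine ⟨hc, B, fun z => (hb z).trans ?_⟩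
  have hB : 0 ≤ B := (abs_nonneg _).trans (hb z)
  have hn : 0 ≤ n1 z := by
    unfold n1
    exact Finset.sum_nonneg fun _ _ => abs_nonneg _
  exact le_mul_of_one_le_right hB (Real.one_le_exp (mul_nonneg hB hn))

/-- absolute values of chain expectations -/
theorem SM1_abs {K : Type} [Fintype K] [DecidableEq K] (β : K → ℝ) (l : List (Step K))
    (F h g : (K → ℝ) → ℝ) (hF : LG F) (hh : EG h) (hg : EG g) (hle : ∀ z, |h z| ≤ g z) (z : K → ℝ) :
    |ChE β l F h z| ≤ ChE β l F g z := by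
  rw [abs_le]
  constructor
  · have h1 := ChE_smul β l F g (-1) z
    have hg' : EG (fun y => -1 * g y) := by
      obtain ⟨hc, C, hC⟩ := hg
      refine ⟨continuous_const.mul hc, C, fun y => ?_⟩
      rw [abs_mul, abs_neg, abs_one, one_mul]
      exact hC y
    have h2 := ChE_mono β l F (fun y => -1 * g y) h hF hg' hh
      (fun y => by have := neg_le_of_abs_le (hle y); linarith) z
    rw [h1] at h2
    linarith
  · exact ChE_mono β l F h g hF hh hg (fun y => le_of_abs_le (hle y)) z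

/-- `|1 - V_e(z)| ≤ e (1 - M(z))` and `|(-1)^e - V_e(z)| ≤ e (1 + M(z))`, where
`M = Mg β (l2 ++ l3) c = ChE l2 (Mg l3 c)` (`Mg_append`).

Proof. `1 - V_e(z) = ChE β l2 _ (1 - M'^e) z` with `M' = Mg β l3 c`, `|M'| < 1`, and
`|1 - M'^e| ≤ e (1 - M')` pointwise; use `ChE_mono` (for both signs), `ChE_const`, `ChE_add`,
`ChE_smul` and `Mg_append`. The second one: apply the first inequality to `-x`:
`|(-1)^e - x^e| = |1 - (-x)^e| ≤ e (1 + x)`. All functions are bounded and continuous (`Mg_lip`),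
hence in the class `EG`. -/
theorem Vv_near_one {K : Type} [Fintype K] [DecidableEq K] (β : K → ℝ) (l2 l3 : List (Step K))
    (hl : Ok (l2 ++ l3)) (c : K) (e : ℕ) (z : K → ℝ) :
    |1 - Vv β l2 l3 c e z| ≤ e * (1 - Mg β (l2 ++ l3) c z) ∧
    |(-1) ^ e - Vv β l2 l3 c e z| ≤ e * (1 + Mg β (l2 ++ l3) c z) := by
  have hl3 : Ok l3 := hl.right
  have hF : LG (PsiL β l3 F0) := LG_PsiL β l3 F0 LG_F0
  have hMc : Continuous (Mg β l3 c) := by
    rw [Metric.continuous_iff]
    intro y ε hε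
    have hn1c : Continuous (fun z' : K → ℝ => n1 (z' - y)) := by
      unfold n1
      fun_prop
    have h0 : n1 (y - y) < ε := by
      rw [sub_self]
      unfold n1
      simpa using hε
    have hev := hn1c.continuousAt.eventually (gt_mem_nhds h0)
    obtain ⟨δ, hδ, hball⟩ := Metric.eventually_nhds_iff.mp hev
    refine ⟨δ, hδ, fun a ha => ?_⟩
    rw [Real.dist_eq]
    exact lt_of_le_of_lt (Mg_lip β l3 hl3 c a y) (hball ha)
  have hMb : ∀ y, |Mg β l3 c y| ≤ 1 := fun y => (Mg_lt_one β l3 c y).le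
  have hMp : ∀ y, |Mg β l3 c y ^ e| ≤ 1 := fun y => by
    rw [abs_pow]
    exact pow_le_one₀ (abs_nonneg _) (hMb y)
  have key : ∀ s : ℝ, (s = 1 ∨ s = -1) →
      |s ^ e - Vv β l2 l3 c e z| ≤ e * (1 - s * Mg β (l2 ++ l3) c z) := by
    intro s hs
    have hsa : |s| = 1 := by
      rcases hs with h | h <;> rw [h] <;> simp
    have hss : s * s = 1 := by
      rcases hs with h | h <;> rw [h] <;> norm_num
    have hA : EG (fun y => s ^ e + -1 * Mg β l3 c y ^ e) := by
      refine SM1_EG (by fun_prop) 2 fun y => ?_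
      refine (abs_add_le _ _).trans ?_
      rw [abs_mul, abs_neg, abs_one, one_mul, abs_pow, hsa, one_pow]
      linarith [hMp y]
    have hB : EG (fun y => (e : ℝ) * (1 + -s * Mg β l3 c y)) := by
      refine SM1_EG (by fun_prop) ((e : ℝ) * 2) fun y => ?_
      rw [abs_mul, Nat.abs_cast]
      refine mul_le_mul_of_nonneg_left ?_ (Nat.cast_nonneg e)
      refine (abs_add_le _ _).trans ?_
      rw [abs_mul, abs_neg, hsa, abs_one, one_mul]
      linarith [hMb y]
    have hle : ∀ y, |s ^ e + -1 * Mg β l3 c y ^ e| ≤ (e : ℝ) * (1 + -s * Mg β l3 c y) := by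
      intro y
      have hx : |s * Mg β l3 c y| ≤ 1 := by
        rw [abs_mul, hsa, one_mul]
        exact hMb y
      have h1 := one_sub_pow_le (s * Mg β l3 c y) (abs_le.mp hx).1 (abs_le.mp hx).2 e
      have h2 : s ^ e + -1 * Mg β l3 c y ^ e = s ^ e * (1 - (s * Mg β l3 c y) ^ e) := by
        have h3 : s ^ e * s ^ e = 1 := by rw [← mul_pow, hss, one_pow]
        rw [mul_pow]
        linear_combination (Mg β l3 c y ^ e) * h3
      rw [h2, abs_mul, abs_pow, hsa, one_pow, one_mul]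
      refine h1.trans (le_of_eq ?_)
      ring
    have hmain := SM1_abs β l2 (PsiL β l3 F0) _ _ hF hA hB hle z
    have hc1 : EG (fun _ : K → ℝ => s ^ e) :=
      SM1_EG continuous_const |s ^ e| fun _ => le_rfl
    have hc2 : EG (fun y => -1 * Mg β l3 c y ^ e) := by
      refine SM1_EG (by fun_prop) 1 fun y => ?_
      rw [abs_mul, abs_neg, abs_one, one_mul]
      exact hMp y
    have hc3 : EG (fun _ : K → ℝ => (1 : ℝ)) :=
      SM1_EG continuous_const 1 fun _ => by rw [abs_one]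
    have hc4 : EG (fun y => -s * Mg β l3 c y) := by
      refine SM1_EG (by fun_prop) 1 fun y => ?_
      rw [abs_mul, abs_neg, hsa, one_mul]
      exact hMb y
    rw [ChE_add β l2 (PsiL β l3 F0) (fun _ => s ^ e) (fun y => -1 * Mg β l3 c y ^ e) hF hc1 hc2 z,
      ChE_const β l2 (PsiL β l3 F0) hF (s ^ e),
      ChE_smul β l2 (PsiL β l3 F0) (fun y => Mg β l3 c y ^ e) (-1) z,
      ChE_smul β l2 (PsiL β l3 F0) (fun y => 1 + -s * Mg β l3 c y) (e : ℝ) z,
      ChE_add β l2 (PsiL β l3 F0) (fun _ => (1 : ℝ)) (fun y => -s * Mg β l3 c y) hF hc3 hc4 z,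
      ChE_const β l2 (PsiL β l3 F0) hF 1,
      ChE_smul β l2 (PsiL β l3 F0) (Mg β l3 c) (-s) z, ← Mg_append β l2 l3 c] at hmain
    have h5 : s ^ e + -1 * ChE β l2 (PsiL β l3 F0) (fun y => Mg β l3 c y ^ e) z =
        s ^ e - Vv β l2 l3 c e z := by
      unfold Vv
      ring
    have h6 : (e : ℝ) * (1 + -s * Mg β (l2 ++ l3) c z) = e * (1 - s * Mg β (l2 ++ l3) c z) := by
      ring
    rw [h5, h6] at hmain
    exact hmain
  constructor
  · have h := key 1 (Or.inl rfl)
    rw [one_pow, one_mul] at h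
    exact h
  · have h := key (-1) (Or.inr rfl)
    have h7 : (e : ℝ) * (1 - -1 * Mg β (l2 ++ l3) c z) = e * (1 + Mg β (l2 ++ l3) c z) := by ring
    rw [h7] at h
    exact h

end SKC.Z
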