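import Pool.Agent.H.MP_08eaf3_pr.IfI
import Pool.Agent.H.MP_08eaf3_pr.IfJ
import Pool.Agent.H.MP_08eaf3_pr.IfL
import Pool.Agent.H.MP_08eaf3_pr.IfA

/-!
# Part Z: common setting
-/

set_option autoImplicit false

open MeasureTheory ProbabilityTheory Filter Topology Matrix

namespace SKC.Z

/-- the standing assumptions of Part Z: `u` is the positive maximum of `U`, the Parisi formula
holds at both temperatures -/
structure Setting (b1 b2 u : ℝ) : Prop where
  hb1 : 0 < b1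
  hb2 : 0 < b2
  hu : 0 < u
  hu1 : u ≤ 1
  hmax : ∀ v : ℝ, memU b1 b2 v → |v| ≤ u
  hP1 : Tendsto (FN b1) atTop (𝓝 (Fo b1))
  hP2 : Tendsto (FN b2) atTop (𝓝 (Fo b2))

/-- determinant of the level matrix -/
noncomputable def dt {b1 b2 u : ℝ} (L : LData b1 b2 u) (t : ℝ) : ℝ :=
  L.Q t 0 0 * L.Q t 1 1 - L.Q t 0 1 ^ 2

end SKC.Z
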