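import Pool.Agent.H.MP_08eaf3_pr.Z.OkP

/-!
# Part Z: two independent copies, definitions
-/

set_option autoImplicit false
set_option linter.unusedSectionVars false

open MeasureTheory ProbabilityTheory Filter Topology Matrix

namespace SKC.Z

/-- expectation over two independent copies of the chain started at `0` -/
noncomputable def E2 {K : Type} [Fintype K] (β : K → ℝ) (l : List (Step K)) (F : (K → ℝ) → ℝ)
    (Φ : (K → ℝ) → (K → ℝ) → ℝ) : ℝ :=
  ChE β l F (fun z => ChE β l F (fun z' => Φ z z') 0) 0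

/-- the test vector `(V_1(z), V_e(z), V_1(z'), V_e(z'))` -/
noncomputable def VVt {K : Type} [Fintype K] [DecidableEq K] (β : K → ℝ) (l2 l3 : List (Step K))
    (c : K) (e : ℕ) (z z' : K → ℝ) : Fin 4 → ℝ :=
  ![Vv β l2 l3 c 1 z, Vv β l2 l3 c e z, Vv β l2 l3 c 1 z', Vv β l2 l3 c e z']

end SKC.Z
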