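import Pool.Agent.H.MP_08eaf3_pr.Z.TC0
import Pool.Agent.H.MP_08eaf3_pr.Z.SM2

/-!
# Part Z: two copies, polynomials
-/

set_option autoImplicit false
set_option linter.unusedSectionVars false

open MeasureTheory ProbabilityTheory Filter Topology Matrix

namespace SKC.Z

/-- bounded continuous functions are in the class `EG` -/
theorem TC1_EG {K : Type} [Fintype K] {h : (K → ℝ) → ℝ} {B : ℝ} (hc : Continuous h) (hB : 0 ≤ B)
    (hb : ∀ z, |h z| ≤ B) : EG h := by
  refine ⟨hc, B, fun z => (hb z).trans ?_⟩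
  have h1 : 0 ≤ n1 z := Finset.sum_nonneg fun _ _ => abs_nonneg _
  have h2 : 1 ≤ Real.exp (B * n1 z) := Real.one_le_exp (mul_nonneg hB h1)
  nlinarith

/-- linearity for finite sums -/
theorem TC1_sum {K : Type} [Fintype K] [DecidableEq K] {D : Type} (β : K → ℝ) (l : List (Step K))
    (G : (K → ℝ) → ℝ) (hG : LG G) (s : Finset D) (a : D → ℝ) (h : D → (K → ℝ) → ℝ)
    (hc : ∀ d, Continuous (h d)) (hb : ∀ d z, |h d z| ≤ 1) (z : K → ℝ) :
    ChE β l G (fun y => ∑ d ∈ s, a d * h d y) z = ∑ d ∈ s, a d * ChE β l G (h d) z := by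
  classical
  induction s using Finset.induction_on with
  | empty =>
    simp only [Finset.sum_empty]
    rw [ChE_const β l G hG 0]
  | insert d s hd ih =>
    simp only [Finset.sum_insert hd]
    have e1 : EG (fun y => a d * h d y) := by
      refine TC1_EG (B := |a d|) (continuous_const.mul (hc d)) (abs_nonneg _) fun z => ?_
      rw [abs_mul]
      exact mul_le_of_le_one_right (abs_nonneg _) (hb d z)
    have e2 : EG (fun y => ∑ d ∈ s, a d * h d y) := by
      refine TC1_EG (B := ∑ d ∈ s, |a d|)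
        (continuous_finsetSum _ fun d _ => continuous_const.mul (hc d))
        (Finset.sum_nonneg fun _ _ => abs_nonneg _) fun z => ?_
      refine (Finset.abs_sum_le_sum_abs _ _).trans (Finset.sum_le_sum fun d _ => ?_)
      rw [abs_mul]
      exact mul_le_of_le_one_right (abs_nonneg _) (hb d z)
    rw [ChE_add β l G _ _ hG e1 e2, ih, ChE_smul]

/-- continuity from the Lipschitz bound -/
theorem TC1_cont {K : Type} [Fintype K] {h : (K → ℝ) → ℝ} {C : ℝ}
    (hC : ∀ z z', |h z - h z'| ≤ C * n1 (z - z')) : Continuous h := by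
  rw [continuous_iff_continuousAt]
  intro z
  have h1 : Continuous (fun y : K → ℝ => C * n1 (y - z)) := by
    unfold n1
    fun_prop
  have h2 : Filter.Tendsto (fun y : K → ℝ => C * n1 (y - z)) (𝓝 z) (𝓝 0) := by
    have h3 := h1.tendsto z
    have h4 : C * n1 (z - z) = 0 := by simp [n1]
    rwa [h4] at h3
  rw [ContinuousAt, tendsto_iff_dist_tendsto_zero]
  refine squeeze_zero (fun y => dist_nonneg) (fun y => ?_) h2
  rw [Real.dist_eq]
  exact hC y z

/-- Expectation of a polynomial of the test vector: sum of products of moments.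

Proof. `MvPolynomial.eval_eq'`: `eval x p = ∑_{d ∈ p.support} coeff d p * ∏ i, x i ^ d i`; expand the
product over `Fin 4`, use linearity (`ChE_smul`, finite sums by induction from `ChE_add`) in both
copies: for fixed `z` the inner expectation is
`V_1(z)^{d0} V_e(z)^{d1} * ChE (V_1^{d2} V_e^{d3}) 0`. All functions are continuous and bounded
(`Vv_lip`), hence `EG`. -/
theorem E2_poly {K : Type} [Fintype K] [DecidableEq K] (β : K → ℝ) (l1 l2 l3 : List (Step K))
    (hl : Ok (l1 ++ (l2 ++ l3))) (c : K) (e : ℕ) (p : MvPolynomial (Fin 4) ℝ) :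
    E2 β l1 (PsiL β (l2 ++ l3) F0) (fun z z' => MvPolynomial.eval (VVt β l2 l3 c e z z') p) =
      ∑ d ∈ p.support, p.coeff d *
        (ChE β l1 (PsiL β (l2 ++ l3) F0)
            (fun z => Vv β l2 l3 c 1 z ^ d 0 * Vv β l2 l3 c e z ^ d 1) 0 *
          ChE β l1 (PsiL β (l2 ++ l3) F0)
            (fun z => Vv β l2 l3 c 1 z ^ d 2 * Vv β l2 l3 c e z ^ d 3) 0) := by
  have hG : LG (PsiL β (l2 ++ l3) F0) := LG_PsiL β (l2 ++ l3) F0 LG_F0
  have hV : ∀ e, Continuous (Vv β l2 l3 c e) ∧ ∀ z, |Vv β l2 l3 c e z| ≤ 1 := by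
    intro e
    obtain ⟨C, -, hC⟩ := Vv_lip β e
    exact ⟨TC1_cont (C := C) fun z z' => (hC l2 l3 hl.right c z z').2,
      fun z => (hC l2 l3 hl.right c z z).1⟩
  have hVc : ∀ i j : ℕ, Continuous (fun z => Vv β l2 l3 c 1 z ^ i * Vv β l2 l3 c e z ^ j) :=
    fun i j => ((hV 1).1.pow i).mul ((hV e).1.pow j)
  have hVb : ∀ (i j : ℕ) (z : K → ℝ), |Vv β l2 l3 c 1 z ^ i * Vv β l2 l3 c e z ^ j| ≤ 1 := by
    intro i j z
    rw [abs_mul, abs_pow, abs_pow]
    exact mul_le_one₀ (pow_le_one₀ (abs_nonneg _) ((hV 1).2 z)) (pow_nonneg (abs_nonneg _) _)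
      (pow_le_one₀ (abs_nonneg _) ((hV e).2 z))
  set I : (Fin 4 →₀ ℕ) → ℝ := fun d => ChE β l1 (PsiL β (l2 ++ l3) F0)
    (fun z => Vv β l2 l3 c 1 z ^ d 2 * Vv β l2 l3 c e z ^ d 3) 0 with hI
  have hin : ∀ z : K → ℝ, ChE β l1 (PsiL β (l2 ++ l3) F0)
      (fun z' => MvPolynomial.eval (VVt β l2 l3 c e z z') p) 0 =
      ∑ d ∈ p.support, (p.coeff d * I d) * (Vv β l2 l3 c 1 z ^ d 0 * Vv β l2 l3 c e z ^ d 1) := by
    intro z
    have h1 : (fun z' => MvPolynomial.eval (VVt β l2 l3 c e z z') p) = fun z' =>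
        ∑ d ∈ p.support, (p.coeff d * (Vv β l2 l3 c 1 z ^ d 0 * Vv β l2 l3 c e z ^ d 1)) *
          (Vv β l2 l3 c 1 z' ^ d 2 * Vv β l2 l3 c e z' ^ d 3) := by
      funext z'
      rw [MvPolynomial.eval_eq']
      refine Finset.sum_congr rfl fun d _ => ?_
      rw [Fin.prod_univ_four]
      simp only [VVt, Matrix.cons_val_zero, Matrix.cons_val_one, Matrix.cons_val]
      ring
    rw [h1, TC1_sum β l1 _ hG p.support
      (fun d => p.coeff d * (Vv β l2 l3 c 1 z ^ d 0 * Vv β l2 l3 c e z ^ d 1))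
      (fun d z' => Vv β l2 l3 c 1 z' ^ d 2 * Vv β l2 l3 c e z' ^ d 3)
      (fun d => hVc _ _) (fun d z' => hVb _ _ z')]
    refine Finset.sum_congr rfl fun d _ => ?_
    simp only [hI]
    ring
  unfold E2
  rw [funext hin, TC1_sum β l1 _ hG p.support (fun d => p.coeff d * I d)
      (fun d z => Vv β l2 l3 c 1 z ^ d 0 * Vv β l2 l3 c e z ^ d 1)
      (fun d => hVc _ _) (fun d z => hVb _ _ z)]
  refine Finset.sum_congr rfl fun d _ => ?_
  simp only [hI]
  ring

end SKC.Z
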