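import Pool.Agent.H.MP_08eaf3_pr.Z.TC0
import Pool.Agent.H.MP_08eaf3_pr.Z.SM2

/-!
# Part Z: two copies, uniform approximation
-/

set_option autoImplicit false
set_option linter.unusedSectionVars false

open MeasureTheory ProbabilityTheory Filter Topology Matrix

namespace SKC.Z

section TC2aux

variable {K : Type} [Fintype K]

theorem TC2_n1_nonneg (z : K → ℝ) : 0 ≤ n1 z := Finset.sum_nonneg (fun _ _ => abs_nonneg _)

theorem TC2_n1_continuous : Continuous (n1 : (K → ℝ) → ℝ) := by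
  unfold n1
  fun_prop

theorem TC2_EG_bdd (h : (K → ℝ) → ℝ) (hc : Continuous h) (B : ℝ) (hB : ∀ z, |h z| ≤ B) : EG h := by
  refine ⟨hc, |B|, fun z => ?_⟩
  have h1 : 1 ≤ Real.exp (|B| * n1 z) :=
    Real.one_le_exp (mul_nonneg (abs_nonneg _) (TC2_n1_nonneg z))
  calc |h z| ≤ B := hB z
    _ ≤ |B| := le_abs_self B
    _ = |B| * 1 := (mul_one _).symm
    _ ≤ |B| * Real.exp (|B| * n1 z) := mul_le_mul_of_nonneg_left h1 (abs_nonneg _)

theorem TC2_EG_add_const (h : (K → ℝ) → ℝ) (hh : EG h) (ε : ℝ) : EG (fun z => h z + ε) := by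
  obtain ⟨hc, C, hC⟩ := hh
  refine ⟨hc.add continuous_const, |C| + |ε|, fun z => ?_⟩
  have hn := TC2_n1_nonneg z
  have h0 : 0 ≤ |C| + |ε| := by positivity
  have h1 : 1 ≤ Real.exp ((|C| + |ε|) * n1 z) := Real.one_le_exp (mul_nonneg h0 hn)
  have h2 : Real.exp (C * n1 z) ≤ Real.exp ((|C| + |ε|) * n1 z) := by
    apply Real.exp_le_exp.mpr
    apply mul_le_mul_of_nonneg_right _ hn
    linarith [le_abs_self C, abs_nonneg ε]
  have h3 : C * Real.exp (C * n1 z) ≤ |C| * Real.exp ((|C| + |ε|) * n1 z) :=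
    calc C * Real.exp (C * n1 z) ≤ |C| * Real.exp (C * n1 z) :=
          mul_le_mul_of_nonneg_right (le_abs_self C) (Real.exp_pos _).le
      _ ≤ |C| * Real.exp ((|C| + |ε|) * n1 z) := mul_le_mul_of_nonneg_left h2 (abs_nonneg _)
  have h4 : |ε| ≤ |ε| * Real.exp ((|C| + |ε|) * n1 z) :=
    le_mul_of_one_le_right (abs_nonneg _) h1
  calc |h z + ε| ≤ |h z| + |ε| := abs_add_le _ _
    _ ≤ C * Real.exp (C * n1 z) + |ε| := by linarith [hC z]
    _ ≤ |C| * Real.exp ((|C| + |ε|) * n1 z) + |ε| * Real.exp ((|C| + |ε|) * n1 z) := by linarith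
    _ = (|C| + |ε|) * Real.exp ((|C| + |ε|) * n1 z) := by ring

variable [DecidableEq K]

theorem TC2_le_add (β : K → ℝ) (l : List (Step K)) (F h h' : (K → ℝ) → ℝ) (hF : LG F)
    (hh : EG h) (hh' : EG h') (ε : ℝ) (hle : ∀ z, h z ≤ h' z + ε) (z : K → ℝ) :
    ChE β l F h z ≤ ChE β l F h' z + ε := by
  have he : EG (fun _ : K → ℝ => ε) := TC2_EG_bdd _ continuous_const |ε| (fun _ => le_rfl)
  have h1 := ChE_mono β l F h (fun z => h' z + ε) hF hh (TC2_EG_add_const h' hh' ε) hle z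
  have h2 := ChE_add β l F h' (fun _ => ε) hF hh' he z
  have h3 := congrFun (ChE_const β l F hF ε) z
  rw [h2, h3] at h1
  exact h1

theorem TC2_close (β : K → ℝ) (l : List (Step K)) (F h h' : (K → ℝ) → ℝ) (hF : LG F)
    (hh : EG h) (hh' : EG h') (ε : ℝ) (hle : ∀ z, |h z - h' z| ≤ ε) (z : K → ℝ) :
    |ChE β l F h z - ChE β l F h' z| ≤ ε := by
  have h1 := TC2_le_add β l F h h' hF hh hh' ε (fun z => by linarith [(abs_le.mp (hle z)).2]) z
  have h2 := TC2_le_add β l F h' h hF hh' hh ε (fun z => by linarith [(abs_le.mp (hle z)).1]) z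
  rw [abs_le]
  constructor <;> linarith

theorem TC2_bdd (β : K → ℝ) (l : List (Step K)) (F h : (K → ℝ) → ℝ) (hF : LG F)
    (hh : EG h) (B : ℝ) (hB : ∀ z, |h z| ≤ B) (z : K → ℝ) : |ChE β l F h z| ≤ B := by
  have h0 : EG (fun _ : K → ℝ => (0 : ℝ)) :=
    TC2_EG_bdd _ continuous_const 0 (fun _ => by simp)
  have h1 := TC2_close β l F h (fun _ => 0) hF hh h0 B (fun z => by simpa using hB z) z
  have h3 := congrFun (ChE_const β l F hF 0) z
  rw [h3, sub_zero] at h1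
  exact h1

theorem TC2_Vv_continuous (β : K → ℝ) (l2 l3 : List (Step K)) (hl : Ok (l2 ++ l3)) (c : K)
    (e : ℕ) : Continuous (Vv β l2 l3 c e) := by
  obtain ⟨C, _, hV⟩ := Vv_lip β e
  rw [continuous_iff_continuousAt]
  intro z0
  have h1 : Tendsto (fun z : K → ℝ => C * n1 (z - z0)) (𝓝 z0) (𝓝 0) := by
    have h2 : Continuous (fun z : K → ℝ => C * n1 (z - z0)) :=
      continuous_const.mul (TC2_n1_continuous.comp (continuous_id.sub continuous_const))
    have h3 := h2.tendsto z0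
    have h4 : C * n1 (z0 - z0) = 0 := by simp [n1]
    rwa [h4] at h3
  rw [ContinuousAt, tendsto_iff_dist_tendsto_zero]
  refine squeeze_zero (fun _ => dist_nonneg) (fun z => ?_) h1
  rw [Real.dist_eq]
  exact (hV l2 l3 hl c z z0).2

theorem TC2_VV_le (β : K → ℝ) (l2 l3 : List (Step K)) (hl : Ok (l2 ++ l3)) (c : K)
    (e : ℕ) (z z' : K → ℝ) (i : Fin 4) : |VVt β l2 l3 c e z z' i| ≤ 1 := by
  obtain ⟨C1, _, hV1⟩ := Vv_lip β 1
  obtain ⟨C2, _, hV2⟩ := Vv_lip β e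
  have a1 := (hV1 l2 l3 hl c z z).1
  have a2 := (hV2 l2 l3 hl c z z).1
  have a3 := (hV1 l2 l3 hl c z' z').1
  have a4 := (hV2 l2 l3 hl c z' z').1
  fin_cases i
  · exact a1
  · exact a2
  · exact a3
  · exact a4

theorem TC2_VV_continuous (β : K → ℝ) (l2 l3 : List (Step K)) (hl : Ok (l2 ++ l3)) (c : K)
    (e : ℕ) (z : K → ℝ) : Continuous (fun z' => VVt β l2 l3 c e z z') := by
  have h1 := TC2_Vv_continuous β l2 l3 hl c 1
  have h2 := TC2_Vv_continuous β l2 l3 hl c e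
  refine continuous_pi (fun i => ?_)
  fin_cases i
  · exact continuous_const
  · exact continuous_const
  · exact h1
  · exact h2

/-- the inner expectation is a bounded continuous function of the first copy -/
theorem TC2_inner (β : K → ℝ) (l1 l2 l3 : List (Step K)) (hl : Ok (l2 ++ l3)) (c : K) (e : ℕ)
    (Φ : (Fin 4 → ℝ) → ℝ) (hΦ : Continuous Φ) :
    (∀ z, EG (fun z' => Φ (VVt β l2 l3 c e z z'))) ∧
    EG (fun z => ChE β l1 (PsiL β (l2 ++ l3) F0) (fun z' => Φ (VVt β l2 l3 c e z z')) 0) := by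
  have hF : LG (PsiL β (l2 ++ l3) F0) := LG_PsiL β _ _ LG_F0
  have hK : IsCompact (Metric.closedBall (0 : Fin 4 → ℝ) 1) := isCompact_closedBall 0 1
  have hmem : ∀ z z', VVt β l2 l3 c e z z' ∈ Metric.closedBall (0 : Fin 4 → ℝ) 1 := by
    intro z z'
    rw [mem_closedBall_zero_iff, pi_norm_le_iff_of_nonneg zero_le_one]
    intro i
    rw [Real.norm_eq_abs]
    exact TC2_VV_le β l2 l3 hl c e z z' i
  obtain ⟨B, hB⟩ := hK.exists_bound_of_continuousOn hΦ.continuousOn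
  have hB2 : ∀ z z', |Φ (VVt β l2 l3 c e z z')| ≤ B := fun z z' => by
    rw [← Real.norm_eq_abs]
    exact hB _ (hmem z z')
  have hE : ∀ z, EG (fun z' => Φ (VVt β l2 l3 c e z z')) := fun z =>
    TC2_EG_bdd _ (hΦ.comp (TC2_VV_continuous β l2 l3 hl c e z)) B (hB2 z)
  refine ⟨hE, TC2_EG_bdd _ ?_ B (fun z => TC2_bdd β l1 _ _ hF (hE z) B (hB2 z) 0)⟩
  have hu := hK.uniformContinuousOn_of_continuous hΦ.continuousOn
  rw [Metric.uniformContinuousOn_iff] at hu
  rw [Metric.continuous_iff']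
  intro z0 ε hε
  obtain ⟨δ, hδ, hd⟩ := hu (ε / 2) (half_pos hε)
  have h1 := (Metric.continuous_iff'.mp (TC2_Vv_continuous β l2 l3 hl c 1)) z0 δ hδ
  have h2 := (Metric.continuous_iff'.mp (TC2_Vv_continuous β l2 l3 hl c e)) z0 δ hδ
  filter_upwards [h1, h2] with z hz1 hz2
  have h3 : ∀ z', dist (VVt β l2 l3 c e z z') (VVt β l2 l3 c e z0 z') < δ := by
    intro z'
    rw [dist_pi_lt_iff hδ]
    intro i
    fin_cases i
    · exact hz1
    · exact hz2
    · have : dist (Vv β l2 l3 c 1 z') (Vv β l2 l3 c 1 z') < δ := by rw [dist_self]; exact hδ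
      exact this
    · have : dist (Vv β l2 l3 c e z') (Vv β l2 l3 c e z') < δ := by rw [dist_self]; exact hδ
      exact this
  have h4 := TC2_close β l1 (PsiL β (l2 ++ l3) F0) _ _ hF (hE z) (hE z0) (ε / 2) (fun z' => by
    have h5 := hd _ (hmem z z') _ (hmem z0 z') (h3 z')
    rw [Real.dist_eq] at h5
    exact h5.le) 0
  rw [Real.dist_eq]
  linarith

end TC2aux

/-- If `|Φ - Φ'| ≤ ε` on the cube, then the two-copy expectations differ by at most `ε`.

Proof. `ChE_mono` twice (the test vector is in the cube by `Vv_lip`), with the functions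
`Φ' ± ε`. The functions `z ↦ ChE (fun z' => Φ (VVt z z')) 0` must be shown continuous: `Φ` is
uniformly continuous on the cube and `VVt` is Lipschitz in `z`, uniformly in `z'`; use `ChE_mono` for
the difference. -/
theorem E2_close {K : Type} [Fintype K] [DecidableEq K] (β : K → ℝ) (l1 l2 l3 : List (Step K))
    (hl : Ok (l1 ++ (l2 ++ l3))) (c : K) (e : ℕ) (Φ Φ' : (Fin 4 → ℝ) → ℝ) (hΦ : Continuous Φ)
    (hΦ' : Continuous Φ') (ε : ℝ) (h : ∀ x : Fin 4 → ℝ, (∀ i, |x i| ≤ 1) → |Φ x - Φ' x| ≤ ε) :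
    |E2 β l1 (PsiL β (l2 ++ l3) F0) (fun z z' => Φ (VVt β l2 l3 c e z z')) -
      E2 β l1 (PsiL β (l2 ++ l3) F0) (fun z z' => Φ' (VVt β l2 l3 c e z z'))| ≤ ε := by
  have hr : Ok (l2 ++ l3) := hl.right
  have hF : LG (PsiL β (l2 ++ l3) F0) := LG_PsiL β _ _ LG_F0
  obtain ⟨h1, h2⟩ := TC2_inner β l1 l2 l3 hr c e Φ hΦ
  obtain ⟨h3, h4⟩ := TC2_inner β l1 l2 l3 hr c e Φ' hΦ'
  unfold E2
  exact TC2_close β l1 _ _ _ hF h2 h4 ε (fun z =>
    TC2_close β l1 _ _ _ hF (h1 z) (h3 z) ε (fun z' =>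
      h _ (TC2_VV_le β l2 l3 hr c e z z')) 0) 0

end SKC.Z
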