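import Pool.Agent.H.MP_08eaf3_pr.Z.TC1
import Pool.Agent.H.MP_08eaf3_pr.Z.TC2
import Pool.Agent.H.MP_08eaf3_pr.Z.Poly

/-!
# Part Z: two copies, pair against single
-/

set_option autoImplicit false
set_option linter.unusedSectionVars false

open MeasureTheory ProbabilityTheory Filter Topology Matrix

namespace SKC.Z

section TC3

variable {K : Type} [Fintype K] [DecidableEq K]

/-- a function which is Lipschitz for the `ℓ¹` norm is continuous -/
theorem TC3_cont_of_lip (f : (K → ℝ) → ℝ) (C : ℝ)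
    (h : ∀ z z', |f z - f z'| ≤ C * n1 (z - z')) : Continuous f := by
  rw [continuous_iff_continuousAt]
  intro z0
  rw [ContinuousAt, tendsto_iff_dist_tendsto_zero]
  have h1 : Tendsto (fun z : K → ℝ => C * n1 (z - z0)) (𝓝 z0) (𝓝 0) := by
    have hc : Continuous (fun z : K → ℝ => C * n1 (z - z0)) := by
      unfold n1
      fun_prop
    have h2 := hc.tendsto z0
    have h3 : C * n1 (z0 - z0) = 0 := by simp [n1]
    rw [h3] at h2
    exact h2
  refine squeeze_zero (fun z => dist_nonneg) (fun z => ?_) h1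
  rw [Real.dist_eq]
  exact h z z0

/-- moments of the magnetisations -/
noncomputable def TC3_mom (β : K → ℝ) (l1 l2 l3 : List (Step K)) (c : K) (e a b : ℕ) : ℝ :=
  ChE β l1 (PsiL β (l2 ++ l3) F0)
    (fun z => Vv β l2 l3 c 1 z ^ a * Vv β l2 l3 c e z ^ b) 0

theorem TC3_mom_le (β : K → ℝ) (l1 l2 l3 : List (Step K)) (hl : Ok (l2 ++ l3)) (c : K)
    (e a b : ℕ) : |TC3_mom β l1 l2 l3 c e a b| ≤ 1 := by
  obtain ⟨C1, _, hC1⟩ := Vv_lip β 1
  obtain ⟨Ce, _, hCe⟩ := Vv_lip β e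
  have hc1 : Continuous (Vv β l2 l3 c 1) :=
    TC3_cont_of_lip _ C1 (fun z z' => (hC1 l2 l3 hl c z z').2)
  have hce : Continuous (Vv β l2 l3 c e) :=
    TC3_cont_of_lip _ Ce (fun z z' => (hCe l2 l3 hl c z z').2)
  have hcont : Continuous (fun z => Vv β l2 l3 c 1 z ^ a * Vv β l2 l3 c e z ^ b) :=
    (hc1.pow a).mul (hce.pow b)
  have hb : ∀ z, |Vv β l2 l3 c 1 z ^ a * Vv β l2 l3 c e z ^ b| ≤ 1 := by
    intro z
    rw [abs_mul, abs_pow, abs_pow]
    exact mul_le_one₀ (pow_le_one₀ (abs_nonneg _) (hC1 l2 l3 hl c z z).1)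
      (pow_nonneg (abs_nonneg _) _) (pow_le_one₀ (abs_nonneg _) (hCe l2 l3 hl c z z).1)
  have hF : LG (PsiL β (l2 ++ l3) F0) := LG_PsiL β _ _ LG_F0
  have hE : EG (fun z => Vv β l2 l3 c 1 z ^ a * Vv β l2 l3 c e z ^ b) := EG.of_bdd hcont hb
  have hk : ∀ x : ℝ, EG (fun _ : K → ℝ => x) := fun x =>
    EG.of_bdd continuous_const (A := |x|) (fun _ => le_rfl)
  rw [TC3_mom, abs_le]
  constructor
  · have h := ChE_mono β l1 _ (fun _ => (-1 : ℝ)) _ hF (hk (-1)) hE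
      (fun z => (abs_le.1 (hb z)).1) 0
    rw [ChE_const β l1 _ hF] at h
    exact h
  · have h := ChE_mono β l1 _ _ (fun _ => (1 : ℝ)) hF hE (hk 1)
      (fun z => (abs_le.1 (hb z)).2) 0
    rw [ChE_const β l1 _ hF] at h
    exact h

/-- difference of products of numbers in `[-1,1]` -/
theorem TC3_mul_sub (x y x' y' A B : ℝ) (hx : |x| ≤ 1) (hy' : |y'| ≤ 1) (h1 : |x - x'| ≤ A)
    (h2 : |y - y'| ≤ B) : |x * y - x' * y'| ≤ A + B := by
  have h3 : x * y - x' * y' = x * (y - y') + (x - x') * y' := by ring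
  rw [h3]
  refine (abs_add_le _ _).trans ?_
  rw [abs_mul, abs_mul]
  have h4 : |x| * |y - y'| ≤ B := by
    calc |x| * |y - y'| ≤ 1 * |y - y'| := mul_le_mul_of_nonneg_right hx (abs_nonneg _)
      _ ≤ B := by rw [one_mul]; exact h2
  have h5 : |x - x'| * |y'| ≤ A := by
    calc |x - x'| * |y'| ≤ |x - x'| * 1 := mul_le_mul_of_nonneg_left hy' (abs_nonneg _)
      _ ≤ A := by rw [mul_one]; exact h1
  linarith

/-- the product over `Fin (a+b)` -/
theorem TC3_prod (f : ℕ → ℝ) (a b e : ℕ) :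
    ∏ i, f (Fin.append (fun _ : Fin a => 1) (fun _ : Fin b => e) i) = f 1 ^ a * f e ^ b := by
  rw [Fin.prod_univ_add]
  simp

end TC3

/-- The two-copy laws of the test vector for the pair chain (coordinate `c`) and the single chain
agree in the limit.

Proof. `mvpoly_approx 4 Φ` with `ε/4` gives `p`; `E2_close` twice; for `p` use `E2_poly` on both
sides: for every `d ∈ p.support` the differences of the moments
`ChE (V_1^a V_e^b) 0` are at most `C_{a,b} sqrt δ` by `touch_single` with `n = a + b` groups and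
exponents `1` (a times), `e` (b times) (write the product over `Fin (a+b)` with `Fin.prod_univ_add`,
`Fin.append`); all moments are bounded by 1 in absolute value; choose `δ0` such that the finite sum
is `≤ ε/2`. -/
theorem two_copy {b1 b2 u : ℝ} (S : Setting b1 b2 u) (Q Q' : Matrix (Fin 2) (Fin 2) ℝ)
    (hT : TreeFull b1 b2 u Q Q') (c : Fin 2) (e : ℕ) (Φ : (Fin 4 → ℝ) → ℝ) (hΦ : Continuous Φ)
    (ε : ℝ) (hε : 0 < ε) :
    ∃ δ0 : ℝ, 0 < δ0 ∧ ∀ δ : ℝ, 0 ≤ δ → δ ≤ δ0 → ∀ l1 l2 l3 : List (Step (Fin 2)),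
      PairPath b1 b2 u Q Q' δ l1 l2 l3 → ∀ s1 s2 s3 : List (Step Unit),
      SinglePath (be b1 b2 c) (Q c c) (Q' c c) δ s1 s2 s3 →
      |E2 (be b1 b2) l1 (PsiL (be b1 b2) (l2 ++ l3) F0)
          (fun z z' => Φ (VVt (be b1 b2) l2 l3 c e z z')) -
        E2 (fun _ : Unit => be b1 b2 c) s1 (PsiL (fun _ : Unit => be b1 b2 c) (s2 ++ s3) F0)
          (fun z z' => Φ (VVt (fun _ : Unit => be b1 b2 c) s2 s3 () e z z'))| ≤ ε := by
  obtain ⟨p, hp⟩ := mvpoly_approx 4 Φ hΦ (ε / 4) (by positivity)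
  have hts : ∀ a b : ℕ, ∃ C : ℝ, 0 ≤ C ∧ ∀ δ : ℝ, 0 ≤ δ → ∀ l1 l2 l3 : List (Step (Fin 2)),
      PairPath b1 b2 u Q Q' δ l1 l2 l3 → ∀ s1 s2 s3 : List (Step Unit),
      SinglePath (be b1 b2 c) (Q c c) (Q' c c) δ s1 s2 s3 →
      |TC3_mom (be b1 b2) l1 l2 l3 c e a b -
        TC3_mom (fun _ : Unit => be b1 b2 c) s1 s2 s3 () e a b| ≤ C * Real.sqrt δ := by
    intro a b
    obtain ⟨C, hC0, hC⟩ := touch_single b1 b2 u S.hb1 S.hb2 S.hP1 S.hP2 Q Q' hT (a + b)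
      (Fin.append (fun _ : Fin a => 1) (fun _ : Fin b => e))
    refine ⟨C, hC0, fun δ hδ l1 l2 l3 hpp s1 s2 s3 hsp => ?_⟩
    have h := hC δ hδ l1 l2 l3 hpp c s1 s2 s3 hsp
    have e1 : (fun z => ∏ i, Vv (be b1 b2) l2 l3 c
        (Fin.append (fun _ : Fin a => 1) (fun _ : Fin b => e) i) z) =
        (fun z => Vv (be b1 b2) l2 l3 c 1 z ^ a * Vv (be b1 b2) l2 l3 c e z ^ b) := by
      funext z
      exact TC3_prod (fun n => Vv (be b1 b2) l2 l3 c n z) a b e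
    have e2 : (fun z => ∏ i, Vv (fun _ : Unit => be b1 b2 c) s2 s3 ()
        (Fin.append (fun _ : Fin a => 1) (fun _ : Fin b => e) i) z) =
        (fun z => Vv (fun _ : Unit => be b1 b2 c) s2 s3 () 1 z ^ a *
          Vv (fun _ : Unit => be b1 b2 c) s2 s3 () e z ^ b) := by
      funext z
      exact TC3_prod (fun n => Vv (fun _ : Unit => be b1 b2 c) s2 s3 () n z) a b e
    rw [e1, e2] at h
    exact h
  choose Cm hCm0 hCm using hts
  set A : ℝ := ∑ d ∈ p.support, |p.coeff d| * (Cm (d 0) (d 1) + Cm (d 2) (d 3)) with hA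
  have hA0 : 0 ≤ A := Finset.sum_nonneg
    (fun d _ => mul_nonneg (abs_nonneg _) (add_nonneg (hCm0 _ _) (hCm0 _ _)))
  refine ⟨(ε / (2 * (A + 1))) ^ 2, by positivity, fun δ hδ hδ0 l1 l2 l3 hpp s1 s2 s3 hsp => ?_⟩
  have hs : Real.sqrt δ ≤ ε / (2 * (A + 1)) := by
    rw [← Real.sqrt_sq (show (0 : ℝ) ≤ ε / (2 * (A + 1)) by positivity)]
    exact Real.sqrt_le_sqrt hδ0
  have hAs : A * Real.sqrt δ ≤ ε / 2 := by
    calc A * Real.sqrt δ ≤ A * (ε / (2 * (A + 1))) := mul_le_mul_of_nonneg_left hs hA0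
      _ = (A / (A + 1)) * (ε / 2) := by field_simp
      _ ≤ 1 * (ε / 2) := by
          refine mul_le_mul_of_nonneg_right ?_ (by positivity)
          rw [div_le_one (by positivity)]
          linarith
      _ = ε / 2 := one_mul _
  have ok1 : Ok (l1 ++ (l2 ++ l3)) := hpp.ok
  have ok2 : Ok (s1 ++ (s2 ++ s3)) := hsp.ok
  have hcont : Continuous (fun x : Fin 4 → ℝ => MvPolynomial.eval x p) :=
    MvPolynomial.continuous_eval p
  have c1 := E2_close (be b1 b2) l1 l2 l3 ok1 c e Φ (fun x => MvPolynomial.eval x p) hΦ hcont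
    (ε / 4) hp
  have c2 := E2_close (fun _ : Unit => be b1 b2 c) s1 s2 s3 ok2 () e Φ
    (fun x => MvPolynomial.eval x p) hΦ hcont (ε / 4) hp
  have p1 := E2_poly (be b1 b2) l1 l2 l3 ok1 c e p
  have p2 := E2_poly (fun _ : Unit => be b1 b2 c) s1 s2 s3 ok2 () e p
  have c3 : |E2 (be b1 b2) l1 (PsiL (be b1 b2) (l2 ++ l3) F0)
          (fun z z' => MvPolynomial.eval (VVt (be b1 b2) l2 l3 c e z z') p) -
        E2 (fun _ : Unit => be b1 b2 c) s1 (PsiL (fun _ : Unit => be b1 b2 c) (s2 ++ s3) F0)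
          (fun z z' => MvPolynomial.eval (VVt (fun _ : Unit => be b1 b2 c) s2 s3 () e z z') p)| ≤
      ε / 2 := by
    rw [p1, p2, ← Finset.sum_sub_distrib]
    refine (Finset.abs_sum_le_sum_abs _ _).trans (le_trans ?_ hAs)
    rw [hA, Finset.sum_mul]
    refine Finset.sum_le_sum (fun d _ => ?_)
    rw [← mul_sub, abs_mul, mul_assoc]
    refine mul_le_mul_of_nonneg_left ?_ (abs_nonneg _)
    rw [add_mul]
    exact TC3_mul_sub (TC3_mom (be b1 b2) l1 l2 l3 c e (d 0) (d 1))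
      (TC3_mom (be b1 b2) l1 l2 l3 c e (d 2) (d 3))
      (TC3_mom (fun _ : Unit => be b1 b2 c) s1 s2 s3 () e (d 0) (d 1))
      (TC3_mom (fun _ : Unit => be b1 b2 c) s1 s2 s3 () e (d 2) (d 3)) _ _
      (TC3_mom_le _ _ _ _ ok1.right _ _ _ _) (TC3_mom_le _ _ _ _ ok2.right _ _ _ _)
      (hCm _ _ δ hδ l1 l2 l3 hpp s1 s2 s3 hsp) (hCm _ _ δ hδ l1 l2 l3 hpp s1 s2 s3 hsp)
  rw [abs_le] at c1 c2 c3 ⊢
  obtain ⟨a1, a2⟩ := c1
  obtain ⟨a3, a4⟩ := c2
  obtain ⟨a5, a6⟩ := c3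
  constructor <;> linarith

end SKC.Z
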