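import Pool.Agent.H.MP_08eaf3_pr.Z.Ta1

/-!
# Part Z: the integral of `u - r`
-/

set_option autoImplicit false

open MeasureTheory ProbabilityTheory Filter Topology Matrix

namespace SKC.Z

variable {b1 b2 u : ℝ}

/-- `absr_le` without the statements file -/
theorem absr_le' (S : Setting b1 b2 u) (L : LData b1 b2 u) (t : ℝ) (ht : t ∈ L.T) :
    |L.Q t 0 1| ≤ u :=
  S.hmax _ (memU_of_tree b1 b2 u S.hb1 S.hb2 S.hP1 S.hP2 (L.Q t) (L.Q t) (L.tree t ht t ht le_rfl))

theorem zTb1_lip (L : LData b1 b2 u) (x y : ℝ) (hx : x ∈ L.T) (hy : y ∈ L.T) :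
    |L.Q x 0 1 - L.Q y 0 1| ≤ |x - y| := by
  rcases le_total x y with h | h
  · rw [abs_sub_comm, abs_sub_comm x y, abs_of_nonneg (sub_nonneg.2 h)]
    exact LD_lip L x y hx hy h 0 1
  · rw [abs_of_nonneg (sub_nonneg.2 h)]
    exact LD_lip L y x hy hx h 0 1

theorem zTb1_max (L : LData b1 b2 u) (t x : ℝ) (ht : t ∈ L.T) (hx : x ∈ L.T) :
    max t x ∈ L.T := by
  rcases le_total t x with h | h
  · rwa [max_eq_right h]
  · rwa [max_eq_left h]

theorem zTb1_aeT (L : LData b1 b2 u) : ∀ᵐ x ∂L.μ, x ∈ L.T := by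
  rw [ae_iff]
  exact L.supp1

/-- The integrand is integrable. On `T` the function `x ↦ L.Q (max t x) 0 1` is 1-Lipschitz
(`LD_lip`, `max t x ∈ T`), so it is the restriction of a continuous function on `ℝ`
(`LipschitzOnWith.extend_real`), bounded by `1` on `T` (`LD_abs_le`); `μ Tᶜ = 0`. -/
theorem Gint_integrable (L : LData b1 b2 u) (t : ℝ) (ht : t ∈ L.T) :
    Integrable (fun x => u - L.Q (max t x) 0 1) L.μ := by
  haveI := L.prob
  have hlip : LipschitzOnWith 1 (fun x => u - L.Q (max t x) 0 1) L.T := by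
    refine LipschitzOnWith.of_dist_le_mul fun x hx y hy => ?_
    rw [Real.dist_eq, Real.dist_eq, NNReal.coe_one, one_mul]
    have h1 : u - L.Q (max t x) 0 1 - (u - L.Q (max t y) 0 1) =
        L.Q (max t y) 0 1 - L.Q (max t x) 0 1 := by ring
    rw [h1]
    refine (zTb1_lip L _ _ (zTb1_max L t y ht hy) (zTb1_max L t x ht hx)).trans ?_
    rw [abs_sub_comm x y, max_comm t y, max_comm t x]
    exact abs_max_sub_max_le_abs y x t
  obtain ⟨g, hg, hgf⟩ := hlip.extend_real
  have hae : (fun x => u - L.Q (max t x) 0 1) =ᵐ[L.μ] g := by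
    filter_upwards [zTb1_aeT L] with x hx
    exact hgf hx
  refine Integrable.of_bound (hg.continuous.aestronglyMeasurable.congr hae.symm) (|u| + 1) ?_
  filter_upwards [zTb1_aeT L] with x hx
  rw [Real.norm_eq_abs]
  have h1 := LD_abs_le L _ (zTb1_max L t x ht hx) 0 1
  have h2 := abs_sub u (L.Q (max t x) 0 1)
  linarith

/-- the integrand is nonnegative almost everywhere, and at most `2` (on `T`: `absr_le'`,
`LD_abs_le`, `hu1`) -/
theorem Gint_ae (S : Setting b1 b2 u) (L : LData b1 b2 u) (t : ℝ) (ht : t ∈ L.T) :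
    ∀ᵐ x ∂L.μ, 0 ≤ u - L.Q (max t x) 0 1 ∧ u - L.Q (max t x) 0 1 ≤ 2 := by
  filter_upwards [zTb1_aeT L] with x hx
  have hm := zTb1_max L t x ht hx
  have h1 := abs_le.1 (absr_le' S L _ hm)
  have h2 := S.hu1
  constructor
  · linarith [h1.2]
  · linarith [h1.1]

/-- the integral is at most `2` (`L.prob`) -/
theorem Gint_le (S : Setting b1 b2 u) (L : LData b1 b2 u) (t : ℝ) (ht : t ∈ L.T) :
    ∫ x, (u - L.Q (max t x) 0 1) ∂L.μ ≤ 2 := by
  haveI := L.prob
  have h1 : ∫ x, (u - L.Q (max t x) 0 1) ∂L.μ ≤ ∫ _x, (2 : ℝ) ∂L.μ := by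
    refine integral_mono_ae (Gint_integrable L t ht) (integrable_const _) ?_
    filter_upwards [Gint_ae S L t ht] with x hx
    exact hx.2
  refine h1.trans (le_of_eq ?_)
  simp

/-- If `L.Q t 0 1 < u` then the integral is positive. Let `θ = u - L.Q t 0 1`. For `x ∈ T`,
`x < t + θ`, `x > t - θ`: `u - L.Q (max t x) 0 1 ≥ θ / 2` (`LD_lip_half`), and this set has positive
mass (`L.supp2`); `setIntegral_mono_on_ae`/`integral_mono_ae` with the indicator function of
`Ioo (t - θ) (t + θ)` times `θ / 2` (a.e. on `T`). -/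
theorem Gint_pos (S : Setting b1 b2 u) (L : LData b1 b2 u) (t : ℝ) (ht : t ∈ L.T)
    (h : L.Q t 0 1 < u) : 0 < ∫ x, (u - L.Q (max t x) 0 1) ∂L.μ := by
  haveI := L.prob
  set θ : ℝ := u - L.Q t 0 1 with hθ
  have hθ0 : 0 < θ := by rw [hθ]; linarith
  have hmeas : MeasurableSet (Set.Ioo (t - θ) (t + θ)) := measurableSet_Ioo
  have h1 : ∫ x, (Set.Ioo (t - θ) (t + θ)).indicator (fun _ => θ / 2) x ∂L.μ ≤
      ∫ x, (u - L.Q (max t x) 0 1) ∂L.μ := by
    refine integral_mono_ae ((integrable_const _).indicator hmeas) (Gint_integrable L t ht) ?_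
    filter_upwards [Gint_ae S L t ht, zTb1_aeT L] with x hx hxT
    by_cases hxs : x ∈ Set.Ioo (t - θ) (t + θ)
    · rw [Set.indicator_of_mem hxs]
      have h2 := LD_lip_half L t (max t x) ht (zTb1_max L t x ht hxT) (le_max_left _ _)
      have h3 : max t x - t ≤ θ := by
        have : max t x ≤ t + θ := max_le (by linarith) hxs.2.le
        linarith
      have h4 := (abs_le.1 h2).2
      rw [hθ] at h3 ⊢
      linarith
    · rw [Set.indicator_of_notMem hxs]
      exact hx.1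
  rw [integral_indicator_const _ hmeas] at h1
  have h2 : 0 < L.μ.real (Set.Ioo (t - θ) (t + θ)) := by
    rw [measureReal_def]
    exact ENNReal.toReal_pos (L.supp2 t ht θ hθ0).ne' (measure_ne_top _ _)
  have h3 : 0 < L.μ.real (Set.Ioo (t - θ) (t + θ)) • (θ / 2) := by
    rw [smul_eq_mul]
    positivity
  linarith

end SKC.Z
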