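import Pool.Agent.H.MP_08eaf3_pr.Z.Setup

/-!
# Part Z, S5: Gaussian exponential moments and spins
-/

set_option autoImplicit false

open MeasureTheory ProbabilityTheory Filter Topology Matrix

namespace SKC.Z

theorem zTc1_exp_dot {K : Type} [Fintype K] (v x : K → ℝ) :
    Real.exp (dot x v) = ∏ i, Real.exp (v i * x i) := by
  rw [← Real.exp_sum]
  unfold dot
  exact congrArg Real.exp (Finset.sum_congr rfl fun i _ => mul_comm _ _)

theorem zTc1_one (t : ℝ) : ∫ s, Real.exp (t * s) ∂(gaussianReal 0 1) = Real.exp (t ^ 2 / 2) := by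
  have h := congrFun (mgf_id_gaussianReal (μ := 0) (v := 1)) t
  unfold mgf at h
  simp only [id_eq] at h
  rw [h]
  congr 1
  push_cast
  ring

/-- Gaussian exponential moments: product measure, `mgf` of `gaussianReal 0 1`
(`mgf_gaussianReal` or `integral_exp...`), `dot x v = ∑ x_i v_i` -/
theorem gam_exp_dot {K : Type} [Fintype K] (v : K → ℝ) :
    Integrable (fun x => Real.exp (dot x v)) (gam K) ∧
    ∫ x, Real.exp (dot x v) ∂(gam K) = Real.exp (dot v v / 2) := by
  have e : (fun x : K → ℝ => Real.exp (dot x v)) = fun x => ∏ i, Real.exp (v i * x i) :=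
    funext fun x => zTc1_exp_dot v x
  rw [e]
  unfold gam
  constructor
  · exact Integrable.fintype_prod (f := fun i s => Real.exp (v i * s))
      fun _ => integrable_exp_mul_gaussianReal _
  · rw [integral_fintype_prod_eq_prod (fun i s => Real.exp (v i * s))]
    simp only [zTc1_one]
    rw [← Real.exp_sum]
    congr 1
    unfold dot
    rw [Finset.sum_div]
    exact Finset.sum_congr rfl fun i _ => by ring

/-- the exponent of a spin configuration under the field `B x`, `B = Bm β E`: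
`<s, B x> = <x, Bᵀ s>` and `|Bᵀ s|²/2 = ∑ β_c β_c' s_c s_c' (E Eᵀ)_cc'` -/
theorem spin_dot {K : Type} [Fintype K] (β : K → ℝ) (E : Matrix K K ℝ) (s : K → Bool) :
    (∀ x, ∑ c, sg (s c) * (Bm β E).mulVec x c =
      dot x ((Bm β E)ᵀ.mulVec (fun c => sg (s c)))) ∧
    dot ((Bm β E)ᵀ.mulVec (fun c => sg (s c))) ((Bm β E)ᵀ.mulVec (fun c => sg (s c))) / 2 =
      ∑ c, ∑ c', β c * β c' * (sg (s c) * sg (s c')) * (E * Eᵀ) c c' := by
  constructor
  · intro x
    have h1 : ∀ c, sg (s c) * (Bm β E).mulVec x c = ∑ d, sg (s c) * (Bm β E c d * x d) :=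
      fun c => Finset.mul_sum _ _ _
    have h2 : ∀ d, x d * (Bm β E)ᵀ.mulVec (fun c => sg (s c)) d =
        ∑ c, x d * (Bm β E c d * sg (s c)) := fun d => Finset.mul_sum _ _ _
    unfold dot
    simp only [h1, h2]
    rw [Finset.sum_comm]
    exact Finset.sum_congr rfl fun d _ => Finset.sum_congr rfl fun c _ => by ring
  · have h2 : ∀ d, (Bm β E)ᵀ.mulVec (fun c => sg (s c)) d =
        ∑ c, Real.sqrt 2 * β c * E c d * sg (s c) := fun d => rfl
    have h3 : ∀ c c', (E * Eᵀ) c c' = ∑ d, E c d * E c' d := fun c c' => rfl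
    unfold dot
    simp only [h2, h3]
    rw [Finset.sum_div]
    have h4 : ∀ d, (∑ c, Real.sqrt 2 * β c * E c d * sg (s c)) *
        (∑ c, Real.sqrt 2 * β c * E c d * sg (s c)) / 2 =
        ∑ c, ∑ c', β c * β c' * (sg (s c) * sg (s c')) * (E c d * E c' d) := by
      intro d
      rw [Finset.sum_mul_sum, Finset.sum_div]
      refine Finset.sum_congr rfl fun c _ => ?_
      rw [Finset.sum_div]
      refine Finset.sum_congr rfl fun c' _ => ?_
      have h5 : Real.sqrt 2 * Real.sqrt 2 = 2 := Real.mul_self_sqrt zero_le_two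
      calc Real.sqrt 2 * β c * E c d * sg (s c) * (Real.sqrt 2 * β c' * E c' d * sg (s c')) / 2
          = (Real.sqrt 2 * Real.sqrt 2) *
            (β c * β c' * (sg (s c) * sg (s c')) * (E c d * E c' d)) / 2 := by ring
        _ = _ := by rw [h5]; ring
    simp only [h4]
    rw [Finset.sum_comm]
    refine Finset.sum_congr rfl fun c _ => ?_
    rw [Finset.sum_comm]
    refine Finset.sum_congr rfl fun c' _ => ?_
    rw [Finset.mul_sum]

/-- `E exp F0(B x)` times spin functions: for `f : (K → Bool) → ℝ`,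
`∫ ∑_s f s exp <s, B x> = ∑_s f s exp (∑ β β' s s' (E Eᵀ))` -/
theorem spin_int {K : Type} [Fintype K] [DecidableEq K] (β : K → ℝ) (E : Matrix K K ℝ)
    (f : (K → Bool) → ℝ) :
    ∫ x, ∑ s : K → Bool, f s * Real.exp (∑ c, sg (s c) * (Bm β E).mulVec x c) ∂(gam K) =
      ∑ s : K → Bool, f s *
        Real.exp (∑ c, ∑ c', β c * β c' * (sg (s c) * sg (s c')) * (E * Eᵀ) c c') := by
  have h1 : ∀ (s : K → Bool) (x : K → ℝ),
      Real.exp (∑ c, sg (s c) * (Bm β E).mulVec x c) =
        Real.exp (dot x ((Bm β E)ᵀ.mulVec (fun c => sg (s c)))) := fun s x => by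
    rw [(spin_dot β E s).1 x]
  simp only [h1]
  rw [integral_finsetSum _ fun s _ => (gam_exp_dot _).1.const_mul _]
  refine Finset.sum_congr rfl fun s _ => ?_
  rw [integral_const_mul, (gam_exp_dot _).2, (spin_dot β E s).2]

theorem zTc1_F0 {K : Type} [Fintype K] [DecidableEq K] (z : K → ℝ) :
    Real.exp (F0 z) = ∑ s : K → Bool, Real.exp (∑ c, sg (s c) * z c) := by
  unfold F0 psiEnd
  simp only [mul_zero, add_zero]
  exact Real.exp_log (Finset.sum_pos (fun _ _ => Real.exp_pos _) Finset.univ_nonempty)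

theorem zTc1_den {K : Type} [Fintype K] [DecidableEq K] (β : K → ℝ) (E : Matrix K K ℝ) :
    ∫ x, Real.exp (1 * F0 (0 + (Bm β E).mulVec x)) ∂(gam K) =
      ∑ s : K → Bool,
        Real.exp (∑ c, ∑ c', β c * β c' * (sg (s c) * sg (s c')) * (E * Eᵀ) c c') := by
  have h := spin_int β E (fun _ => 1)
  simp only [one_mul] at h
  rw [← h]
  refine integral_congr_ae (Filter.Eventually.of_forall fun x => ?_)
  simp only [one_mul, zero_add, zTc1_F0]

/-- one step of weight `1` -/
theorem PsiL_one {K : Type} [Fintype K] [DecidableEq K] (β : K → ℝ) (E : Matrix K K ℝ) :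
    PsiL β [((1 : ℝ), E)] F0 0 =
      Real.log (∑ s : K → Bool,
        Real.exp (∑ c, ∑ c', β c * β c' * (sg (s c) * sg (s c')) * (E * Eᵀ) c c')) := by
  have h : PsiL β [((1 : ℝ), E)] F0 0 =
      (if (1 : ℝ) = 0 then ∫ x, F0 (0 + (Bm β E).mulVec x) ∂(gam K)
        else (1 / 1) * Real.log (∫ x, Real.exp (1 * F0 (0 + (Bm β E).mulVec x)) ∂(gam K))) := rfl
  rw [h, if_neg one_ne_zero, zTc1_den, div_one, one_mul]

/-- the numerator: two spins -/
theorem zTc1_two (z : Fin 2 → ℝ) :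
    Real.tanh (z 0) * Real.tanh (z 1) * Real.exp (F0 z) =
      ∑ s : Fin 2 → Bool, (sg (s 0) * sg (s 1)) * Real.exp (∑ c, sg (s c) * z c) := by
  rw [zTc1_F0]
  have h1 : ∀ g : (Fin 2 → Bool) → ℝ, ∑ s : Fin 2 → Bool, g s =
      g ![true, true] + g ![true, false] + (g ![false, true] + g ![false, false]) := by
    intro g
    rw [← Equiv.sum_comp (finTwoArrowEquiv Bool).symm g, Fintype.sum_prod_type]
    simp only [Fintype.sum_bool]
    rfl
  rw [h1, h1]
  simp only [Fin.sum_univ_two, Matrix.cons_val_zero, Matrix.cons_val_one, sg, if_true,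
    Bool.false_eq_true, if_false, Real.exp_add, one_mul, neg_one_mul, mul_one, mul_neg, neg_neg]
  have h2 : Real.tanh (z 0) * (Real.exp (z 0) + Real.exp (-z 0)) =
      Real.exp (z 0) - Real.exp (-z 0) := by
    rw [Real.tanh_eq_sinh_div_cosh, Real.sinh_eq, Real.cosh_eq]
    have := Real.exp_pos (z 0)
    have := Real.exp_pos (-z 0)
    field_simp
  have h3 : Real.tanh (z 1) * (Real.exp (z 1) + Real.exp (-z 1)) =
      Real.exp (z 1) - Real.exp (-z 1) := by
    rw [Real.tanh_eq_sinh_div_cosh, Real.sinh_eq, Real.cosh_eq]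
    have := Real.exp_pos (z 1)
    have := Real.exp_pos (-z 1)
    field_simp
  calc _ = (Real.tanh (z 0) * (Real.exp (z 0) + Real.exp (-z 0))) *
      (Real.tanh (z 1) * (Real.exp (z 1) + Real.exp (-z 1))) := by ring
    _ = _ := by rw [h2, h3]; ring

/-- chain of one step of weight `1`: product of two spins of the pair. Numerator:
`tanh z0 tanh z1 exp F0(z) = ∑_s s0 s1 exp <s,z>`. -/
theorem ChE_one_pair (β : Fin 2 → ℝ) (E : Matrix (Fin 2) (Fin 2) ℝ) :
    ChE β [((1 : ℝ), E)] F0 (fun z => Real.tanh (z 0) * Real.tanh (z 1)) 0 =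
      (∑ s : Fin 2 → Bool, (sg (s 0) * sg (s 1)) *
        Real.exp (∑ c, ∑ c', β c * β c' * (sg (s c) * sg (s c')) * (E * Eᵀ) c c')) /
      (∑ s : Fin 2 → Bool,
        Real.exp (∑ c, ∑ c', β c * β c' * (sg (s c) * sg (s c')) * (E * Eᵀ) c c')) := by
  have h : ChE β [((1 : ℝ), E)] F0 (fun z => Real.tanh (z 0) * Real.tanh (z 1)) 0 =
      (∫ x, (Real.tanh ((0 + (Bm β E).mulVec x) 0) * Real.tanh ((0 + (Bm β E).mulVec x) 1)) *
        Real.exp (1 * F0 (0 + (Bm β E).mulVec x)) ∂(gam (Fin 2))) /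
      (∫ x, Real.exp (1 * F0 (0 + (Bm β E).mulVec x)) ∂(gam (Fin 2))) := rfl
  rw [h, zTc1_den]
  congr 1
  rw [← spin_int β E (fun s => sg (s 0) * sg (s 1))]
  refine integral_congr_ae (Filter.Eventually.of_forall fun x => ?_)
  simp only [one_mul, zTc1_two, zero_add]

end SKC.Z
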