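import Pool.Agent.H.MP_08eaf3_pr.Z.Tc1

/-!
# Part Z, S5: explicit one step path
-/

set_option autoImplicit false

open MeasureTheory ProbabilityTheory Filter Topology Matrix

namespace SKC.Z

theorem zTc2_exp (b1 b2 u : ℝ) (x y : Bool) :
    (∑ c, ∑ c', be b1 b2 c * be b1 b2 c' * (sg ((![x, y] : Fin 2 → Bool) c) *
      sg ((![x, y] : Fin 2 → Bool) c')) * mat 1 1 u c c') =
      b1 ^ 2 + b2 ^ 2 + 2 * b1 * b2 * u * (sg x * sg y) := by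
  cases x <;> cases y <;> simp [Fin.sum_univ_two, sg, be, mat] <;> ring

/-- the sums over the four spin configurations, `E Eᵀ = D_u` -/
theorem four_sums (b1 b2 u : ℝ) (E : Matrix (Fin 2) (Fin 2) ℝ) (hE : E * Eᵀ = mat 1 1 u) :
    (∑ s : Fin 2 → Bool, Real.exp (∑ c, ∑ c', be b1 b2 c * be b1 b2 c' *
      (sg (s c) * sg (s c')) * (E * Eᵀ) c c')) =
        4 * Real.exp (b1 ^ 2 + b2 ^ 2) * Real.cosh (2 * b1 * b2 * u) ∧
    (∑ s : Fin 2 → Bool, (sg (s 0) * sg (s 1)) * Real.exp (∑ c, ∑ c', be b1 b2 c * be b1 b2 c' *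
      (sg (s c) * sg (s c')) * (E * Eᵀ) c c')) =
        4 * Real.exp (b1 ^ 2 + b2 ^ 2) * Real.sinh (2 * b1 * b2 * u) := by
  rw [hE]
  constructor
  · rw [← (finTwoArrowEquiv Bool).symm.sum_comp, Fintype.sum_prod_type]
    simp only [Fintype.sum_bool, finTwoArrowEquiv_symm_apply, zTc2_exp]
    simp only [sg, if_true, Bool.false_eq_true, if_false, Real.cosh_eq]
    have e1 : b1 ^ 2 + b2 ^ 2 + 2 * b1 * b2 * u * (1 * 1) =
        (b1 ^ 2 + b2 ^ 2) + 2 * b1 * b2 * u := by ring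
    have e2 : b1 ^ 2 + b2 ^ 2 + 2 * b1 * b2 * u * (1 * -1) =
        (b1 ^ 2 + b2 ^ 2) + -(2 * b1 * b2 * u) := by ring
    have e3 : b1 ^ 2 + b2 ^ 2 + 2 * b1 * b2 * u * (-1 * 1) =
        (b1 ^ 2 + b2 ^ 2) + -(2 * b1 * b2 * u) := by ring
    have e4 : b1 ^ 2 + b2 ^ 2 + 2 * b1 * b2 * u * (-1 * -1) =
        (b1 ^ 2 + b2 ^ 2) + 2 * b1 * b2 * u := by ring
    rw [e1, e2, e3, e4, Real.exp_add (b1 ^ 2 + b2 ^ 2) (2 * b1 * b2 * u),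
      Real.exp_add (b1 ^ 2 + b2 ^ 2) (-(2 * b1 * b2 * u))]
    ring
  · rw [← (finTwoArrowEquiv Bool).symm.sum_comp, Fintype.sum_prod_type]
    simp only [Fintype.sum_bool, finTwoArrowEquiv_symm_apply, zTc2_exp]
    simp only [sg, if_true, Bool.false_eq_true, if_false, Real.sinh_eq, Matrix.cons_val_zero,
      Matrix.cons_val_one]
    have e1 : b1 ^ 2 + b2 ^ 2 + 2 * b1 * b2 * u * (1 * 1) =
        (b1 ^ 2 + b2 ^ 2) + 2 * b1 * b2 * u := by ring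
    have e2 : b1 ^ 2 + b2 ^ 2 + 2 * b1 * b2 * u * (1 * -1) =
        (b1 ^ 2 + b2 ^ 2) + -(2 * b1 * b2 * u) := by ring
    have e3 : b1 ^ 2 + b2 ^ 2 + 2 * b1 * b2 * u * (-1 * 1) =
        (b1 ^ 2 + b2 ^ 2) + -(2 * b1 * b2 * u) := by ring
    have e4 : b1 ^ 2 + b2 ^ 2 + 2 * b1 * b2 * u * (-1 * -1) =
        (b1 ^ 2 + b2 ^ 2) + 2 * b1 * b2 * u := by ring
    rw [e1, e2, e3, e4, Real.exp_add (b1 ^ 2 + b2 ^ 2) (2 * b1 * b2 * u),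
      Real.exp_add (b1 ^ 2 + b2 ^ 2) (-(2 * b1 * b2 * u))]
    ring

/-- value of the path `(0,0), (1,E)`, `E Eᵀ = D_u` (`PsiL_zero` of `IfB`, `PsiL_one`, `four_sums`,
`Cf (mat 1 1 u) = b1^2 + b2^2 + 2 b1 b2 u^2`) -/
theorem Pf_top (b1 b2 u : ℝ) (E : Matrix (Fin 2) (Fin 2) ℝ) (hE : E * Eᵀ = mat 1 1 u) :
    Pf (be b1 b2) (fun _ => 0) 0 [((0 : ℝ), 0), ((1 : ℝ), E)] =
      Real.log 4 + (b1 ^ 2 + b2 ^ 2) / 2 + Real.log (Real.cosh (2 * b1 * b2 * u)) -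
        b1 * b2 * u ^ 2 := by
  have h1 : PsiL (be b1 b2) [((0 : ℝ), 0), ((1 : ℝ), E)] F0 0 =
      Real.log 4 + (b1 ^ 2 + b2 ^ 2) + Real.log (Real.cosh (2 * b1 * b2 * u)) := by
    rw [PsiL_zero _ _ le_rfl, PsiL_one, (four_sums b1 b2 u E hE).1,
      Real.log_mul (by positivity) (Real.cosh_pos _).ne', Real.log_mul (by norm_num)
      (Real.exp_pos _).ne', Real.log_exp]
  have h2 : corr (be b1 b2) 0 [((0 : ℝ), 0), ((1 : ℝ), E)] =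
      b1 ^ 2 + b2 ^ 2 + 2 * b1 * b2 * u ^ 2 := by
    simp only [corr, hE, zero_mul, add_zero, zero_add, one_mul]
    unfold Cf be mat
    simp [Fin.sum_univ_two]
    ring
  unfold Pf
  rw [h2]
  change PsiL (be b1 b2) [((0 : ℝ), 0), ((1 : ℝ), E)] F0 0 - _ = _
  rw [h1]
  ring

/-- chain of the path `(0,0), (1,E)` (`ChE_zero`, `ChE_one_pair`, `four_sums`) -/
theorem ChE_top (b1 b2 u : ℝ) (E : Matrix (Fin 2) (Fin 2) ℝ) (hE : E * Eᵀ = mat 1 1 u) :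
    ChE (be b1 b2) [((0 : ℝ), 0), ((1 : ℝ), E)] F0
      (fun z => Real.tanh (z 0) * Real.tanh (z 1)) 0 = Real.tanh (2 * b1 * b2 * u) := by
  rw [ChE_zero _ _ le_rfl, ChE_one_pair, (four_sums b1 b2 u E hE).1,
    (four_sums b1 b2 u E hE).2, Real.tanh_eq_sinh_div_cosh]
  have h := (Real.cosh_pos (2 * b1 * b2 * u)).ne'
  have h' := (Real.exp_pos (b1 ^ 2 + b2 ^ 2)).ne'
  field_simp

end SKC.Z
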