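import Pool.Agent.H.MP_08eaf3_pr.Z.Ta1

/-!
# Part Z, S4: quantiles
-/

set_option autoImplicit false

open MeasureTheory ProbabilityTheory Filter Topology Matrix

namespace SKC.Z

variable {b1 b2 u : ℝ}

/-- continuity from above of `x ↦ μ (Iic x)` -/
theorem zTd1_Iic (μ : Measure ℝ) [IsProbabilityMeasure μ] {s ε : ℝ}
    (h : ∀ x, s < x → ε ≤ μ.real (Set.Iic x)) : ε ≤ μ.real (Set.Iic s) := by
  have h1 : Set.Iic s = ⋂ n : ℕ, Set.Iic (s + 1 / ((n : ℝ) + 1)) := by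
    ext x
    simp only [Set.mem_Iic, Set.mem_iInter]
    constructor
    · intro hx n
      have : (0 : ℝ) < 1 / ((n : ℝ) + 1) := Nat.one_div_pos_of_nat
      linarith
    · intro hx
      by_contra hn
      rw [not_le] at hn
      obtain ⟨n, hn2⟩ := exists_nat_one_div_lt (sub_pos.2 hn)
      have := hx n
      linarith
  have h2 : Tendsto (fun n : ℕ => μ (Set.Iic (s + 1 / ((n : ℝ) + 1)))) atTop
      (𝓝 (μ (⋂ n : ℕ, Set.Iic (s + 1 / ((n : ℝ) + 1))))) := by
    refine tendsto_measure_iInter_atTop (fun n => measurableSet_Iic.nullMeasurableSet) ?_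
      ⟨0, measure_ne_top _ _⟩
    intro m n hmn
    refine Set.Iic_subset_Iic.2 ?_
    have : (1 : ℝ) / ((n : ℝ) + 1) ≤ 1 / ((m : ℝ) + 1) := Nat.one_div_le_one_div hmn
    linarith
  rw [← h1] at h2
  have h3 := (ENNReal.tendsto_toReal (measure_ne_top μ (Set.Iic s))).comp h2
  refine ge_of_tendsto h3 (Eventually.of_forall fun n => ?_)
  refine h _ ?_
  have : (0 : ℝ) < 1 / ((n : ℝ) + 1) := Nat.one_div_pos_of_nat
  linarith

/-- continuity from below of `x ↦ μ (Iic x)` -/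
theorem zTd1_Iio (μ : Measure ℝ) [IsProbabilityMeasure μ] {s ε : ℝ}
    (h : ∀ x, x < s → μ.real (Set.Iic x) ≤ ε) : μ.real (Set.Iio s) ≤ ε := by
  have h1 : Set.Iio s = ⋃ n : ℕ, Set.Iic (s - 1 / ((n : ℝ) + 1)) := by
    ext x
    simp only [Set.mem_Iio, Set.mem_iUnion, Set.mem_Iic]
    constructor
    · intro hx
      obtain ⟨n, hn2⟩ := exists_nat_one_div_lt (sub_pos.2 hx)
      exact ⟨n, by linarith⟩
    · rintro ⟨n, hn⟩
      have : (0 : ℝ) < 1 / ((n : ℝ) + 1) := Nat.one_div_pos_of_nat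
      linarith
  have h2 : Tendsto (fun n : ℕ => μ (Set.Iic (s - 1 / ((n : ℝ) + 1)))) atTop
      (𝓝 (μ (⋃ n : ℕ, Set.Iic (s - 1 / ((n : ℝ) + 1))))) := by
    refine tendsto_measure_iUnion_atTop ?_
    intro m n hmn
    refine Set.Iic_subset_Iic.2 ?_
    have : (1 : ℝ) / ((n : ℝ) + 1) ≤ 1 / ((m : ℝ) + 1) := Nat.one_div_le_one_div hmn
    linarith
  rw [← h1] at h2
  have h3 := (ENNReal.tendsto_toReal (measure_ne_top μ (Set.Iio s))).comp h2
  refine le_of_tendsto h3 (Eventually.of_forall fun n => ?_)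
  refine h _ ?_
  have : (0 : ℝ) < 1 / ((n : ℝ) + 1) := Nat.one_div_pos_of_nat
  linarith

/-- quantiles. `A = {s ∈ T | ε ≤ μ (Iic s)}` contains `sSup T` (`μ Tᶜ = 0`); `s = sInf A ∈ T` (`T` is
compact). `ε ≤ μ (Iic s)`: continuity from above along a sequence in `A` decreasing to `s`.
`μ (Iio s) ≤ ε`: otherwise `μ (Iic x) > ε` for some `x < s` (continuity from below); then
`y = sSup (T ∩ Iic x)` is in `T`, `μ (Iic y) = μ (Iic x)` (no mass outside `T`), so `y ∈ A`, `y < s`: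
contradiction. -/
theorem quantile (L : LData b1 b2 u) (ε : ℝ) (h0 : 0 < ε) (h1 : ε < 1) :
    ∃ s ∈ L.T, L.μ.real (Set.Iio s) ≤ ε ∧ ε ≤ L.μ.real (Set.Iic s) := by
  have := L.prob
  set A : Set ℝ := {x | ε ≤ L.μ.real (Set.Iic x)} with hA
  have hne : A.Nonempty := by
    refine ⟨2, ?_⟩
    have h2 : L.μ (Set.Iic 2)ᶜ = 0 := by
      refine measure_mono_null ?_ L.supp1
      refine Set.compl_subset_compl.2 fun x hx => ?_
      exact (L.sub hx).2
    have h3 : L.μ.real (Set.Iic (2 : ℝ)) = 1 := by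
      have h4 : L.μ (Set.Iic (2 : ℝ)) = 1 := (prob_compl_eq_zero_iff measurableSet_Iic).1 h2
      rw [Measure.real, h4, ENNReal.toReal_one]
    change ε ≤ L.μ.real (Set.Iic 2)
    rw [h3]
    exact h1.le
  have hbd : BddBelow A := by
    refine ⟨0, fun x hx => ?_⟩
    by_contra hn
    rw [not_le] at hn
    have h2 : L.μ (Set.Iic x) = 0 := by
      refine measure_mono_null ?_ L.supp1
      intro y hy hyT
      have h3 := (L.sub hyT).1
      have h4 : y ≤ x := hy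
      linarith
    have h5 : ε ≤ L.μ.real (Set.Iic x) := hx
    rw [Measure.real, h2, ENNReal.toReal_zero] at h5
    linarith
  have hmono : ∀ x y : ℝ, x ≤ y → L.μ.real (Set.Iic x) ≤ L.μ.real (Set.Iic y) := fun x y h =>
    measureReal_mono (Set.Iic_subset_Iic.2 h)
  have hup : ε ≤ L.μ.real (Set.Iic (sInf A)) := by
    refine zTd1_Iic L.μ fun x hx => ?_
    obtain ⟨a, ha, hax⟩ := exists_lt_of_csInf_lt hne hx
    exact le_trans ha (hmono a x hax.le)
  have hlow : ∀ x, x < sInf A → L.μ.real (Set.Iic x) < ε := by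
    intro x hx
    by_contra hn
    rw [not_lt] at hn
    exact absurd (csInf_le hbd hn) (not_le.2 hx)
  refine ⟨sInf A, ?_, zTd1_Iio L.μ fun x hx => (hlow x hx).le, hup⟩
  by_contra hT
  obtain ⟨η, hη, hball⟩ := Metric.isOpen_iff.1 L.comp.isClosed.isOpen_compl (sInf A) hT
  have h2 : L.μ (Set.Ioc (sInf A - η / 2) (sInf A)) = 0 := by
    refine measure_mono_null ?_ L.supp1
    intro y hy
    refine hball ?_
    rw [Metric.mem_ball, Real.dist_eq, abs_lt]
    constructor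
    · linarith [hy.1]
    · linarith [hy.2]
  have h3 : Set.Iic (sInf A) = Set.Iic (sInf A - η / 2) ∪ Set.Ioc (sInf A - η / 2) (sInf A) :=
    (Set.Iic_union_Ioc_eq_Iic (by linarith)).symm
  have h4 : L.μ (Set.Iic (sInf A)) ≤ L.μ (Set.Iic (sInf A - η / 2)) := by
    rw [h3]
    refine (measure_union_le _ _).trans ?_
    rw [h2, add_zero]
  have h5 : L.μ.real (Set.Iic (sInf A)) ≤ L.μ.real (Set.Iic (sInf A - η / 2)) :=
    ENNReal.toReal_mono (measure_ne_top _ _) h4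
  have h6 := hlow (sInf A - η / 2) (by linarith)
  linarith

/-- small quantiles are near the minimum `t0` of `T`: for `θ > 0` there is `ε0 > 0` with
`μ (Iio s) ≤ ε → s < t0 + θ` for `ε < ε0` (`ε0 = μ (Ioo (t0 - θ) (t0 + θ)) > 0`, `L.supp2`; if
`t0 + θ ≤ s` then this interval is contained in `Iio s`) -/
theorem quantile_near (L : LData b1 b2 u) (t0 : ℝ) (ht0 : t0 ∈ L.T) (θ : ℝ) (hθ : 0 < θ) :
    ∃ ε0 : ℝ, 0 < ε0 ∧ ∀ ε s : ℝ, ε < ε0 → L.μ.real (Set.Iio s) ≤ ε → s < t0 + θ := by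
  have := L.prob
  refine ⟨L.μ.real (Set.Ioo (t0 - θ) (t0 + θ)),
    ENNReal.toReal_pos (L.supp2 t0 ht0 θ hθ).ne' (measure_ne_top _ _), fun ε s h1 h2 => ?_⟩
  by_contra hn
  rw [not_lt] at hn
  have h3 : L.μ.real (Set.Ioo (t0 - θ) (t0 + θ)) ≤ L.μ.real (Set.Iio s) :=
    measureReal_mono fun x hx => lt_of_lt_of_le hx.2 hn
  linarith

/-- no mass below the minimum (`μ Tᶜ = 0`, `Iio t0 ⊆ Tᶜ`) -/
theorem mu_Iio_min (L : LData b1 b2 u) (t0 : ℝ) (hmin : ∀ x ∈ L.T, t0 ≤ x) :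
    L.μ.real (Set.Iio t0) = 0 := by
  have h2 : L.μ (Set.Iio t0) = 0 := by
    refine measure_mono_null ?_ L.supp1
    intro y hy hyT
    have h3 := hmin y hyT
    have h4 : y < t0 := hy
    linarith
  rw [Measure.real, h2, ENNReal.toReal_zero]

end SKC.Z
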