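import Pool.Agent.H.MP_08eaf3_pr.Z.Ta1

/-!
# Part Z, S4: corrections
-/

set_option autoImplicit false

open MeasureTheory ProbabilityTheory Filter Topology Matrix

namespace SKC.Z

variable {b1 b2 u : ℝ}

theorem zTd2_Cf (R : Matrix (Fin 2) (Fin 2) ℝ) : Cf (be b1 b2) R =
    b1 ^ 2 * R 0 0 ^ 2 + b1 * b2 * R 0 1 ^ 2 + b2 * b1 * R 1 0 ^ 2 + b2 ^ 2 * R 1 1 ^ 2 := by
  unfold Cf be
  rw [Fin.sum_univ_two, Fin.sum_univ_two, Fin.sum_univ_two]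
  simp only [Matrix.cons_val_zero, Matrix.cons_val_one]
  ring

theorem zTd2_psd (E : Matrix (Fin 2) (Fin 2) ℝ) : (E * Eᵀ).PosSemidef := by
  have h := Matrix.posSemidef_self_mul_conjTranspose E
  rwa [Matrix.conjTranspose_eq_transpose_of_trivial] at h

theorem zTd2_real {q1 q2 q p1 p2 p : ℝ} (hb1 : 0 ≤ b1) (hb2 : 0 ≤ b2) (h1 : 0 ≤ q1)
    (h2 : 0 ≤ q2) (h3 : q ^ 2 ≤ q1 * q2) (h4 : 0 ≤ p1) (h5 : 0 ≤ p2) (h6 : p ^ 2 ≤ p1 * p2) :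
    0 ≤ b1 ^ 2 * (q1 * p1) + b2 ^ 2 * (q2 * p2) + 2 * (b1 * b2) * (q * p) := by
  have hA : 0 ≤ b1 ^ 2 * (q1 * p1) := by positivity
  have hB : 0 ≤ b2 ^ 2 * (q2 * p2) := by positivity
  have h7 : (q * p) ^ 2 ≤ (q1 * q2) * (p1 * p2) := by
    rw [mul_pow]
    exact mul_le_mul h3 h6 (sq_nonneg _) (mul_nonneg h1 h2)
  have h8 : |b1 * b2 * (q * p)| ≤ (b1 ^ 2 * (q1 * p1) + b2 ^ 2 * (q2 * p2)) / 2 := by
    refine abs_le_of_sq_le_sq ?_ (by linarith)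
    have h9 : (b1 * b2 * (q * p)) ^ 2 ≤ (b1 ^ 2 * (q1 * p1)) * (b2 ^ 2 * (q2 * p2)) := by
      have h10 : (b1 * b2 * (q * p)) ^ 2 = (b1 * b2) ^ 2 * (q * p) ^ 2 := by ring
      have h11 : (b1 ^ 2 * (q1 * p1)) * (b2 ^ 2 * (q2 * p2)) =
          (b1 * b2) ^ 2 * ((q1 * q2) * (p1 * p2)) := by ring
      rw [h10, h11]
      exact mul_le_mul_of_nonneg_left h7 (sq_nonneg _)
    nlinarith [sq_nonneg (b1 ^ 2 * (q1 * p1) - b2 ^ 2 * (q2 * p2))]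
  have h9 := (abs_le.1 h8).1
  linarith

/-- `C(Q + P) ≥ C(Q)` for positive semidefinite `Q`, `P` and `β ≥ 0` (2x2: the term
`2 β_c β_c' Q_cc' P_cc'` sums to a nonnegative number: `b1² q1 p1 + b2² q2 p2 + 2 b1 b2 q p`,
`|q p| ≤ sqrt (q1 q2 p1 p2)`) -/
theorem Cf_mono2 (hb1 : 0 ≤ b1) (hb2 : 0 ≤ b2) (Q P : Matrix (Fin 2) (Fin 2) ℝ)
    (hQ : Q.PosSemidef) (hP : P.PosSemidef) : Cf (be b1 b2) Q ≤ Cf (be b1 b2) (Q + P) := by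
  obtain ⟨q0, q1, q2, q3⟩ := psd2 Q hQ
  obtain ⟨p0, p1, p2, p3⟩ := psd2 P hP
  have h := zTd2_real hb1 hb2 q1 q2 q3 p1 p2 p3
  rw [zTd2_Cf, zTd2_Cf, Matrix.add_apply, Matrix.add_apply, Matrix.add_apply, Matrix.add_apply,
    q0, p0]
  have h1 : 0 ≤ b1 ^ 2 * P 0 0 ^ 2 := by positivity
  have h2 : 0 ≤ b2 ^ 2 * P 1 1 ^ 2 := by positivity
  have h3 : 0 ≤ b1 * b2 * P 0 1 ^ 2 := by positivity
  nlinarith

/-- correction of a list with weights at most `m`, starting at a positive semidefinite `Q`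
(induction on `l`; `Cf_mono2`; `E Eᵀ` is positive semidefinite) -/
theorem corr_le (hb1 : 0 ≤ b1) (hb2 : 0 ≤ b2) (m : ℝ) (l : List (Step (Fin 2)))
    (hl : ∀ a ∈ l, a.1 ≤ m) (Q : Matrix (Fin 2) (Fin 2) ℝ) (hQ : Q.PosSemidef) :
    corr (be b1 b2) Q l ≤ m * (Cf (be b1 b2) (Q + Qtot l) - Cf (be b1 b2) Q) := by
  induction l generalizing Q with
  | nil =>
    show (0 : ℝ) ≤ m * (Cf (be b1 b2) (Q + 0) - Cf (be b1 b2) Q)
    rw [add_zero, sub_self, mul_zero]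
  | cons a l ih =>
    have hE := zTd2_psd a.2
    have h1 := ih (fun x hx => hl x (List.mem_cons_of_mem _ hx)) (Q + a.2 * a.2ᵀ) (hQ.add hE)
    have h2 := Cf_mono2 hb1 hb2 Q (a.2 * a.2ᵀ) hQ hE
    have h3 : a.1 * (Cf (be b1 b2) (Q + a.2 * a.2ᵀ) - Cf (be b1 b2) Q) ≤
        m * (Cf (be b1 b2) (Q + a.2 * a.2ᵀ) - Cf (be b1 b2) Q) :=
      mul_le_mul_of_nonneg_right (hl a List.mem_cons_self) (by linarith)
    show a.1 * (Cf (be b1 b2) (Q + a.2 * a.2ᵀ) - Cf (be b1 b2) Q) +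
      corr (be b1 b2) (Q + a.2 * a.2ᵀ) l ≤
        m * (Cf (be b1 b2) (Q + (a.2 * a.2ᵀ + Qtot l)) - Cf (be b1 b2) Q)
    rw [← add_assoc]
    linarith

/-- `C` is Lipschitz along the levels: `|q² - q'²| ≤ 2 |q - q'|` for `|q|, |q'| ≤ 1`
(`LD_lip`, `LD_abs_le`) -/
theorem Cf_lip (hb1 : 0 ≤ b1) (hb2 : 0 ≤ b2) (L : LData b1 b2 u) (s t : ℝ) (hs : s ∈ L.T)
    (ht : t ∈ L.T) (hst : s ≤ t) :
    Cf (be b1 b2) (L.Q t) - Cf (be b1 b2) (L.Q s) ≤ 2 * (b1 + b2) ^ 2 * (t - s) := by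
  have key : ∀ i j : Fin 2, L.Q t i j ^ 2 - L.Q s i j ^ 2 ≤ 2 * (t - s) := by
    intro i j
    have h1 := abs_le.1 (LD_lip L s t hs ht hst i j)
    have h2 := abs_le.1 (LD_abs_le L s hs i j)
    have h3 := abs_le.1 (LD_abs_le L t ht i j)
    have h4 : |L.Q t i j ^ 2 - L.Q s i j ^ 2| ≤ (t - s) * 2 := by
      have h5 : L.Q t i j ^ 2 - L.Q s i j ^ 2 =
          (L.Q t i j - L.Q s i j) * (L.Q t i j + L.Q s i j) := by ring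
      rw [h5, abs_mul]
      refine mul_le_mul (LD_lip L s t hs ht hst i j) ?_ (abs_nonneg _) (by linarith)
      rw [abs_le]
      constructor <;> linarith
    have h5 := (abs_le.1 h4).2
    linarith
  have k0 := mul_le_mul_of_nonneg_left (key 0 0) (sq_nonneg b1)
  have k1 := mul_le_mul_of_nonneg_left (key 0 1) (mul_nonneg hb1 hb2)
  have k2 := mul_le_mul_of_nonneg_left (key 1 0) (mul_nonneg hb2 hb1)
  have k3 := mul_le_mul_of_nonneg_left (key 1 1) (sq_nonneg b2)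
  rw [zTd2_Cf, zTd2_Cf]
  nlinarith

end SKC.Z
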