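import Pool.Agent.H.MP_08eaf3_pr.Z.Setup

/-!
# Part Z, S4: variance lower bound, Schur complement
-/

set_option autoImplicit false

open MeasureTheory ProbabilityTheory Filter Topology Matrix

namespace SKC.Z

/-- variance lower bound. `m = ∫ X`; if `m ≤ (α + β) / 2` then `(X - m)² ≥ ((α - β)/2)²` on `A`,
otherwise on `A'`. -/
theorem var_lower {Ω : Type} [MeasurableSpace Ω] (μ : Measure Ω) [IsProbabilityMeasure μ]
    (X : Ω → ℝ) (hX : Measurable X) (K : ℝ) (hb : ∀ ω, |X ω| ≤ K) (A A' : Set Ω)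
    (hA : MeasurableSet A) (hA' : MeasurableSet A') (α β p : ℝ) (hβα : β ≤ α)
    (h1 : ∀ ω ∈ A, α ≤ X ω) (h2 : ∀ ω ∈ A', X ω ≤ β) (hp : p ≤ μ.real A) (hp' : p ≤ μ.real A') :
    p * ((α - β) / 2) ^ 2 ≤ ∫ ω, (X ω - ∫ ω', X ω' ∂μ) ^ 2 ∂μ := by
  set m := ∫ ω', X ω' ∂μ with hm
  have hmb : |m| ≤ K := by
    have := norm_integral_le_of_norm_le_const (μ := μ) (f := X) (C := K)
      (Filter.Eventually.of_forall (fun ω => by rw [Real.norm_eq_abs]; exact hb ω))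
    simpa [hm] using this
  have hint : Integrable (fun ω => (X ω - m) ^ 2) μ := by
    refine Integrable.of_bound (C := (K + K) ^ 2) ?_ ?_
    · exact ((hX.sub_const m).pow_const 2).aestronglyMeasurable
    · filter_upwards with ω
      rw [Real.norm_eq_abs, abs_pow]
      have h3 : |X ω - m| ≤ K + K := (abs_sub _ _).trans (add_le_add (hb ω) hmb)
      exact pow_le_pow_left₀ (abs_nonneg _) h3 2
  have key : ∀ S : Set Ω, MeasurableSet S → p ≤ μ.real S →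
      (∀ ω ∈ S, ((α - β) / 2) ^ 2 ≤ (X ω - m) ^ 2) →
      p * ((α - β) / 2) ^ 2 ≤ ∫ ω, (X ω - m) ^ 2 ∂μ := by
    intro S hS hpS hle
    have h3 : ∫ ω in S, ((α - β) / 2) ^ 2 ∂μ ≤ ∫ ω in S, (X ω - m) ^ 2 ∂μ :=
      setIntegral_mono_on (integrableOn_const (by simp)) hint.integrableOn hS hle
    have h4 : ∫ ω in S, (X ω - m) ^ 2 ∂μ ≤ ∫ ω, (X ω - m) ^ 2 ∂μ :=
      setIntegral_le_integral hint (Filter.Eventually.of_forall (fun ω => sq_nonneg _))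
    rw [setIntegral_const, smul_eq_mul] at h3
    have h5 := mul_le_mul_of_nonneg_right hpS (sq_nonneg ((α - β) / 2))
    linarith
  by_cases hcase : m ≤ (α + β) / 2
  · apply key A hA hp
    intro ω hω
    have := h1 ω hω
    apply pow_le_pow_left₀ (by linarith)
    linarith
  · push Not at hcase
    apply key A' hA' hp'
    intro ω hω
    have := h2 ω hω
    have h3 : (X ω - m) ^ 2 = (m - X ω) ^ 2 := by ring
    rw [h3]
    apply pow_le_pow_left₀ (by linarith)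
    linarith

/-- `Σ_i (Σ_c B_ci W_c)² ≥ λ W_0²` for `λ A_11 ≤ det A`, `A = B Bᵀ`, `A_11 > 0`:
`A_11 Wᵀ A W = (A_01 W_0 + A_11 W_1)² + (A_00 A_11 - A_01²) W_0²` -/
theorem schur_lower (B : Matrix (Fin 2) (Fin 2) ℝ) (lam : ℝ) (h1 : 0 < (B * Bᵀ) 1 1)
    (hlam : lam * (B * Bᵀ) 1 1 ≤ (B * Bᵀ) 0 0 * (B * Bᵀ) 1 1 - (B * Bᵀ) 0 1 ^ 2)
    (W : Fin 2 → ℝ) :
    lam * W 0 ^ 2 ≤ ∑ i, (∑ c, B c i * W c) ^ 2 := by
  simp only [Matrix.mul_apply, Matrix.transpose_apply, Fin.sum_univ_two] at h1 hlam ⊢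
  set A00 := B 0 0 * B 0 0 + B 0 1 * B 0 1 with hA00
  set A01 := B 0 0 * B 1 0 + B 0 1 * B 1 1 with hA01
  set A11 := B 1 0 * B 1 0 + B 1 1 * B 1 1 with hA11
  have e1 : (B 0 0 * W 0 + B 1 0 * W 1) ^ 2 + (B 0 1 * W 0 + B 1 1 * W 1) ^ 2 =
      A00 * W 0 ^ 2 + 2 * A01 * W 0 * W 1 + A11 * W 1 ^ 2 := by
    rw [hA00, hA01, hA11]; ring
  rw [e1]
  have e2 : A11 * (lam * W 0 ^ 2) ≤ A11 * (A00 * W 0 ^ 2 + 2 * A01 * W 0 * W 1 + A11 * W 1 ^ 2) := by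
    have e3 := mul_le_mul_of_nonneg_right hlam (sq_nonneg (W 0))
    nlinarith [sq_nonneg (A01 * W 0 + A11 * W 1)]
  exact le_of_mul_le_mul_left e2 h1

end SKC.Z
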