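import Pool.Agent.H.MP_08eaf3_pr.Z.Setup

/-!
# Part Z, S4: directional derivatives
-/

set_option autoImplicit false

open MeasureTheory ProbabilityTheory Filter Topology Matrix

namespace SKC.Z

theorem zTd5_line (β : Fin 2 → ℝ) (l : List (Step (Fin 2))) (c : Fin 2) (p : Fin 2 → ℝ) (s : ℝ) :
    HasDerivAt (fun t : ℝ => PsiL β l F0 (p + t • Pi.single c 1))
      (Mg β l c (p + s • Pi.single c 1)) s := by
  have h1 := PsiL_deriv β l c (p + s • Pi.single c 1)
  have h2 : HasDerivAt (fun h : ℝ => PsiL β l F0 (p + s • Pi.single c 1 + h • Pi.single c 1))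
      (Mg β l c (p + s • Pi.single c 1)) (s - s) := by
    rw [sub_self]
    exact h1
  have h3 := h2.comp_sub_const s s
  have h4 : (fun t : ℝ => PsiL β l F0 (p + s • Pi.single c 1 + (t - s) • Pi.single c 1)) =
      fun t : ℝ => PsiL β l F0 (p + t • Pi.single c 1) := by
    funext t
    congr 1
    rw [add_assoc, ← add_smul, add_sub_cancel]
  rw [h4] at h3
  exact h3

theorem zTd5_est (β : Fin 2 → ℝ) (l : List (Step (Fin 2))) (hl : Ok l) (c : Fin 2)
    (p z : Fin 2 → ℝ) (t : ℝ) :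
    |PsiL β l F0 (p + t • Pi.single c 1) - PsiL β l F0 p - t * Mg β l c z| ≤
      (n1 (p - z) + |t|) * |t| := by
  have hd : ∀ s ∈ Set.uIcc (0 : ℝ) t, HasDerivWithinAt
      (fun s : ℝ => PsiL β l F0 (p + s • Pi.single c 1) - s * Mg β l c z)
      (Mg β l c (p + s • Pi.single c 1) - Mg β l c z) (Set.uIcc (0 : ℝ) t) s := by
    intro s _
    have h1 := (zTd5_line β l c p s).sub ((hasDerivAt_id s).mul_const (Mg β l c z))
    rw [one_mul] at h1
    exact h1.hasDerivWithinAt
  have hb : ∀ s ∈ Set.uIcc (0 : ℝ) t, ‖Mg β l c (p + s • Pi.single c 1) - Mg β l c z‖ ≤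
      n1 (p - z) + |t| := by
    intro s hs
    rw [Real.norm_eq_abs]
    refine (Mg_lip β l hl c _ _).trans ?_
    have h1 : p + s • (Pi.single c 1 : Fin 2 → ℝ) - z = (p - z) + s • Pi.single c 1 := by abel
    rw [h1]
    refine (A.n1_add_le _ _).trans ?_
    rw [A.n1_smul, A.n1_single, abs_one, mul_one]
    have h2 : |s| ≤ |t| := by
      have h3 := Set.abs_sub_left_of_mem_uIcc hs
      rw [sub_zero, sub_zero] at h3
      exact h3
    linarith
  have h := Convex.norm_image_sub_le_of_norm_hasDerivWithin_le hd hb (convex_uIcc 0 t)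
    Set.left_mem_uIcc Set.right_mem_uIcc
  rw [Real.norm_eq_abs, Real.norm_eq_abs, sub_zero] at h
  have h5 : PsiL β l F0 (p + t • Pi.single c 1) - t * Mg β l c z -
      (PsiL β l F0 (p + (0 : ℝ) • Pi.single c 1) - 0 * Mg β l c z) =
      PsiL β l F0 (p + t • Pi.single c 1) - PsiL β l F0 p - t * Mg β l c z := by
    rw [zero_smul, add_zero]
    ring
  rw [h5] at h
  exact h

/-- directional derivatives. With `g h = PsiL (z + h v)`:
`g h - g 0 = [PsiL (z + h v) - PsiL (z + h v_0 e_0)] + [PsiL (z + h v_0 e_0) - PsiL z]`; each bracket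
is treated by the mean value theorem (`PsiL_deriv`) and `Mg_lip`:
`|g h - g 0 - h (v_0 M_0 z + v_1 M_1 z)| ≤ C h²`. -/
theorem PsiL_dir (β : Fin 2 → ℝ) (l : List (Step (Fin 2))) (hl : Ok l) (z v : Fin 2 → ℝ) :
    HasDerivAt (fun h : ℝ => PsiL β l F0 (z + h • v)) (v 0 * Mg β l 0 z + v 1 * Mg β l 1 z) 0 := by
  rw [hasDerivAt_iff_isLittleO_nhds_zero]
  have hO : (fun h : ℝ => PsiL β l F0 (z + (0 + h) • v) - PsiL β l F0 (z + (0 : ℝ) • v) -
      h • (v 0 * Mg β l 0 z + v 1 * Mg β l 1 z)) =O[𝓝 0] fun h : ℝ => h ^ 2 := by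
    refine Asymptotics.IsBigO.of_bound ((|v 0| + |v 1|) * |v 1| + |v 0| * |v 0|)
      (Eventually.of_forall fun h => ?_)
    have e1 := zTd5_est β l hl 1 (z + (h * v 0) • Pi.single 0 1) z (h * v 1)
    have e2 := zTd5_est β l hl 0 z z (h * v 0)
    have e3 : z + (0 + h) • v = z + (h * v 0) • Pi.single 0 1 + (h * v 1) • Pi.single 1 1 := by
      funext i
      fin_cases i <;> simp
    have e4 : z + (h * v 0) • (Pi.single 0 1 : Fin 2 → ℝ) - z = (h * v 0) • Pi.single 0 1 := by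
      abel
    rw [e4, A.n1_smul, A.n1_single, abs_one, mul_one] at e1
    rw [sub_self, A.n1_zero, zero_add] at e2
    rw [e3, zero_smul, add_zero, Real.norm_eq_abs, Real.norm_eq_abs, smul_eq_mul]
    have e5 : PsiL β l F0 (z + (h * v 0) • Pi.single 0 1 + (h * v 1) • Pi.single 1 1) -
        PsiL β l F0 z - h * (v 0 * Mg β l 0 z + v 1 * Mg β l 1 z) =
        (PsiL β l F0 (z + (h * v 0) • Pi.single 0 1 + (h * v 1) • Pi.single 1 1) -
          PsiL β l F0 (z + (h * v 0) • Pi.single 0 1) - h * v 1 * Mg β l 1 z) +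
        (PsiL β l F0 (z + (h * v 0) • Pi.single 0 1) - PsiL β l F0 z -
          h * v 0 * Mg β l 0 z) := by ring
    rw [e5]
    refine (abs_add_le _ _).trans ?_
    have e6 : |h ^ 2| = |h| * |h| := by rw [pow_two, abs_mul]
    have e7 : (|h * v 0| + |h * v 1|) * |h * v 1| + |h * v 0| * |h * v 0| =
        ((|v 0| + |v 1|) * |v 1| + |v 0| * |v 0|) * |h ^ 2| := by
      rw [e6, abs_mul, abs_mul]
      ring
    rw [← e7]
    exact add_le_add e1 e2
  exact hO.trans_isLittleO (Asymptotics.isLittleO_pow_id one_lt_two)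

end SKC.Z
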