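import Pool.Agent.H.MP_08eaf3_pr.Z.Td4
import Pool.Agent.H.MP_08eaf3_pr.Z.Td5
import Pool.Agent.H.MP_08eaf3_pr.Z.Ta4

/-!
# Part Z, S4: improved Poincare inequality for the level functions
-/

set_option autoImplicit false

open MeasureTheory ProbabilityTheory Filter Topology Matrix

namespace SKC.Z

/-- the vector `V_c(a,b) = (M_c(B (a+b)/√2) - M_c(B (a-b)/√2)) / √2` -/
noncomputable def Vm (β : Fin 2 → ℝ) (l : List (Step (Fin 2))) (B : Matrix (Fin 2) (Fin 2) ℝ)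
    (c : Fin 2) (a b : Fin 2 → ℝ) : ℝ :=
  (Mg β l c (B.mulVec ((Real.sqrt 2)⁻¹ • (a + b))) -
    Mg β l c (B.mulVec ((Real.sqrt 2)⁻¹ • (a - b)))) / Real.sqrt 2

/-- continuity and bound of `Vm` -/
theorem Vm_cont (β : Fin 2 → ℝ) (l : List (Step (Fin 2))) (hl : Ok l)
    (B : Matrix (Fin 2) (Fin 2) ℝ) (c : Fin 2) :
    Continuous (fun p : (Fin 2 → ℝ) × (Fin 2 → ℝ) => Vm β l B c p.1 p.2) ∧
    ∀ a b, |Vm β l B c a b| ≤ 2 := by
  have hM := Mg_cont β l hl c
  constructor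
  · unfold Vm
    have h1 : Continuous (fun p : (Fin 2 → ℝ) × (Fin 2 → ℝ) =>
        (Real.sqrt 2)⁻¹ • (p.1 + p.2)) := by fun_prop
    have h2 : Continuous (fun p : (Fin 2 → ℝ) × (Fin 2 → ℝ) =>
        (Real.sqrt 2)⁻¹ • (p.1 - p.2)) := by fun_prop
    refine Continuous.div_const (Continuous.sub ?_ ?_) _
    · exact hM.comp (Continuous.matrix_mulVec continuous_const h1)
    · exact hM.comp (Continuous.matrix_mulVec continuous_const h2)
  · intro a b
    unfold Vm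
    have h2 : (1 : ℝ) ≤ Real.sqrt 2 := Real.one_le_sqrt.mpr (by norm_num)
    have h1 := (Mg_lt_one β l c (B.mulVec ((Real.sqrt 2)⁻¹ • (a + b)))).le
    have h1' := (Mg_lt_one β l c (B.mulVec ((Real.sqrt 2)⁻¹ • (a - b)))).le
    rw [abs_div, abs_of_nonneg (Real.sqrt_nonneg 2), div_le_iff₀ (by linarith)]
    refine (abs_sub _ _).trans ?_
    linarith

/-- bounded continuous functions are integrable -/
theorem zTd6_integrable {f : (Fin 2 → ℝ) → ℝ} (hf : Continuous f) (C : ℝ)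
    (hb : ∀ x, |f x| ≤ C) : Integrable f (gam (Fin 2)) := by
  refine Integrable.mono' (integrable_const C) hf.aestronglyMeasurable ?_
  exact Filter.Eventually.of_forall fun x => by rw [Real.norm_eq_abs]; exact hb x

/-- integration of a bounded continuous function over the first variable -/
theorem zTd6_int {F : (Fin 2 → ℝ) → (Fin 2 → ℝ) → ℝ}
    (hF : Continuous (fun p : (Fin 2 → ℝ) × (Fin 2 → ℝ) => F p.1 p.2)) (C : ℝ)
    (hb : ∀ a b, |F a b| ≤ C) :
    Continuous (fun b => ∫ a, F a b ∂(gam (Fin 2))) ∧ ∀ b, |∫ a, F a b ∂(gam (Fin 2))| ≤ C := by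
  constructor
  · refine continuous_of_dominated (bound := fun _ => C) (fun b => ?_) (fun b => ?_)
      (integrable_const C) (Filter.Eventually.of_forall fun a => ?_)
    · have : Continuous (fun a => F a b) :=
        hF.comp (continuous_id.prodMk continuous_const)
      exact this.aestronglyMeasurable
    · exact Filter.Eventually.of_forall fun a => by rw [Real.norm_eq_abs]; exact hb a b
    · exact hF.comp (continuous_const.prodMk continuous_id)
  · intro b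
    have h := norm_integral_le_of_norm_le_const (μ := gam (Fin 2)) (f := fun a => F a b) (C := C)
      (Filter.Eventually.of_forall fun a => by rw [Real.norm_eq_abs]; exact hb a b)
    rw [probReal_univ, mul_one, Real.norm_eq_abs] at h
    exact h

/-- sections of a bounded continuous function are integrable -/
theorem zTd6_sec {F : (Fin 2 → ℝ) → (Fin 2 → ℝ) → ℝ}
    (hF : Continuous (fun p : (Fin 2 → ℝ) × (Fin 2 → ℝ) => F p.1 p.2)) (C : ℝ)
    (hb : ∀ a b, |F a b| ≤ C) (b : Fin 2 → ℝ) : Integrable (fun a => F a b) (gam (Fin 2)) := by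
  have : Continuous (fun a => F a b) := hF.comp (continuous_id.prodMk continuous_const)
  exact zTd6_integrable this C fun a => hb a b

/-- monotonicity of iterated integrals of bounded continuous functions -/
theorem zTd6_mono {F G : (Fin 2 → ℝ) → (Fin 2 → ℝ) → ℝ}
    (hF : Continuous (fun p : (Fin 2 → ℝ) × (Fin 2 → ℝ) => F p.1 p.2)) (C : ℝ)
    (hb : ∀ a b, |F a b| ≤ C)
    (hG : Continuous (fun p : (Fin 2 → ℝ) × (Fin 2 → ℝ) => G p.1 p.2)) (C' : ℝ)
    (hb' : ∀ a b, |G a b| ≤ C') (hle : ∀ a b, F a b ≤ G a b) :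
    ∫ b, ∫ a, F a b ∂(gam (Fin 2)) ∂(gam (Fin 2)) ≤
      ∫ b, ∫ a, G a b ∂(gam (Fin 2)) ∂(gam (Fin 2)) := by
  have hA := zTd6_int hF C hb
  have hB := zTd6_int hG C' hb'
  refine integral_mono (zTd6_integrable hA.1 _ hA.2) (zTd6_integrable hB.1 _ hB.2) fun b => ?_
  exact integral_mono (zTd6_sec hF C hb b) (zTd6_sec hG C' hb' b) fun a => hle a b

/-- the directional derivatives of `x ↦ PsiL β l F0 (B x)` -/
noncomputable def zTd6_D (β : Fin 2 → ℝ) (l : List (Step (Fin 2))) (B : Matrix (Fin 2) (Fin 2) ℝ)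
    (i : Fin 2) (x : Fin 2 → ℝ) : ℝ := ∑ c, B c i * Mg β l c (B.mulVec x)

theorem zTd6_D_deriv (β : Fin 2 → ℝ) (l : List (Step (Fin 2))) (hl : Ok l)
    (B : Matrix (Fin 2) (Fin 2) ℝ) (i : Fin 2) (x : Fin 2 → ℝ) :
    HasDerivAt (fun h : ℝ => PsiL β l F0 (B.mulVec (x + h • Pi.single i 1)))
      (zTd6_D β l B i x) 0 := by
  have h1 := PsiL_dir β l hl (B.mulVec x) (fun c => B c i)
  have h2 : ∀ h : ℝ, B.mulVec (x + h • Pi.single i 1) = B.mulVec x + h • (fun c => B c i) := by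
    intro h
    rw [Matrix.mulVec_add, Matrix.mulVec_smul, Matrix.mulVec_single_one]
    rfl
  have h3 : (fun h : ℝ => PsiL β l F0 (B.mulVec (x + h • Pi.single i 1))) =
      fun h : ℝ => PsiL β l F0 (B.mulVec x + h • (fun c => B c i)) := by
    funext h
    rw [h2]
  have h4 : zTd6_D β l B i x = B 0 i * Mg β l 0 (B.mulVec x) + B 1 i * Mg β l 1 (B.mulVec x) := by
    unfold zTd6_D
    rw [Fin.sum_univ_two]
  rw [h3, h4]
  exact h1

theorem zTd6_D_cont (β : Fin 2 → ℝ) (l : List (Step (Fin 2))) (hl : Ok l)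
    (B : Matrix (Fin 2) (Fin 2) ℝ) (i : Fin 2) : Continuous (zTd6_D β l B i) := by
  unfold zTd6_D
  refine continuous_finsetSum _ fun c _ => continuous_const.mul ?_
  exact (Mg_cont β l hl c).comp (Continuous.matrix_mulVec continuous_const continuous_id)

/-- sum of the absolute values of the entries -/
noncomputable def zTd6_S (B : Matrix (Fin 2) (Fin 2) ℝ) : ℝ := ∑ c, ∑ i, |B c i|

theorem zTd6_S_nonneg (B : Matrix (Fin 2) (Fin 2) ℝ) : 0 ≤ zTd6_S B :=
  Finset.sum_nonneg fun _ _ => Finset.sum_nonneg fun _ _ => abs_nonneg _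

theorem zTd6_col (B : Matrix (Fin 2) (Fin 2) ℝ) (i : Fin 2) : ∑ c, |B c i| ≤ zTd6_S B := by
  unfold zTd6_S
  exact Finset.sum_le_sum fun c _ =>
    Finset.single_le_sum (f := fun i => |B c i|) (fun _ _ => abs_nonneg _) (Finset.mem_univ i)

theorem zTd6_D_bdd (β : Fin 2 → ℝ) (l : List (Step (Fin 2)))
    (B : Matrix (Fin 2) (Fin 2) ℝ) (i : Fin 2) (x : Fin 2 → ℝ) :
    |zTd6_D β l B i x| ≤ zTd6_S B := by
  unfold zTd6_D
  refine (Finset.abs_sum_le_sum_abs _ _).trans (le_trans ?_ (zTd6_col B i))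
  refine Finset.sum_le_sum fun c _ => ?_
  rw [abs_mul]
  exact mul_le_of_le_one_right (abs_nonneg _) (Mg_lt_one β l c _).le

theorem zTd6_D_lip (β : Fin 2 → ℝ) (l : List (Step (Fin 2))) (hl : Ok l)
    (B : Matrix (Fin 2) (Fin 2) ℝ) (i : Fin 2) (x y : Fin 2 → ℝ) :
    |zTd6_D β l B i x - zTd6_D β l B i y| ≤ zTd6_S B * (zTd6_S B * n1 (x - y)) := by
  unfold zTd6_D
  rw [← Finset.sum_sub_distrib]
  have hn : 0 ≤ zTd6_S B * n1 (x - y) := mul_nonneg (zTd6_S_nonneg B) (A.n1_nonneg _)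
  refine (Finset.abs_sum_le_sum_abs _ _).trans
    (le_trans ?_ (mul_le_mul_of_nonneg_right (zTd6_col B i) hn))
  rw [Finset.sum_mul]
  refine Finset.sum_le_sum fun c _ => ?_
  rw [← mul_sub, abs_mul]
  refine mul_le_mul_of_nonneg_left ?_ (abs_nonneg _)
  refine (Mg_lip β l hl c _ _).trans ?_
  rw [← Matrix.mulVec_sub]
  exact A.n1_mulVec_le B (x - y)

theorem zTd6_D_Vm (β : Fin 2 → ℝ) (l : List (Step (Fin 2)))
    (B : Matrix (Fin 2) (Fin 2) ℝ) (i : Fin 2) (a b : Fin 2 → ℝ) :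
    (zTd6_D β l B i ((Real.sqrt 2)⁻¹ • (a + b)) - zTd6_D β l B i ((Real.sqrt 2)⁻¹ • (a - b))) /
      Real.sqrt 2 = ∑ c, B c i * Vm β l B c a b := by
  unfold zTd6_D Vm
  rw [← Finset.sum_sub_distrib, Finset.sum_div]
  refine Finset.sum_congr rfl fun c _ => ?_
  ring

/-- The improved Poincare inequality (A5, `var_even_le`) for `x ↦ PsiL β l F0 (B x)`:
`D_i x = ∑_c B_ci M_c(B x)` (`PsiL_dir` with `v = B e_i`), `PsiL_even`, `Mg_lip`, `Mg_lt_one`.
`∑_i D_i² = ∑_cc' (B Bᵀ)_cc' M_c M_c'`, and the integrand of the second term is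
`∑_i (∑_c B_ci W_c)² ≥ lam W_0²` by `schur_lower`, `W_c = VV_c(a,b) - ∫ VV_c(a',b)`.
(Integrability: bounded continuous functions; `b ↦ ∫_a` is measurable by `integral_prod`.) -/
theorem var_psi_raw (β : Fin 2 → ℝ) (l : List (Step (Fin 2))) (hl : Ok l)
    (B : Matrix (Fin 2) (Fin 2) ℝ) (lam : ℝ) (h0 : 0 ≤ lam) (h1 : 0 < (B * Bᵀ) 1 1)
    (hlam : lam * (B * Bᵀ) 1 1 ≤ (B * Bᵀ) 0 0 * (B * Bᵀ) 1 1 - (B * Bᵀ) 0 1 ^ 2) :
    ∫ x, (PsiL β l F0 (B.mulVec x) - ∫ y, PsiL β l F0 (B.mulVec y) ∂(gam (Fin 2))) ^ 2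
        ∂(gam (Fin 2)) ≤
      (1 / 2) * (∑ c, ∑ c', (B * Bᵀ) c c' *
        ∫ x, Mg β l c (B.mulVec x) * Mg β l c' (B.mulVec x) ∂(gam (Fin 2))) -
      (1 / 4) * (lam * ∫ b, ∫ a, (Vm β l B 0 a b - ∫ a', Vm β l B 0 a' b ∂(gam (Fin 2))) ^ 2
        ∂(gam (Fin 2)) ∂(gam (Fin 2))) := by
  have hS := zTd6_S_nonneg B
  have hmain := var_even_le (fun x => PsiL β l F0 (B.mulVec x)) (zTd6_D β l B)
    (zTd6_S B + zTd6_S B * zTd6_S B)
    (fun x => by rw [Matrix.mulVec_neg]; exact PsiL_even β l _)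
    (fun i x => zTd6_D_deriv β l hl B i x) (fun i => zTd6_D_cont β l hl B i)
    (fun i x => (zTd6_D_bdd β l B i x).trans (by nlinarith [mul_nonneg hS hS]))
    (fun i x y => (zTd6_D_lip β l hl B i x y).trans (by
      have := A.n1_nonneg (x - y)
      nlinarith [mul_nonneg hS this]))
  refine hmain.trans ?_
  -- continuity of the magnetisations
  have hMc : ∀ c, Continuous (fun x : Fin 2 → ℝ => Mg β l c (B.mulVec x)) := fun c =>
    (Mg_cont β l hl c).comp (Continuous.matrix_mulVec continuous_const continuous_id)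
  have hMM : ∀ c c', Integrable (fun x : Fin 2 → ℝ => Mg β l c (B.mulVec x) *
      Mg β l c' (B.mulVec x)) (gam (Fin 2)) := fun c c' =>
    zTd6_integrable ((hMc c).mul (hMc c')) 1 fun x => by
      rw [abs_mul]
      exact mul_le_one₀ (Mg_lt_one β l c _).le (abs_nonneg _) (Mg_lt_one β l c' _).le
  -- first term
  have h1st : ∫ x, ∑ i, zTd6_D β l B i x ^ 2 ∂(gam (Fin 2)) =
      ∑ c, ∑ c', (B * Bᵀ) c c' *
        ∫ x, Mg β l c (B.mulVec x) * Mg β l c' (B.mulVec x) ∂(gam (Fin 2)) := by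
    have hp : ∀ x, ∑ i, zTd6_D β l B i x ^ 2 = ∑ c, ∑ c', (B * Bᵀ) c c' *
        (Mg β l c (B.mulVec x) * Mg β l c' (B.mulVec x)) := by
      intro x
      unfold zTd6_D
      simp only [Fin.sum_univ_two, Matrix.mul_apply, Matrix.transpose_apply]
      ring
    rw [integral_congr_ae (Filter.Eventually.of_forall hp)]
    rw [integral_finsetSum _ (fun c _ => integrable_finsetSum _ fun c' _ =>
      (hMM c c').const_mul _)]
    refine Finset.sum_congr rfl fun c _ => ?_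
    rw [integral_finsetSum _ (fun c' _ => (hMM c c').const_mul _)]
    refine Finset.sum_congr rfl fun c' _ => ?_
    rw [integral_const_mul]
  -- second term
  have hV := fun c => Vm_cont β l hl B c
  have hm := fun c => zTd6_int (hV c).1 2 (hV c).2
  have hWc : ∀ c, Continuous (fun p : (Fin 2 → ℝ) × (Fin 2 → ℝ) =>
      Vm β l B c p.1 p.2 - ∫ a', Vm β l B c a' p.2 ∂(gam (Fin 2))) := fun c =>
    (hV c).1.sub ((hm c).1.comp continuous_snd)
  have hWb : ∀ c a b, |Vm β l B c a b - ∫ a', Vm β l B c a' b ∂(gam (Fin 2))| ≤ 4 := by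
    intro c a b
    refine (abs_sub _ _).trans ?_
    linarith [(hV c).2 a b, (hm c).2 b]
  have hVi : ∀ c b, Integrable (fun a => Vm β l B c a b) (gam (Fin 2)) := fun c b =>
    zTd6_sec (hV c).1 2 (hV c).2 b
  have hpt : ∀ i a b, ((zTd6_D β l B i ((Real.sqrt 2)⁻¹ • (a + b)) -
      zTd6_D β l B i ((Real.sqrt 2)⁻¹ • (a - b))) / Real.sqrt 2 -
      ∫ a', (zTd6_D β l B i ((Real.sqrt 2)⁻¹ • (a' + b)) -
        zTd6_D β l B i ((Real.sqrt 2)⁻¹ • (a' - b))) / Real.sqrt 2 ∂(gam (Fin 2))) =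
      ∑ c, B c i * (Vm β l B c a b - ∫ a', Vm β l B c a' b ∂(gam (Fin 2))) := by
    intro i a b
    simp only [zTd6_D_Vm]
    rw [integral_finsetSum _ (fun c _ => (hVi c b).const_mul _), ← Finset.sum_sub_distrib]
    refine Finset.sum_congr rfl fun c _ => ?_
    rw [integral_const_mul]
    ring
  have hG1 : Continuous (fun p : (Fin 2 → ℝ) × (Fin 2 → ℝ) =>
      lam * (Vm β l B 0 p.1 p.2 - ∫ a', Vm β l B 0 a' p.2 ∂(gam (Fin 2))) ^ 2) :=
    continuous_const.mul ((hWc 0).pow 2)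
  have hG1b : ∀ a b, |lam * (Vm β l B 0 a b - ∫ a', Vm β l B 0 a' b ∂(gam (Fin 2))) ^ 2| ≤
      lam * 4 ^ 2 := by
    intro a b
    rw [abs_mul, abs_of_nonneg h0, abs_pow]
    exact mul_le_mul_of_nonneg_left (pow_le_pow_left₀ (abs_nonneg _) (hWb 0 a b) 2) h0
  have hG2 : Continuous (fun p : (Fin 2 → ℝ) × (Fin 2 → ℝ) =>
      ∑ i, (∑ c, B c i * (Vm β l B c p.1 p.2 - ∫ a', Vm β l B c a' p.2 ∂(gam (Fin 2)))) ^ 2) :=
    continuous_finsetSum _ fun i _ => (continuous_finsetSum _ fun c _ =>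
      continuous_const.mul (hWc c)).pow 2
  have hG2b : ∀ a b, |∑ i, (∑ c, B c i * (Vm β l B c a b -
      ∫ a', Vm β l B c a' b ∂(gam (Fin 2)))) ^ 2| ≤ ∑ _i : Fin 2, (zTd6_S B * 4) ^ 2 := by
    intro a b
    refine (Finset.abs_sum_le_sum_abs _ _).trans (Finset.sum_le_sum fun i _ => ?_)
    rw [abs_pow]
    refine pow_le_pow_left₀ (abs_nonneg _) ?_ 2
    refine (Finset.abs_sum_le_sum_abs _ _).trans
      (le_trans ?_ (mul_le_mul_of_nonneg_right (zTd6_col B i) (by norm_num)))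
    rw [Finset.sum_mul]
    refine Finset.sum_le_sum fun c _ => ?_
    rw [abs_mul]
    exact mul_le_mul_of_nonneg_left (hWb c a b) (abs_nonneg _)
  have h2nd : lam * ∫ b, ∫ a, (Vm β l B 0 a b - ∫ a', Vm β l B 0 a' b ∂(gam (Fin 2))) ^ 2
        ∂(gam (Fin 2)) ∂(gam (Fin 2)) ≤
      ∫ b, ∫ a, ∑ i, ((zTd6_D β l B i ((Real.sqrt 2)⁻¹ • (a + b)) -
        zTd6_D β l B i ((Real.sqrt 2)⁻¹ • (a - b))) / Real.sqrt 2 -
        ∫ a', (zTd6_D β l B i ((Real.sqrt 2)⁻¹ • (a' + b)) -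
          zTd6_D β l B i ((Real.sqrt 2)⁻¹ • (a' - b))) / Real.sqrt 2 ∂(gam (Fin 2))) ^ 2
        ∂(gam (Fin 2)) ∂(gam (Fin 2)) := by
    simp only [hpt]
    rw [← integral_const_mul]
    have hA' : (fun b => lam * ∫ a, (Vm β l B 0 a b -
        ∫ a', Vm β l B 0 a' b ∂(gam (Fin 2))) ^ 2 ∂(gam (Fin 2))) =
        fun b => ∫ a, lam * (Vm β l B 0 a b - ∫ a', Vm β l B 0 a' b ∂(gam (Fin 2))) ^ 2
          ∂(gam (Fin 2)) := by
      funext b
      rw [integral_const_mul]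
    rw [hA']
    exact zTd6_mono (F := fun a b => lam * (Vm β l B 0 a b -
      ∫ a', Vm β l B 0 a' b ∂(gam (Fin 2))) ^ 2)
      (G := fun a b => ∑ i, (∑ c, B c i * (Vm β l B c a b -
        ∫ a', Vm β l B c a' b ∂(gam (Fin 2)))) ^ 2) hG1 _ hG1b hG2 _ hG2b
      (fun a b => schur_lower B lam h1 hlam
        (fun c => Vm β l B c a b - ∫ a', Vm β l B c a' b ∂(gam (Fin 2))))
  rw [h1st]
  linarith

end SKC.Z
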