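import Pool.Agent.H.MP_08eaf3_pr.Z.Td6
import Pool.Agent.H.MP_08eaf3_pr.Z.Ta6

/-!
# Part Z, S4: three regions
-/

set_option autoImplicit false

open MeasureTheory ProbabilityTheory Filter Topology Matrix

namespace SKC.Z

/-- bounds of the magnetisation far from the axis: `Mg_tails`, `Mg_odd`;
`T0 = log (4 C) / 2`, `C ≥ 1` -/
theorem Mg_far (β : Fin 2 → ℝ) : ∃ T0 : ℝ, 0 ≤ T0 ∧ ∀ l : List (Step (Fin 2)), Ok l → ∀ c z,
    (T0 ≤ z c → 3 / 4 ≤ Mg β l c z) ∧ (z c ≤ -T0 → Mg β l c z ≤ -(3 / 4)) := by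
  obtain ⟨C, hC, hT⟩ := Mg_tails β
  have h4 : (1 : ℝ) ≤ 4 * C := by linarith
  have key : ∀ l : List (Step (Fin 2)), Ok l → ∀ c z, Real.log (4 * C) / 2 ≤ z c →
      3 / 4 ≤ Mg β l c z := by
    intro l hl c z hz
    have h1 := (hT l hl c z).1
    have h2 : Real.exp (-(2 * z c)) ≤ (4 * C)⁻¹ := by
      rw [← Real.exp_log (show (0 : ℝ) < 4 * C by linarith), ← Real.exp_neg]
      exact Real.exp_le_exp.2 (by linarith)
    have h3 : C * Real.exp (-(2 * z c)) ≤ 1 / 4 := by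
      calc C * Real.exp (-(2 * z c)) ≤ C * (4 * C)⁻¹ := mul_le_mul_of_nonneg_left h2 (by linarith)
        _ = 1 / 4 := by field_simp
    linarith
  refine ⟨Real.log (4 * C) / 2, by have := Real.log_nonneg h4; linarith,
    fun l hl c z => ⟨key l hl c z, fun hz => ?_⟩⟩
  have h5 := key l hl c (-z) (by rw [Pi.neg_apply]; linarith)
  rw [Mg_odd] at h5
  linarith

/-- The three regions. `z_0`-coordinate of `B ((√2)⁻¹ (a ± b))` is `b1 √q1 (a_0 ± b_0)`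
(`chol_field0`), `q0 ≤ q1 ≤ 1`. Put `β0 = (T0 + 1) / (b1 √q0)`, `α1 = (T0 + b1 (β0 + 1)) / (b1 √q0)`.
For `β0 ≤ b_0 ≤ β0 + 1`: if `|a_0| ≤ 1 / b1` then `b1 √q1 (a_0 + b_0) ≥ T0`,
`b1 √q1 (a_0 - b_0) ≤ -T0`, so `VV_0 ≥ (3/2) / √2`; if `a_0 ≥ α1` then both are `≥ T0`, so
`VV_0 ≤ (1/4) / √2`. -/
theorem VV_regions (b1 b2 q0 : ℝ) (hb1 : 0 < b1) (hq0 : 0 < q0) :
    ∃ β0 α1 : ℝ, ∀ l : List (Step (Fin 2)), Ok l → ∀ q1 q2 r : ℝ, q0 ≤ q1 → q1 ≤ 1 →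
      ∀ b : Fin 2 → ℝ, β0 ≤ b 0 → b 0 ≤ β0 + 1 →
        (∀ a : Fin 2 → ℝ, |a 0| ≤ 1 / b1 →
          3 / 2 / Real.sqrt 2 ≤ Vm (be b1 b2) l (Bm (be b1 b2) (chol q1 q2 r)) 0 a b) ∧
        (∀ a : Fin 2 → ℝ, α1 ≤ a 0 →
          Vm (be b1 b2) l (Bm (be b1 b2) (chol q1 q2 r)) 0 a b ≤ 1 / 4 / Real.sqrt 2) := by
  obtain ⟨T0, hT0, hF⟩ := Mg_far (be b1 b2)
  have hs0 : 0 < Real.sqrt q0 := Real.sqrt_pos.2 hq0
  have hs2 : 0 < Real.sqrt 2 := Real.sqrt_pos.2 (by norm_num)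
  have hbs : 0 < b1 * Real.sqrt q0 := mul_pos hb1 hs0
  refine ⟨(T0 + 1) / (b1 * Real.sqrt q0),
    (T0 + b1 * ((T0 + 1) / (b1 * Real.sqrt q0) + 1)) / (b1 * Real.sqrt q0),
    fun l hl q1 q2 r hq01 hq11 b hb hb' => ?_⟩
  set β0 : ℝ := (T0 + 1) / (b1 * Real.sqrt q0) with hβ0
  have hβ : 0 ≤ β0 := by positivity
  have hq1s : Real.sqrt q0 ≤ Real.sqrt q1 := Real.sqrt_le_sqrt hq01
  have hq1l : Real.sqrt q1 ≤ 1 := by
    rw [← Real.sqrt_one]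
    exact Real.sqrt_le_sqrt hq11
  have hq10 : 0 < Real.sqrt q1 := lt_of_lt_of_le hs0 hq1s
  have hβm : b1 * Real.sqrt q0 * β0 = T0 + 1 := by
    rw [hβ0]
    field_simp
  have hβ1 : T0 + 1 ≤ b1 * Real.sqrt q1 * b 0 := by
    rw [← hβm]
    exact mul_le_mul (mul_le_mul_of_nonneg_left hq1s hb1.le) hb hβ (by positivity)
  have f1 : ∀ a : Fin 2 → ℝ, (Bm (be b1 b2) (chol q1 q2 r)).mulVec
      ((Real.sqrt 2)⁻¹ • (a + b)) 0 = b1 * Real.sqrt q1 * (a 0 + b 0) := by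
    intro a
    rw [chol_field0, Pi.smul_apply, Pi.add_apply, smul_eq_mul]
    field_simp
  have f2 : ∀ a : Fin 2 → ℝ, (Bm (be b1 b2) (chol q1 q2 r)).mulVec
      ((Real.sqrt 2)⁻¹ • (a - b)) 0 = b1 * Real.sqrt q1 * (a 0 - b 0) := by
    intro a
    rw [chol_field0, Pi.smul_apply, Pi.sub_apply, smul_eq_mul]
    field_simp
  refine ⟨fun a ha => ?_, fun a ha => ?_⟩
  · have h1 : b1 * Real.sqrt q1 * |a 0| ≤ 1 := by
      have h2 : b1 * |a 0| ≤ 1 := by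
        calc b1 * |a 0| ≤ b1 * (1 / b1) := mul_le_mul_of_nonneg_left ha hb1.le
          _ = 1 := by field_simp
      calc b1 * Real.sqrt q1 * |a 0| = Real.sqrt q1 * (b1 * |a 0|) := by ring
        _ ≤ 1 * 1 := mul_le_mul hq1l h2 (by positivity) zero_le_one
        _ = 1 := one_mul 1
    have h3 := mul_le_mul_of_nonneg_left (neg_abs_le (a 0)) (mul_pos hb1 hq10).le
    have h4 := mul_le_mul_of_nonneg_left (le_abs_self (a 0)) (mul_pos hb1 hq10).le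
    have h5 := (hF l hl 0 ((Bm (be b1 b2) (chol q1 q2 r)).mulVec
      ((Real.sqrt 2)⁻¹ • (a + b)))).1 (by rw [f1, mul_add]; linarith)
    have h6 := (hF l hl 0 ((Bm (be b1 b2) (chol q1 q2 r)).mulVec
      ((Real.sqrt 2)⁻¹ • (a - b)))).2 (by rw [f2, mul_sub]; linarith)
    unfold Vm
    exact div_le_div_of_nonneg_right (by linarith) hs2.le
  · have h1 : b1 * Real.sqrt q1 * b 0 ≤ b1 * (β0 + 1) := by
      have hb0 : 0 ≤ b 0 := hβ.trans hb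
      calc b1 * Real.sqrt q1 * b 0 = b1 * (Real.sqrt q1 * b 0) := by ring
        _ ≤ b1 * (1 * (β0 + 1)) :=
          mul_le_mul_of_nonneg_left (mul_le_mul hq1l hb' hb0 zero_le_one) hb1.le
        _ = b1 * (β0 + 1) := by ring
    have h0 : 0 ≤ b1 * Real.sqrt q1 * b 0 := by linarith
    have h2 : T0 + b1 * (β0 + 1) ≤ b1 * Real.sqrt q1 * a 0 := by
      have h3 : b1 * Real.sqrt q0 * ((T0 + b1 * (β0 + 1)) / (b1 * Real.sqrt q0)) =
          T0 + b1 * (β0 + 1) := by field_simp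
      rw [← h3]
      exact mul_le_mul (mul_le_mul_of_nonneg_left hq1s hb1.le) ha (by positivity) (by positivity)
    have h5 := (hF l hl 0 ((Bm (be b1 b2) (chol q1 q2 r)).mulVec
      ((Real.sqrt 2)⁻¹ • (a - b)))).1 (by rw [f2, mul_sub]; linarith)
    have h6 := (abs_lt.1 (Mg_lt_one (be b1 b2) l 0 ((Bm (be b1 b2) (chol q1 q2 r)).mulVec
      ((Real.sqrt 2)⁻¹ • (a + b))))).2
    unfold Vm
    exact div_le_div_of_nonneg_right (by linarith) hs2.le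

end SKC.Z
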