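import Pool.Agent.H.MP_08eaf3_pr.Z.Td7
import Pool.Agent.H.MP_08eaf3_pr.Z.Ta3

/-!
# Part Z, S4: uniform lower bound of the gain
-/

set_option autoImplicit false

open MeasureTheory ProbabilityTheory Filter Topology Matrix

namespace SKC.Z

/-- Uniform lower bound of the double integral: `var_lower` for every `b` with
`β0 ≤ b_0 ≤ β0 + 1` (`VV_regions`, `Vm_cont`), positive Gaussian masses of the three regions
(`gam_open_pos` for open subsets of them), and integration over `b` (the inner integral is a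
bounded measurable function of `b`). -/
theorem VV_int_lower (b1 b2 q0 : ℝ) (hb1 : 0 < b1) (hq0 : 0 < q0) :
    ∃ κ : ℝ, 0 < κ ∧ ∀ l : List (Step (Fin 2)), Ok l → ∀ q1 q2 r : ℝ, q0 ≤ q1 → q1 ≤ 1 →
      κ ≤ ∫ b, ∫ a, (Vm (be b1 b2) l (Bm (be b1 b2) (chol q1 q2 r)) 0 a b -
        ∫ a', Vm (be b1 b2) l (Bm (be b1 b2) (chol q1 q2 r)) 0 a' b ∂(gam (Fin 2))) ^ 2
        ∂(gam (Fin 2)) ∂(gam (Fin 2)) := by
  obtain ⟨β0, α1, hreg⟩ := VV_regions b1 b2 q0 hb1 hq0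
  have hc0 : Continuous (fun a : Fin 2 → ℝ => a 0) := continuous_apply 0
  have hU1 : IsOpen {a : Fin 2 → ℝ | |a 0| < 1 / b1} :=
    isOpen_lt (continuous_abs.comp hc0) continuous_const
  have hU2 : IsOpen {a : Fin 2 → ℝ | α1 < a 0} := isOpen_lt continuous_const hc0
  have hU3 : IsOpen {a : Fin 2 → ℝ | β0 < a 0 ∧ a 0 < β0 + 1} :=
    (isOpen_lt continuous_const hc0).inter (isOpen_lt hc0 continuous_const)
  have hp1 : 0 < (gam (Fin 2)).real {a : Fin 2 → ℝ | |a 0| < 1 / b1} :=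
    gam_open_pos _ hU1 ⟨fun _ => 0, by simp [hb1]⟩
  have hp2 : 0 < (gam (Fin 2)).real {a : Fin 2 → ℝ | α1 < a 0} :=
    gam_open_pos _ hU2 ⟨fun _ => α1 + 1, by simp⟩
  have hp3 : 0 < (gam (Fin 2)).real {a : Fin 2 → ℝ | β0 < a 0 ∧ a 0 < β0 + 1} :=
    gam_open_pos _ hU3 ⟨fun _ => β0 + 1 / 2, by
      constructor
      · show β0 < β0 + 1 / 2
        linarith
      · show β0 + 1 / 2 < β0 + 1
        linarith⟩
  have h2 : (0 : ℝ) < Real.sqrt 2 := by positivity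
  have hgap : 0 < (3 / 2 / Real.sqrt 2 - 1 / 4 / Real.sqrt 2) / 2 := by
    rw [← sub_div]
    positivity
  obtain ⟨κ0, hκ0⟩ : ∃ κ0 : ℝ, κ0 = min ((gam (Fin 2)).real {a : Fin 2 → ℝ | |a 0| < 1 / b1})
      ((gam (Fin 2)).real {a : Fin 2 → ℝ | α1 < a 0}) *
      ((3 / 2 / Real.sqrt 2 - 1 / 4 / Real.sqrt 2) / 2) ^ 2 := ⟨_, rfl⟩
  have hκ0p : 0 < κ0 := by
    rw [hκ0]
    exact mul_pos (lt_min hp1 hp2) (pow_pos hgap 2)
  refine ⟨(gam (Fin 2)).real {a : Fin 2 → ℝ | β0 < a 0 ∧ a 0 < β0 + 1} * κ0,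
    mul_pos hp3 hκ0p, ?_⟩
  intro l hl q1 q2 r hq1 hq1'
  obtain ⟨hVc, hVb⟩ := Vm_cont (be b1 b2) l hl (Bm (be b1 b2) (chol q1 q2 r)) 0
  obtain ⟨X, hX⟩ : ∃ X : (Fin 2 → ℝ) → (Fin 2 → ℝ) → ℝ, ∀ a b,
      X a b = Vm (be b1 b2) l (Bm (be b1 b2) (chol q1 q2 r)) 0 a b := ⟨_, fun _ _ => rfl⟩
  have hXc : Continuous (fun p : (Fin 2 → ℝ) × (Fin 2 → ℝ) => X p.1 p.2) := by
    simpa only [hX] using hVc
  have hXb : ∀ a b, |X a b| ≤ 2 := fun a b => by rw [hX]; exact hVb a b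
  have hreg1 : ∀ b : Fin 2 → ℝ, β0 ≤ b 0 → b 0 ≤ β0 + 1 →
      (∀ a : Fin 2 → ℝ, |a 0| ≤ 1 / b1 → 3 / 2 / Real.sqrt 2 ≤ X a b) ∧
      (∀ a : Fin 2 → ℝ, α1 ≤ a 0 → X a b ≤ 1 / 4 / Real.sqrt 2) := by
    intro b hb hb'
    have := hreg l hl q1 q2 r hq1 hq1' b hb hb'
    simpa only [hX] using this
  simp only [← hX]
  -- continuity of the inner integrals
  have hg : Continuous (fun b => ∫ a', X a' b ∂(gam (Fin 2))) := by
    refine continuous_of_dominated (bound := fun _ => 2) ?_ ?_ ?_ ?_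
    · intro b
      exact (hXc.comp (continuous_id.prodMk continuous_const)).aestronglyMeasurable
    · intro b
      exact ae_of_all _ fun a => by rw [Real.norm_eq_abs]; exact hXb a b
    · exact integrable_const _
    · exact ae_of_all _ fun a => hXc.comp (continuous_const.prodMk continuous_id)
  have hgb : ∀ b, |∫ a', X a' b ∂(gam (Fin 2))| ≤ 2 := by
    intro b
    have := norm_integral_le_of_norm_le_const (μ := gam (Fin 2)) (f := fun a' => X a' b) (C := 2)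
      (ae_of_all _ fun a => by rw [Real.norm_eq_abs]; exact hXb a b)
    rw [Real.norm_eq_abs] at this
    simpa using this
  have hsqb : ∀ a b, ‖(X a b - ∫ a', X a' b ∂(gam (Fin 2))) ^ 2‖ ≤ 16 := by
    intro a b
    rw [Real.norm_eq_abs, abs_of_nonneg (sq_nonneg _)]
    have h3 := abs_le.1 (hXb a b)
    have h4 := abs_le.1 (hgb b)
    nlinarith [h3.1, h3.2, h4.1, h4.2]
  have hF : Continuous (fun b => ∫ a, (X a b - ∫ a', X a' b ∂(gam (Fin 2))) ^ 2
      ∂(gam (Fin 2))) := by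
    refine continuous_of_dominated (bound := fun _ => 16) ?_ ?_ ?_ ?_
    · intro b
      exact (((hXc.comp (continuous_id.prodMk continuous_const)).sub
        continuous_const).pow 2).aestronglyMeasurable
    · intro b
      exact ae_of_all _ fun a => hsqb a b
    · exact integrable_const _
    · exact ae_of_all _ fun a =>
        ((hXc.comp (continuous_const.prodMk continuous_id)).sub hg).pow 2
  have hF0 : ∀ b, 0 ≤ ∫ a, (X a b - ∫ a', X a' b ∂(gam (Fin 2))) ^ 2 ∂(gam (Fin 2)) :=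
    fun b => integral_nonneg fun a => sq_nonneg _
  have hFi : Integrable (fun b => ∫ a, (X a b - ∫ a', X a' b ∂(gam (Fin 2))) ^ 2
      ∂(gam (Fin 2))) (gam (Fin 2)) := by
    refine Integrable.of_bound hF.aestronglyMeasurable 16 (ae_of_all _ fun b => ?_)
    have := norm_integral_le_of_norm_le_const (μ := gam (Fin 2))
      (f := fun a => (X a b - ∫ a', X a' b ∂(gam (Fin 2))) ^ 2) (C := 16)
      (ae_of_all _ fun a => hsqb a b)
    simpa using this
  have hlow : ∀ b ∈ {a : Fin 2 → ℝ | β0 < a 0 ∧ a 0 < β0 + 1},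
      κ0 ≤ ∫ a, (X a b - ∫ a', X a' b ∂(gam (Fin 2))) ^ 2 ∂(gam (Fin 2)) := by
    intro b hb
    obtain ⟨hb1', hb2'⟩ := hb
    obtain ⟨hr1, hr2⟩ := hreg1 b hb1'.le hb2'.le
    rw [hκ0]
    exact var_lower (gam (Fin 2)) (fun a => X a b)
      (hXc.comp (continuous_id.prodMk continuous_const)).measurable 2 (fun a => hXb a b)
      {a : Fin 2 → ℝ | |a 0| < 1 / b1} {a : Fin 2 → ℝ | α1 < a 0} hU1.measurableSet
      hU2.measurableSet (3 / 2 / Real.sqrt 2) (1 / 4 / Real.sqrt 2) _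
      (div_le_div_of_nonneg_right (by norm_num) h2.le)
      (fun a ha => hr1 a (le_of_lt ha)) (fun a ha => hr2 a (le_of_lt ha))
      (min_le_left _ _) (min_le_right _ _)
  calc (gam (Fin 2)).real {a : Fin 2 → ℝ | β0 < a 0 ∧ a 0 < β0 + 1} * κ0 =
        ∫ _b in {a : Fin 2 → ℝ | β0 < a 0 ∧ a 0 < β0 + 1}, κ0 ∂(gam (Fin 2)) := by
        rw [setIntegral_const, smul_eq_mul]
    _ ≤ ∫ b in {a : Fin 2 → ℝ | β0 < a 0 ∧ a 0 < β0 + 1},
          ∫ a, (X a b - ∫ a', X a' b ∂(gam (Fin 2))) ^ 2 ∂(gam (Fin 2)) ∂(gam (Fin 2)) :=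
        setIntegral_mono_on (integrable_const _).integrableOn hFi.integrableOn
          hU3.measurableSet hlow
    _ ≤ _ := setIntegral_le_integral hFi (ae_of_all _ hF0)

end SKC.Z
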