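import Pool.Agent.H.MP_08eaf3_pr.Z.Td1
import Pool.Agent.H.MP_08eaf3_pr.Z.Td2
import Pool.Agent.H.MP_08eaf3_pr.Z.Ta2
import Pool.Agent.H.MP_08eaf3_pr.I.Split

/-!
# Part Z, S4: the new path
-/

set_option autoImplicit false

open MeasureTheory ProbabilityTheory Filter Topology Matrix

namespace SKC.Z

variable {b1 b2 u : ℝ}

/-- NEW PATH. `t0 = min T`, `s` an `ε`-quantile. Take `L.path δ` at `(t0, s)`: `l1` has weights
`≤ μ (Iio t0) = 0` (`mu_Iio_min`), `l2` has weights `≤ μ (Iio s) ≤ ε`, `l3` has weights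
`≥ μ (Iic s) ≥ ε`. The new path is `(ε, E) :: l3`; it is valid, with the same end value (`Qtot_append`).
`Psi` part: `Tm_le_var` for the new path and `PsiL_ge_gauss` (for `l1 ++ l2`, `l3`) for the old one;
correction: by `SKC.I.corr_append` and `corr_le`,
`corr old - corr new = corr 0 l1 + corr (Q t0) l2 - ε Cf (Q s) ≤ ε (Cf (Q s) - Cf (Q t0)) - ε Cf (Q s)`. -/
theorem new_path (S : Setting b1 b2 u) (L : LData b1 b2 u) (t0 : ℝ) (ht0 : t0 ∈ L.T)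
    (hmin : ∀ x ∈ L.T, t0 ≤ x) : ∃ C : ℝ, 0 ≤ C ∧ ∀ s ∈ L.T, ∀ ε : ℝ, 0 < ε → ε ≤ 1 →
      L.μ.real (Set.Iio s) ≤ ε → ε ≤ L.μ.real (Set.Iic s) →
      ∀ E : Matrix (Fin 2) (Fin 2) ℝ, E * Eᵀ = L.Q s → ∀ δ : ℝ, 0 < δ →
      ∃ l3 : List (Step (Fin 2)), Ok l3 ∧ l3 ≠ [] ∧ Valid ([(ε, E)] ++ ([] ++ l3)) ∧
        Qtot ([(ε, E)] ++ ([] ++ l3)) = mat 1 1 u ∧
        Pf (be b1 b2) (fun _ => 0) 0 ([(ε, E)] ++ ([] ++ l3)) ≤ Fo b1 + Fo b2 + δ +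
          (ε / 2) * (∫ x, (PsiL (be b1 b2) l3 F0 ((Bm (be b1 b2) E).mulVec x) -
            ∫ y, PsiL (be b1 b2) l3 F0 ((Bm (be b1 b2) E).mulVec y) ∂(gam (Fin 2))) ^ 2
            ∂(gam (Fin 2)) - Cf (be b1 b2) (L.Q t0)) + C * ε ^ 2 := by
  obtain ⟨C, hC, hTm⟩ := Tm_le_var (be b1 b2)
  refine ⟨C, hC, fun s hs ε h0 h1 hlo hhi E hE δ hδ => ?_⟩
  obtain ⟨l1, l2, l3, hp, w1, w2, w3, _⟩ := L.path δ hδ t0 ht0 s hs (hmin s hs)
  rw [mu_Iio_min L t0 hmin] at w1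
  have hok : Ok (l1 ++ (l2 ++ l3)) := Ok_of_path hp
  have hok3 : Ok l3 := Ok_tail (Ok_tail hok)
  obtain ⟨⟨hpw, hwt, l', E', hlast⟩, hne, hQ1, hQ2, hQ3, hPf⟩ := hp
  have hQ2' : L.Q t0 + Qtot l2 = L.Q s := by
    rw [← hQ2, ← hQ1, SKC.I.Qtot_append]
  have hQ3' : L.Q s + Qtot l3 = mat 1 1 u := by
    rw [← hQ3, ← List.append_assoc, SKC.I.Qtot_append, hQ2]
  have hl3 : ∃ l'', l3 = l'' ++ [((1 : ℝ), E')] := by
    refine ⟨l3.dropLast, ?_⟩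
    have e1 := List.dropLast_append_getLast hne
    rw [← e1, ← List.append_assoc, ← List.append_assoc] at hlast
    have e2 := List.append_inj_right' hlast rfl
    rw [← e2]
    exact e1.symm
  have hEps : ∀ a ∈ l3, ε ≤ a.1 := fun a ha => hhi.trans (w3 a ha)
  have hpw3 : l3.Pairwise (fun a b => a.1 ≤ b.1) :=
    (List.pairwise_append.1 (List.pairwise_append.1 hpw).2.1).2.1
  have hwt3 : ∀ a ∈ l3, 0 ≤ a.1 ∧ a.1 ≤ 1 := fun a ha =>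
    hwt a (List.mem_append_right _ (List.mem_append_right _ ha))
  refine ⟨l3, hok3, hne, ⟨?_, ?_, ?_⟩, ?_, ?_⟩
  · exact List.pairwise_cons.2 ⟨hEps, hpw3⟩
  · intro a ha
    rcases List.mem_cons.1 ha with h | h
    · subst h
      exact ⟨h0.le, h1⟩
    · exact hwt3 a h
  · obtain ⟨l'', h''⟩ := hl3
    exact ⟨(ε, E) :: l'', E', by rw [h'']; rfl⟩
  · show E * Eᵀ + Qtot l3 = mat 1 1 u
    rw [hE, hQ3']
  · have hCf0 : Cf (be b1 b2) (0 : Matrix (Fin 2) (Fin 2) ℝ) = 0 := by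
      simp [Cf]
    set a : ℝ := ∫ y, PsiL (be b1 b2) l3 F0 ((Bm (be b1 b2) E).mulVec y) ∂(gam (Fin 2)) with ha
    have hT := hTm l3 hok3 E (fun c => by rw [hE]; exact LD_le_one L s hs c) ε h0 h1 a ha
    have hJ := PsiL_ge_gauss (be b1 b2) (l1 ++ l2) l3 (by rw [List.append_assoc]; exact hok) E
      (hE.trans hQ2.symm)
    rw [List.append_assoc, ← ha] at hJ
    have c1 := corr_le S.hb1.le S.hb2.le 0 l1 w1 0 Matrix.PosSemidef.zero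
    rw [zero_mul] at c1
    have c2 := corr_le S.hb1.le S.hb2.le ε l2 (fun a ha => (w2 a ha).2.trans hlo) (L.Q t0)
      (L.psd t0 ht0)
    rw [hQ2'] at c2
    have hcorr : corr (be b1 b2) 0 (l1 ++ (l2 ++ l3)) =
        corr (be b1 b2) 0 l1 + (corr (be b1 b2) (L.Q t0) l2 + corr (be b1 b2) (L.Q s) l3) := by
      rw [SKC.I.corr_append, SKC.I.corr_append, zero_add, hQ1, hQ2']
    have hnew : Pf (be b1 b2) (fun _ => 0) 0 ([(ε, E)] ++ ([] ++ l3)) =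
        Tm ε (Bm (be b1 b2) E) (PsiL (be b1 b2) l3 F0) 0 -
          (1 / 2) * (ε * Cf (be b1 b2) (L.Q s) + corr (be b1 b2) (L.Q s) l3) := by
      show Tm ε (Bm (be b1 b2) E) (PsiL (be b1 b2) l3 F0) 0 -
          (1 / 2) * (ε * (Cf (be b1 b2) (0 + E * Eᵀ) - Cf (be b1 b2) 0) +
            corr (be b1 b2) (0 + E * Eᵀ) l3) = _
      rw [zero_add, hE, hCf0, sub_zero]
    have hold : Pf (be b1 b2) (fun _ => 0) 0 (l1 ++ (l2 ++ l3)) =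
        PsiL (be b1 b2) (l1 ++ (l2 ++ l3)) F0 0 -
          (1 / 2) * corr (be b1 b2) 0 (l1 ++ (l2 ++ l3)) := rfl
    rw [hnew]
    rw [hold, hcorr] at hPf
    have e1 : (ε / 2) * (∫ x, (PsiL (be b1 b2) l3 F0 ((Bm (be b1 b2) E).mulVec x) - a) ^ 2
        ∂(gam (Fin 2)) - Cf (be b1 b2) (L.Q t0)) =
        (ε / 2) * (∫ x, (PsiL (be b1 b2) l3 F0 ((Bm (be b1 b2) E).mulVec x) - a) ^ 2
        ∂(gam (Fin 2))) - (ε / 2) * Cf (be b1 b2) (L.Q t0) := by ring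
    rw [e1]
    linarith

end SKC.Z
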